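import Pool.Agent.Lib_MP_cc07e8_ck.CkDefs

/-!
# MP_cc07e8_co: programs evaluated by the kernel (rows)

The leaves are collected in buckets `[j * 2 ^ t, (j + 1) * 2 ^ t)` for `1 / width`; `S` is the number
`∑ (length of the bucket j) * 2 ^ (s * (j - J0))`. Scale of the widths `dr = 2 ^ 88`, of the lengths
`2 ^ 36`, `A = dr / 2 ^ t`.
-/

set_option linter.unusedVariables false

namespace Pool.Agent.Moser.Ck

noncomputable section

/-- evaluate two numbers and continue with the values (passed as expressions) -/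
def touch (x : Nat) (k : Bool) : Bool := Bool.rec (motive := fun _ => Bool) false k (Nat.ble 0 x)

/-- numbers of the rectangles of a run in the buckets, `w1` the width of the strip minus 1 -/
def ksm (dr A w1 s jl m : Nat) (n : Nat) : Nat :=
  Nat.rec (motive := fun _ => Nat) 0
    (fun n ih => Nat.add ih (Nat.shiftLeft 1
      (Nat.mul s (Nat.sub (Nat.div A (Nat.sub w1 (Nat.div dr (Nat.add m n)))) jl)))) n

/-- parameters of a row module: `dr, A, s, J0, t, M, mu` -/
inductive Rp
  | mk : Nat → Nat → Nat → Nat → Nat → Nat → Nat → Rp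

/-- enter a run record -/
def rowR (dr A s J0 r S tot : Nat) (c : Nat → Nat → Bool) : Bool :=
  (fun k m w1 =>
    (fun jl len =>
      br (Nat.ble J0 jl)
        (touch (Nat.add S (Nat.shiftLeft (Nat.mul len (ksm dr A w1 s jl m k)) (Nat.mul s (Nat.sub jl J0))))
          (c (Nat.add S (Nat.shiftLeft (Nat.mul len (ksm dr A w1 s jl m k)) (Nat.mul s (Nat.sub jl J0))))
            (Nat.add tot (Nat.mul len k)))) false)
      (Nat.div A (Nat.sub w1 (Nat.div dr (Nat.sub (Nat.add m k) 1))))
      (Nat.succ (Nat.div 68719476736 m)))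
    (Nat.land r 1048575) (Nat.land (Nat.shiftRight r 20) 67108863) (Nat.sub (Nat.shiftRight r 46) 1)

/-- enter the run records of a list -/
def rowRs (dr A s J0 : Nat) (xs : List Nat) : Nat → Nat → (Nat → Nat → Bool) → Bool :=
  List.rec (motive := fun _ => Nat → Nat → (Nat → Nat → Bool) → Bool)
    (fun S tot c => touch tot (c S tot))
    (fun x _ ih S tot c => rowR dr A s J0 x S tot (fun S' tot' => ih S' tot' c)) xs

/-- enter a fat record: in `S` if it lies in one bucket, else in `S2` -/
def rowF (A s J0 mu r S S2 tot : Nat) (c : Nat → Nat → Nat → Bool) : Bool :=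
  (fun x sp L =>
    (fun j1 j2 =>
      br (Nat.ble J0 j1)
        (br (Nat.beq j1 j2)
          (touch (Nat.add S (Nat.shiftLeft L (Nat.mul s (Nat.sub j1 J0))))
            (c (Nat.add S (Nat.shiftLeft L (Nat.mul s (Nat.sub j1 J0)))) S2 (Nat.add tot L)))
          (br (Nat.ble j2 (Nat.add j1 mu))
            (touch (Nat.add S2 (Nat.shiftLeft L (Nat.mul s (Nat.sub j1 J0))))
              (c S (Nat.add S2 (Nat.shiftLeft L (Nat.mul s (Nat.sub j1 J0)))) (Nat.add tot L))) false)) false)
      (Nat.div A (Nat.add (Nat.add x sp) 1200)) (Nat.div A x))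
    (Nat.land (Nat.shiftRight r 12) 18446744073709551615)
    (Nat.land (Nat.shiftRight r 76) 18446744073709551615) (Nat.shiftRight r 140)

/-- enter the fat records of a list -/
def rowFs (A s J0 mu : Nat) (xs : List Nat) : Nat → Nat → Nat → (Nat → Nat → Nat → Bool) → Bool :=
  List.rec (motive := fun _ => Nat → Nat → Nat → (Nat → Nat → Nat → Bool) → Bool)
    (fun S S2 tot c => touch tot (c S S2 tot))
    (fun x _ ih S S2 tot c => rowF A s J0 mu x S S2 tot (fun S' S2' tot' => ih S' S2' tot' c)) xs

/-- all run records of a list of lists -/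
def rowRL (dr A s J0 : Nat) (xss : List (List Nat)) : Nat → Nat → (Nat → Nat → Bool) → Bool :=
  List.rec (motive := fun _ => Nat → Nat → (Nat → Nat → Bool) → Bool)
    (fun S tot c => c S tot)
    (fun xs _ ih S tot c => rowRs dr A s J0 xs S tot (fun S' tot' => ih S' tot' c)) xss

/-- all fat records of a list of lists -/
def rowFL (A s J0 mu : Nat) (xss : List (List Nat)) : Nat → Nat → Nat → (Nat → Nat → Nat → Bool) → Bool :=
  List.rec (motive := fun _ => Nat → Nat → Nat → (Nat → Nat → Nat → Bool) → Bool)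
    (fun S S2 tot c => c S S2 tot)
    (fun xs _ ih S S2 tot c => rowFs A s J0 mu xs S S2 tot (fun S' S2' tot' => ih S' S2' tot' c)) xss

/-- sum of the buckets `a ≤ j < b` (relative to `J0`) -/
def rng (s S a b : Nat) : Nat :=
  Nat.mod (Nat.land (Nat.shiftRight S (Nat.mul s a))
    (Nat.sub (Nat.shiftLeft 1 (Nat.mul s (Nat.sub b a))) 1)) (Nat.sub (Nat.shiftLeft 1 s) 1)

/-- `tau i / 2 ^ t` and so on -/
def tauN (i : Nat) : Nat := Nat.mul 64 (Nat.div (Nat.mul i (Nat.mul i i)) 1728000)

/-- bound for the length of the strips of the windows `lo ≤ i < hi` -/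
def qv (s J0 t M mu S S2 lo hi : Nat) : Nat :=
  (fun a b => Nat.add (rng s S a b) (rng s S2 (Nat.sub a mu) b))
    (Nat.sub (Nat.shiftRight (tauN lo) t) J0)
    (Nat.sub (Nat.succ (Nat.shiftRight (Nat.add (tauN hi) M) t)) J0)

/-- the rows `k0 + g j, ..., k0 + g j + g - 1` for `j < n` -/
def rowB (s J0 t M mu S S2 k0 g V : Nat) (n : Nat) : Bool :=
  Nat.rec (motive := fun _ => Bool) true
    (fun j ih => br (Nat.ble (qv s J0 t M mu S S2 (Nat.sub (Nat.add k0 (Nat.mul g j)) 15)
      (Nat.add (Nat.sub (Nat.add k0 (Nat.mul g j)) 4) g)) V) ih false) n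

/-- blocks of rows `(n, g, V)`, packed as `(V * 2 ^ 20 + g) * 2 ^ 20 + n`, consecutive, from row `k` -/
def rowBs (s J0 t M mu S S2 : Nat) (xs : List Nat) : Nat → (Nat → Bool) → Bool :=
  List.rec (motive := fun _ => Nat → (Nat → Bool) → Bool)
    (fun k c => c k)
    (fun x _ ih k c =>
      (fun n g V => br (rowB s J0 t M mu S S2 k g V n) (force (Nat.add k (Nat.mul n g)) (fun k' => ih k' c)) false)
        (Nat.land x 1048575) (Nat.land (Nat.shiftRight x 20) 1048575) (Nat.shiftRight x 40)) xs

/-- cells of windows `[i, i')` with bound `V`, packed as `V * 2 ^ 20 + (i' - i)`, consecutive -/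
def rowCs (s J0 t M mu S S2 : Nat) (xs : List Nat) : Nat → (Nat → Bool) → Bool :=
  List.rec (motive := fun _ => Nat → (Nat → Bool) → Bool)
    (fun i c => c i)
    (fun x _ ih i c =>
      (fun n V => br (Nat.ble (qv s J0 t M mu S S2 i (Nat.add i n)) V) (force (Nat.add i n) (fun i' => ih i' c)) false)
        (Nat.land x 1048575) (Nat.shiftRight x 20)) xs

/-- The check of a row module. `RR`, `FF` the records, `J0 * 2 ^ t` lower end of the buckets, `M` the
margin, `hmax` upper end of the windows, rows from `k0` to `k1` in the blocks `BB`, windows from `i0` to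
`i1` in the cells `CC` -/
def rowck (dr s J0 t M mu hmax : Nat) (RR FF : List (List Nat)) (k0 k1 : Nat) (BB : List Nat)
    (i0 i1 : Nat) (CC : List Nat) : Bool :=
  br (Nat.ble (Nat.mul (Nat.mul (tauN hmax) (tauN hmax)) 1300) (Nat.mul M dr))
    (rowRL dr (Nat.shiftRight dr t) s J0 RR 0 0 (fun S tot =>
      rowFL (Nat.shiftRight dr t) s J0 mu FF S 0 tot (fun S S2 tot =>
        br (Nat.ble (Nat.add tot 2) (Nat.shiftLeft 1 s))
          (rowBs s J0 t M mu S S2 BB k0 (fun k => br (Nat.beq k k1)
            (rowCs s J0 t M mu S S2 CC i0 (fun i => Nat.beq i i1)) false)) false))) false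

/-- facts about a run record: `TA ≤ 1 / width < TB`, total width -/
def facR (dr TA TB : Nat) (xs : List Nat) : Nat → (Nat → Bool) → Bool :=
  List.rec (motive := fun _ => Nat → (Nat → Bool) → Bool)
    (fun W c => touch W (c W))
    (fun r _ ih W c =>
      (fun k m w =>
        br (Nat.ble 1 k) (br (Nat.ble 1 m)
          (br (Nat.ble (Nat.succ dr) (Nat.mul (Nat.sub (Nat.sub w 1) (Nat.div dr m)) TB))
            (br (Nat.ble (Nat.mul (Nat.sub (Nat.add w 1200) (Nat.div dr (Nat.sub (Nat.add m k) 1))) TA) dr)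
              (ih (Nat.add W (Nat.mul k (Nat.sub (Nat.add w 1200)
                (Nat.div (Nat.mul 2 dr) (Nat.sub (Nat.add (Nat.mul 2 m) k) 1))))) c) false) false) false) false)
        (Nat.land r 1048575) (Nat.land (Nat.shiftRight r 20) 67108863) (Nat.shiftRight r 46)) xs

/-- facts about a fat record -/
def facF (dr TA TB : Nat) (xs : List Nat) : Nat → (Nat → Bool) → Bool :=
  List.rec (motive := fun _ => Nat → (Nat → Bool) → Bool)
    (fun W c => touch W (c W))
    (fun r _ ih W c =>
      (fun n x sp =>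
        br (Nat.ble (Nat.succ dr) (Nat.mul x TB))
          (br (Nat.ble (Nat.mul (Nat.add (Nat.add x sp) 1200) TA) dr)
            (ih (Nat.add W (Nat.mul n (Nat.add (Nat.add x sp) 1200))) c) false) false)
        (Nat.land r 4095) (Nat.land (Nat.shiftRight r 12) 18446744073709551615)
        (Nat.land (Nat.shiftRight r 76) 18446744073709551615)) xs

/-- facts about all lists of a stream -/
def facL (f : List Nat → Nat → (Nat → Bool) → Bool) (xss : List (List Nat)) : Nat → (Nat → Bool) → Bool :=
  List.rec (motive := fun _ => Nat → (Nat → Bool) → Bool)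
    (fun W c => c W)
    (fun xs _ ih W c => f xs W (fun W' => ih W' c)) xss

/-- The check of the facts of a stream with windows in `[ia, ib)`, total width at most `W` -/
def fack (dr ia ib W : Nat) (RR FF : List (List Nat)) : Bool :=
  facL (facR dr (tauN ia) (tauN ib)) RR 0 (fun W1 =>
    facL (facF dr (tauN ia) (tauN ib)) FF W1 (fun W2 => Nat.ble W2 W))

end

end Pool.Agent.Moser.Ck
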