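import Pool.Agent.Lib_MP_cc07e8_ck.CkDefs
import Pool.Agent.Lib_MP_cc07e8_ck.CkRowDefs

/-!
# MP_cc07e8_co: the modules of the explicit start

Modules `0, 1, ..., J`; module `0` is the exact start (it only has exports `E`). `E a b`: rectangles
exported from module `a` to module `b` (`b = J + 1`: final rectangles), `C a b`: columns placed in module
`a` and skipped in module `b`, `R j s`, `F j s`: run and fat records of module `j` in the stream `s`
(streams are intervals of windows).
-/

set_option linter.unusedVariables false

namespace Pool.Agent.Moser.Ck

noncomputable section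

/-- data of a module -/
structure Md where
  /-- tokens -/
  toks : List Nat
  /-- first square -/
  m0 : Nat
  /-- last square (excluded) -/
  m1 : Nat
  /-- depth of the memory -/
  dep : Nat
  /-- exports -/
  E : List (List Nat)
  /-- columns -/
  C : List (List Nat)
  /-- run records -/
  R : List (List Nat)
  /-- fat records -/
  F : List (List Nat)
  /-- instructions -/
  I : List Nat

/-- empty module -/
def Md.nil : Md := ⟨[], 0, 0, 0, [], [], [], [], []⟩

/-- module `j` -/
def gm (ms : List Md) (j : Nat) : Md := ms.getD j Md.nil

/-- element `i` of a list of lists -/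
def gl (xs : List (List Nat)) (i : Nat) : List Nat := xs.getD i []

/-- imports of module `j` -/
def imps (ms : List Md) (j : Nat) : List Nat := (List.range j).flatMap fun a => gl (gm ms a).E j

/-- exports of module `j` -/
def exps (ms : List Md) (j : Nat) : List Nat :=
  (List.range (ms.length - j)).flatMap fun b => gl (gm ms j).E (j + 1 + b)

/-- columns placed in module `j` -/
def plcs (ms : List Md) (j : Nat) : List Nat :=
  (List.range (ms.length - j)).flatMap fun b => gl (gm ms j).C (j + b)

/-- columns skipped in module `j` -/
def skps (ms : List Md) (j : Nat) : List Nat := (List.range (j + 1)).flatMap fun a => gl (gm ms a).C j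

/-- full tree of lists: the list `i` is at the place `i` -/
def bt (k : Nat) : (Nat → List Nat) → Bt :=
  Nat.rec (motive := fun _ => (Nat → List Nat) → Bt)
    (fun f => Bt.l (f 0))
    (fun _ ih f => Bt.n (ih (fun i => f (Nat.mul 2 i))) (ih (fun i => f (Nat.succ (Nat.mul 2 i))))) k

/-- the check of module `j` (`P` depth of the trees of records) -/
def ckMod (d P : Nat) (ms : List Md) (j : Nat) : Bool :=
  check d (gm ms j).dep (gm ms j).toks (gm ms j).m0 (gm ms j).m1 (imps ms j) (exps ms j)
    (bt P (gl (gm ms j).R)) (bt P (gl (gm ms j).F)) (plcs ms j) (skps ms j) (gm ms j).I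

/-- run records of the stream `s` -/
def strR (ms : List Md) (s : Nat) : List (List Nat) := ms.map fun m => gl m.R s

/-- fat records of the stream `s` -/
def strF (ms : List Md) (s : Nat) : List (List Nat) := ms.map fun m => gl m.F s

/-- shape of the data: at least two modules, consecutive times from `m1` to `mE`, module `0` without
columns and records -/
def shape (m1 mE : Nat) (ms : List Md) : Bool :=
  br (Nat.ble 2 ms.length)
    (br (Nat.beq (gm ms 1).m0 m1)
      (br (Nat.beq (gm ms (ms.length - 1)).m1 mE)
        (br ((List.range (ms.length - 2)).all fun j => Nat.beq (gm ms (j + 1)).m1 (gm ms (j + 2)).m0)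
          (br (Nat.beq (gm ms 0).C.length 0)
            (br (Nat.beq (gm ms 0).R.length 0) (Nat.beq (gm ms 0).F.length 0) false) false) false) false) false) false

/-- total error of the modules `1, ..., J` -/
def ebd (ms : List Md) : Nat :=
  ((List.range (ms.length - 1)).map fun j =>
    ((gm ms (j + 1)).m1 - (gm ms (j + 1)).m0) + 262144 * (gm ms (j + 1)).toks.length +
      2 * (plcs ms (j + 1)).length).sum

end

end Pool.Agent.Moser.Ck
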