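import Pool.Agent.Lib_MP_cc07e8_ck.CkCheck
import Pool.Agent.Lib_MP_cc07e8_ck.CkMods

/-! # MP_cc07e8_co: composition of all geometry modules (piece CHAIN) -/

open Finset

namespace Pool.Agent.Moser.Ck

/-- the rectangles of an export list -/
def um (xs : List ℕ) : Multiset (ℕ × ℕ) := ((xs.map unp : List (ℕ × ℕ)) : Multiset (ℕ × ℕ))

theorem chain_sum_even_odd {M : Type} [AddCommMonoid M] (g : ℕ → M) (N : ℕ) :
    ∑ i ∈ range (2 * N), g i = ∑ i ∈ range N, g (2 * i) + ∑ i ∈ range N, g (2 * i + 1) := by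
  induction N with
  | zero => simp
  | succ N ih =>
    rw [show 2 * (N + 1) = 2 * N + 1 + 1 by ring, sum_range_succ, sum_range_succ, ih,
      sum_range_succ, sum_range_succ]
    abel

theorem bt_ms (k : ℕ) (f : ℕ → List ℕ) :
    (bt k f).ms = ∑ i ∈ range (2 ^ k), ((f i : List ℕ) : Multiset ℕ) := by
  induction k generalizing f with
  | zero =>
    rw [pow_zero, sum_range_one]
    rfl
  | succ k ih =>
    have h1 : (bt (k + 1) f).ms =
        (bt k (fun i => f (2 * i))).ms + (bt k (fun i => f (2 * i + 1))).ms := rfl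
    rw [h1, ih, ih, pow_succ, mul_comm (2 ^ k) 2, chain_sum_even_odd (fun i => ((f i : List ℕ) : Multiset ℕ))]

theorem um_append (xs ys : List ℕ) : um (xs ++ ys) = um xs + um ys := by
  unfold um
  rw [List.map_append, ← Multiset.coe_add]

theorem um_nil : um [] = 0 := rfl

theorem um_flatMap (k : ℕ) (f : ℕ → List ℕ) :
    um ((List.range k).flatMap f) = ∑ i ∈ range k, um (f i) := by
  induction k with
  | zero => rfl
  | succ k ih =>
    rw [List.range_succ, List.flatMap_append, um_append, ih, sum_range_succ]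
    congr 1
    rw [List.flatMap_cons, List.flatMap_nil, List.append_nil]

theorem csq_flatMap (k : ℕ) (f : ℕ → List ℕ) :
    csq ((List.range k).flatMap f) = ∑ i ∈ range k, csq (f i) := by
  induction k with
  | zero => rfl
  | succ k ih =>
    rw [List.range_succ, List.flatMap_append, csq_append, ih, sum_range_succ]
    congr 1
    rw [List.flatMap_cons, List.flatMap_nil, List.append_nil]

/-- the rectangles between the modules `j` and `j + 1` -/
def cst (ms : List Md) (j : ℕ) : Multiset (ℕ × ℕ) :=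
  ∑ a ∈ range (j + 1), ∑ b ∈ Ico (j + 1) (ms.length + 1), um (gl (gm ms a).E b)

/-- the rectangles which pass the module `j + 1` -/
def cps (ms : List Md) (j : ℕ) : Multiset (ℕ × ℕ) :=
  ∑ a ∈ range (j + 1), ∑ b ∈ Ico (j + 2) (ms.length + 1), um (gl (gm ms a).E b)

theorem cst_imps (ms : List Md) (j : ℕ) (hj : j + 1 < ms.length) :
    cst ms j = um (imps ms (j + 1)) + cps ms j := by
  unfold cst cps imps
  rw [um_flatMap, ← sum_add_distrib]
  refine sum_congr rfl fun a _ => ?_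
  exact Finset.sum_eq_sum_Ico_succ_bot (by omega) _

theorem cst_exps (ms : List Md) (j : ℕ) :
    cst ms (j + 1) = um (exps ms (j + 1)) + cps ms j := by
  unfold cst cps exps
  rw [um_flatMap, sum_range_succ, add_comm]
  congr 1
  rw [Finset.sum_Ico_eq_sum_range]
  have h : ms.length + 1 - (j + 1 + 1) = ms.length - (j + 1) := by omega
  rw [h]

/-- error of the module `j + 1` -/
def cer (ms : List Md) (j : ℕ) : ℕ :=
  ((gm ms (j + 1)).m1 - (gm ms (j + 1)).m0) + 262144 * (gm ms (j + 1)).toks.length +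
    2 * (plcs ms (j + 1)).length

theorem ebd_eq (ms : List Md) : ebd ms = ∑ j ∈ range (ms.length - 1), cer ms j := by
  unfold ebd
  have h : ∀ (k : ℕ) (f : ℕ → ℕ), ((List.range k).map f).sum = ∑ j ∈ range k, f j := by
    intro k f
    induction k with
    | zero => rfl
    | succ k ih =>
      rw [List.range_succ, List.map_append, List.sum_append, ih, sum_range_succ]
      simp
  rw [h]
  rfl

theorem shape_sound {m1 mE : ℕ} {ms : List Md} (hs : shape m1 mE ms = true) :
    2 ≤ ms.length ∧ (gm ms 1).m0 = m1 ∧ (gm ms (ms.length - 1)).m1 = mE ∧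
      (∀ j, j + 2 < ms.length → (gm ms (j + 1)).m1 = (gm ms (j + 2)).m0) ∧
      (gm ms 0).C = [] ∧ (gm ms 0).R = [] ∧ (gm ms 0).F = [] := by
  unfold shape at hs
  obtain ⟨h1, hs⟩ := br_false hs
  obtain ⟨h2, hs⟩ := br_false hs
  obtain ⟨h3, hs⟩ := br_false hs
  obtain ⟨h4, hs⟩ := br_false hs
  obtain ⟨h5, hs⟩ := br_false hs
  obtain ⟨h6, h7⟩ := br_false hs
  refine ⟨Nat.le_of_ble_eq_true h1, Nat.eq_of_beq_eq_true h2, Nat.eq_of_beq_eq_true h3, ?_,
    List.eq_nil_of_length_eq_zero (Nat.eq_of_beq_eq_true h5),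
    List.eq_nil_of_length_eq_zero (Nat.eq_of_beq_eq_true h6),
    List.eq_nil_of_length_eq_zero (Nat.eq_of_beq_eq_true h7)⟩
  intro j hj
  rw [List.all_eq_true] at h4
  exact Nat.eq_of_beq_eq_true (h4 j (List.mem_range.2 (by omega)))

/-- the modules `1, ..., j` -/
theorem chain_aux {d P m1 mE e0 : ℕ} {ms : List Md} (hd : d = 2 ^ 112)
    (hs : shape m1 mE ms = true) (hm1 : 2 ≤ m1)
    (hck : ∀ j, 1 ≤ j → j < ms.length → ckMod d P ms j = true)
    (he : e0 + ebd ms ≤ 2 ^ 34) (j : ℕ) (hj : j + 1 < ms.length) :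
    m1 ≤ (gm ms (j + 1)).m1 ∧ ∃ Sq : Multiset ℕ,
      Sq + ∑ i ∈ range (j + 1), csq (skps ms (i + 1)) =
        (Ico m1 (gm ms (j + 1)).m1).val + ∑ i ∈ range (j + 1), csq (plcs ms (i + 1)) ∧
      Trans e0 (e0 + ∑ i ∈ range (j + 1), cer ms i) (cst ms 0) Sq (cst ms (j + 1))
        (∑ i ∈ range (j + 1), (bt P (gl (gm ms (i + 1)).R)).ms)
        (∑ i ∈ range (j + 1), (bt P (gl (gm ms (i + 1)).F)).ms) := by
  obtain ⟨hn, hm0, -, hcons, -, -, -⟩ := shape_sound hs
  have hsum : ∀ i, i + 1 < ms.length → e0 + ∑ t ∈ range (i + 1), cer ms t ≤ 2 ^ 34 := by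
    intro i hi
    refine le_trans ?_ he
    rw [ebd_eq]
    have : ∑ t ∈ range (i + 1), cer ms t ≤ ∑ t ∈ range (ms.length - 1), cer ms t :=
      sum_le_sum_of_subset (range_subset_range.2 (by omega))
    omega
  have hstep : ∀ i, i + 1 < ms.length → 1 ≤ (gm ms (i + 1)).m0 → ∀ e e' : ℕ, e + cer ms i ≤ e' →
      e' ≤ 2 ^ 34 → (gm ms (i + 1)).m0 ≤ (gm ms (i + 1)).m1 ∧ ∃ Sq : Multiset ℕ,
        Sq + csq (skps ms (i + 1)) = (Ico (gm ms (i + 1)).m0 (gm ms (i + 1)).m1).val +
          csq (plcs ms (i + 1)) ∧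
        Trans e e' (cst ms i) Sq (cst ms (i + 1)) (bt P (gl (gm ms (i + 1)).R)).ms
          (bt P (gl (gm ms (i + 1)).F)).ms := by
    intro i hi hm e e' h1 h2
    obtain ⟨h3, Sq, h4, h5⟩ := check_sound hd hm (hck (i + 1) (by omega) hi)
    refine ⟨h3, Sq, h4, ?_⟩
    have h6 := h5 e e' (by unfold cer at h1; omega) h2
    have h7 := h6.frame (by unfold cer at h1; omega) (cps ms i)
    rw [cst_imps ms i hi, cst_exps ms i]
    exact h7
  induction j with
  | zero =>
    have h1 := hstep 0 hj (by rw [hm0]; omega) e0 (e0 + ∑ i ∈ range 1, cer ms i)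
      (by rw [sum_range_one]) (hsum 0 hj)
    obtain ⟨h2, Sq, h3, h4⟩ := h1
    rw [hm0] at h2 h3
    refine ⟨h2, Sq, ?_, ?_⟩
    · rw [zero_add, sum_range_one, sum_range_one]
      exact h3
    · simp only [zero_add, sum_range_one] at h4 ⊢
      exact h4
  | succ j ih =>
    obtain ⟨h1, Sq, h2, h3⟩ := ih (by omega)
    have h4 := hcons j (by omega)
    obtain ⟨h5, Sq', h6, h7⟩ := hstep (j + 1) hj (by rw [← h4]; omega)
      (e0 + ∑ i ∈ range (j + 1), cer ms i) (e0 + ∑ i ∈ range (j + 1 + 1), cer ms i)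
      (by rw [sum_range_succ _ (j + 1)]; omega) (hsum (j + 1) hj)
    rw [← h4] at h5 h6
    refine ⟨h1.trans h5, Sq + Sq', ?_, ?_⟩
    · rw [sum_range_succ _ (j + 1), sum_range_succ _ (j + 1), ← Ico_val_add h1 h5]
      calc Sq + Sq' + (∑ i ∈ range (j + 1), csq (skps ms (i + 1)) + csq (skps ms (j + 1 + 1))) =
          (Sq + ∑ i ∈ range (j + 1), csq (skps ms (i + 1))) + (Sq' + csq (skps ms (j + 1 + 1))) := by abel
        _ = _ := by
          rw [h2, h6]
          abel
    · rw [sum_range_succ (fun i => (bt P (gl (gm ms (i + 1)).R)).ms) (j + 1),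
        sum_range_succ (fun i => (bt P (gl (gm ms (i + 1)).F)).ms) (j + 1)]
      exact h3.comp h7

theorem chain_single {w h : ℝ} {S : Multiset ℕ} {ρ : Multiset (ℝ × ℝ)}
    (hd : DecL [(w, h)] S ρ) : Dec w h S ρ := by
  cases hd with
  | cons h1 h2 =>
    cases h2
    simpa using h1

/-- leaves of a sum of record multisets -/
theorem leaves_split (N : ℕ) (R F : ℕ → Multiset ℕ) : ∀ G : Multiset (ℝ × ℝ),
    Leaves (∑ s ∈ range N, R s) (∑ s ∈ range N, F s) G →
      ∃ Gs : ℕ → Multiset (ℝ × ℝ), (∀ s < N, Leaves (R s) (F s) (Gs s)) ∧ G = ∑ s ∈ range N, Gs s := by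
  induction N with
  | zero =>
    intro G h
    obtain ⟨A, B, hA, hB, hG⟩ := h
    rw [range_zero, sum_empty, Multiset.rel_zero_left] at hA hB
    refine ⟨fun _ => 0, fun s hs => absurd hs (by omega), ?_⟩
    rw [hG, hA, hB]
    simp
  | succ N ih =>
    intro G h
    obtain ⟨A, B, hA, hB, hG⟩ := h
    rw [sum_range_succ] at hA hB
    obtain ⟨A1, A2, a1, a2, a3⟩ := Multiset.rel_add_left.1 hA
    obtain ⟨B1, B2, b1, b2, b3⟩ := Multiset.rel_add_left.1 hB
    obtain ⟨Gs, h1, h2⟩ := ih (A1.sum + B1.sum) ⟨A1, B1, a1, b1, rfl⟩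
    refine ⟨fun s => if s < N then Gs s else A2.sum + B2.sum, ?_, ?_⟩
    · intro s hs
      by_cases h3 : s < N
      · simp only [h3, if_true]
        exact h1 s h3
      · have h4 : s = N := by omega
        subst h4
        simp only [lt_irrefl, if_false]
        exact ⟨A2, B2, a2, b2, rfl⟩
    · rw [sum_range_succ]
      simp only [lt_irrefl, if_false]
      have h5 : ∑ s ∈ range N, (if s < N then Gs s else A2.sum + B2.sum) = ∑ s ∈ range N, Gs s := by
        refine sum_congr rfl fun s hs => ?_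
        rw [if_pos (mem_range.1 hs)]
      rw [h5, ← h2, hG, a3, b3, Multiset.sum_add, Multiset.sum_add]
      abel

theorem coe_flatten_map (ms : List Md) (g : Md → List ℕ) :
    (((ms.map g).flatten : List ℕ) : Multiset ℕ) =
      ∑ i ∈ range ms.length, ((g (gm ms i) : List ℕ) : Multiset ℕ) := by
  induction ms with
  | nil => rfl
  | cons m ms ih =>
    rw [List.map_cons, List.flatten_cons, ← Multiset.coe_add, ih, List.length_cons, sum_range_succ',
      add_comm]
    rfl

theorem gl_nil (i : ℕ) : gl [] i = [] := rfl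

/-- the records of all modules in the stream `s`, module `0` has none -/
theorem flatten_eq (ms : List Md) (hn : 2 ≤ ms.length) (g : Md → List (List ℕ))
    (h0 : g (gm ms 0) = []) (s : ℕ) :
    (((ms.map fun m => gl (g m) s).flatten : List ℕ) : Multiset ℕ) =
      ∑ i ∈ range (ms.length - 1), ((gl (g (gm ms (i + 1))) s : List ℕ) : Multiset ℕ) := by
  rw [coe_flatten_map ms (fun m => gl (g m) s)]
  obtain ⟨n, hn'⟩ : ∃ n, ms.length = n + 1 := ⟨ms.length - 1, by omega⟩
  rw [hn', sum_range_succ', Nat.add_sub_cancel]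
  simp only [h0, gl_nil]
  simp

/-- every column is placed once and skipped once -/
theorem skps_plcs (ms : List Md) (n : ℕ) (hn : ms.length = n + 1) (h0 : (gm ms 0).C = []) :
    ∑ i ∈ range n, csq (skps ms (i + 1)) = ∑ i ∈ range n, csq (plcs ms (i + 1)) := by
  have h1 : ∀ i, csq (skps ms (i + 1)) = ∑ a ∈ range (i + 1), csq (gl (gm ms (a + 1)).C (i + 1)) := by
    intro i
    unfold skps
    rw [csq_flatMap, sum_range_succ', h0, gl_nil, csq_nil, add_zero]
  have h2 : ∀ i ∈ range n, csq (plcs ms (i + 1)) = ∑ b ∈ Ico i n, csq (gl (gm ms (i + 1)).C (b + 1)) := by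
    intro i hi
    unfold plcs
    rw [csq_flatMap, Finset.sum_Ico_eq_sum_range, hn]
    have h3 : n + 1 - (i + 1) = n - i := by omega
    rw [h3]
    refine sum_congr rfl fun b _ => ?_
    rw [show i + 1 + b = i + b + 1 by ring]
  rw [sum_congr rfl fun i _ => h1 i, sum_congr rfl h2]
  have h4 : ∀ i ∈ range n, ∑ a ∈ range (i + 1), csq (gl (gm ms (a + 1)).C (i + 1)) =
      ∑ a ∈ range n, if a ≤ i then csq (gl (gm ms (a + 1)).C (i + 1)) else 0 := by
    intro i hi
    rw [← sum_filter]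
    refine sum_congr ?_ fun _ _ => rfl
    ext a
    rw [mem_filter, mem_range, mem_range]
    have := mem_range.1 hi
    omega
  have h5 : ∀ i ∈ range n, ∑ b ∈ Ico i n, csq (gl (gm ms (i + 1)).C (b + 1)) =
      ∑ b ∈ range n, if i ≤ b then csq (gl (gm ms (i + 1)).C (b + 1)) else 0 := by
    intro i hi
    rw [← sum_filter]
    refine sum_congr ?_ fun _ _ => rfl
    ext b
    rw [mem_filter, mem_range, mem_Ico]
    omega
  rw [sum_congr rfl h4, sum_congr rfl h5, sum_comm]

/-- Composition. State after module `j`: `∑ a ≤ j, ∑ b > j, um (E a b)`; the squares of module `j` and the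
skipped columns are the interval `[m0, m1)` and the placed columns; the sum over all modules of the
skipped columns is the sum of the placed columns (`C a b` with `a ≤ b`). -/
theorem chain_sound {d P m1 mE e0 : ℕ} {ms : List Md} (hd : d = 2 ^ 112)
    (hs : shape m1 mE ms = true) (hm1 : 2 ≤ m1)
    (hck : ∀ j, 1 ≤ j → j < ms.length → ckMod d P ms j = true) {a b : ℝ} {ρ0 : Multiset (ℝ × ℝ)}
    (h0 : Dec a b (Ico 2 m1).val ρ0)
    (hr : Multiset.Rel (App e0) (∑ j ∈ Ico 1 (ms.length + 1), um (gl (gm ms 0).E j)) ρ0)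
    (he : e0 + ebd ms ≤ 2 ^ 34) :
    ∃ (ρ1 : Multiset (ℝ × ℝ)) (Gs : ℕ → Multiset (ℝ × ℝ)),
      Multiset.Rel (App (2 ^ 34)) (∑ j ∈ range ms.length, um (gl (gm ms j).E ms.length)) ρ1 ∧
      (∀ s < 2 ^ P, Leaves ((strR ms s).flatten : List ℕ) ((strF ms s).flatten : List ℕ) (Gs s)) ∧
      Dec a b (Ico 2 mE).val (ρ1 + ∑ s ∈ range (2 ^ P), Gs s) := by
  obtain ⟨hn, hm0, hmE, hcons, hC, hR, hF⟩ := shape_sound hs
  obtain ⟨n, hn'⟩ : ∃ n, ms.length = n + 2 := ⟨ms.length - 2, by omega⟩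
  obtain ⟨h1, Sq, h2, h3⟩ := chain_aux (P := P) hd hs hm1 hck he n (by omega)
  rw [hn', show n + 2 - 1 = n + 1 by omega] at hmE
  rw [hmE] at h1 h2
  rw [skps_plcs ms (n + 1) (by omega) hC] at h2
  have h4 : Sq = (Ico m1 mE).val := add_right_cancel h2
  have h5 : cst ms 0 = ∑ j ∈ Ico 1 (ms.length + 1), um (gl (gm ms 0).E j) := by
    unfold cst
    rw [zero_add, sum_range_one]
  have h6 : cst ms (n + 1) = ∑ j ∈ range ms.length, um (gl (gm ms j).E ms.length) := by
    unfold cst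
    rw [hn']
    refine sum_congr rfl fun a _ => ?_
    rw [show n + 1 + 1 = n + 2 by ring, Nat.Ico_succ_singleton, sum_singleton]
  rw [← h5] at hr
  obtain ⟨ρ1, G, h7, h8, h9⟩ := h3 ρ0 hr
  have h10 : (∑ i ∈ range (n + 1), (bt P (gl (gm ms (i + 1)).R)).ms) =
      ∑ s ∈ range (2 ^ P), (((strR ms s).flatten : List ℕ) : Multiset ℕ) := by
    unfold strR
    rw [sum_congr rfl fun s _ => flatten_eq ms hn Md.R hR s, sum_comm, hn',
      show n + 2 - 1 = n + 1 by omega]
    exact sum_congr rfl fun i _ => bt_ms P _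
  have h11 : (∑ i ∈ range (n + 1), (bt P (gl (gm ms (i + 1)).F)).ms) =
      ∑ s ∈ range (2 ^ P), (((strF ms s).flatten : List ℕ) : Multiset ℕ) := by
    unfold strF
    rw [sum_congr rfl fun s _ => flatten_eq ms hn Md.F hF s, sum_comm, hn',
      show n + 2 - 1 = n + 1 by omega]
    exact sum_congr rfl fun i _ => bt_ms P _
  rw [h10, h11] at h8
  obtain ⟨Gs, h12, h13⟩ := leaves_split (2 ^ P) _ _ G h8
  have h14 : e0 + ∑ i ∈ range (n + 1), cer ms i ≤ 2 ^ 34 := by
    have h15 := ebd_eq ms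
    rw [hn', show n + 2 - 1 = n + 1 by omega] at h15
    rw [← h15]
    exact he
  refine ⟨ρ1, Gs, ?_, h12, ?_⟩
  · rw [← h6]
    exact h7.mono fun x _ y _ hxy => hxy.mono h14
  · rw [← h13]
    have h16 : DecL [(a, b)] (Ico 2 m1).val (ρ0 + 0) := by
      have := DecL.cons h0 DecL.nil
      simpa using this
    have h17 := h9 [(a, b)] (Ico 2 m1).val 0 h16
    have h18 : Dec a b (Sq + (Ico 2 m1).val) (ρ1 + G + 0) := chain_single h17
    rw [add_zero, h4, add_comm, Ico_val_add hm1 h1] at h18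
    exact h18

end Pool.Agent.Moser.Ck
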