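import Pool.Agent.Lib_MP_cc07e8_ck.CkSem

/-! # MP_cc07e8_co: algebra of `Leaves`, `Trans`, `Disp` (piece TRANS) -/

open Finset

namespace Pool.Agent.Moser.Ck

variable {e e' e'' : ℕ} {A A' A'' C : Multiset (ℕ × ℕ)} {S S' : Multiset ℕ} {R R' F F' : Multiset ℕ}
  {G G' ρ ρ' : Multiset (ℝ × ℝ)}

theorem App.mono {p : ℕ × ℕ} {r : ℝ × ℝ} (h : App e p r) (he : e ≤ e') : App e' p r := by
  obtain ⟨h1, h2, h3, h4⟩ := h
  have h5 : (e : ℝ) ≤ (e' : ℝ) := by exact_mod_cast he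
  exact ⟨h1, by linarith, h3, by linarith⟩

theorem App.nonneg {p : ℕ × ℕ} {r : ℝ × ℝ} (h : App e p r) : 0 ≤ r.1 ∧ 0 ≤ r.2 := by
  obtain ⟨h1, -, h3, -⟩ := h
  have hp : (0 : ℝ) < 2 ^ 112 := by positivity
  have h5 : (0 : ℝ) ≤ (p.1 : ℝ) := Nat.cast_nonneg _
  have h6 : (0 : ℝ) ≤ (p.2 : ℝ) := Nat.cast_nonneg _
  constructor
  · by_contra hc
    have h7 : r.1 * 2 ^ 112 < 0 := mul_neg_of_neg_of_pos (not_le.1 hc) hp
    linarith
  · by_contra hc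
    have h7 : r.2 * 2 ^ 112 < 0 := mul_neg_of_neg_of_pos (not_le.1 hc) hp
    linarith

theorem App.turn {w l : ℕ} {a b : ℝ} (h : App e (w, l) (a, b)) : App e (l, w) (b, a) := by
  obtain ⟨h1, h2, h3, h4⟩ := h
  exact ⟨h3, h4, h1, h2⟩

theorem Leaves.zero : Leaves 0 0 0 := by
  refine ⟨0, 0, Multiset.Rel.zero, Multiset.Rel.zero, ?_⟩
  simp

theorem Leaves.add (h : Leaves R F G) (h' : Leaves R' F' G') : Leaves (R + R') (F + F') (G + G') := by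
  obtain ⟨A, B, hA, hB, hG⟩ := h
  obtain ⟨A', B', hA', hB', hG'⟩ := h'
  refine ⟨A + A', B + B', hA.add hA', hB.add hB', ?_⟩
  rw [hG, hG', Multiset.sum_add, Multiset.sum_add]
  abel

theorem Leaves.run {r : ℕ} (h : LeafR r G) : Leaves {r} 0 G := by
  refine ⟨{G}, 0, ?_, Multiset.Rel.zero, ?_⟩
  · exact Multiset.Rel.cons h Multiset.Rel.zero
  · simp

theorem Leaves.fat {r : ℕ} (h : LeafF r G) : Leaves 0 {r} G := by
  refine ⟨0, {G}, Multiset.Rel.zero, ?_, ?_⟩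
  · exact Multiset.Rel.cons h Multiset.Rel.zero
  · simp

theorem Trans.refl (he : e ≤ e') : Trans e e' A 0 A 0 0 := by
  intro ρ h
  refine ⟨ρ, 0, h.mono fun a _ b _ hab => hab.mono he, Leaves.zero, ?_⟩
  rw [add_zero]
  exact Ref.refl ρ

theorem Trans.comp (h : Trans e e' A S A' R F) (h' : Trans e' e'' A' S' A'' R' F') :
    Trans e e'' A (S + S') A'' (R + R') (F + F') := by
  intro ρ hρ
  obtain ⟨σ, G, h1, h2, h3⟩ := h ρ hρ
  obtain ⟨τ, G', h4, h5, h6⟩ := h' σ h1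
  refine ⟨τ, G + G', h4, h2.add h5, ?_⟩
  have h7 := Ref.trans h3 (Ref.add h6 (Ref.refl G))
  rw [add_zero] at h7
  have h8 : τ + (G + G') = τ + G' + G := by abel
  rw [h8]
  exact h7

theorem Trans.frame (he : e ≤ e') (h : Trans e e' A S A' R F) (C : Multiset (ℕ × ℕ)) :
    Trans e e' (A + C) S (A' + C) R F := by
  intro ρ hρ
  obtain ⟨ρ1, ρ2, h1, h2, h3⟩ := Multiset.rel_add_left.1 hρ
  obtain ⟨σ, G, h4, h5, h6⟩ := h ρ1 h1
  refine ⟨σ + ρ2, G, h4.add (h2.mono fun a _ b _ hab => hab.mono he), h5, ?_⟩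
  have h7 := Ref.add h6 (Ref.refl ρ2)
  rw [add_zero] at h7
  have h8 : σ + ρ2 + G = σ + G + ρ2 := by abel
  rw [h3, h8]
  exact h7

theorem Trans.mono {e1 e2 : ℕ} (h : Trans e e' A S A' R F) (h1 : e1 ≤ e) (h2 : e' ≤ e2) :
    Trans e1 e2 A S A' R F := by
  intro ρ hρ
  obtain ⟨σ, G, h4, h5, h6⟩ := h ρ (hρ.mono fun a _ b _ hab => hab.mono h1)
  exact ⟨σ, G, h4.mono fun a _ b _ hab => hab.mono h2, h5, h6⟩

/-- a rectangle approximated by one pair -/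
theorem rel_app_singleton {p : ℕ × ℕ} (h : Multiset.Rel (App e) {p} ρ) :
    ∃ r, App e p r ∧ ρ = {r} := by
  obtain ⟨r, ρ', h1, h2, h3⟩ := Multiset.rel_cons_left.1 (show Multiset.Rel (App e) (p ::ₘ 0) ρ from h)
  rw [Multiset.rel_zero_left] at h2
  exact ⟨r, h1, by rw [h3, h2]; rfl⟩

/-- a pair approximating one rectangle -/
theorem rel_app_of {p : ℕ × ℕ} {r : ℝ × ℝ} (h : App e p r) :
    Multiset.Rel (App e) {p} {r} := Multiset.Rel.cons h Multiset.Rel.zero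

theorem Trans.turn {w l : ℕ} : Trans e e {(w, l)} 0 {(l, w)} 0 0 := by
  intro ρ hρ
  obtain ⟨⟨a, b⟩, h1, h2⟩ := rel_app_singleton hρ
  refine ⟨{(b, a)}, 0, rel_app_of h1.turn, Leaves.zero, ?_⟩
  rw [add_zero, h2]
  exact Ref.turn h1.nonneg.1 h1.nonneg.2

theorem Trans.cut {w l x : ℕ} (h : x ≤ l) : Trans e e {(w, l)} 0 ({(w, x)} + {(w, l - x)}) 0 0 := by
  intro ρ hρ
  obtain ⟨⟨a, b⟩, h1, h2⟩ := rel_app_singleton hρ
  have hn := h1.nonneg
  obtain ⟨h3, h4, h5, h6⟩ := h1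
  have hp : (0 : ℝ) < 2 ^ 112 := by positivity
  have hx : (x : ℝ) / 2 ^ 112 * 2 ^ 112 = x := by field_simp
  have hxl : (x : ℝ) ≤ l := by exact_mod_cast h
  have hsub : ((l - x : ℕ) : ℝ) = l - x := by
    rw [Nat.cast_sub h]
  have he : (0 : ℝ) ≤ e := Nat.cast_nonneg _
  simp only at h3 h4 h5 h6
  refine ⟨{(a, (x : ℝ) / 2 ^ 112)} + {(a, b - (x : ℝ) / 2 ^ 112)}, 0,
    (rel_app_of ⟨h3, h4, ?_, ?_⟩).add (rel_app_of ⟨h3, h4, ?_, ?_⟩), Leaves.zero, ?_⟩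
  · simp only
    rw [hx]
  · simp only
    rw [hx]; linarith
  · simp only
    rw [sub_mul, hx, hsub]; linarith
  · simp only
    rw [sub_mul, hx, hsub]; linarith
  · rw [add_zero, h2]
    have hx0 : (0 : ℝ) ≤ (x : ℝ) / 2 ^ 112 := by positivity
    have hb : (0 : ℝ) ≤ b - (x : ℝ) / 2 ^ 112 := by
      by_contra hc
      have h7 : (b - (x : ℝ) / 2 ^ 112) * 2 ^ 112 < 0 := mul_neg_of_neg_of_pos (not_le.1 hc) hp
      rw [sub_mul, hx] at h7
      linarith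
    have ha : (0 : ℝ) ≤ a := hn.1
    have h8 := Ref.cut ha hx0 hb
    rw [add_sub_cancel] at h8
    exact h8

theorem Disp.zero : Disp e 0 0 0 := by
  refine ⟨0, 0, Multiset.Rel.zero, Leaves.zero, ?_⟩
  rw [add_zero]
  exact Ref.refl 0

theorem Disp.add (h : Disp e ρ A F) (h' : Disp e ρ' A' F') : Disp e (ρ + ρ') (A + A') (F + F') := by
  obtain ⟨σ, G, h1, h2, h3⟩ := h
  obtain ⟨σ', G', h1', h2', h3'⟩ := h'
  refine ⟨σ + σ', G + G', h1.add h1', by simpa using h2.add h2', ?_⟩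
  have h4 := Ref.add h3 h3'
  rw [add_zero] at h4
  have h5 : σ + σ' + (G + G') = σ + G + (σ' + G') := by abel
  rw [h5]
  exact h4

theorem Disp.mono (h : Disp e ρ A F) (he : e ≤ e') : Disp e' ρ A F := by
  obtain ⟨σ, G, h1, h2, h3⟩ := h
  exact ⟨σ, G, h1.mono fun a _ b _ hab => hab.mono he, h2, h3⟩

/-- a stored rectangle -/
theorem Disp.store {w l : ℕ} {a b : ℝ} (h : App e (w, l) (a, b)) : Disp e {(a, b)} {(w, l)} 0 := by
  refine ⟨{(a, b)}, 0, rel_app_of h, Leaves.zero, ?_⟩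
  rw [add_zero]
  exact Ref.refl _

/-- a rectangle stored turned -/
theorem Disp.storeT {w l : ℕ} {a b : ℝ} (h : App e (w, l) (a, b)) : Disp e {(a, b)} {(l, w)} 0 := by
  refine ⟨{(b, a)}, 0, rel_app_of h.turn, Leaves.zero, ?_⟩
  rw [add_zero]
  exact Ref.turn h.nonneg.1 h.nonneg.2

/-- a leaf -/
theorem Disp.leaf {r : ℕ} (h : LeafF r ρ) : Disp e ρ 0 {r} := by
  refine ⟨0, ρ, Multiset.Rel.zero, Leaves.fat h, ?_⟩
  rw [zero_add]
  exact Ref.refl _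

/-- a leaf turned -/
theorem Disp.leafT {r : ℕ} {a b : ℝ} (ha : 0 ≤ a) (hb : 0 ≤ b) (h : LeafF r {(b, a)}) :
    Disp e {(a, b)} 0 {r} := by
  refine ⟨0, {(b, a)}, Multiset.Rel.zero, Leaves.fat h, ?_⟩
  rw [zero_add]
  exact Ref.turn ha hb

theorem dec_nil0 {a : ℝ} (ha : 0 ≤ a) : Dec 0 a 0 0 := by
  have := Dec.pack (w := 0) (h := a) (n := 0) (fun i => i.elim0) (fun i => i.elim0)
    (fun i => i.elim0) (fun i => i.elim0) (fun i => i.elim0) (fun i => i.elim0) le_rfl ha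
    (fun i => i.elim0) (fun i => i.elim0) (by simp) (fun i => i.elim0)
  simpa using this

/-- degenerate rectangles -/
theorem Disp.drop (h : ∀ r ∈ ρ, 0 ≤ r.1 ∧ 0 ≤ r.2 ∧ (r.1 = 0 ∨ r.2 = 0)) : Disp e ρ 0 0 := by
  refine ⟨0, 0, Multiset.Rel.zero, Leaves.zero, ?_⟩
  rw [add_zero]
  induction ρ using Multiset.induction_on with
  | empty => exact Ref.refl 0
  | cons r ρ ih =>
    have h1 := h r (Multiset.mem_cons_self r ρ)
    have h2 := ih fun x hx => h x (Multiset.mem_cons_of_mem hx)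
    have h3 : Ref {(r.1, r.2)} 0 0 := by
      apply Ref.of_dec
      rcases h1.2.2 with h | h
      · rw [h]; exact dec_nil0 h1.2.1
      · rw [h]; exact (dec_nil0 h1.1).turn
    have h4 := Ref.add h3 h2
    rw [Multiset.singleton_add, add_zero, add_zero] at h4
    exact h4

/-- a refinement followed by a disposal -/
theorem Trans.of_disp {w l w' l' : ℕ} {S : Multiset ℕ}
    (h : ∀ a b : ℝ, App e (w, l) (a, b) → ∃ (a' b' : ℝ) (ρ : Multiset (ℝ × ℝ)),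
      App e' (w', l') (a', b') ∧ Ref {(a, b)} S ({(a', b')} + ρ) ∧ Disp e' ρ A F) :
    Trans e e' {(w, l)} S ({(w', l')} + A) 0 F := by
  intro ρ hρ
  obtain ⟨⟨a, b⟩, h1, h2⟩ := rel_app_singleton hρ
  obtain ⟨a', b', υ, h3, h4, σ, G, h5, h6, h7⟩ := h a b h1
  refine ⟨{(a', b')} + σ, G, (rel_app_of h3).add h5, h6, ?_⟩
  have h8 := Ref.trans h4 (Ref.add (Ref.refl {(a', b')}) h7)
  rw [add_zero, add_zero] at h8
  rw [h2, add_assoc]
  exact h8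

end Pool.Agent.Moser.Ck
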