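import Pool.Agent.Lib_MP_cc07e8_ck.CkRng
import Pool.Agent.Lib_MP_cc07e8_ck.CkTrans

/-! # MP_cc07e8_co: soundness of the facts about the leaves (piece FAC) -/

open Finset

namespace Pool.Agent.Moser.Ck

private theorem fac_br {b t e : Bool} (h : br b t e = true) (he : e = false) : b = true ∧ t = true := by
  cases b
  · exact absurd (h.symm.trans he) (by decide)
  · exact ⟨rfl, h⟩

private theorem fac_touch {x : ℕ} {k : Bool} (h : touch x k = true) : k = true := by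
  unfold touch at h
  rw [Nat.ble_eq_true_of_le (Nat.zero_le x)] at h
  exact h

/-- the checks for a run record -/
private def okR (dr TA TB r : ℕ) : Prop :=
  1 ≤ rk r ∧ 1 ≤ rm r ∧ dr + 1 ≤ (rw' r - 1 - dr / rm r) * TB ∧
    (rw' r + 1200 - dr / (rm r + rk r - 1)) * TA ≤ dr

/-- the width added for a run record -/
private def wdR (dr r : ℕ) : ℕ := rk r * (rw' r + 1200 - 2 * dr / (2 * rm r + rk r - 1))

/-- the checks for a fat record -/
private def okF (dr TA TB r : ℕ) : Prop :=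
  dr + 1 ≤ fx r * TB ∧ (fx r + fs r + 1200) * TA ≤ dr

/-- the width added for a fat record -/
private def wdF (r : ℕ) : ℕ := fn r * (fx r + fs r + 1200)

private theorem rk_eq (r : ℕ) : r &&& 1048575 = rk r := by
  have h := Nat.and_two_pow_sub_one_eq_mod r 20
  norm_num at h
  rw [h]
  rfl

private theorem rm_eq (r : ℕ) : (r >>> 20) &&& 67108863 = rm r := by
  have h := Nat.and_two_pow_sub_one_eq_mod (r >>> 20) 26
  norm_num at h
  rw [h, Nat.shiftRight_eq_div_pow]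
  rfl

private theorem rw_eq (r : ℕ) : r >>> 46 = rw' r := by
  rw [Nat.shiftRight_eq_div_pow]
  rfl

private theorem fn_eq (r : ℕ) : r &&& 4095 = fn r := by
  have h := Nat.and_two_pow_sub_one_eq_mod r 12
  norm_num at h
  rw [h]
  rfl

private theorem fx_eq (r : ℕ) : (r >>> 12) &&& 18446744073709551615 = fx r := by
  have h := Nat.and_two_pow_sub_one_eq_mod (r >>> 12) 64
  norm_num at h
  rw [h, Nat.shiftRight_eq_div_pow]
  rfl

private theorem fs_eq (r : ℕ) : (r >>> 76) &&& 18446744073709551615 = fs r := by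
  have h := Nat.and_two_pow_sub_one_eq_mod (r >>> 76) 64
  norm_num at h
  rw [h, Nat.shiftRight_eq_div_pow]
  rfl

private theorem facR_spec (dr TA TB : ℕ) (xs : List ℕ) : ∀ (W : ℕ) (c : ℕ → Bool),
    facR dr TA TB xs W c = true →
      (∀ r ∈ xs, okR dr TA TB r) ∧ c (W + (xs.map (wdR dr)).sum) = true := by
  induction xs with
  | nil =>
    intro W c h
    exact ⟨fun r hr => absurd hr (List.not_mem_nil), fac_touch (x := W) h⟩
  | cons r xs ih =>
    intro W c h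
    have h' : br (Nat.ble 1 (r &&& 1048575)) (br (Nat.ble 1 ((r >>> 20) &&& 67108863))
        (br (Nat.ble (dr + 1) ((r >>> 46 - 1 - dr / ((r >>> 20) &&& 67108863)) * TB))
          (br (Nat.ble ((r >>> 46 + 1200 - dr / (((r >>> 20) &&& 67108863) + (r &&& 1048575) - 1)) * TA) dr)
            (facR dr TA TB xs (W + (r &&& 1048575) * (r >>> 46 + 1200 -
              2 * dr / (2 * ((r >>> 20) &&& 67108863) + (r &&& 1048575) - 1))) c) false) false) false) false = true := h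
    rw [rk_eq, rm_eq, rw_eq] at h'
    obtain ⟨h1, h'⟩ := fac_br h' rfl
    obtain ⟨h2, h'⟩ := fac_br h' rfl
    obtain ⟨h3, h'⟩ := fac_br h' rfl
    obtain ⟨h4, h'⟩ := fac_br h' rfl
    obtain ⟨h5, h6⟩ := ih _ _ h'
    rw [Nat.ble_eq] at h1 h2 h3 h4
    refine ⟨?_, ?_⟩
    · intro s hs
      rcases List.mem_cons.1 hs with rfl | hs
      · exact ⟨h1, h2, h3, h4⟩
      · exact h5 s hs
    · rw [List.map_cons, List.sum_cons, ← add_assoc]
      exact h6

private theorem facF_spec (dr TA TB : ℕ) (xs : List ℕ) : ∀ (W : ℕ) (c : ℕ → Bool),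
    facF dr TA TB xs W c = true →
      (∀ r ∈ xs, okF dr TA TB r) ∧ c (W + (xs.map wdF).sum) = true := by
  induction xs with
  | nil =>
    intro W c h
    exact ⟨fun r hr => absurd hr (List.not_mem_nil), fac_touch (x := W) h⟩
  | cons r xs ih =>
    intro W c h
    have h' : br (Nat.ble (dr + 1) (((r >>> 12) &&& 18446744073709551615) * TB))
        (br (Nat.ble ((((r >>> 12) &&& 18446744073709551615) +
          ((r >>> 76) &&& 18446744073709551615) + 1200) * TA) dr)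
            (facF dr TA TB xs (W + (r &&& 4095) * (((r >>> 12) &&& 18446744073709551615) +
          ((r >>> 76) &&& 18446744073709551615) + 1200)) c) false) false = true := h
    rw [fn_eq, fx_eq, fs_eq] at h'
    obtain ⟨h1, h'⟩ := fac_br h' rfl
    obtain ⟨h2, h'⟩ := fac_br h' rfl
    obtain ⟨h5, h6⟩ := ih _ _ h'
    rw [Nat.ble_eq] at h1 h2
    refine ⟨?_, ?_⟩
    · intro s hs
      rcases List.mem_cons.1 hs with rfl | hs
      · exact ⟨h1, h2⟩
      · exact h5 s hs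
    · rw [List.map_cons, List.sum_cons, ← add_assoc]
      exact h6

private theorem facL_spec {f : List ℕ → ℕ → (ℕ → Bool) → Bool} {ok : ℕ → Prop} {wt : ℕ → ℕ}
    (hf : ∀ (xs : List ℕ) (W : ℕ) (c : ℕ → Bool), f xs W c = true →
      (∀ r ∈ xs, ok r) ∧ c (W + (xs.map wt).sum) = true) (xss : List (List ℕ)) :
    ∀ (W : ℕ) (c : ℕ → Bool), facL f xss W c = true →
      (∀ r ∈ xss.flatten, ok r) ∧ c (W + (xss.flatten.map wt).sum) = true := by
  induction xss with
  | nil =>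
    intro W c h
    exact ⟨fun r hr => absurd hr (by simp), h⟩
  | cons xs xss ih =>
    intro W c h
    obtain ⟨h1, h2⟩ := hf xs W (fun W' => facL f xss W' c) h
    obtain ⟨h3, h4⟩ := ih _ _ h2
    refine ⟨?_, ?_⟩
    · intro r hr
      rw [List.flatten_cons, List.mem_append] at hr
      rcases hr with hr | hr
      · exact h1 r hr
      · exact h3 r hr
    · rw [List.flatten_cons, List.map_append, List.sum_append, ← add_assoc]
      exact h4

private theorem fack_spec {dr ia ib W : ℕ} {RR FF : List (List ℕ)}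
    (h : fack dr ia ib W RR FF = true) :
    (∀ r ∈ RR.flatten, okR dr (tauN ia) (tauN ib) r) ∧ (∀ r ∈ FF.flatten, okF dr (tauN ia) (tauN ib) r) ∧
      (RR.flatten.map (wdR dr)).sum + (FF.flatten.map wdF).sum ≤ W := by
  unfold fack at h
  obtain ⟨h1, h2⟩ := facL_spec (facR_spec dr (tauN ia) (tauN ib)) RR _ _ h
  obtain ⟨h3, h4⟩ := facL_spec (facF_spec dr (tauN ia) (tauN ib)) FF _ _ h2
  rw [Nat.ble_eq, zero_add] at h4
  exact ⟨h1, h3, h4⟩

/-- facts used in the row programs -/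
theorem fack_facts {dr ia ib W : ℕ} {RR FF : List (List ℕ)} (hdr : dr = 2 ^ 88)
    (h : fack dr ia ib W RR FF = true) :
    (∀ r ∈ RR.flatten, RunOK r) ∧ ∀ r ∈ FF.flatten, 1 ≤ fx r := by
  obtain ⟨h1, h2, -⟩ := fack_spec h
  refine ⟨fun r hr => ?_, fun r hr => ?_⟩
  · obtain ⟨a1, a2, a3, -⟩ := h1 r hr
    refine ⟨a1, a2, ?_⟩
    rw [← hdr]
    by_contra hlt
    have h0 : rw' r - 1 - dr / rm r = 0 := by omega
    rw [h0, zero_mul] at a3
    omega
  · obtain ⟨a1, -⟩ := h2 r hr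
    by_contra hlt
    have h0 : fx r = 0 := by omega
    rw [h0, zero_mul] at a1
    omega

/-- the property of a strip -/
private def Gd (TA TB : ℕ) (r : ℝ × ℝ) : Prop :=
  0 < r.1 ∧ (TA : ℝ) * r.1 ≤ 1 ∧ 1 < (TB : ℝ) * r.1 ∧ 0 ≤ r.2

private theorem fac_amhm (m k : ℕ) (hm : 1 ≤ m) (hk : 1 ≤ k) :
    2 * (k : ℝ) / ((2 * m + k - 1 : ℕ) : ℝ) ≤ ∑ q ∈ Ico m (m + k), 1 / (q : ℝ) := by
  have hcs : (∑ q ∈ Ico m (m + k), (1 : ℝ)) ^ 2 ≤
      (∑ q ∈ Ico m (m + k), (q : ℝ)) * ∑ q ∈ Ico m (m + k), 1 / (q : ℝ) := by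
    refine Finset.sum_sq_le_sum_mul_sum_of_sq_le_mul _ (fun q _ => by positivity)
      (fun q _ => by positivity) fun q hq => ?_
    rw [Finset.mem_Ico] at hq
    have : (q : ℝ) ≠ 0 := by
      have : 0 < q := by omega
      positivity
    rw [one_pow, mul_one_div_cancel this]
  have hs : (∑ q ∈ Ico m (m + k), (q : ℝ)) * 2 = k * ((2 * m + k - 1 : ℕ) : ℝ) := by
    have h1 : ((2 * m + k - 1 : ℕ) : ℝ) = 2 * m + k - 1 := by
      rw [Nat.cast_sub (by omega)]
      push_cast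
      ring
    rw [h1]
    clear hcs h1 hk
    induction k with
    | zero => simp
    | succ k ih =>
      rw [← add_assoc, Finset.sum_Ico_succ_top (by omega), add_mul, ih]
      push_cast
      ring
  rw [Finset.sum_const, Nat.card_Ico, nsmul_eq_mul, mul_one, Nat.add_sub_cancel_left] at hcs
  have hk' : (0 : ℝ) < k := by exact_mod_cast hk
  have hp : (0 : ℝ) < ((2 * m + k - 1 : ℕ) : ℝ) := by
    have : 0 < 2 * m + k - 1 := by omega
    exact_mod_cast this
  rw [div_le_iff₀ hp]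
  have h2 : (∑ q ∈ Ico m (m + k), (q : ℝ)) = k * ((2 * m + k - 1 : ℕ) : ℝ) / 2 := by linarith
  rw [h2] at hcs
  have h3 : k * (2 * (k : ℝ)) ≤ k * ((∑ q ∈ Ico m (m + k), 1 / (q : ℝ)) * ((2 * m + k - 1 : ℕ) : ℝ)) := by
    nlinarith
  exact le_of_mul_le_mul_left h3 hk'

private theorem fac_sub_le (a b : ℕ) : (a : ℝ) - b ≤ ((a - b : ℕ) : ℝ) := by
  have h : a ≤ (a - b) + b := by omega
  have h' : (a : ℝ) ≤ ((a - b : ℕ) : ℝ) + b := by exact_mod_cast h
  linarith

private theorem leafR_spec {dr TA TB r : ℕ} (hdr : dr = 2 ^ 88) {G : Multiset (ℝ × ℝ)}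
    (hok : okR dr TA TB r) (h : LeafR r G) :
    (∀ p ∈ G, Gd TA TB p) ∧ (G.map Prod.fst).sum * 2 ^ 88 ≤ ((wdR dr r : ℕ) : ℝ) := by
  obtain ⟨h1, h2, h3, h4⟩ := hok
  obtain ⟨x, hx1, hx2, -, -, rfl⟩ := h
  set k := rk r with hk
  set m := rm r with hm
  set w := rw' r with hw
  have hd : (2 : ℝ) ^ 88 = (dr : ℝ) := by rw [hdr]; norm_num
  rw [hd] at hx1 hx2 ⊢
  have hd0 : (0 : ℝ) < dr := by rw [← hd]; positivity
  have hm0 : (0 : ℝ) < m := by exact_mod_cast h2
  have hfl : ∀ n : ℕ, 0 < n → (dr : ℝ) / n < ((dr / n : ℕ) : ℝ) + 1 := by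
    intro n hn
    have hn' : (0 : ℝ) < n := by exact_mod_cast hn
    rw [div_lt_iff₀ hn', mul_comm]
    exact_mod_cast Nat.lt_mul_div_succ dr hn
  obtain ⟨N1, hN1⟩ : ∃ N1, N1 = w - 1 - dr / m := ⟨_, rfl⟩
  obtain ⟨N2, hN2⟩ : ∃ N2, N2 = w + 1200 - dr / (m + k - 1) := ⟨_, rfl⟩
  obtain ⟨N3, hN3⟩ : ∃ N3, N3 = w + 1200 - 2 * dr / (2 * m + k - 1) := ⟨_, rfl⟩
  rw [← hN1] at h3
  rw [← hN2] at h4
  have hN1p : 1 ≤ N1 := by
    by_contra h0
    have : N1 = 0 := by omega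
    rw [this, zero_mul] at h3
    omega
  have hw1 : (w : ℝ) = N1 + 1 + ((dr / m : ℕ) : ℝ) := by
    have : w = N1 + 1 + dr / m := by omega
    exact_mod_cast this
  have h3' : (dr : ℝ) + 1 ≤ N1 * TB := by exact_mod_cast h3
  have h4' : (N2 : ℝ) * TA ≤ dr := by exact_mod_cast h4
  have hN1' : (1 : ℝ) ≤ N1 := by exact_mod_cast hN1p
  refine ⟨?_, ?_⟩
  · intro p hp
    unfold kids at hp
    rw [Multiset.mem_map] at hp
    obtain ⟨q, hq, rfl⟩ := hp
    rw [Finset.mem_val, Finset.mem_Ico] at hq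
    have hq0 : (0 : ℝ) < q := by
      have : 0 < q := by omega
      exact_mod_cast this
    have hmq : (m : ℝ) ≤ q := by exact_mod_cast hq.1
    have hqk : (q : ℝ) ≤ ((m + k - 1 : ℕ) : ℝ) := by
      have : q ≤ m + k - 1 := by omega
      exact_mod_cast this
    have e0 : (x - 1 / (q : ℝ)) * dr = x * dr - dr / q := by ring
    have e1 : (dr : ℝ) / q ≤ dr / m := div_le_div_of_nonneg_left hd0.le hm0 hmq
    have e2 : (dr : ℝ) / ((m + k - 1 : ℕ) : ℝ) ≤ dr / q := div_le_div_of_nonneg_left hd0.le hq0 hqk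
    have g1 : (N1 : ℝ) < (x - 1 / (q : ℝ)) * dr := by
      rw [e0]
      have := hfl m (by omega)
      linarith
    have g2 : (x - 1 / (q : ℝ)) * dr ≤ N2 := by
      rw [e0]
      have a1 : ((dr / (m + k - 1) : ℕ) : ℝ) ≤ dr / ((m + k - 1 : ℕ) : ℝ) := Nat.cast_div_le
      have a2 := fac_sub_le (w + 1200) (dr / (m + k - 1))
      rw [← hN2] at a2
      push_cast at a2
      linarith
    have hp0 : 0 < x - 1 / (q : ℝ) := by
      by_contra h0
      have := mul_nonpos_of_nonpos_of_nonneg (not_lt.1 h0) hd0.le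
      linarith
    refine ⟨hp0, ?_, ?_, ?_⟩
    · show (TA : ℝ) * (x - 1 / (q : ℝ)) ≤ 1
      have a3 : (TA : ℝ) * (x - 1 / (q : ℝ)) * dr ≤ 1 * dr := by
        have a4 : (TA : ℝ) * ((x - 1 / (q : ℝ)) * dr) ≤ TA * N2 :=
          mul_le_mul_of_nonneg_left g2 (by positivity)
        linarith
      exact le_of_mul_le_mul_right a3 hd0
    · show 1 < (TB : ℝ) * (x - 1 / (q : ℝ))
      have a3 : 1 * (dr : ℝ) < (TB : ℝ) * (x - 1 / (q : ℝ)) * dr := by
        have a4 : (TB : ℝ) * N1 ≤ TB * ((x - 1 / (q : ℝ)) * dr) :=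
          mul_le_mul_of_nonneg_left g1.le (by positivity)
        linarith
      exact lt_of_mul_lt_mul_right a3 hd0.le
    · show 0 ≤ 1 / (q : ℝ)
      positivity
  · unfold kids
    rw [Multiset.map_map]
    have e0 : (Multiset.map (Prod.fst ∘ fun q : ℕ => (x - 1 / (q : ℝ), 1 / (q : ℝ)))
        (Ico m (m + k)).val).sum = ∑ q ∈ Ico m (m + k), (x - 1 / (q : ℝ)) := rfl
    rw [e0, Finset.sum_sub_distrib, Finset.sum_const, Nat.card_Ico, nsmul_eq_mul,
      Nat.add_sub_cancel_left]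
    have a1 := fac_amhm m k h2 h1
    have a2 := fac_sub_le (w + 1200) (2 * dr / (2 * m + k - 1))
    rw [← hN3] at a2
    push_cast at a2
    have a3 : ((2 * dr / (2 * m + k - 1) : ℕ) : ℝ) ≤ ((2 * dr : ℕ) : ℝ) / ((2 * m + k - 1 : ℕ) : ℝ) :=
      Nat.cast_div_le
    have hk0 : (0 : ℝ) ≤ k := by positivity
    unfold wdR
    rw [← hk, ← hm, ← hw, ← hN3]
    have a4 : (dr : ℝ) * (2 * (k : ℝ) / ((2 * m + k - 1 : ℕ) : ℝ)) =
        k * (((2 * dr : ℕ) : ℝ) / ((2 * m + k - 1 : ℕ) : ℝ)) := by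
      push_cast
      ring
    have a5 := mul_le_mul_of_nonneg_left a1 hd0.le
    rw [a4] at a5
    have a6 := mul_le_mul_of_nonneg_left a3 hk0
    have a7 := mul_le_mul_of_nonneg_left a2 hk0
    have a8 := mul_le_mul_of_nonneg_left hx2 hk0
    push_cast at a5 a6 a7 ⊢
    nlinarith

private theorem leafF_spec {dr TA TB r : ℕ} (hdr : dr = 2 ^ 88) {G : Multiset (ℝ × ℝ)}
    (hok : okF dr TA TB r) (h : LeafF r G) :
    (∀ p ∈ G, Gd TA TB p) ∧ (G.map Prod.fst).sum * 2 ^ 88 ≤ ((wdF r : ℕ) : ℝ) := by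
  obtain ⟨h1, h2⟩ := hok
  have hd : (2 : ℝ) ^ 88 = (dr : ℝ) := by rw [hdr]; norm_num
  have hd0 : (0 : ℝ) < dr := by rw [← hd]; positivity
  have h1' : (dr : ℝ) + 1 ≤ fx r * TB := by exact_mod_cast h1
  have h2' : ((fx r : ℝ) + fs r + 1200) * TA ≤ dr := by exact_mod_cast h2
  have hwid := h.wid
  rw [hd] at hwid ⊢
  refine ⟨fun p hp => ?_, ?_⟩
  · obtain ⟨a1, a2⟩ := hwid p hp
    have g1 : (TB : ℝ) * fx r ≤ TB * (p.1 * dr) := mul_le_mul_of_nonneg_left a1 (by positivity)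
    have g2 : (TA : ℝ) * (p.1 * dr) ≤ TA * (fx r + fs r + 1200) :=
      mul_le_mul_of_nonneg_left a2 (by positivity)
    refine ⟨?_, ?_, ?_, h.len p hp⟩
    · by_contra h0
      have h5 := mul_nonpos_of_nonpos_of_nonneg (not_lt.1 h0) hd0.le
      have h6 : (TB : ℝ) * (p.1 * dr) ≤ 0 := mul_nonpos_of_nonneg_of_nonpos (by positivity) h5
      linarith
    · have a3 : (TA : ℝ) * p.1 * dr ≤ 1 * dr := by linarith
      exact le_of_mul_le_mul_right a3 hd0
    · have a3 : 1 * (dr : ℝ) < (TB : ℝ) * p.1 * dr := by linarith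
      exact lt_of_mul_lt_mul_right a3 hd0.le
  · have h3 : ∀ (H : Multiset (ℝ × ℝ)), (∀ p ∈ H, p.1 * dr ≤ fx r + fs r + 1200) →
        (H.map Prod.fst).sum * dr ≤ H.card * ((fx r : ℝ) + fs r + 1200) := by
      intro H
      induction H using Multiset.induction_on with
      | empty => intro _; simp
      | cons a H ih =>
        intro hH
        have b1 := ih fun p hp => hH p (Multiset.mem_cons_of_mem hp)
        have b2 := hH a (Multiset.mem_cons_self a H)
        rw [Multiset.map_cons, Multiset.sum_cons, Multiset.card_cons]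
        push_cast
        linarith
    have h4 := h3 G fun p hp => (hwid p hp).2
    have h5 : (G.card : ℝ) ≤ fn r := by exact_mod_cast h.card
    unfold wdF
    push_cast
    have h6 : (G.card : ℝ) * ((fx r : ℝ) + fs r + 1200) ≤ fn r * ((fx r : ℝ) + fs r + 1200) :=
      mul_le_mul_of_nonneg_right h5 (by positivity)
    linarith

private theorem fac_rel {L : ℕ → Multiset (ℝ × ℝ) → Prop} {ok : ℕ → Prop} {wt : ℕ → ℕ}
    {Q : ℝ × ℝ → Prop}
    (hL : ∀ r G, ok r → L r G → (∀ p ∈ G, Q p) ∧ (G.map Prod.fst).sum * 2 ^ 88 ≤ ((wt r : ℕ) : ℝ))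
    {R : Multiset ℕ} {A : Multiset (Multiset (ℝ × ℝ))} (h : Multiset.Rel L R A) :
    (∀ r ∈ R, ok r) → (∀ p ∈ A.sum, Q p) ∧
      (A.sum.map Prod.fst).sum * 2 ^ 88 ≤ (((R.map wt).sum : ℕ) : ℝ) := by
  induction h with
  | zero =>
    intro _
    refine ⟨fun p hp => absurd hp (by simp), by simp⟩
  | @cons r G R A hrG hRA ih =>
    intro hok
    obtain ⟨h1, h2⟩ := ih fun r hr => hok r (Multiset.mem_cons_of_mem hr)
    obtain ⟨h3, h4⟩ := hL r G (hok r (Multiset.mem_cons_self _ _)) hrG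
    refine ⟨fun p hp => ?_, ?_⟩
    · rw [Multiset.sum_cons, Multiset.mem_add] at hp
      rcases hp with hp | hp
      · exact h3 p hp
      · exact h1 p hp
    · rw [Multiset.sum_cons, Multiset.map_add, Multiset.sum_add, Multiset.map_cons,
        Multiset.sum_cons, Nat.cast_add]
      linarith

/-- the leaves are strips of the windows `ia ≤ i < ib`; total width. (For a run record the sum of the
widths `x - 1 / q` is at most `k x - 2 k ^ 2 / (2 m + k - 1)`, by convexity of `1 / q`.) -/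
theorem fack_sound {dr ia ib W : ℕ} {RR FF : List (List ℕ)} (hdr : dr = 2 ^ 88)
    (h : fack dr ia ib W RR FF = true) {G : Multiset (ℝ × ℝ)}
    (hG : Leaves (RR.flatten : List ℕ) (FF.flatten : List ℕ) G) :
    (∀ r ∈ G, 0 < r.1 ∧ (Eng.tau ia : ℝ) * r.1 ≤ 1 ∧ 1 < (Eng.tau ib : ℝ) * r.1 ∧ 0 ≤ r.2) ∧
      (G.map Prod.fst).sum * 2 ^ 88 ≤ W := by
  obtain ⟨h1, h2, h3⟩ := fack_spec h
  obtain ⟨A, B, hA, hB, rfl⟩ := hG
  obtain ⟨a1, a2⟩ := fac_rel (Q := Gd (tauN ia) (tauN ib))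
    (fun r G hok hL => leafR_spec hdr hok hL) hA (fun r hr => h1 r hr)
  obtain ⟨b1, b2⟩ := fac_rel (Q := Gd (tauN ia) (tauN ib))
    (fun r G hok hL => leafF_spec hdr hok hL) hB (fun r hr => h2 r hr)
  refine ⟨fun r hr => ?_, ?_⟩
  · rw [← tauN_eq, ← tauN_eq]
    rw [Multiset.mem_add] at hr
    rcases hr with hr | hr
    · exact a1 r hr
    · exact b1 r hr
  · rw [Multiset.map_add, Multiset.sum_add]
    rw [Multiset.map_coe, Multiset.sum_coe] at a2 b2
    have h3' : (((RR.flatten.map (wdR dr)).sum : ℕ) : ℝ) + (((FF.flatten.map wdF).sum : ℕ) : ℝ) ≤ W := by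
      exact_mod_cast h3
    linarith

end Pool.Agent.Moser.Ck
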