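import Pool.Agent.Lib_MP_cc07e8_ck.CkSem

/-! # MP_cc07e8_co: memory, record lists, streams (piece TRIE) -/

namespace Pool.Agent.Moser.Ck

theorem force_eq (x : ℕ) (k : ℕ → Bool) : force x k = k x := by
  cases x <;> rfl

theorem br_true {b t e : Bool} (h : br b t e = true) : (b = true ∧ t = true) ∨ (b = false ∧ e = true) := by
  cases b
  · exact Or.inr ⟨rfl, h⟩
  · exact Or.inl ⟨rfl, h⟩

/-- the usual case: the other branch is `false` -/
theorem br_false {b t : Bool} (h : br b t false = true) : b = true ∧ t = true := by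
  cases b
  · exact absurd h (by simp [br])
  · exact ⟨rfl, h⟩

theorem ins_sound {t : Tr} {key w l : ℕ} {c : Tr → Bool} (h : ins t key w l c = true) :
    ∃ t' : Tr, t'.ms = (w, l) ::ₘ t.ms ∧ c t' = true := by
  induction t generalizing key c with
  | e => exact ⟨Tr.l w l, rfl, h⟩
  | l w' l' => exact absurd h (by simp [ins])
  | n a b iha ihb =>
    change Bool.rec (motive := fun _ => Bool)
        (ins b (Nat.shiftRight key 1) w l (fun s => c (Tr.n a s)))
        (ins a (Nat.shiftRight key 1) w l (fun s => c (Tr.n s b)))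
        (Nat.beq (Nat.land key 1) 0) = true at h
    cases hk : Nat.beq (Nat.land key 1) 0 with
    | false =>
      rw [hk] at h
      obtain ⟨t', h1, h2⟩ := ihb h
      refine ⟨Tr.n a t', ?_, h2⟩
      change a.ms + t'.ms = (w, l) ::ₘ (a.ms + b.ms)
      rw [h1, Multiset.add_cons]
    | true =>
      rw [hk] at h
      obtain ⟨t', h1, h2⟩ := iha h
      refine ⟨Tr.n t' b, ?_, h2⟩
      change t'.ms + b.ms = (w, l) ::ₘ (a.ms + b.ms)
      rw [h1, Multiset.cons_add]

theorem ext_sound {t : Tr} {key : ℕ} {c : Tr → ℕ → ℕ → Bool} (h : ext t key c = true) :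
    ∃ (t' : Tr) (w l : ℕ), t.ms = (w, l) ::ₘ t'.ms ∧ c t' w l = true := by
  induction t generalizing key c with
  | e => exact absurd h (by simp [ext])
  | l w l => exact ⟨Tr.e, w, l, rfl, h⟩
  | n a b iha ihb =>
    change Bool.rec (motive := fun _ => Bool)
        (ext b (Nat.shiftRight key 1) (fun s w l => c (Tr.n a s) w l))
        (ext a (Nat.shiftRight key 1) (fun s w l => c (Tr.n s b) w l))
        (Nat.beq (Nat.land key 1) 0) = true at h
    cases hk : Nat.beq (Nat.land key 1) 0 with
    | false =>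
      rw [hk] at h
      obtain ⟨t', w, l, h1, h2⟩ := ihb h
      refine ⟨Tr.n a t', w, l, ?_, h2⟩
      change a.ms + b.ms = (w, l) ::ₘ (a.ms + t'.ms)
      rw [h1, Multiset.add_cons]
    | true =>
      rw [hk] at h
      obtain ⟨t', w, l, h1, h2⟩ := iha h
      refine ⟨Tr.n t' b, w, l, ?_, h2⟩
      change a.ms + b.ms = (w, l) ::ₘ (t'.ms + b.ms)
      rw [h1, Multiset.cons_add]

theorem pop_sound {t : Bt} {key : ℕ} {c : ℕ → Bt → Bool} (h : pop t key c = true) :
    ∃ (x : ℕ) (t' : Bt), t.ms = x ::ₘ t'.ms ∧ c x t' = true := by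
  induction t generalizing key c with
  | l xs =>
    cases xs with
    | nil => exact absurd h (by simp [pop])
    | cons x r =>
      refine ⟨x, Bt.l r, ?_, h⟩
      change ((x :: r : List ℕ) : Multiset ℕ) = x ::ₘ ((r : List ℕ) : Multiset ℕ)
      rw [Multiset.cons_coe]
  | n a b iha ihb =>
    change Bool.rec (motive := fun _ => Bool)
        (pop b (Nat.shiftRight key 1) (fun x s => c x (Bt.n a s)))
        (pop a (Nat.shiftRight key 1) (fun x s => c x (Bt.n s b)))
        (Nat.beq (Nat.land key 1) 0) = true at h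
    cases hk : Nat.beq (Nat.land key 1) 0 with
    | false =>
      rw [hk] at h
      obtain ⟨x, t', h1, h2⟩ := ihb h
      refine ⟨x, Bt.n a t', ?_, h2⟩
      change a.ms + b.ms = x ::ₘ (a.ms + t'.ms)
      rw [h1, Multiset.add_cons]
    | true =>
      rw [hk] at h
      obtain ⟨x, t', h1, h2⟩ := iha h
      refine ⟨x, Bt.n t' b, ?_, h2⟩
      change a.ms + b.ms = x ::ₘ (t'.ms + b.ms)
      rw [h1, Multiset.cons_add]

theorem Tr.empty_sound {t : Tr} (h : t.empty = true) : t.ms = 0 := by
  induction t with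
  | e => rfl
  | l w l => exact absurd h (by simp [Tr.empty])
  | n a b iha ihb =>
    obtain ⟨h1, h2⟩ := br_false (show br a.empty b.empty false = true from h)
    change a.ms + b.ms = 0
    rw [iha h1, ihb h2, add_zero]

theorem Bt.empty_sound {t : Bt} (h : t.empty = true) : t.ms = 0 := by
  induction t with
  | l xs =>
    cases xs with
    | nil => rfl
    | cons x r => exact absurd h (by simp [Bt.empty])
  | n a b iha ihb =>
    obtain ⟨h1, h2⟩ := br_false (show br a.empty b.empty false = true from h)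
    change a.ms + b.ms = 0
    rw [iha h1, ihb h2, add_zero]

theorem Tr.full_ms (k : ℕ) : (Tr.full k).ms = 0 := by
  induction k with
  | zero => rfl
  | succ k ih =>
    change (Tr.full k).ms + (Tr.full k).ms = 0
    rw [ih, add_zero]

theorem hd_sound {xs : List ℕ} {c : ℕ → List ℕ → Bool} (h : hd xs c = true) :
    ∃ x r, xs = x :: r ∧ c x r = true := by
  cases xs with
  | nil => exact absurd h (by simp [hd])
  | cons x r => exact ⟨x, r, rfl, h⟩

theorem stk_sound {n : ℕ} : ∀ {xs st : List ℕ} {c : List ℕ → List ℕ → Bool},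
    stk n xs st c = true → ∃ a b, xs = a ++ b ∧ a.length = n ∧ c b (a.reverse ++ st) = true := by
  induction n with
  | zero =>
    intro xs st c h
    exact ⟨[], xs, rfl, rfl, h⟩
  | succ n ih =>
    intro xs st c h
    obtain ⟨x, r, rfl, h2⟩ := hd_sound (show hd xs (fun x r => stk n r (List.cons x st) c) = true from h)
    obtain ⟨a, b, rfl, h4, h5⟩ := ih h2
    refine ⟨x :: a, b, rfl, by simp [h4], ?_⟩
    rw [List.reverse_cons, List.append_assoc]
    exact h5

theorem nl_sound {xs : List ℕ} (h : nl xs = true) : xs = [] := by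
  cases xs with
  | nil => rfl
  | cons x r => exact absurd h (by simp [nl])

theorem load_sound {xs : List ℕ} : ∀ {a : ℕ} {T : Tr} {k : Tr → Bool}, load xs a T k = true →
    ∃ T' : Tr, T'.ms = ((xs.map unp : List (ℕ × ℕ)) : Multiset (ℕ × ℕ)) + T.ms ∧ k T' = true := by
  induction xs with
  | nil =>
    intro a T k h
    exact ⟨T, by simp, h⟩
  | cons x r ih =>
    intro a T k h
    obtain ⟨T1, h1, h2⟩ := ins_sound (show ins T a (Nat.shiftRight x 128)
      (Nat.land x 340282366920938463463374607431768211455)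
      (fun T' => load r (Nat.succ a) T' k) = true from h)
    obtain ⟨T2, h3, h4⟩ := ih h2
    refine ⟨T2, ?_, h4⟩
    rw [h3, h1, List.map_cons, ← Multiset.cons_coe, Multiset.add_cons, Multiset.cons_add]
    rfl

end Pool.Agent.Moser.Ck
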