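import Pool.Agent.Lib_MP_cc07e8_ck.CkFin
import Pool.Agent.Lib_MP_cc07e8_ck.CkTrie

/-! # MP_cc07e8_co: all row bounds (piece FINS) -/

open Finset

namespace Pool.Agent.Moser.Ck

variable {G : Multiset (ℝ × ℝ)}

/-- the row bounds for one row -/
private def finsP (G : Multiset (ℝ × ℝ)) (k : ℕ) : Prop :=
    (k < 61730 → Eng.XX k G ≤ 0.42) ∧
    (61730 ≤ k → k < 80000 → Eng.XX k G + Eng.YY k G ≤ 0.51) ∧
    (80000 ≤ k → k < 119940 → Eng.XX k G + Eng.YY k G ≤ 0.5602) ∧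
    (119940 ≤ k → k < 160000 → Eng.XX k G + Eng.YY k G ≤ 0.5535) ∧
    (160000 ≤ k → k < 670000 → Eng.XX k G + Eng.YY k G ≤ 0.5538) ∧
    (670000 ≤ k → k < 946000 → Eng.XX k G ≤ 0.09) ∧
    (946000 ≤ k → k < 1600000 → Eng.XX k G ≤ 0.0235) ∧
    (1600000 ≤ k → k < 16000000 → Eng.XX k G ≤ 0.03) ∧
    (16000000 ≤ k → Eng.XX k G ≤ 0.015)

private theorem fins_dropC_cons (ka x i : ℕ) (xs : List ℕ) (c : ℕ → List ℕ → Bool) :
    dropC ka (x :: xs) i c = br (Nat.ble (100 * (i + bn x) ^ 4) (895 * ka ^ 3))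
      (dropC ka xs (i + bn x) c) (c i (x :: xs)) := rfl

private theorem fins_cons (k1 x k i : ℕ) (xs CC : List ℕ) :
    fins k1 (x :: xs) k i CC = dropC k CC i (fun i' CC' =>
      br (fin1 k (k + bn x * bg x) (bV x) i' CC') (fins k1 xs (k + bn x * bg x) i' CC') false) :=
  force_eq (k + bn x * bg x) (fun k' => dropC k CC i (fun i' CC' =>
      br (fin1 k k' (bV x) i' CC') (fins k1 xs k' i' CC') false))

private theorem fins_phi {ka k n j : ℕ} (h : 100 * n ^ 4 ≤ 895 * ka ^ 3) (hk : ka ≤ k)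
    (hj : j < n) : Eng.phi k j = 0 := by
  unfold Eng.phi
  rw [if_neg]
  rintro ⟨h1, -⟩
  have h2 : (j : ℝ) ^ 4 < (n : ℝ) ^ 4 := by
    have : (j : ℝ) < n := by exact_mod_cast hj
    exact pow_lt_pow_left₀ this (Nat.cast_nonneg j) (by norm_num)
  have h3 : (ka : ℝ) ^ 3 ≤ (k : ℝ) ^ 3 := by
    have : (ka : ℝ) ≤ k := by exact_mod_cast hk
    exact pow_le_pow_left₀ (Nat.cast_nonneg ka) this 3
  have h4 : (100 : ℝ) * (n : ℝ) ^ 4 ≤ 895 * (ka : ℝ) ^ 3 := by exact_mod_cast h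
  have h5 : (8.95 : ℝ) = 895 / 100 := by norm_num
  rw [h5] at h1
  linarith

private theorem fins_drop {ka : ℕ} {c : ℕ → List ℕ → Bool} : ∀ (CC : List ℕ) (i : ℕ),
    dropC ka CC i c = true → 10320 ≤ i →
    (∀ k, ka ≤ k → ∀ j, 10320 ≤ j → j < i → Eng.phi k j = 0) →
    CellsOK G i CC → (∀ x ∈ CC, 1 ≤ bn x) → 62000 ≤ cellsEnd i CC →
    ∃ i' CC', c i' CC' = true ∧ 10320 ≤ i' ∧
      (∀ k, ka ≤ k → ∀ j, 10320 ≤ j → j < i' → Eng.phi k j = 0) ∧
      CellsOK G i' CC' ∧ (∀ x ∈ CC', 1 ≤ bn x) ∧ 62000 ≤ cellsEnd i' CC' := by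
  intro CC
  induction CC with
  | nil =>
    intro i h hi hphi hC hb he
    exact ⟨i, [], h, hi, hphi, hC, hb, he⟩
  | cons x xs ih =>
    intro i h hi hphi hC hb he
    rw [fins_dropC_cons] at h
    rcases br_true h with ⟨h1, h2⟩ | ⟨-, h2⟩
    · refine ih (i + bn x) h2 (by omega) ?_ hC.2 (fun y hy => hb y (List.mem_cons_of_mem _ hy)) he
      intro k hk j hj hji
      exact fins_phi (Nat.le_of_ble_eq_true h1) hk hji
    · exact ⟨i, x :: xs, h2, hi, hphi, hC, hb, he⟩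

private theorem fins_main {k1 : ℕ} (hG : ∀ r ∈ G, 0 ≤ r.1 ∧ 0 ≤ r.2) :
    ∀ (BB : List ℕ) (kc i : ℕ) (CC : List ℕ), fins k1 BB kc i CC = true → 10320 ≤ kc → 10320 ≤ i →
    RowsOK G kc BB → rowsEnd kc BB = k1 →
    (∀ k, kc ≤ k → ∀ j, 10320 ≤ j → j < i → Eng.phi k j = 0) →
    CellsOK G i CC → (∀ x ∈ CC, 1 ≤ bn x) → 62000 ≤ cellsEnd i CC →
    ∀ k, kc ≤ k → k < k1 → finsP G k := by
  intro BB
  induction BB with
  | nil =>
    intro kc i CC _ _ _ _ hE _ _ _ _ k hk hk1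
    have : kc = k1 := hE
    omega
  | cons x xs ih =>
    intro kc i CC h hkc hi hR hE hphi hC hb he k hk hk1
    rw [fins_cons] at h
    obtain ⟨i', CC', h1, hi', hphi', hC', hb', he'⟩ := fins_drop CC i h hi hphi hC hb he
    obtain ⟨h2, h3⟩ := br_false h1
    rcases Nat.lt_or_ge k (kc + bn x * bg x) with hlt | hge
    · exact fin1_sound hkc h2 hG hk hlt (hR.1 k hk hlt) (hphi' k hk) hi' hC' hb' he'
    · exact ih (kc + bn x * bg x) i' CC' h3 (by omega) hi' hR.2 hE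
        (fun k' hk' j hj hji => hphi' k' (by omega) j hj hji) hC' hb' he' k hge hk1

private theorem fins_tau_mono {a b : ℕ} (h : a ≤ b) : Eng.tau a ≤ Eng.tau b := by
  unfold Eng.tau
  exact Nat.mul_le_mul_left 64 (Nat.div_le_div_right (Nat.pow_le_pow_left h 3))

private theorem fins_far {k1 k : ℕ} (hG : ∀ r ∈ G, 0 < r.1 ∧ 0 ≤ r.2)
    (hmax : ∀ r ∈ G, 1 < (Eng.tau (k1 - 15) : ℝ) * r.1) (hk1' : 670000 ≤ k1) (hk : k1 ≤ k) :
    Eng.XX k G ≤ 0 := by
  have h1 := XX_le (k := k) (G := G) (by omega) (fun r hr => ⟨(hG r hr).1.le, (hG r hr).2⟩)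
  have h2 : lam (Eng.tau (k - 15)) (Eng.tau (k - 3)) G = 0 := by
    apply lam_zero
    intro r hr
    left
    have h3 : (Eng.tau (k1 - 15) : ℝ) ≤ Eng.tau (k - 15) := by
      exact_mod_cast fins_tau_mono (by omega)
    have h4 := mul_le_mul_of_nonneg_right h3 (hG r hr).1.le
    exact lt_of_lt_of_le (hmax r hr) h4
  rw [h2, mul_zero] at h1
  exact h1

/-- All blocks; `cE ≥ 62000`: the cells cover the support of `phi k` for all rows `k < 670000`
(`48.2 * 670000 ^ 3 < 62000 ^ 4`). -/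
theorem fins_sound {k1 : ℕ} {BB CC : List ℕ} (h : fins k1 BB 10320 10320 CC = true)
    (hG : ∀ r ∈ G, 0 < r.1 ∧ 0 ≤ r.2) (hB : RowsOK G 10320 BB) (hk1 : rowsEnd 10320 BB = k1)
    (hC : CellsOK G 10320 CC) (hC' : ∀ x ∈ CC, 1 ≤ bn x) (hcE : 62000 ≤ cellsEnd 10320 CC)
    (hmax : ∀ r ∈ G, 1 < (Eng.tau (k1 - 15) : ℝ) * r.1) (hk1' : 670000 ≤ k1) : RowB G := by
  have key : ∀ k, 10320 ≤ k → finsP G k := by
    intro k hk
    rcases Nat.lt_or_ge k k1 with hlt | hge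
    · exact fins_main (fun r hr => ⟨(hG r hr).1.le, (hG r hr).2⟩) BB 10320 10320 CC h le_rfl le_rfl
        hB hk1 (fun k' _ j hj hji => absurd hji (by omega)) hC hC' hcE k hk hlt
    · have h0 := fins_far hG hmax hk1' hge
      refine ⟨fun _ => ?_, fun _ _ => ?_, fun _ _ => ?_, fun _ _ => ?_, fun _ _ => ?_,
        fun _ _ => ?_, fun _ _ => ?_, fun _ _ => ?_, fun _ => ?_⟩
      · omega
      · omega
      · omega
      · omega
      · omega
      · linarith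
      · linarith
      · linarith
      · linarith
  constructor
  · intro k h1 h2
    exact (key k h1).1 h2
  · intro k h1 h2
    exact (key k (by omega)).2.1 h1 h2
  · intro k h1 h2
    exact (key k (by omega)).2.2.1 h1 h2
  · intro k h1 h2
    exact (key k (by omega)).2.2.2.1 h1 h2
  · intro k h1 h2
    exact (key k (by omega)).2.2.2.2.1 h1 h2
  · intro k h1 h2
    exact (key k (by omega)).2.2.2.2.2.1 h1 h2
  · intro k h1 h2
    exact (key k (by omega)).2.2.2.2.2.2.1 h1 h2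
  · intro k h1 h2
    exact (key k (by omega)).2.2.2.2.2.2.2.1 h1 h2
  · intro k h1
    exact (key k (by omega)).2.2.2.2.2.2.2.2 h1

end Pool.Agent.Moser.Ck
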