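import Pool.Agent.Lib_MP_cc07e8_ck.CkEnt

/-! # MP_cc07e8_co: queries (piece QV) -/

open Finset

namespace Pool.Agent.Moser.Ck

theorem qv_lam_add (a b : ℝ) (G G' : Multiset (ℝ × ℝ)) :
    lam a b (G + G') = lam a b G + lam a b G' := by
  simp [lam]

/-- One group of strips. -/
theorem qv_one {t M mu J0 lo hi a b : ℕ} {p : ℕ × ℕ} {G : Multiset (ℝ × ℝ)}
    (hab : lo / 2 ^ t ≤ p.1 + J0 + mu → p.1 + J0 < (hi + M) / 2 ^ t + 1 → a ≤ p.1 ∧ p.1 < b)
    (h : EntG t M mu (p.1 + J0, p.2) G) :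
    lam lo hi G * 2 ^ 36 ≤ (if a ≤ p.1 ∧ p.1 < b then p.2 else 0 : ℕ) := by
  obtain ⟨h1, h2⟩ := h
  by_cases hex : ∃ r ∈ G, (lo : ℝ) * r.1 ≤ 1 ∧ 1 < (hi : ℝ) * r.1
  · obtain ⟨r, hr, hr1, hr2⟩ := hex
    obtain ⟨h3, h4⟩ := (h2 r hr).2 lo hi hr1 hr2
    rw [if_pos (hab h3 h4)]
    refine le_trans (mul_le_mul_of_nonneg_right ?_ (by positivity)) h1
    unfold lam
    refine Multiset.sum_map_le_sum_map _ _ fun q hq => ?_
    split_ifs
    · exact le_rfl
    · exact (h2 q hq).1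
  · have h0 : lam lo hi G = 0 := by
      unfold lam
      refine Multiset.sum_eq_zero fun x hx => ?_
      obtain ⟨q, hq, rfl⟩ := Multiset.mem_map.1 hx
      exact if_neg fun hc => hex ⟨q, hq, hc⟩
    rw [h0, zero_mul]
    exact Nat.cast_nonneg _

/-- All groups of strips. -/
theorem qv_part {t M mu J0 lo hi a b : ℕ}
    (hab : ∀ j, lo / 2 ^ t ≤ j + J0 + mu → j + J0 < (hi + M) / 2 ^ t + 1 → a ≤ j ∧ j < b)
    {P : Multiset (ℕ × ℕ)} {D : Multiset (Multiset (ℝ × ℝ))}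
    (h : Multiset.Rel (fun p => EntG t M mu (p.1 + J0, p.2)) P D) :
    lam lo hi D.sum * 2 ^ 36 ≤ (tv (P.filter fun p => a ≤ p.1 ∧ p.1 < b) : ℕ) := by
  induction h with
  | zero => simp [lam, tv]
  | @cons p G P D hpG _ ih =>
    have h1 := qv_one (p := p) (hab p.1) hpG
    rw [Multiset.sum_cons, qv_lam_add, add_mul]
    have h2 : tv ((p ::ₘ P).filter fun p => a ≤ p.1 ∧ p.1 < b) =
        (if a ≤ p.1 ∧ p.1 < b then p.2 else 0) + tv (P.filter fun p => a ≤ p.1 ∧ p.1 < b) := by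
      by_cases hp : a ≤ p.1 ∧ p.1 < b
      · rw [Multiset.filter_cons_of_pos (p := fun q : ℕ × ℕ => a ≤ q.1 ∧ q.1 < b) P hp, if_pos hp]
        simp [tv]
      · rw [Multiset.filter_cons_of_neg (p := fun q : ℕ × ℕ => a ≤ q.1 ∧ q.1 < b) P hp, if_neg hp,
        zero_add]
    rw [h2, Nat.cast_add]
    exact add_le_add h1 ih

/-- A query bounds the length of the strips in an interval of windows. -/
theorem qv_sound {s J0 t M mu lo hi : ℕ} (hs : 1 ≤ s) (hlh : lo ≤ hi) {P P2 : Multiset (ℕ × ℕ)}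
    {D D2 : Multiset (Multiset (ℝ × ℝ))} (hP : tv P + tv P2 + 2 ≤ 2 ^ s)
    (h1 : Multiset.Rel (fun p => EntG t M 0 (p.1 + J0, p.2)) P D)
    (h2 : Multiset.Rel (fun p => EntG t M mu (p.1 + J0, p.2)) P2 D2) :
    lam (Eng.tau lo) (Eng.tau hi) (D.sum + D2.sum) * 2 ^ 36 ≤
      qv s J0 t M mu (pack s P) (pack s P2) lo hi := by
  have hmono : Eng.tau lo ≤ Eng.tau hi := by
    unfold Eng.tau
    exact Nat.mul_le_mul_left _ (Nat.div_le_div_right (Nat.pow_le_pow_left hlh 3))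
  set a := Eng.tau lo / 2 ^ t - J0 with ha
  set b := (Eng.tau hi + M) / 2 ^ t + 1 - J0 with hb
  have hq : qv s J0 t M mu (pack s P) (pack s P2) lo hi =
      rng s (pack s P) a b + rng s (pack s P2) (a - mu) b := by
    show Nat.add _ _ = _
    rw [tauN_eq, tauN_eq]
    have e1 : Nat.sub (Nat.shiftRight (Eng.tau lo) t) J0 = a := by
      rw [ha]
      show (Eng.tau lo >>> t) - J0 = _
      rw [Nat.shiftRight_eq_div_pow]
    have e2 : Nat.sub (Nat.succ (Nat.shiftRight (Nat.add (Eng.tau hi) M) t)) J0 = b := by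
      rw [hb]
      show ((Eng.tau hi + M) >>> t) + 1 - J0 = _
      rw [Nat.shiftRight_eq_div_pow]
    rw [e1, e2]
    rfl
  have hab : a ≤ b := by
    rw [ha, hb]
    have : Eng.tau lo / 2 ^ t ≤ (Eng.tau hi + M) / 2 ^ t :=
      Nat.div_le_div_right (hmono.trans (Nat.le_add_right _ _))
    omega
  rw [hq, rng_eq hs (by omega) hab, rng_eq hs (by omega) (le_trans (Nat.sub_le _ _) hab),
    qv_lam_add, add_mul, Nat.cast_add]
  refine add_le_add (qv_part (t := t) (M := M) (mu := 0) (J0 := J0) ?_ h1)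
    (qv_part (t := t) (M := M) (mu := mu) (J0 := J0) ?_ h2)
  · intro j hj1 hj2
    omega
  · intro j hj1 hj2
    omega

end Pool.Agent.Moser.Ck
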