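import Pool.Agent.Lib_MP_cc07e8_ck.CkEnt

/-! # MP_cc07e8_co: fat records in the row programs (piece ROWF) -/

open Finset

namespace Pool.Agent.Moser.Ck

private theorem rowf_lo {t x : ℕ} {w : ℝ} (ht : t ≤ 80) (hx : 1 ≤ x) (h1 : (x : ℝ) ≤ w * 2 ^ 88)
    (lo : ℕ) (hlo : (lo : ℝ) * w ≤ 1) : lo / 2 ^ t ≤ 2 ^ 88 / 2 ^ t / x := by
  have hpow : 2 ^ 88 / 2 ^ t * 2 ^ t = 2 ^ 88 :=
    Nat.div_mul_cancel (pow_dvd_pow 2 (by omega))
  have h2t : 0 < 2 ^ t := by positivity
  rw [Nat.le_div_iff_mul_le (by omega)]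
  have e1 : lo / 2 ^ t * 2 ^ t ≤ lo := Nat.div_mul_le_self lo (2 ^ t)
  have e2 : (lo : ℝ) * x ≤ 2 ^ 88 := by
    have : (lo : ℝ) * x ≤ lo * (w * 2 ^ 88) := mul_le_mul_of_nonneg_left h1 (by positivity)
    nlinarith
  have e3 : lo * x ≤ 2 ^ 88 := by exact_mod_cast e2
  have e4 : (lo / 2 ^ t * x) * 2 ^ t ≤ (2 ^ 88 / 2 ^ t) * 2 ^ t := by
    rw [hpow]
    calc (lo / 2 ^ t * x) * 2 ^ t = (lo / 2 ^ t * 2 ^ t) * x := by ring
      _ ≤ lo * x := Nat.mul_le_mul_right x e1
      _ ≤ _ := e3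
  exact Nat.le_of_mul_le_mul_right e4 h2t

private theorem rowf_hi {t M X : ℕ} {w : ℝ} (ht : t ≤ 80) (h1 : w * 2 ^ 88 ≤ X)
    (hi : ℕ) (hhi : 1 < (hi : ℝ) * w) : 2 ^ 88 / 2 ^ t / X < (hi + M) / 2 ^ t + 1 := by
  have hpow : 2 ^ 88 / 2 ^ t * 2 ^ t = 2 ^ 88 :=
    Nat.div_mul_cancel (pow_dvd_pow 2 (by omega))
  have h2t : 0 < 2 ^ t := by positivity
  rw [Nat.lt_succ_iff, Nat.le_div_iff_mul_le h2t]
  set A := 2 ^ 88 / 2 ^ t with hA
  set B := A / X with hB
  have e1 : B * X ≤ A := Nat.div_mul_le_self A X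
  have e2 : (B * 2 ^ t) * X ≤ 2 ^ 88 := by
    calc (B * 2 ^ t) * X = (B * X) * 2 ^ t := by ring
      _ ≤ A * 2 ^ t := Nat.mul_le_mul_right _ e1
      _ = _ := hpow
  have r2 : (2 : ℝ) ^ 88 < hi * X := by
    have h3 : (hi : ℝ) * (w * 2 ^ 88) ≤ hi * X := mul_le_mul_of_nonneg_left h1 (by positivity)
    have h4 : (hi : ℝ) * (w * 2 ^ 88) = (hi * w) * 2 ^ 88 := by ring
    rw [h4] at h3
    nlinarith [show (0 : ℝ) < 2 ^ 88 by positivity]
  have r3 : 2 ^ 88 < hi * X := by exact_mod_cast r2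
  have r4 : (B * 2 ^ t) * X < hi * X := lt_of_le_of_lt e2 r3
  have r5 : B * 2 ^ t < hi := lt_of_mul_lt_mul_right r4 (Nat.zero_le X)
  omega

private theorem rowf_touch (x : ℕ) (b : Bool) : touch x b = b := by
  unfold touch
  have : Nat.ble 0 x = true := Nat.ble_eq.mpr (Nat.zero_le x)
  rw [this]

private theorem rowf_br {b t : Bool} (h : br b t false = true) : b = true ∧ t = true := by
  cases b
  · exact absurd h (by simp [br])
  · exact ⟨rfl, h⟩

/-- one fat record -/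
private theorem rowF_sound {dr t s J0 M mu : ℕ} (hdr : dr = 2 ^ 88) (ht : t ≤ 80) (r S S2 tot : ℕ)
    (c : ℕ → ℕ → ℕ → Bool) (hr : 1 ≤ fx r)
    (h : rowF (Nat.shiftRight dr t) s J0 mu r S S2 tot c = true) :
    ∃ P P2 : Multiset (ℕ × ℕ), c (S + pack s P) (S2 + pack s P2) (tot + tv P + tv P2) = true ∧
      ∀ G, LeafF r G →
        ∃ D D2 : Multiset (Multiset (ℝ × ℝ)), G = D.sum + D2.sum ∧
          Multiset.Rel (fun p => EntG t M 0 (p.1 + J0, p.2)) P D ∧
          Multiset.Rel (fun p => EntG t M mu (p.1 + J0, p.2)) P2 D2 := by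
  have ex : Nat.land (Nat.shiftRight r 12) 18446744073709551615 = fx r := by
    rw [fx]
    have : r / 4096 = r >>> 12 := (Nat.shiftRight_eq_div_pow r 12).symm
    rw [this]
    exact Nat.and_two_pow_sub_one_eq_mod (r >>> 12) 64
  have es : Nat.land (Nat.shiftRight r 76) 18446744073709551615 = fs r := by
    rw [fs, ← Nat.shiftRight_eq_div_pow r 76]
    exact Nat.and_two_pow_sub_one_eq_mod (r >>> 76) 64
  have eL : Nat.shiftRight r 140 = fL r := Nat.shiftRight_eq_div_pow r 140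
  have eA : Nat.shiftRight dr t = dr / 2 ^ t := Nat.shiftRight_eq_div_pow dr t
  set A := dr / 2 ^ t with hA
  set x := fx r with hx
  set sp := fs r with hsp
  set L := fL r with hL
  set j1 := A / (x + sp + 1200) with hj1
  set j2 := A / x with hj2
  have h' : br (Nat.ble J0 j1)
        (br (Nat.beq j1 j2)
          (touch (S + L <<< (s * (j1 - J0))) (c (S + L <<< (s * (j1 - J0))) S2 (tot + L)))
          (br (Nat.ble j2 (j1 + mu))
            (touch (S2 + L <<< (s * (j1 - J0))) (c S (S2 + L <<< (s * (j1 - J0))) (tot + L)))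
            false)) false = true := by
    unfold rowF at h
    rw [ex, es, eL, eA] at h
    exact h
  obtain ⟨hJ, h2⟩ := rowf_br h'
  have hJ' : J0 ≤ j1 := Nat.ble_eq.mp hJ
  have hbase : j1 - J0 + J0 = j1 := by omega
  -- the entry is correct whenever `j2 ≤ j1 + mu'`
  have ent : ∀ (mu' : ℕ), j2 ≤ j1 + mu' → ∀ G, LeafF r G → EntG t M mu' (j1, L) G := by
    intro mu' hmu G hG
    refine ⟨hG.tot, fun p hp => ⟨hG.len p hp, fun lo hi hlo hhi => ?_⟩⟩
    obtain ⟨w1, w2⟩ := hG.wid p hp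
    constructor
    · have := rowf_lo ht hr w1 lo hlo
      simp only
      refine le_trans ?_ hmu
      rw [hj2, hA, hdr]
      exact this
    · simp only
      rw [hj1, hA, hdr]
      refine rowf_hi ht ?_ hi hhi
      push_cast
      exact w2
  by_cases hj : j1 = j2
  · have hb : Nat.beq j1 j2 = true := Nat.beq_eq.mpr hj
    rw [hb] at h2
    have h3 : touch (S + L <<< (s * (j1 - J0))) (c (S + L <<< (s * (j1 - J0))) S2 (tot + L)) = true := h2
    rw [rowf_touch] at h3
    refine ⟨{(j1 - J0, L)}, 0, ?_, ?_⟩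
    · have e1 : pack s {(j1 - J0, L)} = L <<< (s * (j1 - J0)) := by
        simp [pack, Nat.shiftLeft_eq]
      have e2 : tv {(j1 - J0, L)} = L := by simp [tv]
      rw [e1, e2, pack_zero, tv_zero, add_zero, add_zero]
      exact h3
    · intro G hG
      refine ⟨{G}, 0, by simp, ?_, by simp⟩
      rw [← Multiset.cons_zero, ← Multiset.cons_zero]
      refine Multiset.Rel.cons ?_ Multiset.Rel.zero
      simp only
      rw [hbase]
      exact ent 0 (by omega) G hG
  · have hb : Nat.beq j1 j2 = false := by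
      rw [← Bool.not_eq_true]
      intro hc
      exact hj (Nat.beq_eq.mp hc)
    rw [hb] at h2
    have h3 : br (Nat.ble j2 (j1 + mu))
            (touch (S2 + L <<< (s * (j1 - J0))) (c S (S2 + L <<< (s * (j1 - J0))) (tot + L)))
            false = true := h2
    obtain ⟨h4, h5⟩ := rowf_br h3
    rw [rowf_touch] at h5
    have h6 : j2 ≤ j1 + mu := Nat.ble_eq.mp h4
    refine ⟨0, {(j1 - J0, L)}, ?_, ?_⟩
    · have e1 : pack s {(j1 - J0, L)} = L <<< (s * (j1 - J0)) := by
        simp [pack, Nat.shiftLeft_eq]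
      have e2 : tv {(j1 - J0, L)} = L := by simp [tv]
      rw [e1, e2, pack_zero, tv_zero, add_zero, add_zero]
      exact h5
    · intro G hG
      refine ⟨0, {G}, by simp, by simp, ?_⟩
      rw [← Multiset.cons_zero, ← Multiset.cons_zero]
      refine Multiset.Rel.cons ?_ Multiset.Rel.zero
      simp only
      rw [hbase]
      exact ent mu h6 G hG

private theorem rowf_comb {t M mu J0 : ℕ} {P P' Q Q' : Multiset (ℕ × ℕ)}
    {G G' : Multiset (ℝ × ℝ)}
    (h : ∃ D D2 : Multiset (Multiset (ℝ × ℝ)), G = D.sum + D2.sum ∧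
      Multiset.Rel (fun p => EntG t M 0 (p.1 + J0, p.2)) P D ∧
      Multiset.Rel (fun p => EntG t M mu (p.1 + J0, p.2)) Q D2)
    (h' : ∃ D D2 : Multiset (Multiset (ℝ × ℝ)), G' = D.sum + D2.sum ∧
      Multiset.Rel (fun p => EntG t M 0 (p.1 + J0, p.2)) P' D ∧
      Multiset.Rel (fun p => EntG t M mu (p.1 + J0, p.2)) Q' D2) :
    ∃ D D2 : Multiset (Multiset (ℝ × ℝ)), G + G' = D.sum + D2.sum ∧
      Multiset.Rel (fun p => EntG t M 0 (p.1 + J0, p.2)) (P + P') D ∧
      Multiset.Rel (fun p => EntG t M mu (p.1 + J0, p.2)) (Q + Q') D2 := by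
  obtain ⟨D, D2, e, r1, r2⟩ := h
  obtain ⟨E, E2, e', r1', r2'⟩ := h'
  refine ⟨D + E, D2 + E2, ?_, r1.add r1', r2.add r2'⟩
  rw [e, e', Multiset.sum_add, Multiset.sum_add]
  abel

private theorem rowf_tot (tot a b c d : ℕ) : tot + a + b + c + d = tot + (a + c) + (b + d) := by
  omega

/-- a list of fat records -/
private theorem rowFs_sound {dr t s J0 M mu : ℕ} (hdr : dr = 2 ^ 88) (ht : t ≤ 80) :
    ∀ (xs : List ℕ) (S S2 tot : ℕ) (c : ℕ → ℕ → ℕ → Bool), (∀ r ∈ xs, 1 ≤ fx r) →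
      rowFs (Nat.shiftRight dr t) s J0 mu xs S S2 tot c = true →
      ∃ P P2 : Multiset (ℕ × ℕ), c (S + pack s P) (S2 + pack s P2) (tot + tv P + tv P2) = true ∧
        ∀ B : Multiset (Multiset (ℝ × ℝ)), Multiset.Rel LeafF (xs : Multiset ℕ) B →
          ∃ D D2 : Multiset (Multiset (ℝ × ℝ)), B.sum = D.sum + D2.sum ∧
            Multiset.Rel (fun p => EntG t M 0 (p.1 + J0, p.2)) P D ∧
            Multiset.Rel (fun p => EntG t M mu (p.1 + J0, p.2)) P2 D2 := by
  intro xs
  induction xs with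
  | nil =>
    intro S S2 tot c _ h
    refine ⟨0, 0, ?_, ?_⟩
    · simp only [pack_zero, tv_zero, add_zero]
      have h' : touch tot (c S S2 tot) = true := h
      rwa [rowf_touch] at h'
    · intro B hB
      have : B = 0 := by
        have := Multiset.card_eq_card_of_rel hB
        simpa using this.symm
      subst this
      exact ⟨0, 0, by simp, by simp, by simp⟩
  | cons x xs ih =>
    intro S S2 tot c hr h
    have h' : rowF (Nat.shiftRight dr t) s J0 mu x S S2 tot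
        (fun S' S2' tot' => rowFs (Nat.shiftRight dr t) s J0 mu xs S' S2' tot' c) = true := h
    obtain ⟨P, Q, h1, h1'⟩ := rowF_sound (M := M) hdr ht x S S2 tot _ (hr x List.mem_cons_self) h'
    obtain ⟨P', Q', h2, h2'⟩ := ih _ _ _ c (fun r hr' => hr r (List.mem_cons_of_mem _ hr')) h1
    refine ⟨P + P', Q + Q', ?_, ?_⟩
    · rw [pack_add, tv_add, pack_add, tv_add, ← rowf_tot, ← add_assoc, ← add_assoc]
      exact h2
    · intro B hB
      have hB2 : Multiset.Rel LeafF (x ::ₘ (xs : Multiset ℕ)) B := hB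
      rw [Multiset.rel_cons_left] at hB2
      obtain ⟨G, B', hG, hB', rfl⟩ := hB2
      rw [Multiset.sum_cons]
      exact rowf_comb (h1' G hG) (h2' B' hB')

theorem rowFL_sound {dr t s J0 M mu : ℕ} (hdr : dr = 2 ^ 88) (ht : t ≤ 80) :
    ∀ (FF : List (List ℕ)) (S S2 tot : ℕ) (c : ℕ → ℕ → ℕ → Bool), (∀ r ∈ FF.flatten, 1 ≤ fx r) →
      rowFL (Nat.shiftRight dr t) s J0 mu FF S S2 tot c = true →
      ∃ P P2 : Multiset (ℕ × ℕ), c (S + pack s P) (S2 + pack s P2) (tot + tv P + tv P2) = true ∧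
        ∀ G, Leaves 0 (FF.flatten : List ℕ) G →
          ∃ D D2 : Multiset (Multiset (ℝ × ℝ)), G = D.sum + D2.sum ∧
            Multiset.Rel (fun p => EntG t M 0 (p.1 + J0, p.2)) P D ∧
            Multiset.Rel (fun p => EntG t M mu (p.1 + J0, p.2)) P2 D2 := by
  have key : ∀ (FF : List (List ℕ)) (S S2 tot : ℕ) (c : ℕ → ℕ → ℕ → Bool),
      (∀ r ∈ FF.flatten, 1 ≤ fx r) →
      rowFL (Nat.shiftRight dr t) s J0 mu FF S S2 tot c = true →
      ∃ P P2 : Multiset (ℕ × ℕ), c (S + pack s P) (S2 + pack s P2) (tot + tv P + tv P2) = true ∧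
        ∀ B : Multiset (Multiset (ℝ × ℝ)), Multiset.Rel LeafF (FF.flatten : Multiset ℕ) B →
          ∃ D D2 : Multiset (Multiset (ℝ × ℝ)), B.sum = D.sum + D2.sum ∧
            Multiset.Rel (fun p => EntG t M 0 (p.1 + J0, p.2)) P D ∧
            Multiset.Rel (fun p => EntG t M mu (p.1 + J0, p.2)) P2 D2 := by
    intro FF
    induction FF with
    | nil =>
      intro S S2 tot c _ h
      refine ⟨0, 0, ?_, ?_⟩
      · simp only [pack_zero, tv_zero, add_zero]
        exact h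
      · intro B hB
        have : B = 0 := by
          have := Multiset.card_eq_card_of_rel hB
          simpa using this.symm
        subst this
        exact ⟨0, 0, by simp, by simp, by simp⟩
    | cons xs FF ih =>
      intro S S2 tot c hr h
      rw [List.flatten_cons] at hr
      have h' : rowFs (Nat.shiftRight dr t) s J0 mu xs S S2 tot
          (fun S' S2' tot' => rowFL (Nat.shiftRight dr t) s J0 mu FF S' S2' tot' c) = true := h
      obtain ⟨P, Q, h1, h1'⟩ := rowFs_sound (M := M) hdr ht xs S S2 tot _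
        (fun r hr' => hr r (List.mem_append_left _ hr')) h'
      obtain ⟨P', Q', h2, h2'⟩ := ih _ _ _ c (fun r hr' => hr r (List.mem_append_right _ hr')) h1
      refine ⟨P + P', Q + Q', ?_, ?_⟩
      · rw [pack_add, tv_add, pack_add, tv_add, ← rowf_tot, ← add_assoc, ← add_assoc]
        exact h2
      · intro B hB
        rw [List.flatten_cons, ← Multiset.coe_add, Multiset.rel_add_left] at hB
        obtain ⟨B1, B2, hB1, hB2, rfl⟩ := hB
        rw [Multiset.sum_add]
        exact rowf_comb (h1' B1 hB1) (h2' B2 hB2)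
  intro FF S S2 tot c hr h
  obtain ⟨P, P2, h1, h2⟩ := key FF S S2 tot c hr h
  refine ⟨P, P2, h1, ?_⟩
  rintro G ⟨A, B, hA, hB, rfl⟩
  have hA0 : A = 0 := by
    have := Multiset.card_eq_card_of_rel hA
    simpa using this.symm
  subst hA0
  rw [Multiset.sum_zero, zero_add]
  exact h2 B hB

end Pool.Agent.Moser.Ck
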