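import Pool.Agent.Lib_MP_cc07e8_ck.CkEnt

/-! # MP_cc07e8_co: run records in the row programs (piece ROWR) -/

open Finset

namespace Pool.Agent.Moser.Ck

/-- the bucket inequalities for an approximate width `y ≤ W ≤ y + 1201` (`W` in units `2 ^ (-88)`) -/
private theorem rowr_bucket {t M hmx y : ℕ} {w : ℝ} (ht : t ≤ 80) (hhm : hmx ≤ 2 ^ 60)
    (hM : hmx * hmx * 1300 ≤ M * 2 ^ 88) (hy : 1 ≤ y) (h1 : (y : ℝ) ≤ w * 2 ^ 88)
    (h2 : w * 2 ^ 88 ≤ y + 1201) (h3 : 1 < (hmx : ℝ) * w) (lo hi : ℕ) (hlo : (lo : ℝ) * w ≤ 1)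
    (hhi : 1 < (hi : ℝ) * w) :
    lo / 2 ^ t ≤ 2 ^ 88 / 2 ^ t / y ∧ 2 ^ 88 / 2 ^ t / y < (hi + M) / 2 ^ t + 1 := by
  have hpow : 2 ^ 88 / 2 ^ t * 2 ^ t = 2 ^ 88 :=
    Nat.div_mul_cancel (pow_dvd_pow 2 (by omega))
  set A := 2 ^ 88 / 2 ^ t with hA
  have h2t : 0 < 2 ^ t := by positivity
  constructor
  · rw [Nat.le_div_iff_mul_le (by omega)]
    have e1 : lo / 2 ^ t * 2 ^ t ≤ lo := Nat.div_mul_le_self lo (2 ^ t)
    have e2 : (lo : ℝ) * y ≤ 2 ^ 88 := by
      have : (lo : ℝ) * y ≤ lo * (w * 2 ^ 88) := mul_le_mul_of_nonneg_left h1 (by positivity)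
      nlinarith
    have e3 : lo * y ≤ 2 ^ 88 := by exact_mod_cast e2
    have e4 : (lo / 2 ^ t * y) * 2 ^ t ≤ A * 2 ^ t := by
      rw [hpow]
      calc (lo / 2 ^ t * y) * 2 ^ t = (lo / 2 ^ t * 2 ^ t) * y := by ring
        _ ≤ lo * y := Nat.mul_le_mul_right y e1
        _ ≤ _ := e3
    exact Nat.le_of_mul_le_mul_right e4 h2t
  · rw [Nat.lt_succ_iff, Nat.le_div_iff_mul_le h2t]
    set B := A / y with hB
    have e1 : B * y ≤ A := Nat.div_mul_le_self A y
    have e2 : (B * 2 ^ t) * y ≤ 2 ^ 88 := by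
      calc (B * 2 ^ t) * y = (B * y) * 2 ^ t := by ring
        _ ≤ A * 2 ^ t := Nat.mul_le_mul_right _ e1
        _ = _ := hpow
    by_contra hcon
    push Not at hcon
    set Z := B * 2 ^ t with hZ
    -- real versions
    set W : ℝ := w * 2 ^ 88 with hW
    have r1 : ((hi : ℝ) + M) * y ≤ 2 ^ 88 := by
      have : (hi + M) * y ≤ 2 ^ 88 := le_trans (Nat.mul_le_mul_right y hcon.le) e2
      exact_mod_cast this
    have r2 : (2 : ℝ) ^ 88 < hi * W := by
      rw [hW]
      have : (hi : ℝ) * (w * 2 ^ 88) = (hi * w) * 2 ^ 88 := by ring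
      rw [this]
      nlinarith [show (0 : ℝ) < 2 ^ 88 by positivity]
    have r3 : (2 : ℝ) ^ 88 < hmx * W := by
      rw [hW]
      have : (hmx : ℝ) * (w * 2 ^ 88) = (hmx * w) * 2 ^ 88 := by ring
      rw [this]
      nlinarith [show (0 : ℝ) < 2 ^ 88 by positivity]
    have r4 : (hmx : ℝ) ≤ 2 ^ 60 := by exact_mod_cast hhm
    have hy' : (1 : ℝ) ≤ y := by exact_mod_cast hy
    have hW0 : 0 < W := by linarith
    have r5 : (2 : ℝ) ^ 28 < W := by
      by_contra hc
      push Not at hc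
      have : (hmx : ℝ) * W ≤ 2 ^ 60 * 2 ^ 28 :=
        mul_le_mul r4 hc hW0.le (by positivity)
      have h88 : (2 : ℝ) ^ 60 * 2 ^ 28 = 2 ^ 88 := by rw [← pow_add]
      rw [h88] at this
      linarith
    have r6 : (M : ℝ) * y < 1201 * hi := by
      have hi0 : (0 : ℝ) ≤ hi := by positivity
      nlinarith
    have hi1 : (hi : ℝ) * y ≤ 2 ^ 88 := by
      have : (0 : ℝ) ≤ (M : ℝ) * y := by positivity
      nlinarith
    have r7 : (M : ℝ) * (y * y) < 1201 * 2 ^ 88 := by nlinarith
    have r8 : 1201 * (W * W) ≤ 1300 * ((y : ℝ) * y) := by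
      have h28 : (2 : ℝ) ^ 28 = 268435456 := by norm_num
      rw [h28] at r5
      nlinarith
    have hM0 : (0 : ℝ) ≤ M := by positivity
    have r9 : (M : ℝ) * (W * W) < 1300 * 2 ^ 88 := by
      have : (M : ℝ) * (1201 * (W * W)) ≤ M * (1300 * ((y : ℝ) * y)) :=
        mul_le_mul_of_nonneg_left r8 hM0
      nlinarith
    have r10 : (hmx : ℝ) * hmx * 1300 ≤ M * 2 ^ 88 := by exact_mod_cast hM
    have hx0 : (0 : ℝ) < hmx := by
      rcases Nat.eq_zero_or_pos hmx with h | h
      · rw [h] at h3; norm_num at h3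
      · exact_mod_cast h
    have r11 : (2 : ℝ) ^ 88 * 2 ^ 88 < (hmx * W) * (hmx * W) :=
      mul_lt_mul'' r3 r3 (by positivity) (by positivity)
    have r12 : (M : ℝ) * (2 ^ 88 * 2 ^ 88) ≤ M * ((hmx * W) * (hmx * W)) :=
      mul_le_mul_of_nonneg_left r11.le hM0
    have r13 : (M : ℝ) * ((hmx * W) * (hmx * W)) < (hmx * hmx) * (1300 * 2 ^ 88) := by
      have : (M : ℝ) * ((hmx * W) * (hmx * W)) = (hmx * hmx) * (M * (W * W)) := by ring
      rw [this]
      exact mul_lt_mul_of_pos_left r9 (by positivity)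
    have r14 : ((hmx : ℝ) * hmx) * (1300 * 2 ^ 88) ≤ M * (2 ^ 88 * 2 ^ 88) := by
      have : ((hmx : ℝ) * hmx) * (1300 * 2 ^ 88) = (hmx * hmx * 1300) * 2 ^ 88 := by ring
      rw [this]
      calc ((hmx : ℝ) * hmx * 1300) * 2 ^ 88 ≤ (M * 2 ^ 88) * 2 ^ 88 :=
            mul_le_mul_of_nonneg_right r10 (by positivity)
        _ = _ := by ring
    linarith

private theorem rowr_kids (x : ℝ) (m k : ℕ) :
    kids x m k = (range k).val.map fun i : ℕ => (x - 1 / ((m + i : ℕ) : ℝ), 1 / ((m + i : ℕ) : ℝ)) := by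
  unfold kids
  have h1 : Ico m (m + k) = (range k).map (addLeftEmbedding m) := by
    rw [range_eq_Ico, Finset.map_add_left_Ico, add_zero]
  rw [h1, Finset.map_val, Multiset.map_map]
  rfl

private theorem rowr_pack {α : Type*} (s len d : ℕ) (f : α → ℕ) (M : Multiset α) :
    pack s (M.map fun i => (f i + d, len)) = (len * pack s (M.map fun i => (f i, 1))) * 2 ^ (s * d) := by
  induction M using Multiset.induction_on with
  | empty => simp [pack]
  | cons a M ih =>
    rw [Multiset.map_cons, Multiset.map_cons, pack_cons, pack_cons, ih]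
    simp only
    rw [mul_add s, pow_add]
    ring

private theorem rowr_tv {α : Type*} (len : ℕ) (f : α → ℕ) (M : Multiset α) :
    tv (M.map fun i => (f i, len)) = len * M.card := by
  unfold tv
  rw [Multiset.map_map]
  have : (Prod.snd ∘ fun i => (f i, len)) = fun _ : α => len := rfl
  rw [this, Multiset.map_const', Multiset.sum_replicate, smul_eq_mul, mul_comm]

/-- one run record -/
private theorem rowR_sound {dr t s J0 M hmx : ℕ} (hdr : dr = 2 ^ 88) (ht : t ≤ 80)
    (hhm : hmx ≤ 2 ^ 60) (hM : hmx * hmx * 1300 ≤ M * dr) (r S tot : ℕ) (c : ℕ → ℕ → Bool)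
    (hr : RunOK r) (h : rowR dr (Nat.shiftRight dr t) s J0 r S tot c = true) :
    ∃ P : Multiset (ℕ × ℕ), c (S + pack s P) (tot + tv P) = true ∧
      ∀ G, LeafR r G → (∀ p ∈ G, 1 < (hmx : ℝ) * p.1) →
        Multiset.Rel (fun p r => Ent t M 0 (p.1 + J0, p.2) r) P G := by
  obtain ⟨hk, hm, hw⟩ := hr
  set k := rk r with hk'
  set m := rm r with hm'
  set w1 := rw' r - 1 with hw1
  set A := dr / 2 ^ t with hA
  set jl := A / (w1 - dr / (m + k - 1)) with hjl
  set len := 2 ^ 36 / m + 1 with hlen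
  have ek : Nat.land r 1048575 = k := by
    rw [hk', rk]
    exact Nat.and_two_pow_sub_one_eq_mod r 20
  have em : Nat.land (Nat.shiftRight r 20) 67108863 = m := by
    rw [hm', rm, ← Nat.shiftRight_eq_div_pow r 20]
    exact Nat.and_two_pow_sub_one_eq_mod (r >>> 20) 26
  have ew : Nat.sub (Nat.shiftRight r 46) 1 = w1 := by
    rw [hw1, rw', ← Nat.shiftRight_eq_div_pow r 46]
    rfl
  have eA : Nat.shiftRight dr t = A := Nat.shiftRight_eq_div_pow dr t
  have h' : br (Nat.ble J0 jl)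
        (touch (S + (len * ksm dr A w1 s jl m k) <<< (s * (jl - J0)))
          (c (S + (len * ksm dr A w1 s jl m k) <<< (s * (jl - J0))) (tot + len * k))) false = true := by
    unfold rowR at h
    rw [ek, em, ew, eA] at h
    exact h
  have hJ : J0 ≤ jl ∧ c (S + (len * ksm dr A w1 s jl m k) <<< (s * (jl - J0))) (tot + len * k) = true := by
    by_cases hb : J0 ≤ jl
    · have hb' : Nat.ble J0 jl = true := Nat.ble_eq.mpr hb
      rw [hb'] at h'
      refine ⟨hb, ?_⟩
      have ht0 : ∀ (x : ℕ) (b : Bool), touch x b = b := by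
        intro x b
        unfold touch
        have : Nat.ble 0 x = true := Nat.ble_eq.mpr (Nat.zero_le x)
        rw [this]
      have h'' : touch (S + (len * ksm dr A w1 s jl m k) <<< (s * (jl - J0)))
          (c (S + (len * ksm dr A w1 s jl m k) <<< (s * (jl - J0))) (tot + len * k)) = true := h'
      rwa [ht0] at h''
    · have hb' : Nat.ble J0 jl = false := by
        rw [← Bool.not_eq_true]
        intro hc
        exact hb (Nat.ble_eq.mp hc)
      rw [hb'] at h'
      exact absurd h' (by simp [br])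
  obtain ⟨hJ, hc⟩ := hJ
  refine ⟨(range k).val.map (fun i => ((A / (w1 - dr / (m + i)) - jl) + (jl - J0), len)), ?_, ?_⟩
  · rw [rowr_pack, rowr_tv, ← ksm_eq, ← Nat.shiftLeft_eq]
    simpa using hc
  · intro G hG hG'
    obtain ⟨x, hx1, hx2, -, hx3, rfl⟩ := hG
    rw [rowr_kids] at hG' ⊢
    rw [Multiset.rel_map]
    apply Multiset.rel_refl_of_refl_on
    intro i hi
    rw [Finset.range_val, Multiset.mem_range] at hi
    have hG'' := hG' _ (Multiset.mem_map_of_mem _ (by
      rw [Finset.range_val, Multiset.mem_range]; exact hi))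
    simp only at hG''
    set q := m + i with hq
    have hq1 : 1 ≤ q := by omega
    have hqr : (1 : ℝ) ≤ (q : ℝ) := by exact_mod_cast hq1
    have hqle : q ≤ m + k - 1 := by omega
    -- the approximate width
    have hdm : dr / q ≤ dr / m := Nat.div_le_div_left (by omega) hm
    have hdm2 : dr / (m + k - 1) ≤ dr / q := Nat.div_le_div_left hqle hq1
    have hw2 : dr / m + 2 ≤ rw' r := by rw [hdr]; exact hw
    have hy1 : 1 ≤ w1 - dr / q := by omega
    have hjlq : jl ≤ A / (w1 - dr / q) := by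
      rw [hjl]
      exact Nat.div_le_div_left (by omega) (by omega)
    have hbk : A / (w1 - dr / q) - jl + (jl - J0) + J0 = A / (w1 - dr / q) := by omega
    refine ⟨?_, ?_⟩
    · -- the length
      simp only
      have h5 : 2 ^ 36 < m * len := by
        rw [hlen]
        have := Nat.lt_mul_div_succ (2 ^ 36) (show 0 < m by omega)
        exact this
      have h6 : (2 : ℝ) ^ 36 ≤ (m : ℝ) * len := by
        have := h5.le
        exact_mod_cast this
      have h7 : (m : ℝ) ≤ q := by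
        have : m ≤ q := by omega
        exact_mod_cast this
      have h8 : (0 : ℝ) ≤ (len : ℝ) := by positivity
      rw [one_div, inv_mul_le_iff₀ (by linarith)]
      nlinarith
    · intro lo hi hlo hhi
      simp only at hlo hhi ⊢
      rw [hbk, Nat.add_zero, hA, hdr]
      rw [hdr] at hM
      have hdm' : 2 ^ 88 / q ≤ 2 ^ 88 / m := by rw [hdr] at hdm; exact hdm
      have hqpos : (0 : ℝ) < (q : ℝ) := by linarith
      have e1 : ((2 ^ 88 / q : ℕ) : ℝ) ≤ 1 / (q : ℝ) * 2 ^ 88 := by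
        have : 2 ^ 88 / q * q ≤ 2 ^ 88 := Nat.div_mul_le_self _ _
        have h9 : ((2 ^ 88 / q : ℕ) : ℝ) * q ≤ 2 ^ 88 := by exact_mod_cast this
        rw [one_div, inv_mul_eq_div, le_div_iff₀ hqpos]
        exact h9
      have e2 : 1 / (q : ℝ) * 2 ^ 88 ≤ ((2 ^ 88 / q : ℕ) : ℝ) + 1 := by
        have : 2 ^ 88 < q * (2 ^ 88 / q + 1) := Nat.lt_mul_div_succ _ (by omega)
        have h9 : (2 : ℝ) ^ 88 ≤ q * (((2 ^ 88 / q : ℕ) : ℝ) + 1) := by
          have := this.le
          exact_mod_cast this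
        rw [one_div, inv_mul_eq_div, div_le_iff₀ hqpos]
        linarith
      have e3 : ((w1 - 2 ^ 88 / q : ℕ) : ℝ) = (rw' r : ℝ) - 1 - ((2 ^ 88 / q : ℕ) : ℝ) := by
        have h9 : w1 - 2 ^ 88 / q + 1 + 2 ^ 88 / q = rw' r := by
          have hw3 : 2 ^ 88 / m + 2 ≤ rw' r := hw
          generalize 2 ^ 88 / q = u at *
          generalize 2 ^ 88 / m = v at *
          omega
        have h10 : ((w1 - 2 ^ 88 / q : ℕ) : ℝ) + 1 + ((2 ^ 88 / q : ℕ) : ℝ) = (rw' r : ℝ) := by
          exact_mod_cast h9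
        linarith
      refine rowr_bucket ht hhm hM (by rw [hdr] at hy1; exact hy1) ?_ ?_ hG'' lo hi hlo hhi
      · rw [e3, sub_mul]; linarith
      · rw [e3, sub_mul]; linarith

/-- a list of run records -/
private theorem rowRs_sound {dr t s J0 M hmx : ℕ} (hdr : dr = 2 ^ 88) (ht : t ≤ 80)
    (hhm : hmx ≤ 2 ^ 60) (hM : hmx * hmx * 1300 ≤ M * dr) :
    ∀ (xs : List ℕ) (S tot : ℕ) (c : ℕ → ℕ → Bool), (∀ r ∈ xs, RunOK r) →
      rowRs dr (Nat.shiftRight dr t) s J0 xs S tot c = true →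
      ∃ P : Multiset (ℕ × ℕ), c (S + pack s P) (tot + tv P) = true ∧
        ∀ A : Multiset (Multiset (ℝ × ℝ)), Multiset.Rel LeafR (xs : Multiset ℕ) A →
          (∀ p ∈ A.sum, 1 < (hmx : ℝ) * p.1) →
          Multiset.Rel (fun p r => Ent t M 0 (p.1 + J0, p.2) r) P A.sum := by
  intro xs
  induction xs with
  | nil =>
    intro S tot c _ h
    refine ⟨0, ?_, ?_⟩
    · rw [pack_zero, tv_zero, add_zero, add_zero]
      have h' : touch tot (c S tot) = true := h
      unfold touch at h'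
      have : Nat.ble 0 tot = true := Nat.ble_eq.mpr (Nat.zero_le tot)
      rw [this] at h'
      exact h'
    · intro A hA _
      have : A = 0 := by
        have := Multiset.card_eq_card_of_rel hA
        simpa using this.symm
      subst this
      simp
  | cons x xs ih =>
    intro S tot c hr h
    have h' : rowR dr (Nat.shiftRight dr t) s J0 x S tot
        (fun S' tot' => rowRs dr (Nat.shiftRight dr t) s J0 xs S' tot' c) = true := h
    obtain ⟨P1, h1, h1'⟩ := rowR_sound hdr ht hhm hM x S tot _ (hr x List.mem_cons_self) h'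
    obtain ⟨P2, h2, h2'⟩ := ih _ _ c (fun r hr' => hr r (List.mem_cons_of_mem _ hr')) h1
    refine ⟨P1 + P2, ?_, ?_⟩
    · rw [pack_add, tv_add, ← add_assoc, ← add_assoc]
      exact h2
    · intro A hA hA'
      have hA2 : Multiset.Rel LeafR (x ::ₘ (xs : Multiset ℕ)) A := hA
      rw [Multiset.rel_cons_left] at hA2
      obtain ⟨G, A', hG, hA'', rfl⟩ := hA2
      rw [Multiset.sum_cons] at hA' ⊢
      refine Multiset.Rel.add (h1' G hG (fun p hp => hA' p (Multiset.mem_add.2 (Or.inl hp))))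
        (h2' A' hA'' (fun p hp => hA' p (Multiset.mem_add.2 (Or.inr hp))))

/-- All run records: the state `S` grows by the packed buckets of the rectangles. -/
theorem rowRL_sound {dr t s J0 M hmx : ℕ} (hdr : dr = 2 ^ 88) (ht : t ≤ 80) (hhm : hmx ≤ 2 ^ 60)
    (hM : hmx * hmx * 1300 ≤ M * dr) :
    ∀ (RR : List (List ℕ)) (S tot : ℕ) (c : ℕ → ℕ → Bool), (∀ r ∈ RR.flatten, RunOK r) →
      rowRL dr (Nat.shiftRight dr t) s J0 RR S tot c = true →
      ∃ P : Multiset (ℕ × ℕ), c (S + pack s P) (tot + tv P) = true ∧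
        ∀ G, Leaves (RR.flatten : List ℕ) 0 G → (∀ r ∈ G, 1 < (hmx : ℝ) * r.1) →
          Multiset.Rel (fun p r => Ent t M 0 (p.1 + J0, p.2) r) P G := by
  -- the statement for multisets of groups
  have key : ∀ (RR : List (List ℕ)) (S tot : ℕ) (c : ℕ → ℕ → Bool), (∀ r ∈ RR.flatten, RunOK r) →
      rowRL dr (Nat.shiftRight dr t) s J0 RR S tot c = true →
      ∃ P : Multiset (ℕ × ℕ), c (S + pack s P) (tot + tv P) = true ∧
        ∀ A : Multiset (Multiset (ℝ × ℝ)), Multiset.Rel LeafR (RR.flatten : Multiset ℕ) A →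
          (∀ p ∈ A.sum, 1 < (hmx : ℝ) * p.1) →
          Multiset.Rel (fun p r => Ent t M 0 (p.1 + J0, p.2) r) P A.sum := by
    intro RR
    induction RR with
    | nil =>
      intro S tot c _ h
      refine ⟨0, ?_, ?_⟩
      · rw [pack_zero, tv_zero, add_zero, add_zero]
        exact h
      · intro A hA _
        have : A = 0 := by
          have := Multiset.card_eq_card_of_rel hA
          simpa using this.symm
        subst this
        simp
    | cons xs RR ih =>
      intro S tot c hr h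
      rw [List.flatten_cons] at hr
      have h' : rowRs dr (Nat.shiftRight dr t) s J0 xs S tot
          (fun S' tot' => rowRL dr (Nat.shiftRight dr t) s J0 RR S' tot' c) = true := h
      obtain ⟨P1, h1, h1'⟩ := rowRs_sound hdr ht hhm hM xs S tot _
        (fun r hr' => hr r (List.mem_append_left _ hr')) h'
      obtain ⟨P2, h2, h2'⟩ := ih _ _ c (fun r hr' => hr r (List.mem_append_right _ hr')) h1
      refine ⟨P1 + P2, ?_, ?_⟩
      · rw [pack_add, tv_add, ← add_assoc, ← add_assoc]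
        exact h2
      · intro A hA hA'
        rw [List.flatten_cons, ← Multiset.coe_add, Multiset.rel_add_left] at hA
        obtain ⟨A1, A2, hA1, hA2, rfl⟩ := hA
        rw [Multiset.sum_add] at hA' ⊢
        refine Multiset.Rel.add (h1' A1 hA1 (fun p hp => hA' p (Multiset.mem_add.2 (Or.inl hp))))
          (h2' A2 hA2 (fun p hp => hA' p (Multiset.mem_add.2 (Or.inr hp))))
  intro RR S tot c hr h
  obtain ⟨P, h1, h2⟩ := key RR S tot c hr h
  refine ⟨P, h1, ?_⟩
  rintro G ⟨A, B, hA, hB, rfl⟩ hG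
  have hB0 : B = 0 := by
    have := Multiset.card_eq_card_of_rel hB
    simpa using this.symm
  subst hB0
  rw [Multiset.sum_zero, add_zero] at hG ⊢
  exact h2 A hA hG

end Pool.Agent.Moser.Ck
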