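import Pool.Agent.Lib_MP_cc07e8_ck.CkTrie
import Pool.Agent.Lib_MP_cc07e8_ck.CkRowR
import Pool.Agent.Lib_MP_cc07e8_ck.CkRowF
import Pool.Agent.Lib_MP_cc07e8_ck.CkQv

/-! # MP_cc07e8_co: soundness of a row module (piece ROWCK) -/

open Finset

namespace Pool.Agent.Moser.Ck

private theorem rowck_tau_mono {a b : ℕ} (h : a ≤ b) : Eng.tau a ≤ Eng.tau b := by
  unfold Eng.tau
  exact Nat.mul_le_mul_left _ (Nat.div_le_div_right (Nat.pow_le_pow_left h 3))

private theorem rowck_lam_mono {a b a' b' : ℝ} {G : Multiset (ℝ × ℝ)} (hG : ∀ r ∈ G, 0 ≤ r.2)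
    (ha : a' ≤ a) (hb0 : 0 ≤ b) (hb : b ≤ b') : lam a b G ≤ lam a' b' G := by
  unfold lam
  refine Multiset.sum_map_le_sum_map _ _ fun r hr => ?_
  by_cases h1 : a * r.1 ≤ 1 ∧ 1 < b * r.1
  · have hr1 : 0 < r.1 := by
      by_contra hc
      have := mul_nonpos_of_nonneg_of_nonpos hb0 (not_lt.1 hc)
      linarith [h1.2]
    have h2 : a' * r.1 ≤ 1 ∧ 1 < b' * r.1 :=
      ⟨le_trans (mul_le_mul_of_nonneg_right ha hr1.le) h1.1,
        lt_of_lt_of_le h1.2 (mul_le_mul_of_nonneg_right hb hr1.le)⟩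
    rw [if_pos h1, if_pos h2]
  · rw [if_neg h1]
    split_ifs
    · exact hG r hr
    · exact le_refl _

private theorem rowck_rowB {s J0 t M mu S S2 k0 g V : ℕ} : ∀ n : ℕ,
    rowB s J0 t M mu S S2 k0 g V n = true → ∀ j < n,
      qv s J0 t M mu S S2 (k0 + g * j - 15) (k0 + g * j - 4 + g) ≤ V := by
  intro n
  induction n with
  | zero => intro _ j hj; omega
  | succ n ih =>
    intro h j hj
    obtain ⟨h1, h2⟩ := br_false (show br (Nat.ble (qv s J0 t M mu S S2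
      (Nat.sub (Nat.add k0 (Nat.mul g n)) 15) (Nat.add (Nat.sub (Nat.add k0 (Nat.mul g n)) 4) g)) V)
      (rowB s J0 t M mu S S2 k0 g V n) false = true from h)
    rcases Nat.lt_succ_iff_lt_or_eq.1 hj with h3 | h3
    · exact ih h2 j h3
    · subst h3
      exact Nat.le_of_ble_eq_true h1

private theorem rowck_rows {s J0 t M mu S S2 : ℕ} {G : Multiset (ℝ × ℝ)} (hG : ∀ r ∈ G, 0 ≤ r.2)
    (hq : ∀ lo hi : ℕ, lo ≤ hi → lam (Eng.tau lo) (Eng.tau hi) G * 2 ^ 36 ≤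
      qv s J0 t M mu S S2 lo hi) (c : ℕ → Bool) : ∀ (xs : List ℕ) (k : ℕ), 15 ≤ k →
    rowBs s J0 t M mu S S2 xs k c = true → RowsOK G k xs ∧ c (rowsEnd k xs) = true := by
  intro xs
  induction xs with
  | nil => intro k _ h; exact ⟨trivial, h⟩
  | cons x xs ih =>
    intro k hk h
    obtain ⟨h1, h2⟩ := br_false (show br (rowB s J0 t M mu S S2 k (bg x) (bV x) (bn x))
      (force (k + bn x * bg x) (fun k' => rowBs s J0 t M mu S S2 xs k' c)) false = true from h)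
    rw [force_eq] at h2
    obtain ⟨h3, h4⟩ := ih _ (le_trans hk (Nat.le_add_right _ _)) h2
    refine ⟨⟨fun k' hk1 hk2 => ?_, h3⟩, h4⟩
    have hg : 0 < bg x := by
      rcases Nat.eq_zero_or_pos (bg x) with h0 | h0
      · rw [h0, mul_zero] at hk2; omega
      · exact h0
    have hj : (k' - k) / bg x < bn x := by
      rw [Nat.div_lt_iff_lt_mul hg]; omega
    have h5 := rowck_rowB _ h1 _ hj
    set j := (k' - k) / bg x with hjd
    have h6 : bg x * j ≤ k' - k := Nat.mul_div_le _ _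
    have h7 : k' - k < bg x * j + bg x := by
      have := Nat.lt_mul_div_succ (k' - k) hg
      rw [Nat.mul_add, mul_one] at this
      exact this
    have h8 : k + bg x * j - 15 ≤ k' - 15 := by omega
    have h9 : k' - 3 ≤ k + bg x * j - 4 + bg x := by omega
    have h10 : k + bg x * j - 15 ≤ k + bg x * j - 4 + bg x := by omega
    have h11 := hq _ _ h10
    have h12 : lam (Eng.tau (k' - 15)) (Eng.tau (k' - 3)) G ≤
        lam (Eng.tau (k + bg x * j - 15)) (Eng.tau (k + bg x * j - 4 + bg x)) G :=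
      rowck_lam_mono hG (by exact_mod_cast rowck_tau_mono h8) (Nat.cast_nonneg _)
        (by exact_mod_cast rowck_tau_mono h9)
    have h13 : ((qv s J0 t M mu S S2 (k + bg x * j - 15) (k + bg x * j - 4 + bg x) : ℕ) : ℝ) ≤
        ((bV x : ℕ) : ℝ) := by exact_mod_cast h5
    have h14 := mul_le_mul_of_nonneg_right h12 (show (0 : ℝ) ≤ 2 ^ 36 by positivity)
    exact h14.trans (h11.trans h13)

private theorem rowck_cells {s J0 t M mu S S2 : ℕ} {G : Multiset (ℝ × ℝ)}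
    (hq : ∀ lo hi : ℕ, lo ≤ hi → lam (Eng.tau lo) (Eng.tau hi) G * 2 ^ 36 ≤
      qv s J0 t M mu S S2 lo hi) (c : ℕ → Bool) : ∀ (xs : List ℕ) (i : ℕ),
    rowCs s J0 t M mu S S2 xs i c = true → CellsOK G i xs ∧ c (cellsEnd i xs) = true := by
  intro xs
  induction xs with
  | nil => intro i h; exact ⟨trivial, h⟩
  | cons x xs ih =>
    intro i h
    obtain ⟨h1, h2⟩ := br_false (show br (Nat.ble (qv s J0 t M mu S S2 i (i + bn x)) (x >>> 20))
      (force (i + bn x) (fun i' => rowCs s J0 t M mu S S2 xs i' c)) false = true from h)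
    rw [force_eq] at h2
    obtain ⟨h3, h4⟩ := ih _ h2
    refine ⟨⟨?_, h3⟩, h4⟩
    have h5 := hq i (i + bn x) (Nat.le_add_right _ _)
    have h6 : ((qv s J0 t M mu S S2 i (i + bn x) : ℕ) : ℝ) ≤ ((x >>> 20 : ℕ) : ℝ) := by
      exact_mod_cast Nat.le_of_ble_eq_true h1
    exact h5.trans h6

private theorem rowck_leaves_nonneg {R : Multiset ℕ} {G : Multiset (ℝ × ℝ)}
    {A : Multiset (Multiset (ℝ × ℝ))} (hA : Multiset.Rel LeafR R A) (hG : G = A.sum) :
    ∀ r ∈ G, 0 ≤ r.2 := by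
  induction hA generalizing G with
  | zero => intro r hr; rw [hG, Multiset.sum_zero] at hr; exact absurd hr (Multiset.notMem_zero r)
  | cons hab _ ih =>
    intro r hr
    rw [hG, Multiset.sum_cons, Multiset.mem_add] at hr
    rcases hr with hr | hr
    · obtain ⟨x, -, -, -, -, h5⟩ := hab
      rw [h5] at hr
      obtain ⟨q, -, hq⟩ := Multiset.mem_map.1 hr
      rw [← hq]
      exact one_div_nonneg.2 (Nat.cast_nonneg _)
    · exact ih rfl r hr

private theorem rowck_sum_singleton (G : Multiset (ℝ × ℝ)) :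
    (G.map fun r => ({r} : Multiset (ℝ × ℝ))).sum = G := by
  induction G using Multiset.induction_on with
  | empty => rfl
  | cons r G ih => rw [Multiset.map_cons, Multiset.sum_cons, ih]; rfl

/-- the row module -/
theorem rowck_sound {dr s J0 t M mu hmax : ℕ} {RR FF : List (List ℕ)} {k0 k1 : ℕ} {BB : List ℕ}
    {i0 i1 : ℕ} {CC : List ℕ} (hdr : dr = 2 ^ 88) (hs : 1 ≤ s) (ht : t ≤ 80) (hhm : hmax ≤ 10 ^ 7)
    (hk0 : 15 ≤ k0) (hR : ∀ r ∈ RR.flatten, RunOK r) (hF : ∀ r ∈ FF.flatten, 1 ≤ fx r)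
    (h : rowck dr s J0 t M mu hmax RR FF k0 k1 BB i0 i1 CC = true) {G : Multiset (ℝ × ℝ)}
    (hG : Leaves (RR.flatten : List ℕ) (FF.flatten : List ℕ) G)
    (hG' : ∀ r ∈ G, 1 < (Eng.tau hmax : ℝ) * r.1) :
    RowsOK G k0 BB ∧ rowsEnd k0 BB = k1 ∧ CellsOK G i0 CC ∧ cellsEnd i0 CC = i1 := by
  obtain ⟨h1, h2⟩ := br_false (show br (Nat.ble (Nat.mul (Nat.mul (tauN hmax) (tauN hmax)) 1300)
    (Nat.mul M dr)) (rowRL dr (Nat.shiftRight dr t) s J0 RR 0 0 (fun S tot =>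
      rowFL (Nat.shiftRight dr t) s J0 mu FF S 0 tot (fun S S2 tot =>
        br (Nat.ble (Nat.add tot 2) (Nat.shiftLeft 1 s))
          (rowBs s J0 t M mu S S2 BB k0 (fun k => br (Nat.beq k k1)
            (rowCs s J0 t M mu S S2 CC i0 (fun i => Nat.beq i i1)) false)) false))) false = true from h)
  have hM : Eng.tau hmax * Eng.tau hmax * 1300 ≤ M * dr := by
    have := Nat.le_of_ble_eq_true h1
    rw [← tauN_eq]
    exact this
  have hhm' : Eng.tau hmax ≤ 2 ^ 60 := by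
    have h3 : hmax ^ 3 ≤ (10 ^ 7) ^ 3 := Nat.pow_le_pow_left hhm 3
    unfold Eng.tau
    have h4 : hmax ^ 3 / 1728000 ≤ (10 ^ 7) ^ 3 / 1728000 := Nat.div_le_div_right h3
    have h5 : 64 * (hmax ^ 3 / 1728000) ≤ 64 * ((10 ^ 7) ^ 3 / 1728000) := Nat.mul_le_mul_left _ h4
    refine h5.trans ?_
    norm_num
  obtain ⟨P, hc, hP⟩ := rowRL_sound hdr ht hhm' hM RR 0 0 _ hR h2
  obtain ⟨P', P2, hc', hP'⟩ := rowFL_sound (M := M) hdr ht FF _ 0 _ _ hF hc
  obtain ⟨A, B, hA, hB, hGAB⟩ := hG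
  obtain ⟨D, D2, hD, hR1, hR2⟩ := hP' B.sum ⟨0, B, Multiset.Rel.zero, hB, by simp⟩
  have hAG : ∀ r ∈ A.sum, r ∈ G := fun r hr => by
    rw [hGAB]; exact Multiset.mem_add.2 (Or.inl hr)
  have hRA := hP A.sum ⟨A, 0, hA, Multiset.Rel.zero, by simp⟩ fun r hr => hG' r (hAG r hr)
  have hA0 : ∀ r ∈ A.sum, 0 ≤ r.2 := rowck_leaves_nonneg hA rfl
  have hRA' : Multiset.Rel (fun p => EntG t M 0 (p.1 + J0, p.2)) P
      (A.sum.map fun r => ({r} : Multiset (ℝ × ℝ))) := by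
    rw [Multiset.rel_map_right]
    refine hRA.mono fun p _ r hr hpr => ?_
    refine ⟨?_, fun r' hr' => ?_⟩
    · rw [Multiset.map_singleton, Multiset.sum_singleton]
      exact hpr.1
    · rw [Multiset.mem_singleton.1 hr']
      exact ⟨hA0 r hr, hpr.2⟩
  have hE1 : Multiset.Rel (fun p => EntG t M 0 (p.1 + J0, p.2)) (P + P')
      ((A.sum.map fun r => ({r} : Multiset (ℝ × ℝ))) + D) := hRA'.add hR1
  have hGsum : G = ((A.sum.map fun r => ({r} : Multiset (ℝ × ℝ))) + D).sum + D2.sum := by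
    rw [Multiset.sum_add, rowck_sum_singleton, hGAB, hD, add_assoc]
  have hpack : pack s P + pack s P' = pack s (P + P') := by
    unfold pack
    rw [Multiset.map_add, Multiset.sum_add]
  have htv : tv (P + P') = tv P + tv P' := by
    unfold tv
    rw [Multiset.map_add, Multiset.sum_add]
  simp only [zero_add, hpack] at hc'
  obtain ⟨h3, h4⟩ := br_false hc'
  have h5 : tv (P + P') + tv P2 + 2 ≤ 2 ^ s := by
    have := Nat.le_of_ble_eq_true h3
    rw [← Nat.one_shiftLeft, htv]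
    have h6 : tv P + tv P' + tv P2 + 2 ≤ 1 <<< s := this
    omega
  have hq : ∀ lo hi : ℕ, lo ≤ hi → lam (Eng.tau lo) (Eng.tau hi) G * 2 ^ 36 ≤
      qv s J0 t M mu (pack s (P + P')) (pack s P2) lo hi := by
    intro lo hi hlh
    rw [hGsum]
    exact qv_sound hs hlh h5 hE1 hR2
  have hrel : ∀ {p : ℕ → ℕ} {R : ℕ × ℕ → Multiset (ℝ × ℝ) → Prop} {Q : Multiset (ℕ × ℕ)}
      {E : Multiset (Multiset (ℝ × ℝ))}, Multiset.Rel R Q E →
      (∀ q H, R q H → ∀ r ∈ H, (0 : ℝ) ≤ r.2) → ∀ r ∈ E.sum, (0 : ℝ) ≤ r.2 := by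
    intro p R Q E hQE hR
    induction hQE with
    | zero => intro r hr; rw [Multiset.sum_zero] at hr; exact absurd hr (Multiset.notMem_zero r)
    | cons hab _ ih =>
      intro r hr
      rw [Multiset.sum_cons, Multiset.mem_add] at hr
      rcases hr with hr | hr
      · exact hR _ _ hab r hr
      · exact ih r hr
  have hG0 : ∀ r ∈ G, 0 ≤ r.2 := by
    intro r hr
    rw [hGsum, Multiset.mem_add] at hr
    rcases hr with hr | hr
    · exact hrel (p := id) hE1 (fun q H hH r hr => (hH.2 r hr).1) r hr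
    · exact hrel (p := id) hR2 (fun q H hH r hr => (hH.2 r hr).1) r hr
  obtain ⟨h6, h7⟩ := rowck_rows hG0 hq _ BB k0 hk0 h4
  obtain ⟨h8, h9⟩ := br_false h7
  obtain ⟨h10, h11⟩ := rowck_cells hq _ CC i0 h9
  exact ⟨h6, Nat.eq_of_beq_eq_true h8, h10, Nat.eq_of_beq_eq_true h11⟩

end Pool.Agent.Moser.Ck
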