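import Pool.Agent.Lib_MP_cc07e8_ck.CkRow2Defs
import Pool.Agent.Lib_MP_cc07e8_ck.CkRowck

/-! # MP_cc07e8_co: row modules with clipping (piece ROW2)

Same statement as `rowck_sound`, without the condition that all strips are below `hmax`. Records (or parts
of them) whose buckets are outside of `[J0, J1)` are left out; they are not in any window interval
`[lo, hi)` asked for, because `J0 ≤ Jq ≤ tau lo / 2 ^ t` and `(tau hi + M) / 2 ^ t < J1` (`hi ≤ hmax`).

Run records: `w1 = w' - 1`, bucket of the square `q` is `j q = A / (w1 - dr / q)` (decreasing in `q`).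
`q ≥ dr / (w1 - wl) + 1` iff `w1 - dr / q > wl = A / J1` iff `j q < J1`, and `q ≤ dr / (w1 - wh)` iff
`w1 - dr / q ≤ wh = A / J0` iff `J0 ≤ j q`. So exactly the squares with `J0 ≤ j q < J1` are entered. The
groups of the entries are single strips, or empty if the strip is above `hmax`. -/

open Finset

namespace Pool.Agent.Moser.Ck

/-- the bucket inequalities for an approximate width `y ≤ W ≤ y + 1201` (`W` in units `2 ^ (-88)`) -/
private theorem row2_bucket {t M hmx y : ℕ} {w : ℝ} (ht : t ≤ 80) (hhm : hmx ≤ 2 ^ 60)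
    (hM : hmx * hmx * 1300 ≤ M * 2 ^ 88) (hy : 1 ≤ y) (h1 : (y : ℝ) ≤ w * 2 ^ 88)
    (h2 : w * 2 ^ 88 ≤ y + 1201) (h3 : 1 < (hmx : ℝ) * w) (lo hi : ℕ) (hlo : (lo : ℝ) * w ≤ 1)
    (hhi : 1 < (hi : ℝ) * w) :
    lo / 2 ^ t ≤ 2 ^ 88 / 2 ^ t / y ∧ 2 ^ 88 / 2 ^ t / y < (hi + M) / 2 ^ t + 1 := by
  have hpow : 2 ^ 88 / 2 ^ t * 2 ^ t = 2 ^ 88 :=
    Nat.div_mul_cancel (pow_dvd_pow 2 (by omega))
  set A := 2 ^ 88 / 2 ^ t with hA
  have h2t : 0 < 2 ^ t := by positivity
  constructor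
  · rw [Nat.le_div_iff_mul_le (by omega)]
    have e1 : lo / 2 ^ t * 2 ^ t ≤ lo := Nat.div_mul_le_self lo (2 ^ t)
    have e2 : (lo : ℝ) * y ≤ 2 ^ 88 := by
      have : (lo : ℝ) * y ≤ lo * (w * 2 ^ 88) := mul_le_mul_of_nonneg_left h1 (by positivity)
      nlinarith
    have e3 : lo * y ≤ 2 ^ 88 := by exact_mod_cast e2
    have e4 : (lo / 2 ^ t * y) * 2 ^ t ≤ A * 2 ^ t := by
      rw [hpow]
      calc (lo / 2 ^ t * y) * 2 ^ t = (lo / 2 ^ t * 2 ^ t) * y := by ring
        _ ≤ lo * y := Nat.mul_le_mul_right y e1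
        _ ≤ _ := e3
    exact Nat.le_of_mul_le_mul_right e4 h2t
  · rw [Nat.lt_succ_iff, Nat.le_div_iff_mul_le h2t]
    set B := A / y with hB
    have e1 : B * y ≤ A := Nat.div_mul_le_self A y
    have e2 : (B * 2 ^ t) * y ≤ 2 ^ 88 := by
      calc (B * 2 ^ t) * y = (B * y) * 2 ^ t := by ring
        _ ≤ A * 2 ^ t := Nat.mul_le_mul_right _ e1
        _ = _ := hpow
    by_contra hcon
    push Not at hcon
    set Z := B * 2 ^ t with hZ
    -- real versions
    set W : ℝ := w * 2 ^ 88 with hW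
    have r1 : ((hi : ℝ) + M) * y ≤ 2 ^ 88 := by
      have : (hi + M) * y ≤ 2 ^ 88 := le_trans (Nat.mul_le_mul_right y hcon.le) e2
      exact_mod_cast this
    have r2 : (2 : ℝ) ^ 88 < hi * W := by
      rw [hW]
      have : (hi : ℝ) * (w * 2 ^ 88) = (hi * w) * 2 ^ 88 := by ring
      rw [this]
      nlinarith [show (0 : ℝ) < 2 ^ 88 by positivity]
    have r3 : (2 : ℝ) ^ 88 < hmx * W := by
      rw [hW]
      have : (hmx : ℝ) * (w * 2 ^ 88) = (hmx * w) * 2 ^ 88 := by ring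
      rw [this]
      nlinarith [show (0 : ℝ) < 2 ^ 88 by positivity]
    have r4 : (hmx : ℝ) ≤ 2 ^ 60 := by exact_mod_cast hhm
    have hy' : (1 : ℝ) ≤ y := by exact_mod_cast hy
    have hW0 : 0 < W := by linarith
    have r5 : (2 : ℝ) ^ 28 < W := by
      by_contra hc
      push Not at hc
      have : (hmx : ℝ) * W ≤ 2 ^ 60 * 2 ^ 28 :=
        mul_le_mul r4 hc hW0.le (by positivity)
      have h88 : (2 : ℝ) ^ 60 * 2 ^ 28 = 2 ^ 88 := by rw [← pow_add]
      rw [h88] at this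
      linarith
    have r6 : (M : ℝ) * y < 1201 * hi := by
      have hi0 : (0 : ℝ) ≤ hi := by positivity
      nlinarith
    have hi1 : (hi : ℝ) * y ≤ 2 ^ 88 := by
      have : (0 : ℝ) ≤ (M : ℝ) * y := by positivity
      nlinarith
    have r7 : (M : ℝ) * (y * y) < 1201 * 2 ^ 88 := by nlinarith
    have r8 : 1201 * (W * W) ≤ 1300 * ((y : ℝ) * y) := by
      have h28 : (2 : ℝ) ^ 28 = 268435456 := by norm_num
      rw [h28] at r5
      nlinarith
    have hM0 : (0 : ℝ) ≤ M := by positivity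
    have r9 : (M : ℝ) * (W * W) < 1300 * 2 ^ 88 := by
      have : (M : ℝ) * (1201 * (W * W)) ≤ M * (1300 * ((y : ℝ) * y)) :=
        mul_le_mul_of_nonneg_left r8 hM0
      nlinarith
    have r10 : (hmx : ℝ) * hmx * 1300 ≤ M * 2 ^ 88 := by exact_mod_cast hM
    have hx0 : (0 : ℝ) < hmx := by
      rcases Nat.eq_zero_or_pos hmx with h | h
      · rw [h] at h3; norm_num at h3
      · exact_mod_cast h
    have r11 : (2 : ℝ) ^ 88 * 2 ^ 88 < (hmx * W) * (hmx * W) :=
      mul_lt_mul'' r3 r3 (by positivity) (by positivity)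
    have r12 : (M : ℝ) * (2 ^ 88 * 2 ^ 88) ≤ M * ((hmx * W) * (hmx * W)) :=
      mul_le_mul_of_nonneg_left r11.le hM0
    have r13 : (M : ℝ) * ((hmx * W) * (hmx * W)) < (hmx * hmx) * (1300 * 2 ^ 88) := by
      have : (M : ℝ) * ((hmx * W) * (hmx * W)) = (hmx * hmx) * (M * (W * W)) := by ring
      rw [this]
      exact mul_lt_mul_of_pos_left r9 (by positivity)
    have r14 : ((hmx : ℝ) * hmx) * (1300 * 2 ^ 88) ≤ M * (2 ^ 88 * 2 ^ 88) := by
      have : ((hmx : ℝ) * hmx) * (1300 * 2 ^ 88) = (hmx * hmx * 1300) * 2 ^ 88 := by ring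
      rw [this]
      calc ((hmx : ℝ) * hmx * 1300) * 2 ^ 88 ≤ (M * 2 ^ 88) * 2 ^ 88 :=
            mul_le_mul_of_nonneg_right r10 (by positivity)
        _ = _ := by ring
    linarith

private theorem row2_kids (x : ℝ) (m k : ℕ) :
    kids x m k = (range k).val.map fun i : ℕ => (x - 1 / ((m + i : ℕ) : ℝ), 1 / ((m + i : ℕ) : ℝ)) := by
  unfold kids
  have h1 : Ico m (m + k) = (range k).map (addLeftEmbedding m) := by
    rw [range_eq_Ico, Finset.map_add_left_Ico, add_zero]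
  rw [h1, Finset.map_val, Multiset.map_map]
  rfl

private theorem row2_pack {α : Type*} (s len d : ℕ) (f : α → ℕ) (M : Multiset α) :
    pack s (M.map fun i => (f i + d, len)) = (len * pack s (M.map fun i => (f i, 1))) * 2 ^ (s * d) := by
  induction M using Multiset.induction_on with
  | empty => simp [pack]
  | cons a M ih =>
    rw [Multiset.map_cons, Multiset.map_cons, pack_cons, pack_cons, ih]
    simp only
    rw [mul_add s, pow_add]
    ring

private theorem row2_tv {α : Type*} (len : ℕ) (f : α → ℕ) (M : Multiset α) :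
    tv (M.map fun i => (f i, len)) = len * M.card := by
  unfold tv
  rw [Multiset.map_map]
  have : (Prod.snd ∘ fun i => (f i, len)) = fun _ : α => len := rfl
  rw [this, Multiset.map_const', Multiset.sum_replicate, smul_eq_mul, mul_comm]

private theorem row2_flo {t x : ℕ} {w : ℝ} (ht : t ≤ 80) (hx : 1 ≤ x) (h1 : (x : ℝ) ≤ w * 2 ^ 88)
    (lo : ℕ) (hlo : (lo : ℝ) * w ≤ 1) : lo / 2 ^ t ≤ 2 ^ 88 / 2 ^ t / x := by
  have hpow : 2 ^ 88 / 2 ^ t * 2 ^ t = 2 ^ 88 :=
    Nat.div_mul_cancel (pow_dvd_pow 2 (by omega))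
  have h2t : 0 < 2 ^ t := by positivity
  rw [Nat.le_div_iff_mul_le (by omega)]
  have e1 : lo / 2 ^ t * 2 ^ t ≤ lo := Nat.div_mul_le_self lo (2 ^ t)
  have e2 : (lo : ℝ) * x ≤ 2 ^ 88 := by
    have : (lo : ℝ) * x ≤ lo * (w * 2 ^ 88) := mul_le_mul_of_nonneg_left h1 (by positivity)
    nlinarith
  have e3 : lo * x ≤ 2 ^ 88 := by exact_mod_cast e2
  have e4 : (lo / 2 ^ t * x) * 2 ^ t ≤ (2 ^ 88 / 2 ^ t) * 2 ^ t := by
    rw [hpow]
    calc (lo / 2 ^ t * x) * 2 ^ t = (lo / 2 ^ t * 2 ^ t) * x := by ring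
      _ ≤ lo * x := Nat.mul_le_mul_right x e1
      _ ≤ _ := e3
  exact Nat.le_of_mul_le_mul_right e4 h2t

private theorem row2_fhi {t M X : ℕ} {w : ℝ} (ht : t ≤ 80) (h1 : w * 2 ^ 88 ≤ X)
    (hi : ℕ) (hhi : 1 < (hi : ℝ) * w) : 2 ^ 88 / 2 ^ t / X < (hi + M) / 2 ^ t + 1 := by
  have hpow : 2 ^ 88 / 2 ^ t * 2 ^ t = 2 ^ 88 :=
    Nat.div_mul_cancel (pow_dvd_pow 2 (by omega))
  have h2t : 0 < 2 ^ t := by positivity
  rw [Nat.lt_succ_iff, Nat.le_div_iff_mul_le h2t]
  set A := 2 ^ 88 / 2 ^ t with hA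
  set B := A / X with hB
  have e1 : B * X ≤ A := Nat.div_mul_le_self A X
  have e2 : (B * 2 ^ t) * X ≤ 2 ^ 88 := by
    calc (B * 2 ^ t) * X = (B * X) * 2 ^ t := by ring
      _ ≤ A * 2 ^ t := Nat.mul_le_mul_right _ e1
      _ = _ := hpow
  have r2 : (2 : ℝ) ^ 88 < hi * X := by
    have h3 : (hi : ℝ) * (w * 2 ^ 88) ≤ hi * X := mul_le_mul_of_nonneg_left h1 (by positivity)
    have h4 : (hi : ℝ) * (w * 2 ^ 88) = (hi * w) * 2 ^ 88 := by ring
    rw [h4] at h3
    nlinarith [show (0 : ℝ) < 2 ^ 88 by positivity]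
  have r3 : 2 ^ 88 < hi * X := by exact_mod_cast r2
  have r4 : (B * 2 ^ t) * X < hi * X := lt_of_le_of_lt e2 r3
  have r5 : B * 2 ^ t < hi := lt_of_mul_lt_mul_right r4 (Nat.zero_le X)
  omega

private theorem row2_tau_mono {a b : ℕ} (h : a ≤ b) : Eng.tau a ≤ Eng.tau b := by
  unfold Eng.tau
  exact Nat.mul_le_mul_left _ (Nat.div_le_div_right (Nat.pow_le_pow_left h 3))

private theorem row2_lam_mono {a b a' b' : ℝ} {G : Multiset (ℝ × ℝ)} (hG : ∀ r ∈ G, 0 ≤ r.2)
    (ha : a' ≤ a) (hb0 : 0 ≤ b) (hb : b ≤ b') : lam a b G ≤ lam a' b' G := by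
  unfold lam
  refine Multiset.sum_map_le_sum_map _ _ fun r hr => ?_
  by_cases h1 : a * r.1 ≤ 1 ∧ 1 < b * r.1
  · have hr1 : 0 < r.1 := by
      by_contra hc
      have := mul_nonpos_of_nonneg_of_nonpos hb0 (not_lt.1 hc)
      linarith [h1.2]
    have h2 : a' * r.1 ≤ 1 ∧ 1 < b' * r.1 :=
      ⟨le_trans (mul_le_mul_of_nonneg_right ha hr1.le) h1.1,
        lt_of_lt_of_le h1.2 (mul_le_mul_of_nonneg_right hb hr1.le)⟩
    rw [if_pos h1, if_pos h2]
  · rw [if_neg h1]
    split_ifs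
    · exact hG r hr
    · exact le_refl _

private theorem row2_rowB {s J0 t M mu S S2 k0 g V : ℕ} : ∀ n : ℕ,
    rowB s J0 t M mu S S2 k0 g V n = true → ∀ j < n,
      qv s J0 t M mu S S2 (k0 + g * j - 15) (k0 + g * j - 4 + g) ≤ V := by
  intro n
  induction n with
  | zero => intro _ j hj; omega
  | succ n ih =>
    intro h j hj
    obtain ⟨h1, h2⟩ := br_false (show br (Nat.ble (qv s J0 t M mu S S2
      (Nat.sub (Nat.add k0 (Nat.mul g n)) 15) (Nat.add (Nat.sub (Nat.add k0 (Nat.mul g n)) 4) g)) V)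
      (rowB s J0 t M mu S S2 k0 g V n) false = true from h)
    rcases Nat.lt_succ_iff_lt_or_eq.1 hj with h3 | h3
    · exact ih h2 j h3
    · subst h3
      exact Nat.le_of_ble_eq_true h1

private theorem row2_leaves_nonneg {R : Multiset ℕ} {G : Multiset (ℝ × ℝ)}
    {A : Multiset (Multiset (ℝ × ℝ))} (hA : Multiset.Rel LeafR R A) (hG : G = A.sum) :
    ∀ r ∈ G, 0 ≤ r.2 := by
  induction hA generalizing G with
  | zero => intro r hr; rw [hG, Multiset.sum_zero] at hr; exact absurd hr (Multiset.notMem_zero r)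
  | cons hab _ ih =>
    intro r hr
    rw [hG, Multiset.sum_cons, Multiset.mem_add] at hr
    rcases hr with hr | hr
    · obtain ⟨x, -, -, -, -, h5⟩ := hab
      rw [h5] at hr
      obtain ⟨q, -, hq⟩ := Multiset.mem_map.1 hr
      rw [← hq]
      exact one_div_nonneg.2 (Nat.cast_nonneg _)
    · exact ih rfl r hr

/-- no window interval asked for contains the strip -/
private def R2Out (t Jq T : ℕ) (r : ℝ × ℝ) : Prop :=
  ∀ lo hi : ℕ, Jq ≤ lo / 2 ^ t → hi ≤ T → ¬ ((lo : ℝ) * r.1 ≤ 1 ∧ 1 < (hi : ℝ) * r.1)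

private theorem row2_mx (a b : ℕ) : mx a b = max a b := by
  show a + (b - a) = _
  omega

private theorem row2_mn (a b : ℕ) : mn a b = min a b := by
  show a - (a - b) = _
  omega

private theorem row2_touch (x : ℕ) (b : Bool) : touch x b = b := by
  unfold touch
  have : Nat.ble 0 x = true := Nat.ble_eq.mpr (Nat.zero_le x)
  rw [this]

open Classical in
private theorem row2_sum_ite {α β : Type*} (c : α → Prop) (f : α → β) (M : Multiset α) :
    (M.map fun q => if c q then ({f q} : Multiset β) else 0).sum = (M.filter c).map f := by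
  induction M using Multiset.induction_on with
  | empty => simp
  | cons a M ih =>
    rw [Multiset.map_cons, Multiset.sum_cons, ih]
    by_cases h : c a
    · rw [if_pos h, Multiset.filter_cons_of_pos _ h, Multiset.map_cons, Multiset.singleton_add]
    · rw [if_neg h, Multiset.filter_cons_of_neg _ h, zero_add]

/-- the buckets of the strips of a run record -/
private theorem row2_bk {t M T : ℕ} (ht : t ≤ 80) (hhm : T ≤ 2 ^ 60)
    (hM : T * T * 1300 ≤ M * 2 ^ 88) {r : ℕ} (hr : RunOK r) {x : ℝ}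
    (hx1 : (rw' r : ℝ) ≤ x * 2 ^ 88) (hx2 : x * 2 ^ 88 ≤ rw' r + 1200) (q : ℕ) (hq : rm r ≤ q)
    (hT : 1 < (T : ℝ) * (x - 1 / (q : ℝ))) (lo hi : ℕ) (hlo : (lo : ℝ) * (x - 1 / (q : ℝ)) ≤ 1)
    (hhi : 1 < (hi : ℝ) * (x - 1 / (q : ℝ))) :
    lo / 2 ^ t ≤ 2 ^ 88 / 2 ^ t / (rw' r - 1 - 2 ^ 88 / q) ∧
      2 ^ 88 / 2 ^ t / (rw' r - 1 - 2 ^ 88 / q) < (hi + M) / 2 ^ t + 1 := by
  obtain ⟨-, hm, hw⟩ := hr
  have hq1 : 1 ≤ q := le_trans hm hq
  have hqr : (1 : ℝ) ≤ (q : ℝ) := by exact_mod_cast hq1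
  have hdm' : 2 ^ 88 / q ≤ 2 ^ 88 / rm r := Nat.div_le_div_left hq hm
  have hy1 : 1 ≤ rw' r - 1 - 2 ^ 88 / q := by
    generalize 2 ^ 88 / q = u at *
    generalize 2 ^ 88 / rm r = v at *
    omega
  have hqpos : (0 : ℝ) < (q : ℝ) := by linarith
  have e1 : ((2 ^ 88 / q : ℕ) : ℝ) ≤ 1 / (q : ℝ) * 2 ^ 88 := by
    have : 2 ^ 88 / q * q ≤ 2 ^ 88 := Nat.div_mul_le_self _ _
    have h9 : ((2 ^ 88 / q : ℕ) : ℝ) * q ≤ 2 ^ 88 := by exact_mod_cast this
    rw [one_div, inv_mul_eq_div, le_div_iff₀ hqpos]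
    exact h9
  have e2 : 1 / (q : ℝ) * 2 ^ 88 ≤ ((2 ^ 88 / q : ℕ) : ℝ) + 1 := by
    have : 2 ^ 88 < q * (2 ^ 88 / q + 1) := Nat.lt_mul_div_succ _ (by omega)
    have h9 : (2 : ℝ) ^ 88 ≤ q * (((2 ^ 88 / q : ℕ) : ℝ) + 1) := by
      have := this.le
      exact_mod_cast this
    rw [one_div, inv_mul_eq_div, div_le_iff₀ hqpos]
    linarith
  have e3 : ((rw' r - 1 - 2 ^ 88 / q : ℕ) : ℝ) = (rw' r : ℝ) - 1 - ((2 ^ 88 / q : ℕ) : ℝ) := by
    have h9 : rw' r - 1 - 2 ^ 88 / q + 1 + 2 ^ 88 / q = rw' r := by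
      generalize 2 ^ 88 / q = u at *
      generalize 2 ^ 88 / rm r = v at *
      omega
    have h10 : ((rw' r - 1 - 2 ^ 88 / q : ℕ) : ℝ) + 1 + ((2 ^ 88 / q : ℕ) : ℝ) = (rw' r : ℝ) := by
      exact_mod_cast h9
    linarith
  refine row2_bucket ht hhm hM hy1 ?_ ?_ hT lo hi hlo hhi
  · rw [e3, sub_mul]; linarith
  · rw [e3, sub_mul]; linarith

/-- parameters of a row module -/
private structure R2Par (A J0 J1 Jq wl wh t M T : ℕ) : Prop where
  ht : t ≤ 80
  hhm : T ≤ 2 ^ 60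
  hM : T * T * 1300 ≤ M * 2 ^ 88
  hA : A = 2 ^ 88 / 2 ^ t
  hwl : wl = A / J1
  hwh : wh = A / J0
  hJ0 : 1 ≤ J0
  hJq : J0 ≤ Jq
  hJ1 : (T + M) / 2 ^ t + 1 ≤ J1

/-- one run record -/
private theorem row2_R {A s J0 J1 Jq wl wh t M T : ℕ} (hp : R2Par A J0 J1 Jq wl wh t M T)
    (r S tot : ℕ) (c : ℕ → ℕ → Bool) (hr : RunOK r)
    (h : rowR2 (2 ^ 88) A s J0 wl wh r S tot c = true) :
    ∃ P : Multiset (ℕ × ℕ), c (S + pack s P) (tot + tv P) = true ∧
      ∀ G, LeafR r G → ∃ (D : Multiset (Multiset (ℝ × ℝ))) (G0 : Multiset (ℝ × ℝ)),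
        G = D.sum + G0 ∧ Multiset.Rel (fun p => EntG t M 0 (p.1 + J0, p.2)) P D ∧
        ∀ p ∈ G0, R2Out t Jq T p := by
  classical
  obtain ⟨ht, hhm, hM, hA, hwl, hwh, hJ0, hJq, hJ1⟩ := hp
  obtain ⟨hk, hm, hw⟩ := id hr
  have ek : Nat.land r 1048575 = rk r := by
    rw [rk]
    exact Nat.and_two_pow_sub_one_eq_mod r 20
  have em : Nat.land (Nat.shiftRight r 20) 67108863 = rm r := by
    rw [rm, ← Nat.shiftRight_eq_div_pow r 20]
    exact Nat.and_two_pow_sub_one_eq_mod (r >>> 20) 26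
  have ew : Nat.sub (Nat.shiftRight r 46) 1 = rw' r - 1 := by
    rw [rw', ← Nat.shiftRight_eq_div_pow r 46]
    rfl
  have h' : br (Nat.ble (wh + 1) (rw' r - 1))
      (rowRd (2 ^ 88) A s J0 (rw' r - 1) (mx (rm r) (2 ^ 88 / (rw' r - 1 - wl) + 1))
        (mn (rm r + rk r) (2 ^ 88 / (rw' r - 1 - wh) + 1)) S tot c) false = true := by
    unfold rowR2 at h
    rw [ek, em, ew] at h
    exact h
  obtain ⟨h1, h2⟩ := br_false h'
  have hwh1 : wh + 1 ≤ rw' r - 1 := Nat.le_of_ble_eq_true h1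
  rw [row2_mx, row2_mn] at h2
  obtain ⟨a, ha⟩ : ∃ a, a = max (rm r) (2 ^ 88 / (rw' r - 1 - wl) + 1) := ⟨_, rfl⟩
  obtain ⟨b, hb⟩ : ∃ b, b = min (rm r + rk r) (2 ^ 88 / (rw' r - 1 - wh) + 1) := ⟨_, rfl⟩
  rw [← ha, ← hb] at h2
  have hma : rm r ≤ a := by rw [ha]; exact le_max_left _ _
  have hbm : b ≤ rm r + rk r := by rw [hb]; exact min_le_left _ _
  have hdmq : ∀ q, rm r ≤ q → 1 ≤ rw' r - 1 - 2 ^ 88 / q := by
    intro q hq
    have hdm' : 2 ^ 88 / q ≤ 2 ^ 88 / rm r := Nat.div_le_div_left hq hm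
    generalize 2 ^ 88 / q = u at *
    generalize 2 ^ 88 / rm r = v at *
    omega
  -- squares below `a` have too high buckets
  have hlow : ∀ q, rm r ≤ q → q < a → J1 ≤ A / (rw' r - 1 - 2 ^ 88 / q) := by
    intro q hq hqa
    have h3 : q < 2 ^ 88 / (rw' r - 1 - wl) + 1 := by
      rw [ha] at hqa
      rcases lt_max_iff.1 hqa with h | h
      · omega
      · exact h
    have h4 : q ≤ 2 ^ 88 / (rw' r - 1 - wl) := by omega
    have h5 : 0 < rw' r - 1 - wl := by
      rcases Nat.eq_zero_or_pos (rw' r - 1 - wl) with h0 | h0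
      · rw [h0, Nat.div_zero] at h4; omega
      · exact h0
    have h6 : q * (rw' r - 1 - wl) ≤ 2 ^ 88 := (Nat.le_div_iff_mul_le h5).1 h4
    have h7 : rw' r - 1 - wl ≤ 2 ^ 88 / q := by
      rw [Nat.le_div_iff_mul_le (by omega), mul_comm]; exact h6
    have h8 : rw' r - 1 - 2 ^ 88 / q ≤ wl := by
      generalize 2 ^ 88 / q = u at *
      omega
    have h9 := hdmq q hq
    have h10 : 0 < J1 := lt_of_lt_of_le (Nat.succ_pos _) hJ1
    rw [hwl, Nat.le_div_iff_mul_le h10] at h8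
    rw [Nat.le_div_iff_mul_le (by omega), mul_comm]
    exact h8
  -- squares from `b` on have too low buckets
  have hhigh : ∀ q, rm r ≤ q → q < rm r + rk r → b ≤ q → A / (rw' r - 1 - 2 ^ 88 / q) < J0 := by
    intro q hq hq2 hbq
    have h3 : 2 ^ 88 / (rw' r - 1 - wh) + 1 ≤ q := by
      rw [hb] at hbq
      rcases min_le_iff.1 hbq with h | h
      · omega
      · exact h
    have h5 : 0 < rw' r - 1 - wh := by omega
    have h6 : 2 ^ 88 < q * (rw' r - 1 - wh) := by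
      have := Nat.lt_mul_div_succ (2 ^ 88) h5
      calc 2 ^ 88 < (rw' r - 1 - wh) * (2 ^ 88 / (rw' r - 1 - wh) + 1) := this
        _ ≤ (rw' r - 1 - wh) * q := Nat.mul_le_mul_left _ h3
        _ = q * (rw' r - 1 - wh) := mul_comm _ _
    have h7 : 2 ^ 88 / q < rw' r - 1 - wh := by
      rw [Nat.div_lt_iff_lt_mul (by omega), mul_comm]; exact h6
    have h8 : wh < rw' r - 1 - 2 ^ 88 / q := by
      generalize 2 ^ 88 / q = u at *
      omega
    have h9 := hdmq q hq
    rw [hwh, Nat.div_lt_iff_lt_mul (by omega)] at h8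
    rw [Nat.div_lt_iff_lt_mul (by omega), mul_comm]
    exact h8
  -- strips which are left out
  have hout : ∀ x : ℝ, (rw' r : ℝ) ≤ x * 2 ^ 88 → x * 2 ^ 88 ≤ rw' r + 1200 → ∀ q, rm r ≤ q →
      q < rm r + rk r → ¬ (a ≤ q ∧ q < b ∧ 1 < (T : ℝ) * (x - 1 / (q : ℝ))) →
      R2Out t Jq T (x - 1 / (q : ℝ), 1 / (q : ℝ)) := by
    intro x hx1 hx2 q hq hq2 hn lo hi hlo hhi hc
    obtain ⟨c1, c2⟩ := hc
    simp only at c1 c2
    have hhr : (hi : ℝ) ≤ T := by exact_mod_cast hhi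
    have hpos : 0 < x - 1 / (q : ℝ) := by
      by_contra hc
      have := mul_nonpos_of_nonneg_of_nonpos (Nat.cast_nonneg (α := ℝ) hi) (not_lt.1 hc)
      linarith
    have hT : 1 < (T : ℝ) * (x - 1 / (q : ℝ)) :=
      lt_of_lt_of_le c2 (mul_le_mul_of_nonneg_right hhr hpos.le)
    obtain ⟨b1, b2⟩ := row2_bk ht hhm hM hr hx1 hx2 q hq hT lo hi c1 c2
    rw [← hA] at b1 b2
    have hmn : (hi + M) / 2 ^ t ≤ (T + M) / 2 ^ t := Nat.div_le_div_right (by omega)
    rcases Nat.lt_or_ge q a with h3 | h3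
    · have := hlow q hq h3
      omega
    · rcases Nat.lt_or_ge q b with h4 | h4
      · exact hn ⟨h3, h4, hT⟩
      · have := hhigh q hq hq2 h4
        omega
  by_cases hab : b ≤ a
  · have hb' : Nat.ble b a = true := Nat.ble_eq.mpr hab
    unfold rowRd at h2
    rw [hb'] at h2
    refine ⟨0, ?_, ?_⟩
    · rw [pack_zero, tv_zero, add_zero, add_zero]
      exact h2
    · intro G hG
      obtain ⟨x, hx1, hx2, -, -, rfl⟩ := hG
      refine ⟨0, kids x (rm r) (rk r), by simp, by simp, ?_⟩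
      intro p hp
      obtain ⟨q, hq, rfl⟩ := Multiset.mem_map.1 hp
      have hq' : q ∈ Ico (rm r) (rm r + rk r) := hq
      rw [Finset.mem_Ico] at hq'
      exact hout x hx1 hx2 q hq'.1 hq'.2 (by rintro ⟨h3, h4, -⟩; omega)
  · have hb' : Nat.ble b a = false := by
      rw [← Bool.not_eq_true]
      intro hc
      exact hab (Nat.ble_eq.mp hc)
    unfold rowRd at h2
    rw [hb'] at h2
    have h3 : rowRe (2 ^ 88) A s J0 a (b - a) (rw' r - 1) S tot c = true := h2
    obtain ⟨n, hn⟩ : ∃ n, n = b - a := ⟨_, rfl⟩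
    rw [← hn] at h3
    have hbn : b = a + n := by omega
    have hn0 : 0 < n := by omega
    obtain ⟨jl, hjl⟩ : ∃ jl, jl = A / (rw' r - 1 - 2 ^ 88 / (a + n - 1)) := ⟨_, rfl⟩
    obtain ⟨len, hlen⟩ : ∃ len, len = 2 ^ 36 / a + 1 := ⟨_, rfl⟩
    have h4 : br (Nat.ble J0 jl)
        (touch (S + (len * ksm (2 ^ 88) A (rw' r - 1) s jl a n) <<< (s * (jl - J0)))
          (c (S + (len * ksm (2 ^ 88) A (rw' r - 1) s jl a n) <<< (s * (jl - J0)))
            (tot + len * n))) false = true := by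
      rw [hjl, hlen]
      exact h3
    obtain ⟨h5, h6⟩ := br_false h4
    have hJ : J0 ≤ jl := Nat.le_of_ble_eq_true h5
    rw [row2_touch] at h6
    refine ⟨(range n).val.map (fun i => ((A / (rw' r - 1 - 2 ^ 88 / (a + i)) - jl) + (jl - J0), len)),
      ?_, ?_⟩
    · rw [row2_pack, row2_tv, ← ksm_eq, ← Nat.shiftLeft_eq]
      simpa using h6
    · intro G hG
      obtain ⟨x, hx1, hx2, -, -, rfl⟩ := hG
      let f : ℕ → ℝ × ℝ := fun q => (x - 1 / (q : ℝ), 1 / (q : ℝ))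
      let cond : ℕ → Prop := fun q => 1 < (T : ℝ) * (x - 1 / (q : ℝ))
      refine ⟨(range n).val.map (fun i => if cond (a + i) then ({f (a + i)} : Multiset (ℝ × ℝ)) else 0),
        ((Ico (rm r) (rm r + rk r)).val.filter (fun q => ¬ (a ≤ q ∧ q < b ∧ cond q))).map f, ?_, ?_, ?_⟩
      · have e1 : ((range n).val.map (fun i => if cond (a + i) then
            ({f (a + i)} : Multiset (ℝ × ℝ)) else 0)).sum =
            ((Ico (rm r) (rm r + rk r)).val.filter (fun q => a ≤ q ∧ q < b ∧ cond q)).map f := by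
          have e2 : (range n).val.map (fun i => if cond (a + i) then
              ({f (a + i)} : Multiset (ℝ × ℝ)) else 0) =
              (Ico a b).val.map (fun q => if cond q then ({f q} : Multiset (ℝ × ℝ)) else 0) := by
            have h7 : Ico a (a + n) = (range n).map (addLeftEmbedding a) := by
              rw [range_eq_Ico, Finset.map_add_left_Ico, add_zero]
            rw [hbn, h7, Finset.map_val, Multiset.map_map]
            rfl
          rw [e2, row2_sum_ite]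
          congr 1
          have e3 : (Ico a b).filter cond =
              (Ico (rm r) (rm r + rk r)).filter (fun q => a ≤ q ∧ q < b ∧ cond q) := by
            ext q
            simp only [Finset.mem_filter, Finset.mem_Ico]
            constructor
            · rintro ⟨⟨h8, h9⟩, h10⟩
              exact ⟨⟨by omega, by omega⟩, h8, h9, h10⟩
            · rintro ⟨-, h8, h9, h10⟩
              exact ⟨⟨h8, h9⟩, h10⟩
          exact congrArg Finset.val e3
        rw [e1, ← Multiset.map_add, Multiset.filter_add_not]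
        rfl
      · rw [Multiset.rel_map]
        apply Multiset.rel_refl_of_refl_on
        intro i hi
        rw [Finset.range_val, Multiset.mem_range] at hi
        by_cases hc : cond (a + i)
        · rw [if_pos hc]
          have hqm : rm r ≤ a + i := by omega
          have hq1 : 1 ≤ a + i := by omega
          have hqle : a + i ≤ a + n - 1 := by omega
          have hqpos : (0 : ℝ) < ((a + i : ℕ) : ℝ) := by exact_mod_cast hq1
          have hdm2 : 2 ^ 88 / (a + n - 1) ≤ 2 ^ 88 / (a + i) := Nat.div_le_div_left hqle hq1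
          have hy1 := hdmq _ hqm
          have hjlq : jl ≤ A / (rw' r - 1 - 2 ^ 88 / (a + i)) := by
            rw [hjl]
            refine Nat.div_le_div_left ?_ (by omega)
            generalize 2 ^ 88 / (a + n - 1) = u at *
            generalize 2 ^ 88 / (a + i) = v at *
            omega
          have hbk : A / (rw' r - 1 - 2 ^ 88 / (a + i)) - jl + (jl - J0) + J0 =
              A / (rw' r - 1 - 2 ^ 88 / (a + i)) := by omega
          refine ⟨?_, ?_⟩
          · rw [Multiset.map_singleton, Multiset.sum_singleton]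
            show 1 / ((a + i : ℕ) : ℝ) * 2 ^ 36 ≤ ((len : ℕ) : ℝ)
            have h7 : 2 ^ 36 < a * len := by
              rw [hlen]
              exact Nat.lt_mul_div_succ (2 ^ 36) (by omega)
            have h8 : (2 : ℝ) ^ 36 ≤ (a : ℝ) * len := by
              have := h7.le
              exact_mod_cast this
            have h9 : (a : ℝ) ≤ ((a + i : ℕ) : ℝ) := by
              have : a ≤ a + i := by omega
              exact_mod_cast this
            have h10 : (0 : ℝ) ≤ (len : ℝ) := by positivity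
            rw [one_div, inv_mul_le_iff₀ hqpos]
            nlinarith
          · intro p hp
            rw [Multiset.mem_singleton] at hp
            subst hp
            refine ⟨by show (0 : ℝ) ≤ 1 / ((a + i : ℕ) : ℝ); positivity, ?_⟩
            intro lo hi hlo hhi
            obtain ⟨b1, b2⟩ := row2_bk ht hhm hM hr hx1 hx2 (a + i) hqm hc lo hi hlo hhi
            rw [← hA] at b1 b2
            simp only
            rw [hbk, Nat.add_zero]
            exact ⟨b1, b2⟩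
        · rw [if_neg hc]
          refine ⟨?_, fun p hp => absurd hp (Multiset.notMem_zero p)⟩
          rw [Multiset.map_zero, Multiset.sum_zero, zero_mul]
          exact Nat.cast_nonneg _
      · intro p hp
        obtain ⟨q, hq, rfl⟩ := Multiset.mem_map.1 hp
        obtain ⟨hq1, hq2⟩ := Multiset.mem_filter.1 hq
        have hq' : q ∈ Ico (rm r) (rm r + rk r) := hq1
        rw [Finset.mem_Ico] at hq'
        exact hout x hx1 hx2 q hq'.1 hq'.2 hq2

private theorem row2_outadd {t Jq T : ℕ} {A B : Multiset (ℝ × ℝ)} (hA : ∀ p ∈ A, R2Out t Jq T p)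
    (hB : ∀ p ∈ B, R2Out t Jq T p) : ∀ p ∈ A + B, R2Out t Jq T p := by
  intro p hp
  rcases Multiset.mem_add.1 hp with h | h
  · exact hA p h
  · exact hB p h

/-- a list of run records -/
private theorem row2_Rs {A s J0 J1 Jq wl wh t M T : ℕ} (hp : R2Par A J0 J1 Jq wl wh t M T) :
    ∀ (xs : List ℕ) (S tot : ℕ) (c : ℕ → ℕ → Bool), (∀ r ∈ xs, RunOK r) →
      rowRs2 (2 ^ 88) A s J0 wl wh xs S tot c = true →
      ∃ P : Multiset (ℕ × ℕ), c (S + pack s P) (tot + tv P) = true ∧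
        ∀ E : Multiset (Multiset (ℝ × ℝ)), Multiset.Rel LeafR (xs : Multiset ℕ) E →
          ∃ (D : Multiset (Multiset (ℝ × ℝ))) (G0 : Multiset (ℝ × ℝ)),
            E.sum = D.sum + G0 ∧ Multiset.Rel (fun p => EntG t M 0 (p.1 + J0, p.2)) P D ∧
            ∀ p ∈ G0, R2Out t Jq T p := by
  intro xs
  induction xs with
  | nil =>
    intro S tot c _ h
    refine ⟨0, ?_, ?_⟩
    · rw [pack_zero, tv_zero, add_zero, add_zero]
      have h' : touch tot (c S tot) = true := h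
      rwa [row2_touch] at h'
    · intro E hE
      have : E = 0 := by
        have := Multiset.card_eq_card_of_rel hE
        simpa using this.symm
      subst this
      exact ⟨0, 0, by simp, by simp, by simp⟩
  | cons x xs ih =>
    intro S tot c hr h
    have h' : rowR2 (2 ^ 88) A s J0 wl wh x S tot
        (fun S' tot' => rowRs2 (2 ^ 88) A s J0 wl wh xs S' tot' c) = true := h
    obtain ⟨P1, h1, h1'⟩ := row2_R hp x S tot _ (hr x List.mem_cons_self) h'
    obtain ⟨P2, h2, h2'⟩ := ih _ _ c (fun r hr' => hr r (List.mem_cons_of_mem _ hr')) h1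
    refine ⟨P1 + P2, ?_, ?_⟩
    · rw [pack_add, tv_add, ← add_assoc, ← add_assoc]
      exact h2
    · intro E hE
      have hE2 : Multiset.Rel LeafR (x ::ₘ (xs : Multiset ℕ)) E := hE
      rw [Multiset.rel_cons_left] at hE2
      obtain ⟨G, E', hG, hE'', rfl⟩ := hE2
      obtain ⟨D, G0, e, r1, o⟩ := h1' G hG
      obtain ⟨D', G0', e', r1', o'⟩ := h2' E' hE''
      refine ⟨D + D', G0 + G0', ?_, r1.add r1', row2_outadd o o'⟩
      rw [Multiset.sum_cons, e, e', Multiset.sum_add]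
      abel

/-- all run records -/
private theorem row2_RL {A s J0 J1 Jq wl wh t M T : ℕ} (hp : R2Par A J0 J1 Jq wl wh t M T) :
    ∀ (RR : List (List ℕ)) (S tot : ℕ) (c : ℕ → ℕ → Bool), (∀ r ∈ RR.flatten, RunOK r) →
      rowRL2 (2 ^ 88) A s J0 wl wh RR S tot c = true →
      ∃ P : Multiset (ℕ × ℕ), c (S + pack s P) (tot + tv P) = true ∧
        ∀ E : Multiset (Multiset (ℝ × ℝ)), Multiset.Rel LeafR (RR.flatten : Multiset ℕ) E →
          ∃ (D : Multiset (Multiset (ℝ × ℝ))) (G0 : Multiset (ℝ × ℝ)),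
            E.sum = D.sum + G0 ∧ Multiset.Rel (fun p => EntG t M 0 (p.1 + J0, p.2)) P D ∧
            ∀ p ∈ G0, R2Out t Jq T p := by
  intro RR
  induction RR with
  | nil =>
    intro S tot c _ h
    refine ⟨0, ?_, ?_⟩
    · rw [pack_zero, tv_zero, add_zero, add_zero]
      exact h
    · intro E hE
      have : E = 0 := by
        have := Multiset.card_eq_card_of_rel hE
        simpa using this.symm
      subst this
      exact ⟨0, 0, by simp, by simp, by simp⟩
  | cons xs RR ih =>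
    intro S tot c hr h
    rw [List.flatten_cons] at hr
    have h' : rowRs2 (2 ^ 88) A s J0 wl wh xs S tot
        (fun S' tot' => rowRL2 (2 ^ 88) A s J0 wl wh RR S' tot' c) = true := h
    obtain ⟨P1, h1, h1'⟩ := row2_Rs hp xs S tot _
      (fun r hr' => hr r (List.mem_append_left _ hr')) h'
    obtain ⟨P2, h2, h2'⟩ := ih _ _ c (fun r hr' => hr r (List.mem_append_right _ hr')) h1
    refine ⟨P1 + P2, ?_, ?_⟩
    · rw [pack_add, tv_add, ← add_assoc, ← add_assoc]
      exact h2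
    · intro E hE
      rw [List.flatten_cons, ← Multiset.coe_add, Multiset.rel_add_left] at hE
      obtain ⟨E1, E2, hE1, hE2, rfl⟩ := hE
      obtain ⟨D, G0, e, r1, o⟩ := h1' E1 hE1
      obtain ⟨D', G0', e', r1', o'⟩ := h2' E2 hE2
      refine ⟨D + D', G0 + G0', ?_, r1.add r1', row2_outadd o o'⟩
      rw [Multiset.sum_add, e, e', Multiset.sum_add]
      abel

/-- one fat record -/
private theorem row2_F {A s J0 J1 Jq wl wh t M T mu : ℕ} (hp : R2Par A J0 J1 Jq wl wh t M T)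
    (r S S2 tot : ℕ) (c : ℕ → ℕ → ℕ → Bool) (hr : 1 ≤ fx r)
    (h : rowF2 A s J0 J1 Jq mu r S S2 tot c = true) :
    ∃ P P2 : Multiset (ℕ × ℕ), c (S + pack s P) (S2 + pack s P2) (tot + tv P + tv P2) = true ∧
      ∀ G, LeafF r G →
        ∃ (D D2 : Multiset (Multiset (ℝ × ℝ))) (G0 : Multiset (ℝ × ℝ)), G = D.sum + D2.sum + G0 ∧
          Multiset.Rel (fun p => EntG t M 0 (p.1 + J0, p.2)) P D ∧
          Multiset.Rel (fun p => EntG t M mu (p.1 + J0, p.2)) P2 D2 ∧
          ∀ p ∈ G0, R2Out t Jq T p := by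
  obtain ⟨ht, hhm, hM, hA, hwl, hwh, hJ0, hJq, hJ1⟩ := hp
  have ex : Nat.land (Nat.shiftRight r 12) 18446744073709551615 = fx r := by
    rw [fx]
    have : r / 4096 = r >>> 12 := (Nat.shiftRight_eq_div_pow r 12).symm
    rw [this]
    exact Nat.and_two_pow_sub_one_eq_mod (r >>> 12) 64
  have es : Nat.land (Nat.shiftRight r 76) 18446744073709551615 = fs r := by
    rw [fs, ← Nat.shiftRight_eq_div_pow r 76]
    exact Nat.and_two_pow_sub_one_eq_mod (r >>> 76) 64
  have eL : Nat.shiftRight r 140 = fL r := Nat.shiftRight_eq_div_pow r 140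
  obtain ⟨x, hx⟩ : ∃ x, x = fx r := ⟨_, rfl⟩
  obtain ⟨sp, hsp⟩ : ∃ sp, sp = fs r := ⟨_, rfl⟩
  obtain ⟨L, hL⟩ : ∃ L, L = fL r := ⟨_, rfl⟩
  obtain ⟨j1, hj1⟩ : ∃ j1, j1 = A / (x + sp + 1200) := ⟨_, rfl⟩
  obtain ⟨j2, hj2⟩ : ∃ j2, j2 = A / x := ⟨_, rfl⟩
  have h' : rowFd s J0 J1 Jq mu j1 j2 L S S2 tot c = true := by
    unfold rowF2 at h
    rw [ex, es, eL, ← hx, ← hsp, ← hL] at h
    rw [hj1, hj2]
    exact h
  -- bucket inequalities
  have bk : ∀ G, LeafF r G → ∀ p ∈ G, ∀ lo hi : ℕ, (lo : ℝ) * p.1 ≤ 1 → 1 < (hi : ℝ) * p.1 →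
      lo / 2 ^ t ≤ j2 ∧ j1 < (hi + M) / 2 ^ t + 1 := by
    intro G hG p hp lo hi hlo hhi
    obtain ⟨w1, w2⟩ := hG.wid p hp
    constructor
    · rw [hj2, hA, hx]
      exact row2_flo ht hr w1 lo hlo
    · rw [hj1, hA]
      refine row2_fhi ht ?_ hi hhi
      push_cast
      rw [hx, hsp]
      exact w2
  unfold rowFd at h'
  by_cases hc1 : j2 + 1 ≤ Jq
  · have hb : Nat.ble (Nat.succ j2) Jq = true := Nat.ble_eq.mpr hc1
    rw [hb] at h'
    have h2 : c S S2 tot = true := h'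
    refine ⟨0, 0, by simpa [pack_zero, tv_zero] using h2, ?_⟩
    intro G hG
    refine ⟨0, 0, G, by simp, by simp, by simp, ?_⟩
    intro p hp lo hi hlo hhi hc
    obtain ⟨b1, -⟩ := bk G hG p hp lo hi hc.1 hc.2
    omega
  have hb : Nat.ble (Nat.succ j2) Jq = false := by
    rw [← Bool.not_eq_true]
    intro hc
    exact hc1 (Nat.ble_eq.mp hc)
  rw [hb] at h'
  by_cases hc2 : J1 ≤ j1
  · have hb2 : Nat.ble J1 j1 = true := Nat.ble_eq.mpr hc2
    rw [hb2] at h'
    have h2 : c S S2 tot = true := h'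
    refine ⟨0, 0, by simpa [pack_zero, tv_zero] using h2, ?_⟩
    intro G hG
    refine ⟨0, 0, G, by simp, by simp, by simp, ?_⟩
    intro p hp lo hi hlo hhi hc
    obtain ⟨-, b2⟩ := bk G hG p hp lo hi hc.1 hc.2
    have hmn : (hi + M) / 2 ^ t ≤ (T + M) / 2 ^ t := Nat.div_le_div_right (by omega)
    omega
  have hb2 : Nat.ble J1 j1 = false := by
    rw [← Bool.not_eq_true]
    intro hc
    exact hc2 (Nat.ble_eq.mp hc)
  rw [hb2] at h'
  have h2' : br (Nat.ble J0 j1)
        (br (Nat.beq j1 j2)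
          (touch (S + L <<< (s * (j1 - J0))) (c (S + L <<< (s * (j1 - J0))) S2 (tot + L)))
          (br (Nat.ble j2 (j1 + mu))
            (touch (S2 + L <<< (s * (j1 - J0))) (c S (S2 + L <<< (s * (j1 - J0))) (tot + L)))
            false)) false = true := h'
  obtain ⟨hJ, h2⟩ := br_false h2'
  have hJ' : J0 ≤ j1 := Nat.ble_eq.mp hJ
  have hbase : j1 - J0 + J0 = j1 := by omega
  have ent : ∀ (mu' : ℕ), j2 ≤ j1 + mu' → ∀ G, LeafF r G → EntG t M mu' (j1, L) G := by
    intro mu' hmu G hG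
    refine ⟨by rw [hL]; exact hG.tot, fun p hp => ⟨hG.len p hp, fun lo hi hlo hhi => ?_⟩⟩
    obtain ⟨b1, b2⟩ := bk G hG p hp lo hi hlo hhi
    exact ⟨le_trans b1 hmu, b2⟩
  by_cases hj : j1 = j2
  · have hb : Nat.beq j1 j2 = true := Nat.beq_eq.mpr hj
    rw [hb] at h2
    have h3 : touch (S + L <<< (s * (j1 - J0))) (c (S + L <<< (s * (j1 - J0))) S2 (tot + L)) = true := h2
    rw [row2_touch] at h3
    refine ⟨{(j1 - J0, L)}, 0, ?_, ?_⟩
    · have e1 : pack s {(j1 - J0, L)} = L <<< (s * (j1 - J0)) := by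
        simp [pack, Nat.shiftLeft_eq]
      have e2 : tv {(j1 - J0, L)} = L := by simp [tv]
      rw [e1, e2, pack_zero, tv_zero, add_zero, add_zero]
      exact h3
    · intro G hG
      refine ⟨{G}, 0, 0, by simp, ?_, by simp, by simp⟩
      rw [← Multiset.cons_zero, ← Multiset.cons_zero]
      refine Multiset.Rel.cons ?_ Multiset.Rel.zero
      simp only
      rw [hbase]
      exact ent 0 (by omega) G hG
  · have hb : Nat.beq j1 j2 = false := by
      rw [← Bool.not_eq_true]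
      intro hc
      exact hj (Nat.beq_eq.mp hc)
    rw [hb] at h2
    have h3 : br (Nat.ble j2 (j1 + mu))
            (touch (S2 + L <<< (s * (j1 - J0))) (c S (S2 + L <<< (s * (j1 - J0))) (tot + L)))
            false = true := h2
    obtain ⟨h4, h5⟩ := br_false h3
    rw [row2_touch] at h5
    have h6 : j2 ≤ j1 + mu := Nat.ble_eq.mp h4
    refine ⟨0, {(j1 - J0, L)}, ?_, ?_⟩
    · have e1 : pack s {(j1 - J0, L)} = L <<< (s * (j1 - J0)) := by
        simp [pack, Nat.shiftLeft_eq]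
      have e2 : tv {(j1 - J0, L)} = L := by simp [tv]
      rw [e1, e2, pack_zero, tv_zero, add_zero, add_zero]
      exact h5
    · intro G hG
      refine ⟨0, {G}, 0, by simp, by simp, ?_, by simp⟩
      rw [← Multiset.cons_zero, ← Multiset.cons_zero]
      refine Multiset.Rel.cons ?_ Multiset.Rel.zero
      simp only
      rw [hbase]
      exact ent mu h6 G hG

private theorem row2_comb {t M mu J0 Jq T : ℕ} {P P' Q Q' : Multiset (ℕ × ℕ)}
    {G G' : Multiset (ℝ × ℝ)}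
    (h : ∃ (D D2 : Multiset (Multiset (ℝ × ℝ))) (G0 : Multiset (ℝ × ℝ)), G = D.sum + D2.sum + G0 ∧
      Multiset.Rel (fun p => EntG t M 0 (p.1 + J0, p.2)) P D ∧
      Multiset.Rel (fun p => EntG t M mu (p.1 + J0, p.2)) Q D2 ∧ ∀ p ∈ G0, R2Out t Jq T p)
    (h' : ∃ (D D2 : Multiset (Multiset (ℝ × ℝ))) (G0 : Multiset (ℝ × ℝ)), G' = D.sum + D2.sum + G0 ∧
      Multiset.Rel (fun p => EntG t M 0 (p.1 + J0, p.2)) P' D ∧
      Multiset.Rel (fun p => EntG t M mu (p.1 + J0, p.2)) Q' D2 ∧ ∀ p ∈ G0, R2Out t Jq T p) :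
    ∃ (D D2 : Multiset (Multiset (ℝ × ℝ))) (G0 : Multiset (ℝ × ℝ)), G + G' = D.sum + D2.sum + G0 ∧
      Multiset.Rel (fun p => EntG t M 0 (p.1 + J0, p.2)) (P + P') D ∧
      Multiset.Rel (fun p => EntG t M mu (p.1 + J0, p.2)) (Q + Q') D2 ∧
      ∀ p ∈ G0, R2Out t Jq T p := by
  obtain ⟨D, D2, G0, e, r1, r2, o⟩ := h
  obtain ⟨E, E2, G0', e', r1', r2', o'⟩ := h'
  refine ⟨D + E, D2 + E2, G0 + G0', ?_, r1.add r1', r2.add r2', row2_outadd o o'⟩
  rw [e, e', Multiset.sum_add, Multiset.sum_add]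
  abel

private theorem row2_tot (tot a b c d : ℕ) : tot + a + b + c + d = tot + (a + c) + (b + d) := by
  omega

/-- a list of fat records -/
private theorem row2_Fs {A s J0 J1 Jq wl wh t M T mu : ℕ} (hp : R2Par A J0 J1 Jq wl wh t M T) :
    ∀ (xs : List ℕ) (S S2 tot : ℕ) (c : ℕ → ℕ → ℕ → Bool), (∀ r ∈ xs, 1 ≤ fx r) →
      rowFs2 A s J0 J1 Jq mu xs S S2 tot c = true →
      ∃ P P2 : Multiset (ℕ × ℕ), c (S + pack s P) (S2 + pack s P2) (tot + tv P + tv P2) = true ∧
        ∀ B : Multiset (Multiset (ℝ × ℝ)), Multiset.Rel LeafF (xs : Multiset ℕ) B →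
          ∃ (D D2 : Multiset (Multiset (ℝ × ℝ))) (G0 : Multiset (ℝ × ℝ)),
            B.sum = D.sum + D2.sum + G0 ∧
            Multiset.Rel (fun p => EntG t M 0 (p.1 + J0, p.2)) P D ∧
            Multiset.Rel (fun p => EntG t M mu (p.1 + J0, p.2)) P2 D2 ∧
            ∀ p ∈ G0, R2Out t Jq T p := by
  intro xs
  induction xs with
  | nil =>
    intro S S2 tot c _ h
    refine ⟨0, 0, ?_, ?_⟩
    · simp only [pack_zero, tv_zero, add_zero]
      have h' : touch tot (c S S2 tot) = true := h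
      rwa [row2_touch] at h'
    · intro B hB
      have : B = 0 := by
        have := Multiset.card_eq_card_of_rel hB
        simpa using this.symm
      subst this
      exact ⟨0, 0, 0, by simp, by simp, by simp, by simp⟩
  | cons x xs ih =>
    intro S S2 tot c hr h
    have h' : rowF2 A s J0 J1 Jq mu x S S2 tot
        (fun S' S2' tot' => rowFs2 A s J0 J1 Jq mu xs S' S2' tot' c) = true := h
    obtain ⟨P, Q, h1, h1'⟩ := row2_F hp x S S2 tot _ (hr x List.mem_cons_self) h'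
    obtain ⟨P', Q', h2, h2'⟩ := ih _ _ _ c (fun r hr' => hr r (List.mem_cons_of_mem _ hr')) h1
    refine ⟨P + P', Q + Q', ?_, ?_⟩
    · rw [pack_add, tv_add, pack_add, tv_add, ← row2_tot, ← add_assoc, ← add_assoc]
      exact h2
    · intro B hB
      have hB2 : Multiset.Rel LeafF (x ::ₘ (xs : Multiset ℕ)) B := hB
      rw [Multiset.rel_cons_left] at hB2
      obtain ⟨G, B', hG, hB', rfl⟩ := hB2
      rw [Multiset.sum_cons]
      exact row2_comb (h1' G hG) (h2' B' hB')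

/-- all fat records -/
private theorem row2_FL {A s J0 J1 Jq wl wh t M T mu : ℕ} (hp : R2Par A J0 J1 Jq wl wh t M T) :
    ∀ (FF : List (List ℕ)) (S S2 tot : ℕ) (c : ℕ → ℕ → ℕ → Bool), (∀ r ∈ FF.flatten, 1 ≤ fx r) →
      rowFL2 A s J0 J1 Jq mu FF S S2 tot c = true →
      ∃ P P2 : Multiset (ℕ × ℕ), c (S + pack s P) (S2 + pack s P2) (tot + tv P + tv P2) = true ∧
        ∀ B : Multiset (Multiset (ℝ × ℝ)), Multiset.Rel LeafF (FF.flatten : Multiset ℕ) B →
          ∃ (D D2 : Multiset (Multiset (ℝ × ℝ))) (G0 : Multiset (ℝ × ℝ)),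
            B.sum = D.sum + D2.sum + G0 ∧
            Multiset.Rel (fun p => EntG t M 0 (p.1 + J0, p.2)) P D ∧
            Multiset.Rel (fun p => EntG t M mu (p.1 + J0, p.2)) P2 D2 ∧
            ∀ p ∈ G0, R2Out t Jq T p := by
  intro FF
  induction FF with
  | nil =>
    intro S S2 tot c _ h
    refine ⟨0, 0, ?_, ?_⟩
    · simp only [pack_zero, tv_zero, add_zero]
      exact h
    · intro B hB
      have : B = 0 := by
        have := Multiset.card_eq_card_of_rel hB
        simpa using this.symm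
      subst this
      exact ⟨0, 0, 0, by simp, by simp, by simp, by simp⟩
  | cons xs FF ih =>
    intro S S2 tot c hr h
    rw [List.flatten_cons] at hr
    have h' : rowFs2 A s J0 J1 Jq mu xs S S2 tot
        (fun S' S2' tot' => rowFL2 A s J0 J1 Jq mu FF S' S2' tot' c) = true := h
    obtain ⟨P, Q, h1, h1'⟩ := row2_Fs hp xs S S2 tot _
      (fun r hr' => hr r (List.mem_append_left _ hr')) h'
    obtain ⟨P', Q', h2, h2'⟩ := ih _ _ _ c (fun r hr' => hr r (List.mem_append_right _ hr')) h1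
    refine ⟨P + P', Q + Q', ?_, ?_⟩
    · rw [pack_add, tv_add, pack_add, tv_add, ← row2_tot, ← add_assoc, ← add_assoc]
      exact h2
    · intro B hB
      rw [List.flatten_cons, ← Multiset.coe_add, Multiset.rel_add_left] at hB
      obtain ⟨B1, B2, hB1, hB2, rfl⟩ := hB
      rw [Multiset.sum_add]
      exact row2_comb (h1' B1 hB1) (h2' B2 hB2)

private theorem row2_end_ge : ∀ (xs : List ℕ) (k : ℕ), k ≤ rowsEnd k xs := by
  intro xs
  induction xs with
  | nil => intro k; exact le_refl _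
  | cons x xs ih => intro k; exact le_trans (Nat.le_add_right _ _) (ih _)

private theorem row2_cend_ge : ∀ (xs : List ℕ) (k : ℕ), k ≤ cellsEnd k xs := by
  intro xs
  induction xs with
  | nil => intro k; exact le_refl _
  | cons x xs ih => intro k; exact le_trans (Nat.le_add_right _ _) (ih _)

private theorem row2_rend {s J0 t M mu S S2 : ℕ} (c : ℕ → Bool) : ∀ (xs : List ℕ) (k : ℕ),
    rowBs s J0 t M mu S S2 xs k c = true → c (rowsEnd k xs) = true := by
  intro xs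
  induction xs with
  | nil => intro k h; exact h
  | cons x xs ih =>
    intro k h
    obtain ⟨-, h2⟩ := br_false (show br (rowB s J0 t M mu S S2 k (bg x) (bV x) (bn x))
      (force (k + bn x * bg x) (fun k' => rowBs s J0 t M mu S S2 xs k' c)) false = true from h)
    rw [force_eq] at h2
    exact ih _ h2

private theorem row2_cend {s J0 t M mu S S2 : ℕ} (c : ℕ → Bool) : ∀ (xs : List ℕ) (i : ℕ),
    rowCs s J0 t M mu S S2 xs i c = true → c (cellsEnd i xs) = true := by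
  intro xs
  induction xs with
  | nil => intro i h; exact h
  | cons x xs ih =>
    intro i h
    obtain ⟨-, h2⟩ := br_false (show br (Nat.ble (qv s J0 t M mu S S2 i (i + bn x)) (x >>> 20))
      (force (i + bn x) (fun i' => rowCs s J0 t M mu S S2 xs i' c)) false = true from h)
    rw [force_eq] at h2
    exact ih _ h2

private theorem row2_rows {s J0 t M mu S S2 k0 hmax : ℕ} {G : Multiset (ℝ × ℝ)}
    (hG : ∀ r ∈ G, 0 ≤ r.2) (hk0 : 15 ≤ k0)
    (hq : ∀ lo hi : ℕ, lo ≤ hi → k0 - 15 ≤ lo → hi ≤ hmax →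
      lam (Eng.tau lo) (Eng.tau hi) G * 2 ^ 36 ≤ qv s J0 t M mu S S2 lo hi) (c : ℕ → Bool) :
    ∀ (xs : List ℕ) (k : ℕ), k0 ≤ k → rowsEnd k xs ≤ hmax + 3 →
    rowBs s J0 t M mu S S2 xs k c = true → RowsOK G k xs := by
  intro xs
  induction xs with
  | nil => intro k _ _ h; exact trivial
  | cons x xs ih =>
    intro k hk he h
    obtain ⟨h1, h2⟩ := br_false (show br (rowB s J0 t M mu S S2 k (bg x) (bV x) (bn x))
      (force (k + bn x * bg x) (fun k' => rowBs s J0 t M mu S S2 xs k' c)) false = true from h)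
    rw [force_eq] at h2
    have h3 := ih _ (le_trans hk (Nat.le_add_right _ _)) he h2
    have he' : k + bn x * bg x ≤ hmax + 3 := le_trans (row2_end_ge xs _) he
    refine ⟨fun k' hk1 hk2 => ?_, h3⟩
    have hg : 0 < bg x := by
      rcases Nat.eq_zero_or_pos (bg x) with h0 | h0
      · rw [h0, mul_zero] at hk2; omega
      · exact h0
    have hj : (k' - k) / bg x < bn x := by
      rw [Nat.div_lt_iff_lt_mul hg]; omega
    have h5 := row2_rowB _ h1 _ hj
    set j := (k' - k) / bg x with hjd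
    have h6 : bg x * j ≤ k' - k := Nat.mul_div_le _ _
    have h7 : k' - k < bg x * j + bg x := by
      have := Nat.lt_mul_div_succ (k' - k) hg
      rw [Nat.mul_add, mul_one] at this
      exact this
    have h7' : bg x * j + bg x ≤ bn x * bg x := by
      calc bg x * j + bg x = (j + 1) * bg x := by ring
        _ ≤ bn x * bg x := Nat.mul_le_mul_right _ hj
    have h8 : k + bg x * j - 15 ≤ k' - 15 := by omega
    have h9 : k' - 3 ≤ k + bg x * j - 4 + bg x := by omega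
    have h10 : k + bg x * j - 15 ≤ k + bg x * j - 4 + bg x := by omega
    have h11 := hq _ _ h10 (by omega) (by omega)
    have h12 : lam (Eng.tau (k' - 15)) (Eng.tau (k' - 3)) G ≤
        lam (Eng.tau (k + bg x * j - 15)) (Eng.tau (k + bg x * j - 4 + bg x)) G :=
      row2_lam_mono hG (by exact_mod_cast row2_tau_mono h8) (Nat.cast_nonneg _)
        (by exact_mod_cast row2_tau_mono h9)
    have h13 : ((qv s J0 t M mu S S2 (k + bg x * j - 15) (k + bg x * j - 4 + bg x) : ℕ) : ℝ) ≤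
        ((bV x : ℕ) : ℝ) := by exact_mod_cast h5
    have h14 := mul_le_mul_of_nonneg_right h12 (show (0 : ℝ) ≤ 2 ^ 36 by positivity)
    exact h14.trans (h11.trans h13)

private theorem row2_cells {s J0 t M mu S S2 i0 hmax : ℕ} {G : Multiset (ℝ × ℝ)}
    (hq : ∀ lo hi : ℕ, lo ≤ hi → i0 ≤ lo → hi ≤ hmax →
      lam (Eng.tau lo) (Eng.tau hi) G * 2 ^ 36 ≤ qv s J0 t M mu S S2 lo hi) (c : ℕ → Bool) :
    ∀ (xs : List ℕ) (i : ℕ), i0 ≤ i → cellsEnd i xs ≤ hmax →
    rowCs s J0 t M mu S S2 xs i c = true → CellsOK G i xs := by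
  intro xs
  induction xs with
  | nil => intro i _ _ h; exact trivial
  | cons x xs ih =>
    intro i hi he h
    obtain ⟨h1, h2⟩ := br_false (show br (Nat.ble (qv s J0 t M mu S S2 i (i + bn x)) (x >>> 20))
      (force (i + bn x) (fun i' => rowCs s J0 t M mu S S2 xs i' c)) false = true from h)
    rw [force_eq] at h2
    have h3 := ih _ (le_trans hi (Nat.le_add_right _ _)) he h2
    have he' : i + bn x ≤ hmax := le_trans (row2_cend_ge xs _) he
    refine ⟨?_, h3⟩
    have h5 := hq i (i + bn x) (Nat.le_add_right _ _) hi he'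
    have h6 : ((qv s J0 t M mu S S2 i (i + bn x) : ℕ) : ℝ) ≤ ((x >>> 20 : ℕ) : ℝ) := by
      exact_mod_cast Nat.le_of_ble_eq_true h1
    exact h5.trans h6

private theorem row2_leavesF_nonneg {R : Multiset ℕ}
    {A : Multiset (Multiset (ℝ × ℝ))} (hA : Multiset.Rel LeafF R A) :
    ∀ r ∈ A.sum, 0 ≤ r.2 := by
  induction hA with
  | zero => intro r hr; rw [Multiset.sum_zero] at hr; exact absurd hr (Multiset.notMem_zero r)
  | cons hab _ ih =>
    intro r hr
    rw [Multiset.sum_cons, Multiset.mem_add] at hr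
    rcases hr with hr | hr
    · exact hab.len r hr
    · exact ih r hr

/-- the row module -/
theorem rowck2_sound {dr A s J0 J1 Jq wl wh t M mu hmax : ℕ} {RR FF : List (List ℕ)} {k0 k1 : ℕ}
    {BB : List ℕ} {i0 i1 : ℕ} {CC : List ℕ} (hdr : dr = 2 ^ 88) (hs : 1 ≤ s) (ht : t ≤ 80)
    (hhm : hmax ≤ 10 ^ 7) (hk0 : 15 ≤ k0) (hR : ∀ r ∈ RR.flatten, RunOK r)
    (hF : ∀ r ∈ FF.flatten, 1 ≤ fx r)
    (h : rowck2 dr A s J0 J1 Jq wl wh t M mu hmax RR FF k0 k1 BB i0 i1 CC = true)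
    {G : Multiset (ℝ × ℝ)} (hG : Leaves (RR.flatten : List ℕ) (FF.flatten : List ℕ) G) :
    RowsOK G k0 BB ∧ rowsEnd k0 BB = k1 ∧ CellsOK G i0 CC ∧ cellsEnd i0 CC = i1 := by
  subst hdr
  obtain ⟨h1, h2⟩ := br_false (show br (rowpar (2 ^ 88) A J0 J1 Jq wl wh t M hmax k0 k1 i0 i1)
    (rowRL2 (2 ^ 88) A s J0 wl wh RR 0 0 (fun S tot =>
      rowFL2 A s J0 J1 Jq mu FF S 0 tot (fun S S2 tot =>
        br (Nat.ble (Nat.add tot 2) (Nat.shiftLeft 1 s))
          (rowBs s J0 t M mu S S2 BB k0 (fun k => br (Nat.beq k k1)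
            (rowCs s J0 t M mu S S2 CC i0 (fun i => Nat.beq i i1)) false)) false))) false = true from h)
  unfold rowpar at h1
  obtain ⟨p1, h1⟩ := br_false h1
  obtain ⟨p2, h1⟩ := br_false h1
  obtain ⟨p3, h1⟩ := br_false h1
  obtain ⟨p4, h1⟩ := br_false h1
  obtain ⟨p5, h1⟩ := br_false h1
  obtain ⟨p6, h1⟩ := br_false h1
  obtain ⟨p7, h1⟩ := br_false h1
  obtain ⟨p8, h1⟩ := br_false h1
  obtain ⟨p9, h1⟩ := br_false h1
  obtain ⟨p10, p11⟩ := br_false h1
  have q1 : A = 2 ^ 88 / 2 ^ t := by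
    have := Nat.eq_of_beq_eq_true p1
    rw [this]
    exact Nat.shiftRight_eq_div_pow _ _
  have q2 : wl = A / J1 := Nat.eq_of_beq_eq_true p2
  have q3 : wh = A / J0 := Nat.eq_of_beq_eq_true p3
  have q4 : 1 ≤ J0 := Nat.le_of_ble_eq_true p4
  have q5 : J0 ≤ Jq := Nat.le_of_ble_eq_true p5
  have q6 : Eng.tau hmax * Eng.tau hmax * 1300 ≤ M * 2 ^ 88 := by
    have := Nat.le_of_ble_eq_true p6
    rw [← tauN_eq]
    exact this
  have q7 : Jq ≤ Eng.tau (k0 - 15) / 2 ^ t := by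
    have h3 : Jq ≤ tauN (k0 - 15) >>> t := Nat.le_of_ble_eq_true p7
    rw [tauN_eq, Nat.shiftRight_eq_div_pow] at h3
    exact h3
  have q8 : Jq ≤ Eng.tau i0 / 2 ^ t := by
    have h3 : Jq ≤ tauN i0 >>> t := Nat.le_of_ble_eq_true p8
    rw [tauN_eq, Nat.shiftRight_eq_div_pow] at h3
    exact h3
  have q9 : (Eng.tau hmax + M) / 2 ^ t + 1 ≤ J1 := by
    have h3 : (tauN hmax + M) >>> t + 1 ≤ J1 := Nat.le_of_ble_eq_true p9
    rw [tauN_eq, Nat.shiftRight_eq_div_pow] at h3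
    exact h3
  have q10 : k1 ≤ hmax + 3 := Nat.le_of_ble_eq_true p10
  have q11 : i1 ≤ hmax := Nat.le_of_ble_eq_true p11
  have hhm' : Eng.tau hmax ≤ 2 ^ 60 := by
    have h3 : hmax ^ 3 ≤ (10 ^ 7) ^ 3 := Nat.pow_le_pow_left hhm 3
    unfold Eng.tau
    have h4 : hmax ^ 3 / 1728000 ≤ (10 ^ 7) ^ 3 / 1728000 := Nat.div_le_div_right h3
    have h5 : 64 * (hmax ^ 3 / 1728000) ≤ 64 * ((10 ^ 7) ^ 3 / 1728000) := Nat.mul_le_mul_left _ h4
    refine h5.trans ?_
    norm_num
  have hp : R2Par A J0 J1 Jq wl wh t M (Eng.tau hmax) := ⟨ht, hhm', q6, q1, q2, q3, q4, q5, q9⟩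
  obtain ⟨P, hc, hP⟩ := row2_RL hp RR 0 0 _ hR h2
  obtain ⟨P', P2, hc', hP'⟩ := row2_FL hp FF _ 0 _ _ hF hc
  obtain ⟨EA, EB, hA, hB, hGAB⟩ := hG
  obtain ⟨D0, G0, e0, r0, o0⟩ := hP EA hA
  obtain ⟨D, D2, G0', e1, r1, r2, o1⟩ := hP' EB hB
  have hE1 : Multiset.Rel (fun p => EntG t M 0 (p.1 + J0, p.2)) (P + P') (D0 + D) := r0.add r1
  have hGsum : G = ((D0 + D).sum + D2.sum) + (G0 + G0') := by
    rw [hGAB, e0, e1, Multiset.sum_add]
    abel
  have hout : ∀ p ∈ G0 + G0', R2Out t Jq (Eng.tau hmax) p := row2_outadd o0 o1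
  have hpack : pack s P + pack s P' = pack s (P + P') := (pack_add s P P').symm
  have htv : tv (P + P') = tv P + tv P' := tv_add P P'
  simp only [zero_add, hpack] at hc'
  obtain ⟨h3, h4⟩ := br_false hc'
  have h5 : tv (P + P') + tv P2 + 2 ≤ 2 ^ s := by
    have := Nat.le_of_ble_eq_true h3
    rw [← Nat.one_shiftLeft, htv]
    have h6 : tv P + tv P' + tv P2 + 2 ≤ 1 <<< s := this
    omega
  have hq : ∀ lo hi : ℕ, lo ≤ hi → Jq ≤ Eng.tau lo / 2 ^ t → hi ≤ hmax →
      lam (Eng.tau lo) (Eng.tau hi) G * 2 ^ 36 ≤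
      qv s J0 t M mu (pack s (P + P')) (pack s P2) lo hi := by
    intro lo hi hlh hlo hhi
    have hz : lam (Eng.tau lo) (Eng.tau hi) (G0 + G0') = 0 := by
      unfold lam
      refine Multiset.sum_eq_zero fun y hy => ?_
      obtain ⟨q, hq, rfl⟩ := Multiset.mem_map.1 hy
      exact if_neg (hout q hq _ _ hlo (row2_tau_mono hhi))
    rw [hGsum, qv_lam_add, hz, add_zero]
    exact qv_sound hs hlh h5 hE1 r2
  have hG0 : ∀ r ∈ G, 0 ≤ r.2 := by
    intro r hr
    rw [hGAB, Multiset.mem_add] at hr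
    rcases hr with hr | hr
    · exact row2_leaves_nonneg hA rfl r hr
    · exact row2_leavesF_nonneg hB r hr
  have h7 := row2_rend _ BB k0 h4
  obtain ⟨h8, h9⟩ := br_false h7
  have h8' : rowsEnd k0 BB = k1 := Nat.eq_of_beq_eq_true h8
  have h10 := row2_cend _ CC i0 h9
  have h10' : cellsEnd i0 CC = i1 := Nat.eq_of_beq_eq_true h10
  refine ⟨?_, h8', ?_, h10'⟩
  · exact row2_rows hG0 hk0 (fun lo hi h1 h2 h3 => hq lo hi h1
      (le_trans q7 (Nat.div_le_div_right (row2_tau_mono h2))) h3) _ BB k0 (le_refl _)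
      (by rw [h8']; exact q10) h4
  · exact row2_cells (fun lo hi h1 h2 h3 => hq lo hi h1
      (le_trans q8 (Nat.div_le_div_right (row2_tau_mono h2))) h3) _ CC i0 (le_refl _)
      (by rw [h10']; exact q11) h9

end Pool.Agent.Moser.Ck
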