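import Pool.Agent.Lib_MP_cc07e8_ck.CkAsmDefs
import Pool.Agent.Lib_MP_cc07e8_ck.CkChain
import Pool.Agent.Lib_MP_cc07e8_ck.CkRow2
import Pool.Agent.Lib_MP_cc07e8_ck.CkFac
import Pool.Agent.Lib_MP_cc07e8_ck.CkFins

/-! # MP_cc07e8_co: the explicit start from the checks of all tables -/

open Finset

namespace Pool.Agent.Moser.Ck

/-! ### combining checks -/

theorem FCk.get {ms : List Md} {s : ℕ} {l : List FP} (h : FCk ms s l) {j : ℕ} {f : FP}
    (hf : l[j]? = some f) : fchk ms (s + j) f = true := by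
  induction l generalizing s j with
  | nil => simp at hf
  | cons r l ih =>
    cases j with
    | zero =>
      rw [List.getElem?_cons_zero, Option.some.injEq] at hf
      rw [← hf]
      exact h.1
    | succ j =>
      rw [List.getElem?_cons_succ] at hf
      have := ih h.2 hf
      rwa [show s + 1 + j = s + (j + 1) by omega] at this

/-! ### records -/

theorem asm_flat (g : ℕ → List (List ℕ)) (n : ℕ) :
    ((((List.range n).flatMap g).flatten : List ℕ) : Multiset ℕ) =
      ∑ i ∈ range n, (((g i).flatten : List ℕ) : Multiset ℕ) := by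
  induction n with
  | zero => rfl
  | succ n ih =>
    rw [List.range_succ, List.flatMap_append, List.flatten_append, ← Multiset.coe_add, ih,
      sum_range_succ]
    congr 2
    rw [List.flatMap_cons, List.flatMap_nil, List.append_nil]

theorem asm_mem {g : ℕ → List (List ℕ)} {n r : ℕ} (h : r ∈ ((List.range n).flatMap g).flatten) :
    ∃ i < n, r ∈ (g i).flatten := by
  rw [List.mem_flatten] at h
  obtain ⟨l, h1, h2⟩ := h
  rw [List.mem_flatMap] at h1
  obtain ⟨i, h3, h4⟩ := h1
  exact ⟨i, List.mem_range.1 h3, List.mem_flatten.2 ⟨l, h4, h2⟩⟩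

theorem asm_leaves {R F : ℕ → Multiset ℕ} {G : ℕ → Multiset (ℝ × ℝ)} (n : ℕ)
    (h : ∀ i < n, Leaves (R i) (F i) (G i)) :
    Leaves (∑ i ∈ range n, R i) (∑ i ∈ range n, F i) (∑ i ∈ range n, G i) := by
  induction n with
  | zero => exact Leaves.zero
  | succ n ih =>
    rw [sum_range_succ, sum_range_succ, sum_range_succ]
    exact (ih fun i hi => h i (by omega)).add (h n (by omega))

/-! ### lengths -/

theorem asm_lam_sum (a b : ℝ) (G : ℕ → Multiset (ℝ × ℝ)) (s : Finset ℕ) :
    lam a b (∑ i ∈ s, G i) = ∑ i ∈ s, lam a b (G i) := by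
  classical
  induction s using Finset.induction_on with
  | empty => simp [lam]
  | insert i s hi ih => rw [Finset.sum_insert hi, Finset.sum_insert hi, lam_add, ih]

theorem asm_lam {a b : ℝ} {G : ℕ → Multiset (ℝ × ℝ)} {N s0 n : ℕ} (hN : s0 + n ≤ N)
    (h : ∀ s < N, ¬ (s0 ≤ s ∧ s < s0 + n) → lam a b (G s) = 0) :
    lam a b (∑ s ∈ range N, G s) = lam a b (∑ i ∈ range n, G (s0 + i)) := by
  rw [asm_lam_sum, asm_lam_sum]
  have h1 : ∑ i ∈ range n, lam a b (G (s0 + i)) = ∑ s ∈ Ico s0 (s0 + n), lam a b (G s) := by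
    rw [Finset.sum_Ico_eq_sum_range, Nat.add_sub_cancel_left]
  rw [h1]
  symm
  apply Finset.sum_subset
  · intro s hs
    rw [mem_Ico] at hs
    exact mem_range.2 (by omega)
  · intro s hs hs'
    rw [mem_Ico] at hs'
    exact h s (mem_range.1 hs) hs'

theorem le_rowsEnd : ∀ (BB : List ℕ) (k : ℕ), k ≤ rowsEnd k BB
  | [], k => le_rfl
  | x :: xs, k => (Nat.le_add_right _ _).trans (le_rowsEnd xs _)

theorem le_cellsEnd : ∀ (CC : List ℕ) (i : ℕ), i ≤ cellsEnd i CC
  | [], i => le_rfl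
  | x :: xs, i => (Nat.le_add_right _ _).trans (le_cellsEnd xs _)

theorem rowsOK_congr {G G' : Multiset (ℝ × ℝ)} : ∀ (BB : List ℕ) (k : ℕ),
    (∀ k', k ≤ k' → k' < rowsEnd k BB → lam (Eng.tau (k' - 15)) (Eng.tau (k' - 3)) G =
      lam (Eng.tau (k' - 15)) (Eng.tau (k' - 3)) G') → RowsOK G' k BB → RowsOK G k BB
  | [], _, _, _ => trivial
  | x :: xs, k, h, h' => by
    refine ⟨fun k' h1 h2 => ?_, rowsOK_congr xs _ (fun k' h1 h2 => h k' (by omega) h2) h'.2⟩
    have h3 := le_rowsEnd xs (k + bn x * bg x)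
    rw [h k' h1 (lt_of_lt_of_le h2 h3)]
    exact h'.1 k' h1 h2

theorem cellsOK_congr {G G' : Multiset (ℝ × ℝ)} : ∀ (CC : List ℕ) (i : ℕ),
    (∀ i' j', i ≤ i' → i' ≤ j' → j' ≤ cellsEnd i CC → lam (Eng.tau i') (Eng.tau j') G =
      lam (Eng.tau i') (Eng.tau j') G') → CellsOK G' i CC → CellsOK G i CC
  | [], _, _, _ => trivial
  | x :: xs, i, h, h' => by
    refine ⟨?_, cellsOK_congr xs _ (fun i' j' h1 h2 h3 => h i' j' (by omega) h2 h3) h'.2⟩
    have h3 := le_cellsEnd xs (i + bn x)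
    rw [h i (i + bn x) le_rfl (by omega) h3]
    exact h'.1

theorem rowsOK_append {G : Multiset (ℝ × ℝ)} : ∀ (B B' : List ℕ) (k : ℕ), RowsOK G k B →
    RowsOK G (rowsEnd k B) B' → RowsOK G k (B ++ B')
  | [], _, _, _, h' => h'
  | _ :: xs, B', _, h, h' => ⟨h.1, rowsOK_append xs B' _ h.2 h'⟩

theorem cellsOK_append {G : Multiset (ℝ × ℝ)} : ∀ (B B' : List ℕ) (k : ℕ), CellsOK G k B →
    CellsOK G (cellsEnd k B) B' → CellsOK G k (B ++ B')
  | [], _, _, _, h' => h'
  | _ :: xs, B', _, h, h' => ⟨h.1, cellsOK_append xs B' _ h.2 h'⟩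

theorem rowsEnd_append : ∀ (B B' : List ℕ) (k : ℕ), rowsEnd k (B ++ B') = rowsEnd (rowsEnd k B) B'
  | [], _, _ => rfl
  | _ :: xs, B', _ => rowsEnd_append xs B' _

theorem cellsEnd_append : ∀ (B B' : List ℕ) (k : ℕ),
    cellsEnd k (B ++ B') = cellsEnd (cellsEnd k B) B'
  | [], _, _ => rfl
  | _ :: xs, B', _ => cellsEnd_append xs B' _

/-! ### the tables -/

theorem br_cases {b t e : Bool} (h : br b t e = true) (p : Prop) (h1 : b = true → t = true → p)
    (h2 : e = true → p) : p := by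
  rcases br_true h with ⟨h3, h4⟩ | ⟨-, h4⟩
  · exact h1 h3 h4
  · exact h2 h4

theorem oth_sound {s0 n k0 k1 i0 i1 : ℕ} {c : Bool} {fs : List FP} {s : ℕ}
    (h : oth s0 n k0 k1 i0 i1 c fs s = true) {j : ℕ} {f : FP} (hf : fs[j]? = some f) :
    (s0 ≤ s + j ∧ s + j < s0 + n) ∨
      ((f.ib + 15 ≤ k0 ∨ k1 ≤ f.ia + 4) ∧ (c = true ∨ f.ib ≤ i0 ∨ i1 ≤ f.ia)) := by
  induction fs generalizing s j with
  | nil => simp at hf
  | cons r l ih =>
    obtain ⟨ia, ib, W⟩ := r
    have h' : br (br (Nat.ble s0 s) (Nat.ble (Nat.succ s) (Nat.add s0 n)) false)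
        (oth s0 n k0 k1 i0 i1 c l (Nat.succ s))
        (br (br (Nat.ble (Nat.add ib 15) k0) true (Nat.ble k1 (Nat.add ia 4)))
          (br (br c true (br (Nat.ble ib i0) true (Nat.ble i1 ia)))
            (oth s0 n k0 k1 i0 i1 c l (Nat.succ s)) false) false) = true := h
    have hrec : oth s0 n k0 k1 i0 i1 c l (Nat.succ s) = true := by
      rcases br_true h' with ⟨-, h1⟩ | ⟨-, h1⟩
      · exact h1
      · exact (br_false (br_false h1).2).2
    cases j with
    | zero =>
      rw [List.getElem?_cons_zero, Option.some.injEq] at hf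
      subst hf
      rcases br_true h' with ⟨h1, -⟩ | ⟨-, h1⟩
      · left
        obtain ⟨h2, h3⟩ := br_false h1
        exact ⟨by simpa using Nat.le_of_ble_eq_true h2, by simpa using Nat.le_of_ble_eq_true h3⟩
      · right
        obtain ⟨h2, h3⟩ := br_false h1
        obtain ⟨h4, -⟩ := br_false h3
        refine ⟨?_, ?_⟩
        · rcases br_true h2 with ⟨h5, -⟩ | ⟨-, h5⟩
          · exact Or.inl (Nat.le_of_ble_eq_true h5)
          · exact Or.inr (Nat.le_of_ble_eq_true h5)
        · rcases br_true h4 with ⟨h5, -⟩ | ⟨-, h5⟩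
          · exact Or.inl h5
          · rcases br_true h5 with ⟨h6, -⟩ | ⟨-, h6⟩
            · exact Or.inr (Or.inl (Nat.le_of_ble_eq_true h6))
            · exact Or.inr (Or.inr (Nat.le_of_ble_eq_true h6))
    | succ j =>
      rw [List.getElem?_cons_succ] at hf
      have := ih hrec hf
      rwa [show Nat.succ s + j = s + (j + 1) by omega] at this

theorem ctab_sound {cs : List ℕ} (h : ctab cs = true) : ∀ x ∈ cs, 1 ≤ bn x := by
  induction cs with
  | nil => simp
  | cons x l ih =>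
    obtain ⟨h1, h2⟩ := br_false (b := Nat.ble 1 (Nat.land x 1048575)) (t := ctab l) h
    intro y hy
    rcases List.mem_cons.1 hy with rfl | hy
    · exact Nat.le_of_ble_eq_true h1
    · exact ih h2 y hy

theorem ftab_sound {kE : ℕ} {fs : List FP} {W : ℕ} (h : ftab kE fs W = true) :
    (∀ f ∈ fs, 10320 ≤ f.ia ∧ f.ib + 15 ≤ kE) ∧
      10000 * (W + (fs.map FP.W).sum) ≤ 38 * 309485009821345068724781056 := by
  induction fs generalizing W with
  | nil =>
    refine ⟨by simp, ?_⟩
    have h' : Nat.ble (Nat.mul 10000 W) (Nat.mul 38 309485009821345068724781056) = true := h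
    have := Nat.le_of_ble_eq_true h'
    simpa using this
  | cons f l ih =>
    obtain ⟨ia, ib, W'⟩ := f
    have h' : br (Nat.ble 10320 ia) (br (Nat.ble (Nat.add ib 15) kE)
      (force (Nat.add W W') (ftab kE l)) false) false = true := h
    obtain ⟨h1, h2⟩ := br_false h'
    obtain ⟨h3, h4⟩ := br_false h2
    rw [force_eq] at h4
    obtain ⟨h5, h6⟩ := ih h4
    refine ⟨?_, ?_⟩
    · intro f hf
      rcases List.mem_cons.1 hf with rfl | hf
      · exact ⟨Nat.le_of_ble_eq_true h1, Nat.le_of_ble_eq_true h3⟩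
      · exact h5 f hf
    · rw [List.map_cons, List.sum_cons]
      have e : W + (FP.W ⟨ia, ib, W'⟩ + (l.map FP.W).sum) = Nat.add W W' + (l.map FP.W).sum := by
        show W + (W' + _) = W + W' + _
        omega
      rw [e]
      exact h6

theorem mtab_sound {ns : ℕ} {ms : List Md} (h : mtab ns ms = true) :
    ∀ m ∈ ms, m.R.length ≤ ns ∧ m.F.length ≤ ns := by
  induction ms with
  | nil => simp
  | cons m l ih =>
    have h' : br (Nat.ble m.R.length ns) (br (Nat.ble m.F.length ns) (mtab ns l) false) false = true := h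
    obtain ⟨h1, h2⟩ := br_false h'
    obtain ⟨h3, h4⟩ := br_false h2
    intro m' hm'
    rcases List.mem_cons.1 hm' with rfl | hm'
    · exact ⟨Nat.le_of_ble_eq_true h1, Nat.le_of_ble_eq_true h3⟩
    · exact ih h4 m' hm'

theorem asm_gl_nil {xs : List (List ℕ)} {s : ℕ} (h : xs.length ≤ s) : gl xs s = [] := by
  unfold gl
  rw [List.getD_eq_default _ _ h]

theorem asm_str_nil {ns s : ℕ} {ms : List Md} (h : mtab ns ms = true) (hs : ns ≤ s) :
    (strR ms s).flatten = [] ∧ (strF ms s).flatten = [] := by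
  have h1 := mtab_sound h
  unfold strR strF
  constructor
  · rw [List.flatten_eq_nil_iff]
    intro l hl
    rw [List.mem_map] at hl
    obtain ⟨m, hm, rfl⟩ := hl
    exact asm_gl_nil ((h1 m hm).1.trans hs)
  · rw [List.flatten_eq_nil_iff]
    intro l hl
    rw [List.mem_map] at hl
    obtain ⟨m, hm, rfl⟩ := hl
    exact asm_gl_nil ((h1 m hm).2.trans hs)

theorem lenC_sound {xs : List ℕ} {n : ℕ} {c : ℕ → Bool} (h : lenC xs n c = true) :
    c (n + xs.length) = true := by
  induction xs generalizing n with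
  | nil => exact h
  | cons x l ih =>
    have h' : force (Nat.succ n) (fun n' => lenC l n' c) = true := h
    rw [force_eq] at h'
    have := ih h'
    rw [List.length_cons]
    rwa [show Nat.succ n + l.length = n + (l.length + 1) by omega] at this

theorem ebC_sound {ms : List Md} {j e : ℕ} {c : ℕ → Bool} (h : ebC ms j e c = true) :
    c (e + ∑ i ∈ range j, cer ms i) = true := by
  induction j generalizing e with
  | zero =>
    rw [sum_range_zero, add_zero]
    exact h
  | succ j ih =>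
    have h' : lenC (gm ms (Nat.succ j)).toks 0 (fun a => lenC (plcs ms (Nat.succ j)) 0 (fun b =>
        force (Nat.add e (Nat.add (Nat.add
          (Nat.sub (gm ms (Nat.succ j)).m1 (gm ms (Nat.succ j)).m0) (Nat.mul 262144 a)) (Nat.mul 2 b)))
          (fun e' => ebC ms j e' c))) = true := h
    have h1 := lenC_sound h'
    have h2 := lenC_sound h1
    rw [force_eq] at h2
    have h3 := ih h2
    rw [sum_range_succ]
    have e1 : Nat.add e (Nat.add (Nat.add
          (Nat.sub (gm ms (Nat.succ j)).m1 (gm ms (Nat.succ j)).m0)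
          (Nat.mul 262144 (0 + (gm ms (Nat.succ j)).toks.length)))
          (Nat.mul 2 (0 + (plcs ms (Nat.succ j)).length))) + ∑ i ∈ range j, cer ms i =
        e + (∑ i ∈ range j, cer ms i + cer ms j) := by
      unfold cer
      simp only [Nat.add_eq, Nat.mul_eq, Nat.sub_eq, Nat.succ_eq_add_one, zero_add]
      ring
    rw [e1] at h3
    exact h3

theorem ebck_sound {e0 : ℕ} {ms : List Md} (h : ebck e0 ms = true) : e0 + ebd ms ≤ 2 ^ 34 := by
  have h1 := ebC_sound h
  have h2 := Nat.le_of_ble_eq_true h1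
  rw [ebd_eq]
  norm_num at h2 ⊢
  exact h2

/-- sides of the final rectangle -/
theorem rect_sound {w l : ℕ} (h : rect w l = true) {r : ℝ × ℝ} (hr : App (2 ^ 34) (w, l) r) :
    0 < r.2 ∧ r.2 ≤ r.1 ∧ r.1 ≤ 3 / 2 * r.2 ∧ r.1 + r.2 ≤ 0.00028 := by
  obtain ⟨h1, h2⟩ := br_false h
  obtain ⟨h3, h4⟩ := br_false h2
  obtain ⟨h5, h6⟩ := br_false h4
  have a1 := Nat.le_of_ble_eq_true h1
  have a2 := Nat.le_of_ble_eq_true h3
  have a3 := Nat.le_of_ble_eq_true h5
  have a4 := Nat.le_of_ble_eq_true h6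
  simp only [Nat.add_eq, Nat.mul_eq] at a2 a3 a4
  obtain ⟨b1, b2, b3, b4⟩ := hr
  simp only at b1 b2 b3 b4
  have c1 : (1 : ℝ) ≤ l := by exact_mod_cast a1
  have c2 : (l : ℝ) + 17179869184 ≤ w := by exact_mod_cast a2
  have c3 : 2 * ((w : ℝ) + 17179869184) ≤ 3 * l := by exact_mod_cast a3
  have c4 : (100000 : ℝ) * ((w : ℝ) + l + 34359738368) ≤ 28 * 5192296858534827628530496329220096 := by
    exact_mod_cast a4
  push_cast at b2 b4
  norm_num at b1 b2 b3 b4
  refine ⟨by linarith, by linarith, by linarith, by norm_num; linarith⟩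

/-- what the row checks give -/
theorem rows_main {ms : List Md} {fs : List FP} {kE : ℕ} {Gs : ℕ → Multiset (ℝ × ℝ)}
    (hF : FCk ms 0 fs)
    (hL : ∀ s < fs.length, Leaves ((strR ms s).flatten : List ℕ) ((strF ms s).flatten : List ℕ) (Gs s)) :
    ∀ (rs : List RP) (k i : ℕ), RCk ms rs → rtab kE fs rs k i = true →
      RowsOK (∑ s ∈ range fs.length, Gs s) k (bbs rs) ∧ rowsEnd k (bbs rs) = kE ∧
      CellsOK (∑ s ∈ range fs.length, Gs s) i (ccs rs) ∧ 62000 ≤ cellsEnd i (ccs rs) := by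
  -- facts about the streams
  have hfac : ∀ s < fs.length, ∃ f, fs[s]? = some f ∧
      (∀ r ∈ Gs s, 0 < r.1 ∧ (Eng.tau f.ia : ℝ) * r.1 ≤ 1 ∧ 1 < (Eng.tau f.ib : ℝ) * r.1 ∧ 0 ≤ r.2) ∧
      (∀ r ∈ (strR ms s).flatten, RunOK r) ∧ ∀ r ∈ (strF ms s).flatten, 1 ≤ fx r := by
    intro s hs
    obtain ⟨f, hf⟩ : ∃ f, fs[s]? = some f := ⟨fs[s], List.getElem?_eq_getElem hs⟩
    have h1 := hF.get hf
    rw [zero_add] at h1
    obtain ⟨ia, ib, W⟩ := f
    have h2 : fack 309485009821345068724781056 ia ib W (strR ms s) (strF ms s) = true := h1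
    obtain ⟨h3, h4⟩ := fack_facts (by norm_num) h2
    exact ⟨_, hf, (fack_sound (by norm_num) h2 (hL s hs)).1, h3, h4⟩
  intro rs
  induction rs with
  | nil =>
    intro k i _ h
    have h' : br (Nat.beq k kE) (Nat.ble 62000 i) false = true := h
    obtain ⟨h1, h2⟩ := br_false h'
    exact ⟨trivial, Nat.eq_of_beq_eq_true h1, trivial, Nat.le_of_ble_eq_true h2⟩
  | cons r rs ih =>
    intro k i hR h
    obtain ⟨s0, n, t, s, J0, J1, Jq, wl, wh, A, M, mu, hmax, k0, k1, BB, i0, i1, CC⟩ := r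
    have h' : br (Nat.beq k0 k) (br (oth s0 n k0 k1 i0 i1 (nl CC) fs 0)
          (br (Nat.ble (Nat.add s0 n) fs.length)
            (Bool.rec (motive := fun _ => Bool) (br (Nat.beq i0 i) (rtab kE fs rs k1 i1) false)
              (rtab kE fs rs k1 i) (nl CC))
            false) false) false = true := h
    obtain ⟨h1, h2⟩ := br_false h'
    obtain ⟨h3, h4⟩ := br_false h2
    obtain ⟨h5, h6⟩ := br_false h4
    have hk := Nat.eq_of_beq_eq_true h1
    subst hk
    have hsn : s0 + n ≤ fs.length := Nat.le_of_ble_eq_true h5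
    -- the row check
    obtain ⟨hr, hRR⟩ := hR
    have hr' : br (Nat.ble 1 s) (br (Nat.ble t 80) (br (Nat.ble hmax 10000000) (br (Nat.ble 15 k0)
      (rowck2 309485009821345068724781056 A s J0 J1 Jq wl wh t M mu hmax (recR ms s0 n) (recF ms s0 n)
        k0 k1 BB i0 i1 CC) false) false) false) false = true := hr
    obtain ⟨g1, g2⟩ := br_false hr'
    obtain ⟨g3, g4⟩ := br_false g2
    obtain ⟨g5, g6⟩ := br_false g4
    obtain ⟨g7, g8⟩ := br_false g6
    have hGL : Leaves ((recR ms s0 n).flatten : List ℕ) ((recF ms s0 n).flatten : List ℕ)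
        (∑ i ∈ range n, Gs (s0 + i)) := by
      unfold recR recF
      rw [asm_flat, asm_flat]
      exact asm_leaves n fun i hi => hL (s0 + i) (by omega)
    obtain ⟨c1, c2, c3, c4⟩ := rowck2_sound (by norm_num) (Nat.le_of_ble_eq_true g1)
      (Nat.le_of_ble_eq_true g3) (by simpa using Nat.le_of_ble_eq_true g5) (Nat.le_of_ble_eq_true g7)
      (fun r hr => by
        obtain ⟨i, hi, hri⟩ := asm_mem hr
        obtain ⟨f, -, -, h8, -⟩ := hfac (s0 + i) (by omega)
        exact h8 r hri)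
      (fun r hr => by
        obtain ⟨i, hi, hri⟩ := asm_mem hr
        obtain ⟨f, -, -, -, h8⟩ := hfac (s0 + i) (by omega)
        exact h8 r hri) g8 hGL
    -- transfer to all streams
    have hlam : ∀ a b : ℕ, (∀ f : FP, ((f.ib + 15 ≤ k0 ∨ k1 ≤ f.ia + 4) ∧
        (nl CC = true ∨ f.ib ≤ i0 ∨ i1 ≤ f.ia)) → f.ib ≤ a ∨ b ≤ f.ia) →
        lam (Eng.tau a) (Eng.tau b) (∑ s ∈ range fs.length, Gs s) =
          lam (Eng.tau a) (Eng.tau b) (∑ i ∈ range n, Gs (s0 + i)) := by
      intro a b hab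
      apply asm_lam hsn
      intro s' hs' hns
      obtain ⟨f, hf, hst, -, -⟩ := hfac s' hs'
      have ho := oth_sound h3 hf
      rw [zero_add] at ho
      rcases ho with ho | ho
      · exact absurd ho hns
      · apply lam_zero
        intro r hr
        obtain ⟨d1, d2, d3, d4⟩ := hst r hr
        rcases hab f ho with h9 | h9
        · left
          have : (Eng.tau f.ib : ℝ) ≤ Eng.tau a := by exact_mod_cast Eng.tau_mono h9
          have := mul_le_mul_of_nonneg_right this d1.le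
          linarith
        · right
          have : (Eng.tau b : ℝ) ≤ Eng.tau f.ia := by exact_mod_cast Eng.tau_mono h9
          have := mul_le_mul_of_nonneg_right this d1.le
          linarith
    have e1 : RowsOK (∑ s ∈ range fs.length, Gs s) k0 BB := by
      refine rowsOK_congr BB k0 (fun k' h7 h8 => hlam _ _ fun f hf => ?_) c1
      rw [c2] at h8
      rcases hf.1 with h9 | h9
      · left; omega
      · right; omega
    have ebb : bbs (⟨s0, n, t, s, J0, J1, Jq, wl, wh, A, M, mu, hmax, k0, k1, BB, i0, i1, CC⟩ :: rs) =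
      BB ++ bbs rs := rfl
    have ecc : ccs (⟨s0, n, t, s, J0, J1, Jq, wl, wh, A, M, mu, hmax, k0, k1, BB, i0, i1, CC⟩ :: rs) =
      CC ++ ccs rs := rfl
    rw [ebb, ecc]
    rcases hnl : nl CC with _ | _
    · rw [hnl] at h6 hlam
      have h6' : br (Nat.beq i0 i) (rtab kE fs rs k1 i1) false = true := h6
      obtain ⟨h7, h8⟩ := br_false h6'
      have hi := Nat.eq_of_beq_eq_true h7
      subst hi
      obtain ⟨u1, u2, u3, u4⟩ := ih k1 i1 hRR h8
      have e2 : CellsOK (∑ s ∈ range fs.length, Gs s) i0 CC := by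
        refine cellsOK_congr CC i0 (fun a b h7 h8 h9 => hlam _ _ fun f hf => ?_) c3
        rw [c4] at h9
        rcases hf.2 with h10 | h10 | h10
        · exact absurd h10 (by decide)
        · left; omega
        · right; omega
      refine ⟨rowsOK_append _ _ _ e1 (by rw [c2]; exact u1), ?_, cellsOK_append _ _ _ e2 (by
        rw [c4]; exact u3), ?_⟩
      · rw [rowsEnd_append, c2]
        exact u2
      · rw [cellsEnd_append, c4]
        exact u4
    · rw [hnl] at h6
      have h6' : rtab kE fs rs k1 i = true := h6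
      obtain ⟨u1, u2, u3, u4⟩ := ih k1 i hRR h6'
      have hCC := nl_sound hnl
      subst hCC
      refine ⟨rowsOK_append _ _ _ e1 (by rw [c2]; exact u1), ?_, u3, u4⟩
      rw [rowsEnd_append, c2]
      exact u2

theorem asm_sumW : ∀ (fs : List FP) (F : ℕ → ℝ), (∀ j f, fs[j]? = some f → F j ≤ (f.W : ℝ)) →
    ∑ j ∈ range fs.length, F j ≤ (((fs.map FP.W).sum : ℕ) : ℝ) := by
  intro fs
  induction fs with
  | nil => intro F _; simp
  | cons f l ih =>
    intro F h
    rw [List.length_cons, sum_range_succ', List.map_cons, List.sum_cons, Nat.cast_add, add_comm]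
    refine add_le_add (h 0 f (by simp)) (ih (fun j => F (j + 1)) fun j g hg => ?_)
    exact h (j + 1) g (by rw [List.getElem?_cons_succ]; exact hg)

/-- The explicit start. `ms`, `fs`, `rs` the tables, `P` depth of the trees of records, `m1` first square
of module `1`, `e0` error of the exact start, `kE` last row (excluded), `x` the final rectangle, `BB`, `CC`
all blocks of rows and cells. -/
theorem start_of_checks {P m1 e0 kE x : ℕ} {ms : List Md} {fs : List FP} {rs : List RP}
    {BB CC : List ℕ} {a b : ℝ} {ρ0 : Multiset (ℝ × ℝ)} (hab : a * b = Real.pi ^ 2 / 6 - 1)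
    (h0 : Dec a b (Ico 2 m1).val ρ0)
    (hr : Multiset.Rel (App e0) (∑ j ∈ Ico 1 (ms.length + 1), um (gl (gm ms 0).E j)) ρ0)
    (hM : MCk P ms 1) (hF : FCk ms 0 fs) (hR : RCk ms rs)
    (hx : ((List.range ms.length).flatMap fun j => gl (gm ms j).E ms.length) = [x])
    (ht : tabs P m1 e0 kE x ms fs rs = true) (hBB : bbs rs = BB) (hCC : ccs rs = CC)
    (hfin : fins kE BB 10320 10320 CC = true) :
    ∃ (X Y : ℝ) (G : Multiset (ℝ × ℝ)), Eng.Start a b X Y G := by
  subst hBB
  subst hCC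
  have ht' : br (Nat.ble 2 m1) (br (Nat.ble 670000 kE) (br (Nat.ble fs.length (Nat.pow 2 P))
    (br (shape m1 40707584 ms) (br (ebck e0 ms) (br (mtab fs.length ms) (br (ftab kE fs 0)
      (br (rtab kE fs rs 10320 10320) (br (ctab (ccs rs)) (rect2 x) false) false) false) false) false)
      false) false) false) false = true := ht
  obtain ⟨t1, ht'⟩ := br_false ht'
  obtain ⟨t2, ht'⟩ := br_false ht'
  obtain ⟨t3, ht'⟩ := br_false ht'
  obtain ⟨t4, ht'⟩ := br_false ht'
  obtain ⟨t5, ht'⟩ := br_false ht'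
  obtain ⟨t6, ht'⟩ := br_false ht'
  obtain ⟨t7, ht'⟩ := br_false ht'
  obtain ⟨t8, ht'⟩ := br_false ht'
  obtain ⟨t9, t10⟩ := br_false ht'
  have hns : fs.length ≤ 2 ^ P := Nat.le_of_ble_eq_true t3
  obtain ⟨ρ1, Gs, c1, c2, c3⟩ := chain_sound (by norm_num) t4 (Nat.le_of_ble_eq_true t1) hM h0 hr
    (ebck_sound t5)
  -- the other streams are empty
  have hz : ∀ s < 2 ^ P, fs.length ≤ s → Gs s = 0 := by
    intro s hs hs'
    have h1 := c2 s hs
    obtain ⟨h2, h3⟩ := asm_str_nil t6 hs'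
    rw [h2, h3] at h1
    obtain ⟨A, B, hA, hB, hG⟩ := h1
    rw [Multiset.coe_nil, Multiset.rel_zero_left] at hA hB
    rw [hG, hA, hB]
    simp
  have hsum : ∑ s ∈ range (2 ^ P), Gs s = ∑ s ∈ range fs.length, Gs s := by
    symm
    apply Finset.sum_subset (range_subset_range.2 hns)
    intro s hs hs'
    exact hz s (mem_range.1 hs) (by rw [mem_range] at hs'; omega)
  rw [hsum] at c3
  have hL : ∀ s < fs.length, Leaves ((strR ms s).flatten : List ℕ) ((strF ms s).flatten : List ℕ) (Gs s) :=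
    fun s hs => c2 s (by omega)
  -- the strips
  obtain ⟨hft, hW⟩ := ftab_sound t7
  have hfac : ∀ s < fs.length, ∃ f, fs[s]? = some f ∧ f ∈ fs ∧
      (∀ r ∈ Gs s, 0 < r.1 ∧ (Eng.tau f.ia : ℝ) * r.1 ≤ 1 ∧ 1 < (Eng.tau f.ib : ℝ) * r.1 ∧ 0 ≤ r.2) ∧
      ((Gs s).map Prod.fst).sum * 2 ^ 88 ≤ f.W := by
    intro s hs
    obtain ⟨f, hf⟩ : ∃ f, fs[s]? = some f := ⟨fs[s], List.getElem?_eq_getElem hs⟩
    have h1 := hF.get hf
    rw [zero_add] at h1
    have hmem := List.mem_of_getElem? hf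
    obtain ⟨ia, ib, W⟩ := f
    have h2 : fack 309485009821345068724781056 ia ib W (strR ms s) (strF ms s) = true := h1
    obtain ⟨h3, h4⟩ := fack_sound (by norm_num) h2 (hL s hs)
    exact ⟨_, hf, hmem, h3, h4⟩
  have hstrip : ∀ r ∈ ∑ s ∈ range fs.length, Gs s, 0 < r.1 ∧ (Eng.tau 10320 : ℝ) * r.1 ≤ 1 ∧
      0 ≤ r.2 ∧ 1 < (Eng.tau (kE - 15) : ℝ) * r.1 := by
    intro r hr
    rw [Multiset.mem_sum] at hr
    obtain ⟨s, hs, hrs⟩ := hr
    obtain ⟨f, hf, hmem, h1, -⟩ := hfac s (mem_range.1 hs)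
    obtain ⟨d1, d2, d3, d4⟩ := h1 r hrs
    obtain ⟨q1, q2⟩ := hft f hmem
    refine ⟨d1, ?_, d4, ?_⟩
    · have : (Eng.tau 10320 : ℝ) ≤ Eng.tau f.ia := by exact_mod_cast Eng.tau_mono q1
      have := mul_le_mul_of_nonneg_right this d1.le
      linarith
    · have : (Eng.tau f.ib : ℝ) ≤ Eng.tau (kE - 15) := by exact_mod_cast Eng.tau_mono (by omega)
      have := mul_le_mul_of_nonneg_right this d1.le
      linarith
  have hwid : ((∑ s ∈ range fs.length, Gs s).map Prod.fst).sum ≤ 0.0038 := by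
    have h1 : ((∑ s ∈ range fs.length, Gs s).map Prod.fst).sum =
        ∑ s ∈ range fs.length, ((Gs s).map Prod.fst).sum := by
      have : ∀ N : ℕ, ((∑ s ∈ range N, Gs s).map Prod.fst).sum =
          ∑ s ∈ range N, ((Gs s).map Prod.fst).sum := by
        intro N
        induction N with
        | zero => simp
        | succ N ih => rw [sum_range_succ, Multiset.map_add, Multiset.sum_add, ih, sum_range_succ]
      exact this _
    have h2 : ∑ s ∈ range fs.length, (((Gs s).map Prod.fst).sum * 2 ^ 88) ≤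
        (((fs.map FP.W).sum : ℕ) : ℝ) := by
      apply asm_sumW
      intro j f hf
      have hj : j < fs.length := by
        by_contra hge
        rw [List.getElem?_eq_none (by omega)] at hf
        exact absurd hf (by simp)
      obtain ⟨f', hf', -, -, h3⟩ := hfac j hj
      rw [hf] at hf'
      cases hf'
      exact h3
    rw [← Finset.sum_mul, ← h1] at h2
    rw [zero_add] at hW
    have h3 : (10000 : ℝ) * (((fs.map FP.W).sum : ℕ) : ℝ) ≤ 38 * 309485009821345068724781056 := by
      exact_mod_cast hW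
    norm_num at h2 h3 ⊢
    linarith
  -- the rows
  obtain ⟨r1, r2, r3, r4⟩ := rows_main hF hL rs 10320 10320 hR t8
  have hrow := fins_sound hfin (G := ∑ s ∈ range fs.length, Gs s)
    (fun r hr => ⟨(hstrip r hr).1, (hstrip r hr).2.2.1⟩) r1 r2 r3 (ctab_sound t9) r4
    (fun r hr => (hstrip r hr).2.2.2) (Nat.le_of_ble_eq_true t2)
  -- the final rectangle
  have hρ : Multiset.Rel (App (2 ^ 34)) {unp x} ρ1 := by
    have h1 : (∑ j ∈ range ms.length, um (gl (gm ms j).E ms.length)) = {unp x} := by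
      rw [← um_flatMap, hx]
      rfl
    rw [← h1]
    exact c1
  obtain ⟨r, happ, hρ1⟩ := rel_app_singleton hρ
  rw [hρ1, Multiset.singleton_add] at c3
  have htau : Eng.tau 10320 = 40707584 := by
    unfold Eng.tau
    norm_num
  obtain ⟨X, Y, d1, d2⟩ : ∃ X Y : ℝ, Dec a b (Ico 2 40707584).val ((X, Y) ::ₘ ∑ s ∈ range fs.length, Gs s) ∧
      (0 < Y ∧ Y ≤ X ∧ X ≤ 3 / 2 * Y ∧ X + Y ≤ 0.00028) := by
    have h2 : br (rect (unp x).1 (unp x).2) true (rect (unp x).2 (unp x).1) = true := t10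
    rcases br_true h2 with ⟨h3, -⟩ | ⟨-, h3⟩
    · exact ⟨r.1, r.2, c3, rect_sound h3 happ⟩
    · have hturn : App (2 ^ 34) ((unp x).2, (unp x).1) (r.2, r.1) := happ.turn
      refine ⟨r.2, r.1, ?_, rect_sound h3 hturn⟩
      have h4 : DecL [(a, b)] (Ico 2 40707584).val ({(r.1, r.2)} + ∑ s ∈ range fs.length, Gs s) := by
        have := DecL.cons c3 DecL.nil
        simpa using this
      have h5 := Ref.turn happ.nonneg.1 happ.nonneg.2 _ _ _ h4
      rw [zero_add, Multiset.singleton_add] at h5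
      exact chain_single h5
  refine ⟨X, Y, ∑ s ∈ range fs.length, Gs s, ?_⟩
  exact
    { area := hab
      dec := by rw [htau]; exact d1
      hY := d2.1
      hXY := d2.2.1
      hX := d2.2.2.1
      hS := d2.2.2.2
      strip := fun r hr => ⟨(hstrip r hr).1, (hstrip r hr).2.1, (hstrip r hr).2.2.1⟩
      width := hwid
      rowA := hrow.rowA
      rowB := hrow.rowB
      rowC := hrow.rowC
      rowC2 := hrow.rowC2
      rowD := hrow.rowD
      rowE := hrow.rowE
      rowF := hrow.rowF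
      rowG := hrow.rowG
      rowH := hrow.rowH }

end Pool.Agent.Moser.Ck
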