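import Pool.Agent.Lib_MP_cc07e8_ck.CkRowDefs

/-!
# MP_cc07e8_co: final row bounds, evaluated by the kernel

`BB`: blocks of rows (as in `rowBs`, `g` and `n`, bound `V` for the length `lam` of the row, unit
`2 ^ (-36)`), `CC`: cells of windows (as in `rowCs`).
-/

set_option linter.unusedVariables false

namespace Pool.Agent.Moser.Ck

noncomputable section

/-- Sum over the cells `CC` (from window `i` on) of
`V * (i' + 32) * (2 ^ 40 * (i' ^ 3 / ka ^ 3 + 750 kb / i ^ 3))`, rounded up, over the cells `[i, i')` that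
may meet the support of `phi k` for some `ka ≤ k < kb`; stops at the first cell beyond the support -/
def yyT (ka kb : Nat) (CC : List Nat) : Nat → Nat :=
  List.rec (motive := fun _ => Nat → Nat)
    (fun _ => 0)
    (fun x _ ih i =>
      (fun n V =>
        Bool.rec (motive := fun _ => Nat)
          (Bool.rec (motive := fun _ => Nat)
            (Nat.add (Nat.mul (Nat.mul V (Nat.add (Nat.add i n) 32))
                (Nat.add (Nat.succ (Nat.div (Nat.mul 1099511627776 (Nat.pow (Nat.add i n) 3)) (Nat.pow ka 3)))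
                  (Nat.succ (Nat.div (Nat.mul 1099511627776 (Nat.mul 750 kb)) (Nat.pow i 3)))))
              (ih (Nat.add i n)))
            (ih (Nat.add i n))
            (Nat.ble (Nat.mul 100 (Nat.pow (Nat.add i n) 4)) (Nat.mul 895 (Nat.pow ka 3))))
          0
          (Nat.ble (Nat.mul 482 (Nat.pow kb 3)) (Nat.mul 10 (Nat.pow i 4))))
        (Nat.land x 1048575) (Nat.shiftRight x 20)) CC

/-- the bound of the rows `ka ≤ k < kb`, whose lengths are at most `V * 2 ^ (-36)`: bound `b / 10000` for
`XX` alone -/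
def finX (kb V b : Nat) : Bool :=
  Nat.ble (Nat.mul (Nat.mul V (Nat.add kb 28)) 10000) (Nat.mul (Nat.mul b 36) 68719476736)

/-- bound `b / 10000` for `XX + YY`; `i0` the first window of the cells -/
def finY (ka kb V b i0 : Nat) (CC : List Nat) : Bool :=
  Nat.ble
    (Nat.add (Nat.mul (Nat.mul (Nat.mul V (Nat.add kb 28)) 1099511627776) (Nat.mul ka 10000))
      (Nat.mul (Nat.add (Nat.mul 10015 ka) 8000000) (yyT ka kb CC i0)))
    (Nat.mul (Nat.mul (Nat.mul b 36) 75557863725914323419136) ka)

/-- one block of rows -/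
def fin1 (ka kb V i0 : Nat) (CC : List Nat) : Bool :=
  br (Nat.ble kb 61730) (finX kb V 4200)
  (br (Nat.ble kb 80000) (br (Nat.ble 61730 ka) (finY ka kb V 5100 i0 CC) false)
  (br (Nat.ble kb 119940) (br (Nat.ble 80000 ka) (finY ka kb V 5602 i0 CC) false)
  (br (Nat.ble kb 160000) (br (Nat.ble 119940 ka) (finY ka kb V 5535 i0 CC) false)
  (br (Nat.ble kb 670000) (br (Nat.ble 160000 ka) (finY ka kb V 5538 i0 CC) false)
  (br (Nat.ble kb 946000) (br (Nat.ble 670000 ka) (finX kb V 900) false)
  (br (Nat.ble kb 1600000) (br (Nat.ble 946000 ka) (finX kb V 235) false)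
  (br (Nat.ble kb 16000000) (br (Nat.ble 1600000 ka) (finX kb V 300) false)
    (br (Nat.ble 670000 ka) (finX kb V 150) false))))))))

/-- drop the cells below the support of `phi k`, `k ≥ ka` -/
def dropC (ka : Nat) (CC : List Nat) : Nat → (Nat → List Nat → Bool) → Bool :=
  List.rec (motive := fun _ => Nat → (Nat → List Nat → Bool) → Bool)
    (fun i c => c i List.nil)
    (fun x xs ih i c =>
      br (Nat.ble (Nat.mul 100 (Nat.pow (Nat.add i (Nat.land x 1048575)) 4)) (Nat.mul 895 (Nat.pow ka 3)))
        (ih (Nat.add i (Nat.land x 1048575)) c) (c i (List.cons x xs))) CC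

/-- all blocks of rows, from row `k` to row `k1`; cells `CC` from the window `i` on -/
def fins (k1 : Nat) (BB : List Nat) : Nat → Nat → List Nat → Bool :=
  List.rec (motive := fun _ => Nat → Nat → List Nat → Bool)
    (fun k _ _ => Nat.beq k k1)
    (fun x _ ih k i CC =>
      (fun k' => force k' (fun k' => dropC k CC i (fun i' CC' =>
        br (fin1 k k' (Nat.shiftRight x 40) i' CC') (ih k' i' CC') false)))
        (Nat.add k (Nat.mul (Nat.land x 1048575) (Nat.land (Nat.shiftRight x 20) 1048575)))) BB

end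

end Pool.Agent.Moser.Ck
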