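import Pool.Agent.Lib_MP_cc07e8_ck.CkRowDefs

/-!
# MP_cc07e8_co: programs evaluated by the kernel (packed lists; rows with clipping)

As in `CkRowDefs`, but only the buckets `J0 ≤ j < J1` are collected: of a run record only the squares
`q` whose bucket `A / (w1 - dr / q)` lies in this interval are entered (`wl = A / J1`, `wh = A / J0`), a
fat record is left out if all its buckets are `≥ J1` or all are `< Jq` (`Jq` lowest bucket that is asked
for, `J0 ≤ Jq`).
-/

set_option linter.unusedVariables false

namespace Pool.Agent.Moser.Ck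

noncomputable section

/-- the `n` lowest digits of `x` in base `2 ^ b` (`mk = 2 ^ b - 1`), followed by `tl` -/
def unp1 (b mk n : Nat) : Nat → List Nat → List Nat :=
  Nat.rec (motive := fun _ => Nat → List Nat → List Nat)
    (fun _ tl => tl)
    (fun _ ih x tl => List.cons (Nat.land x mk) (ih (Nat.shiftRight x b) tl)) n

/-- packed list: every number holds its number of entries (8 bits) and its entries (`b` bits each) -/
def unpk (b mk : Nat) (xs : List Nat) : List Nat :=
  List.rec (motive := fun _ => List Nat) List.nil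
    (fun x _ ih => unp1 b mk (Nat.land x 255) (Nat.shiftRight x 8) ih) xs

/-- larger number -/
@[reducible] def mx (a b : Nat) : Nat := Nat.add a (Nat.sub b a)

/-- smaller number -/
@[reducible] def mn (a b : Nat) : Nat := Nat.sub a (Nat.sub a b)

/-- enter the rectangles of the squares `a ≤ q < a + k` -/
def rowRe (dr A s J0 a k w1 S tot : Nat) (c : Nat → Nat → Bool) : Bool :=
  (fun jl len =>
    br (Nat.ble J0 jl)
      ((fun S' => touch S' (c S' (Nat.add tot (Nat.mul len k))))
        (Nat.add S (Nat.shiftLeft (Nat.mul len (ksm dr A w1 s jl a k)) (Nat.mul s (Nat.sub jl J0))))) false)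
    (Nat.div A (Nat.sub w1 (Nat.div dr (Nat.sub (Nat.add a k) 1))))
    (Nat.succ (Nat.div 68719476736 a))

/-- enter the rectangles of the squares `a ≤ q < b` (possibly none) -/
def rowRd (dr A s J0 w1 a b S tot : Nat) (c : Nat → Nat → Bool) : Bool :=
  Bool.rec (motive := fun _ => Bool) (rowRe dr A s J0 a (Nat.sub b a) w1 S tot c) (c S tot) (Nat.ble b a)

/-- enter a run record, as far as the buckets are in `[J0, J1)` -/
def rowR2 (dr A s J0 wl wh r S tot : Nat) (c : Nat → Nat → Bool) : Bool :=
  (fun k m w1 =>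
    br (Nat.ble (Nat.succ wh) w1)
      (rowRd dr A s J0 w1 (mx m (Nat.succ (Nat.div dr (Nat.sub w1 wl))))
        (mn (Nat.add m k) (Nat.succ (Nat.div dr (Nat.sub w1 wh)))) S tot c) false)
    (Nat.land r 1048575) (Nat.land (Nat.shiftRight r 20) 67108863) (Nat.sub (Nat.shiftRight r 46) 1)

/-- enter the run records of a list -/
def rowRs2 (dr A s J0 wl wh : Nat) (xs : List Nat) : Nat → Nat → (Nat → Nat → Bool) → Bool :=
  List.rec (motive := fun _ => Nat → Nat → (Nat → Nat → Bool) → Bool)
    (fun S tot c => touch tot (c S tot))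
    (fun x _ ih S tot c => rowR2 dr A s J0 wl wh x S tot (fun S' tot' => ih S' tot' c)) xs

/-- all run records of a list of lists -/
def rowRL2 (dr A s J0 wl wh : Nat) (xss : List (List Nat)) : Nat → Nat → (Nat → Nat → Bool) → Bool :=
  List.rec (motive := fun _ => Nat → Nat → (Nat → Nat → Bool) → Bool)
    (fun S tot c => c S tot)
    (fun xs _ ih S tot c => rowRs2 dr A s J0 wl wh xs S tot (fun S' tot' => ih S' tot' c)) xss

/-- enter a fat record with the lowest bucket `j1` and the highest bucket `j2` -/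
def rowFe (s J0 mu j1 j2 L S S2 tot : Nat) (c : Nat → Nat → Nat → Bool) : Bool :=
  br (Nat.ble J0 j1)
    (br (Nat.beq j1 j2)
      ((fun S' => touch S' (c S' S2 (Nat.add tot L)))
        (Nat.add S (Nat.shiftLeft L (Nat.mul s (Nat.sub j1 J0)))))
      (br (Nat.ble j2 (Nat.add j1 mu))
        ((fun S' => touch S' (c S S' (Nat.add tot L)))
          (Nat.add S2 (Nat.shiftLeft L (Nat.mul s (Nat.sub j1 J0))))) false)) false

/-- enter a fat record unless all its buckets are below `Jq` or none is below `J1` -/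
def rowFd (s J0 J1 Jq mu j1 j2 L S S2 tot : Nat) (c : Nat → Nat → Nat → Bool) : Bool :=
  Bool.rec (motive := fun _ => Bool)
    (Bool.rec (motive := fun _ => Bool) (rowFe s J0 mu j1 j2 L S S2 tot c) (c S S2 tot)
      (Nat.ble J1 j1)) (c S S2 tot) (Nat.ble (Nat.succ j2) Jq)

/-- enter a fat record -/
def rowF2 (A s J0 J1 Jq mu r S S2 tot : Nat) (c : Nat → Nat → Nat → Bool) : Bool :=
  (fun x sp => rowFd s J0 J1 Jq mu (Nat.div A (Nat.add (Nat.add x sp) 1200)) (Nat.div A x)
      (Nat.shiftRight r 140) S S2 tot c)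
    (Nat.land (Nat.shiftRight r 12) 18446744073709551615)
    (Nat.land (Nat.shiftRight r 76) 18446744073709551615)

/-- enter the fat records of a list -/
def rowFs2 (A s J0 J1 Jq mu : Nat) (xs : List Nat) : Nat → Nat → Nat → (Nat → Nat → Nat → Bool) → Bool :=
  List.rec (motive := fun _ => Nat → Nat → Nat → (Nat → Nat → Nat → Bool) → Bool)
    (fun S S2 tot c => touch tot (c S S2 tot))
    (fun x _ ih S S2 tot c => rowF2 A s J0 J1 Jq mu x S S2 tot (fun S' S2' tot' => ih S' S2' tot' c)) xs

/-- all fat records of a list of lists -/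
def rowFL2 (A s J0 J1 Jq mu : Nat) (xss : List (List Nat)) :
    Nat → Nat → Nat → (Nat → Nat → Nat → Bool) → Bool :=
  List.rec (motive := fun _ => Nat → Nat → Nat → (Nat → Nat → Nat → Bool) → Bool)
    (fun S S2 tot c => c S S2 tot)
    (fun xs _ ih S S2 tot c => rowFs2 A s J0 J1 Jq mu xs S S2 tot (fun S' S2' tot' => ih S' S2' tot' c)) xss

/-- conditions on the parameters of a row module (`hmax` upper end of the windows asked for) -/
def rowpar (dr A J0 J1 Jq wl wh t M hmax k0 k1 i0 i1 : Nat) : Bool :=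
  br (Nat.beq A (Nat.shiftRight dr t))
  (br (Nat.beq wl (Nat.div A J1))
  (br (Nat.beq wh (Nat.div A J0))
  (br (Nat.ble 1 J0)
  (br (Nat.ble J0 Jq)
  (br (Nat.ble (Nat.mul (Nat.mul (tauN hmax) (tauN hmax)) 1300) (Nat.mul M dr))
  (br (Nat.ble Jq (Nat.shiftRight (tauN (Nat.sub k0 15)) t))
  (br (Nat.ble Jq (Nat.shiftRight (tauN i0) t))
  (br (Nat.ble (Nat.succ (Nat.shiftRight (Nat.add (tauN hmax) M) t)) J1)
  (br (Nat.ble k1 (Nat.add hmax 3))
  (Nat.ble i1 hmax) false) false) false) false) false) false) false) false) false) false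

/-- The check of a row module. `RR`, `FF` the records, rows from `k0` to `k1` in the blocks `BB`, windows
from `i0` to `i1` in the cells `CC` -/
def rowck2 (dr A s J0 J1 Jq wl wh t M mu hmax : Nat) (RR FF : List (List Nat)) (k0 k1 : Nat)
    (BB : List Nat) (i0 i1 : Nat) (CC : List Nat) : Bool :=
  br (rowpar dr A J0 J1 Jq wl wh t M hmax k0 k1 i0 i1)
    (rowRL2 dr A s J0 wl wh RR 0 0 (fun S tot =>
      rowFL2 A s J0 J1 Jq mu FF S 0 tot (fun S S2 tot =>
        br (Nat.ble (Nat.add tot 2) (Nat.shiftLeft 1 s))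
          (rowBs s J0 t M mu S S2 BB k0 (fun k => br (Nat.beq k k1)
            (rowCs s J0 t M mu S S2 CC i0 (fun i => Nat.beq i i1)) false)) false))) false

end

end Pool.Agent.Moser.Ck
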