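import Pool.Agent.Lib_MP_cc07e8_ck.CkMods
import Pool.Agent.Lib_MP_cc07e8_ck.CkRow2Defs
import Pool.Agent.Lib_MP_cc07e8_ck.CkFinDefs

/-!
# MP_cc07e8_co: tables of the explicit start and their checks

`ms`: the modules. `fs`: one entry `FP` for every stream (the streams `s ≥ fs.length` are empty): the
windows `[ia, ib)` of its strips and the bound `W` of the total width. `rs`: one entry `RP` for every row
check: the streams `s0 ≤ s < s0 + n`, the parameters of `rowck2`, rows `[k0, k1)` in the blocks `BB`,
windows `[i0, i1)` in the cells `CC`. The rows of consecutive entries are consecutive (from row `10320` to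
row `kE`), the cells of the entries with cells are consecutive too (from window `10320` on, at least to
window `62000`).
-/

set_option linter.unusedVariables false

namespace Pool.Agent.Moser.Ck

noncomputable section

/-- entry of the table of streams -/
structure FP where
  /-- first window -/
  ia : Nat
  /-- last window (excluded) -/
  ib : Nat
  /-- bound of the width, unit `2 ^ (-88)` -/
  W : Nat

/-- entry of the table of row checks -/
structure RP where
  /-- first stream -/
  s0 : Nat
  /-- number of streams -/
  n : Nat
  /-- buckets have the length `2 ^ t` -/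
  t : Nat
  /-- digits -/
  s : Nat
  /-- first bucket -/
  J0 : Nat
  /-- last bucket (excluded) -/
  J1 : Nat
  /-- first bucket asked for -/
  Jq : Nat
  /-- lower width -/
  wl : Nat
  /-- upper width -/
  wh : Nat
  /-- scale -/
  A : Nat
  /-- margin -/
  M : Nat
  /-- margin in buckets -/
  mu : Nat
  /-- upper end of the windows asked for -/
  hmax : Nat
  /-- first row -/
  k0 : Nat
  /-- last row (excluded) -/
  k1 : Nat
  /-- blocks of rows -/
  BB : List Nat
  /-- first window of the cells -/
  i0 : Nat
  /-- last window of the cells (excluded) -/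
  i1 : Nat
  /-- cells -/
  CC : List Nat

/-- run records of the streams `s0 ≤ s < s0 + n` -/
def recR (ms : List Md) (s0 n : Nat) : List (List Nat) := (List.range n).flatMap fun i => strR ms (s0 + i)

/-- fat records of the streams `s0 ≤ s < s0 + n` -/
def recF (ms : List Md) (s0 n : Nat) : List (List Nat) := (List.range n).flatMap fun i => strF ms (s0 + i)

/-- a row check -/
def rchk (ms : List Md) (r : RP) : Bool :=
  RP.rec (motive := fun _ => Bool) (fun s0 n t s J0 J1 Jq wl wh A M mu hmax k0 k1 BB i0 i1 CC =>
    br (Nat.ble 1 s) (br (Nat.ble t 80) (br (Nat.ble hmax 10000000) (br (Nat.ble 15 k0)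
      (rowck2 (nat_lit 309485009821345068724781056) A s J0 J1 Jq wl wh t M mu hmax (recR ms s0 n) (recF ms s0 n)
        k0 k1 BB i0 i1 CC) false) false) false) false) r

/-- the facts of the stream `s` -/
def fchk (ms : List Md) (s : Nat) (f : FP) : Bool :=
  FP.rec (motive := fun _ => Bool) (fun ia ib W =>
    fack (nat_lit 309485009821345068724781056) ia ib W (strR ms s) (strF ms s)) f

/-- all row checks -/
def RCk (ms : List Md) : List RP → Prop
  | [] => True
  | r :: l => rchk ms r = true ∧ RCk ms l

/-- the facts of all streams from `s` on -/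
def FCk (ms : List Md) : Nat → List FP → Prop
  | _, [] => True
  | s, f :: l => fchk ms s f = true ∧ FCk ms (s + 1) l

/-- the geometry checks of all modules from the module `j` on -/
def MCk (P : Nat) (ms : List Md) (j : Nat) : Prop :=
  ∀ i, j ≤ i → i < ms.length → ckMod 5192296858534827628530496329220096 P ms i = true

/-- blocks of rows of all row checks -/
def bbs (rs : List RP) : List Nat := rs.flatMap RP.BB

/-- cells of all row checks -/
def ccs (rs : List RP) : List Nat := rs.flatMap RP.CC

/-- The streams outside of `s0 ≤ s < s0 + n` have no strips in the windows of the rows `[k0, k1)`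
and (`c = false`) in the windows `[i0, i1)`; `fs` the streams from `s` on -/
def oth (s0 n k0 k1 i0 i1 : Nat) (c : Bool) (fs : List FP) : Nat → Bool :=
  List.rec (motive := fun _ => Nat → Bool) (fun _ => true)
    (fun f _ ih s =>
      br (br (Nat.ble s0 s) (Nat.ble (Nat.succ s) (Nat.add s0 n)) false) (ih (Nat.succ s))
        (FP.rec (motive := fun _ => Bool) (fun ia ib _ =>
          br (br (Nat.ble (Nat.add ib 15) k0) true (Nat.ble k1 (Nat.add ia 4)))
            (br (br c true (br (Nat.ble ib i0) true (Nat.ble i1 ia))) (ih (Nat.succ s)) false) false) f)) fs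

/-- the table of the row checks: rows from `k` to `kE`, cells from `i` to at least `62000`, streams -/
def rtab (kE : Nat) (fs : List FP) (rs : List RP) : Nat → Nat → Bool :=
  List.rec (motive := fun _ => Nat → Nat → Bool) (fun k i => br (Nat.beq k kE) (Nat.ble 62000 i) false)
    (fun r _ ih k i =>
      RP.rec (motive := fun _ => Bool) (fun s0 n t s J0 J1 Jq wl wh A M mu hmax k0 k1 BB i0 i1 CC =>
        br (Nat.beq k0 k) (br (oth s0 n k0 k1 i0 i1 (nl CC) fs 0)
          (br (Nat.ble (Nat.add s0 n) fs.length)
            (Bool.rec (motive := fun _ => Bool) (br (Nat.beq i0 i) (ih k1 i1) false) (ih k1 i) (nl CC))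
            false) false) false) r) rs

/-- no empty cells -/
def ctab (cs : List Nat) : Bool :=
  List.rec (motive := fun _ => Bool) true (fun x _ ih => br (Nat.ble 1 (Nat.land x 1048575)) ih false) cs

/-- the table of the streams: windows between `10320` and `kE - 15`, sum of the widths, starting with
`W` -/
def ftab (kE : Nat) (fs : List FP) : Nat → Bool :=
  List.rec (motive := fun _ => Nat → Bool)
    (fun W => Nat.ble (Nat.mul 10000 W) (Nat.mul 38 309485009821345068724781056))
    (fun f _ ih W => FP.rec (motive := fun _ => Bool) (fun ia ib W' =>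
      br (Nat.ble 10320 ia) (br (Nat.ble (Nat.add ib 15) kE) (force (Nat.add W W') ih) false) false) f) fs

/-- no records in the streams `s ≥ ns` -/
def mtab (ns : Nat) (ms : List Md) : Bool :=
  List.rec (motive := fun _ => Bool) true (fun m _ ih =>
    br (Nat.ble m.R.length ns) (br (Nat.ble m.F.length ns) ih false) false) ms

/-- conditions on the final rectangle -/
def rect (w l : Nat) : Bool :=
  br (Nat.ble 1 l) (br (Nat.ble (Nat.add l 17179869184) w)
    (br (Nat.ble (Nat.mul 2 (Nat.add w 17179869184)) (Nat.mul 3 l))
      (Nat.ble (Nat.mul 100000 (Nat.add (Nat.add w l) 34359738368))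
        (Nat.mul 28 5192296858534827628530496329220096)) false) false) false

/-- the same with sides in any order -/
def rect2 (x : Nat) : Bool :=
  (fun w l => br (rect w l) true (rect l w))
    (Nat.shiftRight x 128) (Nat.land x 340282366920938463463374607431768211455)

/-- length of a list, added to `n` -/
def lenC (xs : List Nat) : Nat → (Nat → Bool) → Bool :=
  List.rec (motive := fun _ => Nat → (Nat → Bool) → Bool) (fun n c => c n)
    (fun _ _ ih n c => force (Nat.succ n) (fun n' => ih n' c)) xs

/-- error of the modules `i + 1, ..., i + j`, added to `e` -/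
def ebC (ms : List Md) (j : Nat) : Nat → (Nat → Bool) → Bool :=
  Nat.rec (motive := fun _ => Nat → (Nat → Bool) → Bool) (fun e c => c e)
    (fun j ih e c =>
      lenC (gm ms (Nat.succ j)).toks 0 (fun a => lenC (plcs ms (Nat.succ j)) 0 (fun b =>
        force (Nat.add e (Nat.add (Nat.add
          (Nat.sub (gm ms (Nat.succ j)).m1 (gm ms (Nat.succ j)).m0) (Nat.mul 262144 a)) (Nat.mul 2 b)))
          (fun e' => ih e' c)))) j

/-- total error, `e0` the error of the exact start -/
def ebck (e0 : Nat) (ms : List Md) : Bool :=
  ebC ms (Nat.sub ms.length 1) e0 (fun e => Nat.ble e 17179869184)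

/-- all conditions on the tables; `x` the final rectangle, `kE` the last row (excluded) -/
def tabs (P m1 e0 kE x : Nat) (ms : List Md) (fs : List FP) (rs : List RP) : Bool :=
  br (Nat.ble 2 m1) (br (Nat.ble 670000 kE) (br (Nat.ble fs.length (Nat.pow 2 P))
    (br (shape m1 40707584 ms) (br (ebck e0 ms) (br (mtab fs.length ms) (br (ftab kE fs 0)
      (br (rtab kE fs rs 10320 10320) (br (ctab (ccs rs)) (rect2 x) false) false) false) false) false)
      false) false) false) false

end

/-! ### combining checks -/

theorem MCk.step {P : Nat} {ms : List Md} {j : Nat}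
    (h : ckMod 5192296858534827628530496329220096 P ms j = true) (h' : MCk P ms (j + 1)) :
    MCk P ms j := by
  intro i hi hi'
  rcases Nat.eq_or_lt_of_le hi with rfl | h1
  · exact h
  · exact h' i h1 hi'

theorem MCk.stop {P : Nat} {ms : List Md} {j : Nat} (h : Nat.ble ms.length j = true) : MCk P ms j := by
  intro i hi hi'
  have := Nat.le_of_ble_eq_true h
  omega

theorem RCk.cons {ms : List Md} {r : RP} {l : List RP} (h : rchk ms r = true) (h' : RCk ms l) :
    RCk ms (r :: l) := ⟨h, h'⟩

theorem RCk.nil {ms : List Md} : RCk ms [] := trivial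

theorem RCk.append {ms : List Md} {l l' : List RP} (h : RCk ms l) (h' : RCk ms l') :
    RCk ms (l ++ l') := by
  induction l with
  | nil => exact h'
  | cons r l ih => exact ⟨h.1, ih h.2⟩

theorem FCk.cons {ms : List Md} {s : Nat} {f : FP} {l : List FP} (h : fchk ms s f = true)
    (h' : FCk ms (s + 1) l) : FCk ms s (f :: l) := ⟨h, h'⟩

theorem FCk.nil {ms : List Md} {s : Nat} : FCk ms s [] := trivial

theorem FCk.append {ms : List Md} {s : Nat} {l l' : List FP} (h : FCk ms s l)
    (h' : FCk ms (s + l.length) l') : FCk ms s (l ++ l') := by
  induction l generalizing s with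
  | nil => exact h'
  | cons r l ih =>
    refine ⟨h.1, ih h.2 ?_⟩
    rw [List.length_cons] at h'
    have e : s + 1 + l.length = s + (l.length + 1) := by omega
    rw [e]
    exact h'

end Pool.Agent.Moser.Ck
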