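import Pool.Agent.Lib_MP_cc07e8_ck.CkSem
import Pool.Agent.Lib_MP_cc07e8_co.Stair

/-! # MP_cc07e8_co: the block lemma for lists of columns (piece BGEO) -/

open Finset

namespace Pool.Agent.Moser.Ck

/-- sums over a list by index -/
theorem sum_drop_getD {M : Type} [AddCommMonoid M] (f : ℕ → M) (L : List ℕ) (i : ℕ) :
    ∑ j ∈ Ico i L.length, f (L.getD j 0) = ((L.drop i).map f).sum := by
  induction L generalizing i with
  | nil => simp
  | cons x S ih =>
    cases i with
    | zero =>
      rw [List.length_cons, Finset.sum_Ico_eq_sum_range, Nat.sub_zero, Finset.sum_range_succ']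
      have h1 := ih 0
      rw [Finset.sum_Ico_eq_sum_range, Nat.sub_zero] at h1
      simp only [zero_add, List.drop_zero, List.map_cons, List.sum_cons, List.getD_cons_succ,
        List.getD_cons_zero] at h1 ⊢
      rw [h1, add_comm]
    | succ i =>
      have h1 := ih i
      rw [Finset.sum_Ico_eq_sum_range] at h1 ⊢
      rw [List.length_cons, List.drop_succ_cons, ← h1]
      have h2 : S.length + 1 - (i + 1) = S.length - i := by omega
      rw [h2]
      apply Finset.sum_congr rfl
      intro j _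
      have h3 : i + 1 + j = (i + j) + 1 := by omega
      rw [h3, List.getD_cons_succ]

theorem lX_eq (r : ℕ) (L : List ℕ) (i : ℕ) {l : ℕ} (hl : L.length = l + 1) :
    sX l (fun r i => cq (L.getD i 0) + r) (fun i => cc (L.getD i 0)) r i = lX r (L.drop i) := by
  unfold sX sA lX
  rw [← hl]
  exact sum_drop_getD (fun x => 1 / ((cq x + min r (cc x - 1) : ℕ) : ℝ)) L i

theorem body_eq (H : ℝ) (ck : ℕ) (x0 : ℕ) (S : List ℕ) :
    body H ck (x0 :: S) =
      (∑ i ∈ range (S.length + 1), {(1 / ((cq ((x0 :: S).getD i 0) + cc ((x0 :: S).getD i 0) - 1 : ℕ) : ℝ),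
          H - ch (cq ((x0 :: S).getD i 0)) (cc ((x0 :: S).getD i 0)))}) +
        (∑ i ∈ range S.length, pkM H ck (cq ((x0 :: S).getD i 0)) (cc ((x0 :: S).getD i 0))
          (cq ((x0 :: S).getD (i + 1) 0)) (cc ((x0 :: S).getD (i + 1) 0)) ((x0 :: S).drop (i + 1))) := by
  induction S generalizing x0 with
  | nil =>
    simp [body]
  | cons y T ih =>
    have h1 : body H ck (x0 :: y :: T) =
        {(1 / ((cq x0 + cc x0 - 1 : ℕ) : ℝ), H - ch (cq x0) (cc x0))} +
      (pkM H ck (cq x0) (cc x0) (cq y) (cc y) (y :: T) + body H ck (y :: T)) := rfl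
    rw [h1, ih y, List.length_cons]
    rw [Finset.sum_range_succ' (fun i => ({(1 / ((cq ((x0 :: y :: T).getD i 0) +
        cc ((x0 :: y :: T).getD i 0) - 1 : ℕ) : ℝ),
          H - ch (cq ((x0 :: y :: T).getD i 0)) (cc ((x0 :: y :: T).getD i 0)))} :
          Multiset (ℝ × ℝ))) (T.length + 1),
      Finset.sum_range_succ' (fun i => pkM H ck (cq ((x0 :: y :: T).getD i 0))
          (cc ((x0 :: y :: T).getD i 0))
          (cq ((x0 :: y :: T).getD (i + 1) 0)) (cc ((x0 :: y :: T).getD (i + 1) 0))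
          ((x0 :: y :: T).drop (i + 1))) T.length]
    simp only [List.getD_cons_succ, List.getD_cons_zero, List.drop_succ_cons, List.drop_zero]
    ac_rfl

/-- Translation of `stair_block'` (Stair.lean): `S = [x_0, ..., x_l]`, `q i = cq x_i`, `c i = cc x_i`,
`k + 1 = ck`. -/
theorem block_geo {H : ℝ} {ck : ℕ} {x0 : ℕ} {S : List ℕ} (hS : Srt (x0 :: S))
    (hck : ∀ x, (x0 :: S).getLast? = some x → cc x = ck) (hH : ∀ x ∈ x0 :: S, ch (cq x) (cc x) ≤ H) :
    Dec (lX 0 (x0 :: S)) H (csq (x0 :: S))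
      (body H ck (x0 :: S) + lgM H ck (cq x0) (cc x0) (x0 :: S)) := by
  obtain ⟨hp, hm⟩ := hS
  have hlen : (x0 :: S).length = S.length + 1 := List.length_cons
  have hget : ∀ i, (hi : i < (x0 :: S).length) → (x0 :: S).getD i 0 = (x0 :: S)[i] := by
    intro i hi
    rw [List.getD_eq_getElem?_getD, List.getElem?_eq_getElem hi, Option.getD_some]
  have hmem : ∀ i ≤ S.length, (x0 :: S).getD i 0 ∈ x0 :: S := by
    intro i hi
    rw [hget i (by omega)]
    exact List.getElem_mem _
  have hpw : ∀ i < S.length, cq ((x0 :: S).getD i 0) ≤ cq ((x0 :: S).getD (i + 1) 0) ∧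
      cc ((x0 :: S).getD i 0) ≤ cc ((x0 :: S).getD (i + 1) 0) := by
    intro i hi
    rw [hget i (by omega), hget (i + 1) (by omega)]
    exact (List.pairwise_iff_getElem.1 hp) i (i + 1) (by omega) (by omega) (by omega)
  have hlast : cc ((x0 :: S).getD S.length 0) = ck := by
    apply hck
    rw [List.getLast?_eq_getElem?, hlen, Nat.add_sub_cancel, hget _ (by omega),
      List.getElem?_eq_getElem (by omega)]
  have hck1 : 1 ≤ ck := by
    rw [← hlast]
    exact (hm _ (hmem _ le_rfl)).2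
  obtain ⟨k, rfl⟩ : ∃ k, ck = k + 1 := ⟨ck - 1, by omega⟩
  have key := stair_block' (H := H) (k := k) (l := S.length) (q := fun i => cq ((x0 :: S).getD i 0))
    (c := fun i => cc ((x0 :: S).getD i 0)) (hm _ (hmem 0 (Nat.zero_le _))).1
    (fun i hi => (hpw i hi).1) (hm _ (hmem 0 (Nat.zero_le _))).2 (fun i hi => (hpw i hi).2) hlast
    (fun i hi => hH _ (hmem i hi))
  have e1 : ∑ i ∈ range (S.length + 1), (Ico (cq ((x0 :: S).getD i 0))
      (cq ((x0 :: S).getD i 0) + cc ((x0 :: S).getD i 0))).val = csq (x0 :: S) := by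
    have h1 := sum_drop_getD (fun x => (Ico (cq x) (cq x + cc x)).val) (x0 :: S) 0
    rw [Finset.sum_Ico_eq_sum_range, Nat.sub_zero, hlen] at h1
    simp only [zero_add, List.drop_zero] at h1
    exact h1
  have e2 : (∑ i ∈ range (S.length + 1), ({(1 / ((cq ((x0 :: S).getD i 0) +
        (cc ((x0 :: S).getD i 0) - 1) : ℕ) : ℝ),
          H - sC (fun r i => cq ((x0 :: S).getD i 0) + r) (fun i => cc ((x0 :: S).getD i 0)) i)} :
          Multiset (ℝ × ℝ))) =
      ∑ i ∈ range (S.length + 1), {(1 / ((cq ((x0 :: S).getD i 0) + cc ((x0 :: S).getD i 0) - 1 : ℕ) : ℝ),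
          H - ch (cq ((x0 :: S).getD i 0)) (cc ((x0 :: S).getD i 0)))} := by
    apply Finset.sum_congr rfl
    intro i hi
    have h1 := (hm _ (hmem i (by rw [Finset.mem_range] at hi; omega))).2
    rw [Nat.add_sub_assoc h1]
    rfl
  have e3 : (∑ r ∈ range k, ∑ i ∈ range S.length,
            ({(sX S.length (fun r i => cq ((x0 :: S).getD i 0) + r) (fun i => cc ((x0 :: S).getD i 0)) r
                (i + 1) - sX S.length (fun r i => cq ((x0 :: S).getD i 0) + r)
                (fun i => cc ((x0 :: S).getD i 0)) (r + 1) (i + 1),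
            sH H (fun r i => cq ((x0 :: S).getD i 0) + r) (fun i => cc ((x0 :: S).getD i 0)) (r + 1) i -
              sH H (fun r i => cq ((x0 :: S).getD i 0) + r) (fun i => cc ((x0 :: S).getD i 0)) (r + 1)
                (i + 1))} : Multiset (ℝ × ℝ))) =
      ∑ i ∈ range S.length, pkM H (k + 1) (cq ((x0 :: S).getD i 0)) (cc ((x0 :: S).getD i 0))
          (cq ((x0 :: S).getD (i + 1) 0)) (cc ((x0 :: S).getD (i + 1) 0)) ((x0 :: S).drop (i + 1)) := by
    rw [Finset.sum_comm]
    apply Finset.sum_congr rfl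
    intro i _
    unfold pkM
    rw [Nat.add_sub_cancel]
    apply Finset.sum_congr rfl
    intro r _
    rw [lX_eq _ _ _ hlen, lX_eq _ _ _ hlen]
    rfl
  have e4 : (∑ r ∈ range k, ({(sX S.length (fun r i => cq ((x0 :: S).getD i 0) + r)
      (fun i => cc ((x0 :: S).getD i 0)) 0 0 -
              sX S.length (fun r i => cq ((x0 :: S).getD i 0) + r) (fun i => cc ((x0 :: S).getD i 0))
                (r + 1) 0,
              sH H (fun r i => cq ((x0 :: S).getD i 0) + r) (fun i => cc ((x0 :: S).getD i 0)) (r + 2) 0 -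
                sH H (fun r i => cq ((x0 :: S).getD i 0) + r) (fun i => cc ((x0 :: S).getD i 0))
                (r + 1) 0)} : Multiset (ℝ × ℝ))) +
            (if cc ((x0 :: S).getD 0 0) = k + 1 then {(sX S.length
              (fun r i => cq ((x0 :: S).getD i 0) + r) (fun i => cc ((x0 :: S).getD i 0)) 0 0 -
              sX S.length (fun r i => cq ((x0 :: S).getD i 0) + r) (fun i => cc ((x0 :: S).getD i 0)) k 0,
              H - sC (fun r i => cq ((x0 :: S).getD i 0) + r) (fun i => cc ((x0 :: S).getD i 0)) 0)}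
              else 0) =
      lgM H (k + 1) (cq x0) (cc x0) (x0 :: S) := by
    unfold lgM
    rw [Nat.add_sub_cancel]
    simp only [lX_eq _ _ _ hlen, List.drop_zero]
    rfl
  have e5 : sX S.length (fun r i => cq ((x0 :: S).getD i 0) + r) (fun i => cc ((x0 :: S).getD i 0)) 0 0 =
      lX 0 (x0 :: S) := by
    rw [lX_eq _ _ _ hlen, List.drop_zero]
  rw [body_eq, ← e1, ← e2, ← e3, ← e4, ← e5, add_assoc]
  exact key

/-- the block cut off a rectangle `H × y` -/
theorem block_ref {H y : ℝ} {ck : ℕ} {x0 : ℕ} {S : List ℕ} (hS : Srt (x0 :: S))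
    (hck : ∀ x, (x0 :: S).getLast? = some x → cc x = ck) (hH : ∀ x ∈ x0 :: S, ch (cq x) (cc x) ≤ H)
    (hy : lX 0 (x0 :: S) ≤ y) :
    Ref {(H, y)} (csq (x0 :: S)) ({(H, y - lX 0 (x0 :: S))} +
      (body H ck (x0 :: S) + lgM H ck (cq x0) (cc x0) (x0 :: S))) := by
  have hH0 : 0 ≤ H := by
    refine le_trans ?_ (hH x0 List.mem_cons_self)
    unfold ch
    exact Finset.sum_nonneg fun t _ => by positivity
  have hX : 0 ≤ lX 0 (x0 :: S) := by
    unfold lX
    apply List.sum_nonneg
    intro z hz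
    obtain ⟨x, -, rfl⟩ := List.mem_map.1 hz
    positivity
  have h1 := Ref.cut hH0 hX (sub_nonneg.2 hy)
  rw [add_sub_cancel] at h1
  have h2 : Ref {(H, lX 0 (x0 :: S))} (csq (x0 :: S))
      (body H ck (x0 :: S) + lgM H ck (cq x0) (cc x0) (x0 :: S)) := by
    have h3 := Ref.trans (Ref.turn hH0 hX) (Ref.of_dec (block_geo hS hck hH))
    rw [zero_add] at h3
    exact h3
  have h4 := Ref.trans h1 (Ref.add h2 (Ref.refl {(H, y - lX 0 (x0 :: S))}))
  rw [zero_add, add_zero] at h4
  rw [add_comm {(H, y - lX 0 (x0 :: S))}]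
  exact h4

end Pool.Agent.Moser.Ck
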