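import Pool.Agent.Lib_MP_cc07e8_ck.CkSem

/-! # MP_cc07e8_co: determinism of the programs

Every program either fails for all continuations or calls its continuation exactly once, with
arguments which do not depend on the continuation. The memory only grows (as a multiset) and the
records are only used up. -/

namespace Pool.Agent.Moser.Ck

/-- `P` fails or calls its continuation once, with an argument satisfying `p` -/
def Det {α : Type} (P : (α → Bool) → Bool) (p : α → Prop) : Prop :=
  (∀ k, P k = false) ∨ ∃ a, p a ∧ ∀ k, P k = k a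

section
variable {α β γ δ ε : Type}

theorem Det.fail {p : α → Prop} : Det (fun _ => false) p := Or.inl fun _ => rfl

theorem Det.ret {p : α → Prop} (a : α) (h : p a) : Det (fun k => k a) p :=
  Or.inr ⟨a, h, fun _ => rfl⟩

theorem Det.mono {P : (α → Bool) → Bool} {p q : α → Prop} (h : Det P p) (hpq : ∀ a, p a → q a) :
    Det P q := by
  rcases h with h | ⟨a, ha, h⟩
  · exact Or.inl h
  · exact Or.inr ⟨a, hpq a ha, h⟩

theorem Det.br {P Q : (α → Bool) → Bool} {p : α → Prop} (b : Bool) (hP : Det P p) (hQ : Det Q p) :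
    Det (fun k => Ck.br b (P k) (Q k)) p := by
  cases b
  · exact hQ
  · exact hP

theorem Det.bind {P : (β → Bool) → Bool} {Q : β → (α → Bool) → Bool} {p : β → Prop} {q : α → Prop}
    (hP : Det P p) (hQ : ∀ b, p b → Det (Q b) q) : Det (fun k => P (fun b => Q b k)) q := by
  rcases hP with h | ⟨b, hb, h⟩
  · exact Or.inl fun k => h _
  · rcases hQ b hb with h' | ⟨a, ha, h'⟩
    · exact Or.inl fun k => (h _).trans (h' k)
    · exact Or.inr ⟨a, ha, fun k => (h _).trans (h' k)⟩

theorem Det.bind2 {P : (β → γ → Bool) → Bool} {Q : β → γ → (α → Bool) → Bool} {p : β × γ → Prop}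
    {q : α → Prop} (hP : Det (fun k : β × γ → Bool => P (fun b c => k (b, c))) p)
    (hQ : ∀ b c, p (b, c) → Det (Q b c) q) : Det (fun k => P (fun b c => Q b c k)) q :=
  Det.bind (P := fun k : β × γ → Bool => P (fun b c => k (b, c))) (Q := fun x k => Q x.1 x.2 k) hP
    (fun x hx => hQ x.1 x.2 hx)

theorem Det.bind3 {P : (β → γ → δ → Bool) → Bool} {Q : β → γ → δ → (α → Bool) → Bool}
    {p : β × γ × δ → Prop} {q : α → Prop}
    (hP : Det (fun k : β × γ × δ → Bool => P (fun b c e => k (b, c, e))) p)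
    (hQ : ∀ b c e, p (b, c, e) → Det (Q b c e) q) : Det (fun k => P (fun b c e => Q b c e k)) q :=
  Det.bind (P := fun k : β × γ × δ → Bool => P (fun b c e => k (b, c, e)))
    (Q := fun x k => Q x.1 x.2.1 x.2.2 k) hP (fun x hx => hQ x.1 x.2.1 x.2.2 hx)

theorem Det.bind4 {P : (β → γ → δ → ε → Bool) → Bool} {Q : β → γ → δ → ε → (α → Bool) → Bool}
    {p : β × γ × δ × ε → Prop} {q : α → Prop}
    (hP : Det (fun k : β × γ × δ × ε → Bool => P (fun b c e f => k (b, c, e, f))) p)
    (hQ : ∀ b c e f, p (b, c, e, f) → Det (Q b c e f) q) :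
    Det (fun k => P (fun b c e f => Q b c e f k)) q :=
  Det.bind (P := fun k : β × γ × δ × ε → Bool => P (fun b c e f => k (b, c, e, f)))
    (Q := fun x k => Q x.1 x.2.1 x.2.2.1 x.2.2.2 k) hP (fun x hx => hQ x.1 x.2.1 x.2.2.1 x.2.2.2 hx)

theorem Det.get {P : (α → Bool) → Bool} {p : α → Prop} {k : α → Bool} (h : Det P p)
    (hk : P k = true) : ∃ a, p a ∧ k a = true ∧ ∀ k', P k' = k' a := by
  rcases h with h | ⟨a, ha, h⟩
  · rw [h k] at hk
    exact absurd hk (by simp)
  · exact ⟨a, ha, by rw [← h k]; exact hk, h⟩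

end

/-- grows -/
def Up (T : Tr) (F : Bt) (x : Tr × Bt) : Prop := T.ms ≤ x.1.ms ∧ x.2.ms ≤ F.ms

theorem Up.rfl {T : Tr} {F : Bt} : Up T F (T, F) := ⟨le_rfl, le_rfl⟩

theorem Up.trans {T T' : Tr} {F F' : Bt} {x : Tr × Bt} (h : Up T F (T', F')) (h' : Up T' F' x) :
    Up T F x := ⟨h.1.trans h'.1, h'.2.trans h.2⟩

theorem ins_det (t : Tr) : ∀ (key w l : ℕ),
    Det (fun k : Tr → Bool => ins t key w l k) (fun t' => t'.ms = (w, l) ::ₘ t.ms) := by
  induction t with
  | e => intro key w l; exact Det.ret (Tr.l w l) rfl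
  | l a b => intro key w l; exact Det.fail
  | n a b iha ihb =>
    intro key w l
    refine Det.br (Nat.beq (Nat.land key 1) 0)
      (Det.bind (iha (Nat.shiftRight key 1) w l) (fun s hs => Det.ret (Tr.n s b) ?_))
      (Det.bind (ihb (Nat.shiftRight key 1) w l) (fun s hs => Det.ret (Tr.n a s) ?_))
    · show s.ms + b.ms = (w, l) ::ₘ (a.ms + b.ms)
      rw [hs, Multiset.cons_add]
    · show a.ms + s.ms = (w, l) ::ₘ (a.ms + b.ms)
      rw [hs, Multiset.add_cons]

theorem ext_det (t : Tr) : ∀ (key : ℕ),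
    Det (fun k : Tr × ℕ × ℕ → Bool => ext t key (fun s w l => k (s, w, l)))
      (fun x => t.ms = (x.2.1, x.2.2) ::ₘ x.1.ms) := by
  induction t with
  | e => intro key; exact Det.fail
  | l a b => intro key; exact Det.ret (Tr.e, a, b) rfl
  | n a b iha ihb =>
    intro key
    refine Det.br (Nat.beq (Nat.land key 1) 0)
      (Det.bind (iha (Nat.shiftRight key 1)) (fun s hs => Det.ret (Tr.n s.1 b, s.2.1, s.2.2) ?_))
      (Det.bind (ihb (Nat.shiftRight key 1)) (fun s hs => Det.ret (Tr.n a s.1, s.2.1, s.2.2) ?_))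
    · show a.ms + b.ms = (s.2.1, s.2.2) ::ₘ (s.1.ms + b.ms)
      rw [hs, Multiset.cons_add]
    · show a.ms + b.ms = (s.2.1, s.2.2) ::ₘ (a.ms + s.1.ms)
      rw [hs, Multiset.add_cons]

theorem pop_det (t : Bt) : ∀ (key : ℕ),
    Det (fun k : ℕ × Bt → Bool => pop t key (fun x s => k (x, s)))
      (fun x => t.ms = x.1 ::ₘ x.2.ms) := by
  induction t with
  | l xs =>
    intro key
    cases xs with
    | nil => exact Det.fail
    | cons x r => exact Det.ret (x, Bt.l r) rfl
  | n a b iha ihb =>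
    intro key
    refine Det.br (Nat.beq (Nat.land key 1) 0)
      (Det.bind (iha (Nat.shiftRight key 1)) (fun s hs => Det.ret (s.1, Bt.n s.2 b) ?_))
      (Det.bind (ihb (Nat.shiftRight key 1)) (fun s hs => Det.ret (s.1, Bt.n a s.2) ?_))
    · show a.ms + b.ms = s.1 ::ₘ (s.2.ms + b.ms)
      rw [hs, Multiset.cons_add]
    · show a.ms + b.ms = s.1 ::ₘ (a.ms + s.2.ms)
      rw [hs, Multiset.add_cons]

theorem hd_det (xs : List ℕ) :
    Det (fun k : ℕ × List ℕ → Bool => hd xs (fun x r => k (x, r))) (fun x => xs = x.1 :: x.2) := by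
  cases xs with
  | nil => exact Det.fail
  | cons x r => exact Det.ret (x, r) rfl

theorem fat_det (L s x n key : ℕ) (F : Bt) :
    Det (fun k : Bt → Bool => fat L s x n key F k) (fun F' => F'.ms ≤ F.ms) := by
  show Det (fun k : Bt → Bool => pop F key (fun r F' =>
    br (Nat.beq r (Nat.add (Nat.shiftLeft (Nat.add (Nat.shiftLeft (Nat.add (Nat.shiftLeft L 64) s) 64) x) 12) n))
      (br (Nat.ble (Nat.succ s) 18446744073709551616)
        (br (Nat.ble (Nat.succ x) 18446744073709551616)
          (br (Nat.ble (Nat.succ n) 4096) (k F') false) false) false) false)) _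
  refine Det.bind2 (pop_det F key) (fun r F' hr => ?_)
  refine Det.br _ (Det.br _ (Det.br _ (Det.br _ (Det.ret F' ?_) Det.fail) Det.fail) Det.fail)
    Det.fail
  show F'.ms ≤ F.ms
  have hr' : F.ms = r ::ₘ F'.ms := hr
  rw [hr']
  exact Multiset.le_cons_self _ _

theorem fat1_det (w l key : ℕ) (F : Bt) :
    Det (fun k : Bt → Bool => fat1 w l key F k) (fun F' => F'.ms ≤ F.ms) :=
  fat_det _ _ _ _ _ _

theorem fatR_det (L xl xh n key : ℕ) (F : Bt) :
    Det (fun k : Bt → Bool => fatR L xl xh n key F k) (fun F' => F'.ms ≤ F.ms) :=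
  fat_det _ _ _ _ _ _

theorem disp_det (i w l : ℕ) (T : Tr) (F : Bt) :
    Det (fun k : Tr × Bt → Bool => disp i w l T F (fun T' F' => k (T', F'))) (Up T F) := by
  refine Det.br (Nat.beq (Nat.land i 3) 0)
    (Det.bind (ins_det T (Nat.shiftRight i 2) w l) (fun T' hT => Det.ret (T', F) ?_))
    (Det.br (Nat.beq (Nat.land i 3) 1)
      (Det.bind (fat1_det w l (Nat.shiftRight i 2) F) (fun F' hF => Det.ret (T, F') ⟨le_rfl, hF⟩))
      (Det.br (Nat.beq (Nat.land i 3) 2)
        (Det.bind (ins_det T (Nat.shiftRight i 2) l w) (fun T' hT => Det.ret (T', F) ?_))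
        (Det.bind (fat1_det l w (Nat.shiftRight i 2) F) (fun F' hF => Det.ret (T, F') ⟨le_rfl, hF⟩))))
  · refine ⟨?_, le_rfl⟩
    show T.ms ≤ T'.ms
    rw [hT]
    exact Multiset.le_cons_self _ _
  · refine ⟨?_, le_rfl⟩
    show T.ms ≤ T'.ms
    rw [hT]
    exact Multiset.le_cons_self _ _

/-- post condition for programs with instructions -/
def Up3 (T : Tr) (F : Bt) (x : List ℕ × Tr × Bt) : Prop := Up T F x.2

/-- post condition for programs with instructions without memory -/
def Up2 (F : Bt) (x : List ℕ × Bt) : Prop := x.2.ms ≤ F.ms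

/-- post condition for `cols` -/
def Up4 (T : Tr) (F : Bt) (x : ℕ × List ℕ × Tr × Bt) : Prop := Up T F x.2.2

theorem pock_det (d H q c qn : ℕ) (S : List ℕ) (n : ℕ) : ∀ (r y z : ℕ) (I : List ℕ) (T : Tr) (F : Bt),
    Det (fun k : List ℕ × Tr × Bt → Bool =>
      pock d H q c qn S n r y z I T F (fun I' T' F' => k (I', T', F'))) (Up3 T F) := by
  induction n with
  | zero => intro r y z I T F; exact Det.ret (I, T, F) Up.rfl
  | succ n ih =>
    intro r y z I T F
    show Det (fun k : List ℕ × Tr × Bt → Bool => hd I (fun i I' =>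
      disp i (xdif d r S)
        (Bool.rec (motive := fun _ => Nat)
          (Nat.sub H (Nat.add z (Nat.succ (Nat.div d (Nat.add qn r)))))
          (Nat.add y (dif d (Nat.add q r) (Nat.add qn r))) (Nat.ble (Nat.succ r) c)) T F
        (fun T' F' => pock d H q c qn S n (Nat.succ r)
          (Nat.add y (dif d (Nat.add q r) (Nat.add qn r)))
          (Nat.add z (Nat.succ (Nat.div d (Nat.add qn r)))) I' T' F'
          (fun I' T' F' => k (I', T', F'))))) _
    refine Det.bind2 (hd_det I) (fun i I' _ => ?_)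
    refine Det.bind2 (disp_det _ _ _ T F) (fun T' F' hx => ?_)
    exact (ih _ _ _ I' T' F').mono (fun a ha => Up.trans hx ha)

theorem lgap_det (d q : ℕ) (S : List ℕ) (n : ℕ) : ∀ (r : ℕ) (I : List ℕ) (T : Tr) (F : Bt),
    Det (fun k : List ℕ × Tr × Bt → Bool =>
      lgap d q S n r I T F (fun I' T' F' => k (I', T', F'))) (Up3 T F) := by
  induction n with
  | zero => intro r I T F; exact Det.ret (I, T, F) Up.rfl
  | succ n ih =>
    intro r I T F
    show Det (fun k : List ℕ × Tr × Bt → Bool => hd I (fun i I' =>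
      disp i (zdif d r S) (Nat.div d (Nat.add q r)) T F (fun T' F' =>
        lgap d q S n (Nat.succ r) I' T' F' (fun I' T' F' => k (I', T', F'))))) _
    refine Det.bind2 (hd_det I) (fun i I' _ => ?_)
    refine Det.bind2 (disp_det _ _ _ T F) (fun T' F' hx => ?_)
    exact (ih _ I' T' F').mono (fun a ha => Up.trans hx ha)

theorem lgapC_det (q X nj : ℕ) (n : ℕ) : ∀ (r : ℕ) (I : List ℕ) (F : Bt),
    Det (fun k : List ℕ × Bt → Bool =>
      lgapC q X nj n r I F (fun I' F' => k (I', F'))) (Up2 F) := by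
  induction n with
  | zero => intro r I F; exact Det.ret (I, F) (le_refl F.ms)
  | succ n ih =>
    intro r I F
    show Det (fun k : List ℕ × Bt → Bool => hd I (fun i I' =>
      fatR (Nat.succ (Nat.div 68719476736 (Nat.add q r)))
        (Nat.sub (Nat.mul r X) (Nat.succ (Nat.div (Nat.mul (Nat.mul r r) X) q)))
        (Nat.mul r (Nat.add X nj)) 1 i F (fun F' =>
          lgapC q X nj n (Nat.succ r) I' F' (fun I' F' => k (I', F'))))) _
    refine Det.bind2 (hd_det I) (fun i I' _ => ?_)
    refine Det.bind (fatR_det _ _ _ _ _ F) (fun F' hx => ?_)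
    exact (ih _ I' F').mono (fun a ha => le_trans ha hx)

theorem pkC_det (q c qn cn gn X nj Xs ns qs : ℕ) (I : List ℕ) (F : Bt) :
    Det (fun k : List ℕ × Bt → Bool =>
      pkC q c qn cn gn X nj Xs ns qs I F (fun I' F' => k (I', F'))) (Up2 F) := by
  show Det (fun k : List ℕ × Bt → Bool => br (Nat.ble cn (Nat.succ c))
    (br (Nat.ble 2 cn)
      (hd I (fun i I2 =>
        fatR (Nat.succ (Nat.div (Nat.mul 34359738368 (Nat.mul (Nat.mul cn (Nat.sub cn 1)) (Nat.sub qn q)))
            (Nat.mul q qn)))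
          (Nat.sub X (Nat.succ (Nat.div (Nat.mul 2 (Nat.mul cn X)) qn)))
          (Nat.add X nj) (Nat.sub cn 1) i F (fun F2 =>
        br (Nat.beq ns 0) (k (I2, F2))
          (hd I2 (fun i' I3 =>
            fatR (Bool.rec (motive := fun _ => Nat) (Nat.add (Nat.shiftRight gn 76) 2)
                (Nat.succ (Nat.div (Nat.mul 68719476736 (Nat.mul cn (Nat.sub qn q))) (Nat.mul q qn)))
                (Nat.beq c cn))
              (Nat.sub Xs (Nat.succ (Nat.div (Nat.mul 2 (Nat.mul cn Xs)) qs)))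
              (Nat.add Xs ns) 1 i' F2 (fun F3 => k (I3, F3)))))))
      false) false) _
  refine Det.br _ (Det.br _ ?_ Det.fail) Det.fail
  refine Det.bind2 (hd_det I) (fun i I2 _ => ?_)
  refine Det.bind (fatR_det _ _ _ _ _ F) (fun F2 hF2 => ?_)
  refine Det.br _ (Det.ret (I2, F2) hF2) ?_
  refine Det.bind2 (hd_det I2) (fun i' I3 _ => ?_)
  exact Det.bind (fatR_det _ _ _ _ _ F2) (fun F3 hF3 => Det.ret (I3, F3) (le_trans hF3 hF2))

theorem pk_det (d H : ℕ) (P : Bool) (ck q c qn cn gn X nj Xs ns qs : ℕ) (S I : List ℕ) (T : Tr)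
    (F : Bt) :
    Det (fun k : List ℕ × Tr × Bt → Bool =>
      pk d H P ck q c qn cn gn X nj Xs ns qs S I T F (fun I' T' F' => k (I', T', F')))
      (Up3 T F) := by
  refine Det.br P (pock_det _ _ _ _ _ _ _ _ _ _ _ _ _) ?_
  exact Det.bind2 (pkC_det q c qn cn gn X nj Xs ns qs I F)
    (fun I' F' h => Det.ret (I', T, F') ⟨le_rfl, h⟩)

theorem lg_det (d : ℕ) (G : Bool) (qn cn gn X nj Xs ns qs : ℕ) (S I : List ℕ) (T : Tr) (F : Bt) :
    Det (fun k : List ℕ × Tr × Bt → Bool =>
      lg d G qn cn gn X nj Xs ns qs S I T F (fun I' T' F' => k (I', T', F'))) (Up3 T F) := by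
  show Det (fun k : List ℕ × Tr × Bt → Bool =>
    br (Nat.ble 2 cn)
      (br G
        (lgap d qn S (Nat.sub cn 1) 1 I T F (fun I' T' F' =>
          hd I' (fun i I'' => disp i (zdif d cn S) gn T' F' (fun T'' F'' => k (I'', T'', F'')))))
        (lgapC qn X nj (Nat.sub cn 1) 1 I F (fun I' F' =>
          hd I' (fun i I'' =>
            fatR (Nat.add (Nat.shiftRight gn 76) 2)
              (Nat.sub (Nat.add (Nat.mul (Nat.sub cn 1) X) Xs)
                (Nat.add (Nat.add (Nat.div (Nat.mul (Nat.mul (Nat.sub cn 1) (Nat.sub cn 1)) X) qn)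
                  (Nat.div (Nat.mul 2 (Nat.mul cn Xs)) qs)) 2))
              (Nat.add (Nat.mul (Nat.sub cn 1) (Nat.add X nj)) (Nat.add Xs ns)) 1 i F'
              (fun F'' => k (I'', T, F''))))))
      (br (Nat.beq ns 0) (k (I, T, F))
        (hd I (fun i I' => disp i (zdif d cn S) gn T F (fun T' F' => k (I', T', F')))))) _
  refine Det.br _ (Det.br _ ?_ ?_) (Det.br _ (Det.ret (I, T, F) Up.rfl) ?_)
  · refine Det.bind3 (lgap_det _ _ _ _ _ _ _ _) (fun I' T' F' h => ?_)
    refine Det.bind2 (hd_det I') (fun i I'' _ => ?_)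
    exact Det.bind2 (disp_det _ _ _ T' F') (fun T'' F'' h' => Det.ret (I'', T'', F'') (Up.trans h h'))
  · refine Det.bind2 (lgapC_det _ _ _ _ _ _ _) (fun I' F' h => ?_)
    refine Det.bind2 (hd_det I') (fun i I'' _ => ?_)
    exact Det.bind (fatR_det _ _ _ _ _ F') (fun F'' h' => Det.ret (I'', T, F'')
      ⟨le_rfl, le_trans h' h⟩)
  · refine Det.bind2 (hd_det I) (fun i I' _ => ?_)
    exact Det.bind2 (disp_det _ _ _ T F) (fun T' F' h' => Det.ret (I', T', F') h')

theorem cols_det (d H : ℕ) (P G : Bool) (ck : ℕ) (C : List ℕ) :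
    ∀ (U nj X qn cn gn Xs ns qs : ℕ) (S I : List ℕ) (T : Tr) (F : Bt),
    Det (fun k : ℕ × List ℕ × Tr × Bt → Bool =>
      cols d H P G ck C U nj X qn cn gn Xs ns qs S I T F (fun U' I' T' F' => k (U', I', T', F')))
      (Up4 T F) := by
  induction C with
  | nil =>
    intro U nj X qn cn gn Xs ns qs S I T F
    show Det (fun k : ℕ × List ℕ × Tr × Bt → Bool =>
      lg d G qn cn gn X nj Xs ns qs S I T F (fun I' T' F' => k (U, I', T', F'))) _
    exact Det.bind3 (lg_det _ _ _ _ _ _ _ _ _ _ _ _ _ _)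
      (fun I' T' F' h => Det.ret (U, I', T', F') h)
  | cons x C ih =>
    intro U nj X qn cn gn Xs ns qs S I T F
    show Det (fun k : ℕ × List ℕ × Tr × Bt → Bool =>
      br (Nat.ble (ksum d (Nat.shiftRight x 10) (Nat.land x 1023)) H)
        (br (Nat.ble 1 (Nat.shiftRight x 10)) (br (Nat.ble 1 (Nat.land x 1023))
          (br (Nat.ble (Nat.shiftRight x 10) qn) (br (Nat.ble (Nat.land x 1023) cn)
          (hd I (fun i I1 =>
            disp i (Nat.div d (Nat.sub (Nat.add (Nat.shiftRight x 10) (Nat.land x 1023)) 1))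
              (Nat.sub H (ksum d (Nat.shiftRight x 10) (Nat.land x 1023))) T F (fun T1 F1 =>
              pk d H P ck (Nat.shiftRight x 10) (Nat.land x 1023) qn cn gn X nj Xs ns qs S I1 T1 F1
                (fun I2 T2 F2 =>
                br (Nat.beq (Nat.land x 1023) cn)
                  (cols d H P G ck C (Nat.add U (Nat.succ (Nat.div d (Nat.shiftRight x 10))))
                    (Nat.succ nj)
                    (Nat.add X (Nat.div d (Nat.mul (Nat.shiftRight x 10)
                      (Nat.succ (Nat.shiftRight x 10))))) (Nat.shiftRight x 10) (Nat.land x 1023)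
                      (Nat.sub H (ksum d (Nat.shiftRight x 10) (Nat.land x 1023))) Xs ns qs
                    (List.cons x S) I2 T2 F2 (fun U' I' T' F' => k (U', I', T', F')))
                  (cols d H P G ck C (Nat.add U (Nat.succ (Nat.div d (Nat.shiftRight x 10))))
                    (Nat.succ nj)
                    (Nat.add X (Nat.div d (Nat.mul (Nat.shiftRight x 10)
                      (Nat.succ (Nat.shiftRight x 10))))) (Nat.shiftRight x 10) (Nat.land x 1023)
                      (Nat.sub H (ksum d (Nat.shiftRight x 10) (Nat.land x 1023))) X nj qn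
                    (List.cons x S) I2 T2 F2 (fun U' I' T' F' => k (U', I', T', F')))))))
          false) false) false) false) false) _
    refine Det.br _ (Det.br _ (Det.br _ (Det.br _ (Det.br _ ?_ Det.fail) Det.fail) Det.fail)
      Det.fail) Det.fail
    refine Det.bind2 (hd_det I) (fun i I1 _ => ?_)
    refine Det.bind2 (disp_det _ _ _ T F) (fun T1 F1 h1 => ?_)
    refine Det.bind3 (pk_det _ _ _ _ _ _ _ _ _ _ _ _ _ _ _ _ T1 F1) (fun I2 T2 F2 h2 => ?_)
    refine Det.br _ ?_ ?_
    · exact (ih _ _ _ _ _ _ _ _ _ _ _ T2 F2).mono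
        (fun a ha => Up.trans h1 (Up.trans h2 ha))
    · exact (ih _ _ _ _ _ _ _ _ _ _ _ T2 F2).mono
        (fun a ha => Up.trans h1 (Up.trans h2 ha))

end Pool.Agent.Moser.Ck
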