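import Pool.Agent.Lib_MP_cc07e8_ck.CkCols
import Pool.Agent.Lib_MP_cc07e8_ck.CkDet

/-! # MP_cc07e8_co: blocks (piece BLOCK) -/

open Finset

namespace Pool.Agent.Moser.Ck

private theorem blk_div_lo {d a : ℕ} (hd : d = 2 ^ 112) : ((d / a : ℕ) : ℝ) ≤ 1 / (a : ℝ) * 2 ^ 112 := by
  have h1 : ((d / a : ℕ) : ℝ) ≤ (d : ℝ) / (a : ℝ) := Nat.cast_div_le
  have h0 : (d : ℝ) = 2 ^ 112 := by rw [hd]; norm_num
  have h2 : (d : ℝ) / (a : ℝ) = 1 / (a : ℝ) * 2 ^ 112 := by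
    rw [h0]
    ring
  linarith

private theorem blk_div_hi {d a : ℕ} (hd : d = 2 ^ 112) (ha : 1 ≤ a) :
    1 / (a : ℝ) * 2 ^ 112 ≤ ((d / a : ℕ) : ℝ) + 1 := by
  have ha0 : (0 : ℝ) < a := by exact_mod_cast ha
  have h0 : (d : ℝ) = 2 ^ 112 := by rw [hd]; norm_num
  have h1 : d < (d / a + 1) * a := by
    have h := Nat.lt_div_mul_add (a := d) (b := a) (by omega)
    rw [add_mul, one_mul]
    exact h
  have h2 : (d : ℝ) < ((d / a + 1 : ℕ) : ℝ) * a := by exact_mod_cast h1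
  rw [Nat.cast_add, Nat.cast_one] at h2
  rw [one_div, inv_mul_le_iff₀ ha0, ← h0]
  linarith

/-- A block, for all errors. -/
theorem block_sound_all {d w l : ℕ} {Q I : List ℕ} {T : Tr} {F : Bt}
    {k : ℕ → List ℕ → List ℕ → Tr → Bt → Bool} (hd : d = 2 ^ 112)
    (h : block d w l Q I T F k = true) :
    ∃ (Qc Q' I' : List ℕ) (l' : ℕ) (T' : Tr) (F' : Bt) (A : Multiset (ℕ × ℕ)) (L : Multiset ℕ),
      Q = Qc ++ Q' ∧ T'.ms = A + T.ms ∧ F.ms = L + F'.ms ∧ k l' Q' I' T' F' = true ∧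
      ∀ e : ℕ, e + 2 * Qc.length + 2048 ≤ 2 ^ 34 →
        Trans e (e + 2 * Qc.length + 2048) {(w, l)} (csq Qc) ({(w, l')} + A) 0 L := by
  obtain ⟨a, I1, hI, g1⟩ := hd_sound h
  clear h
  obtain ⟨Qc, Q1, hQ, hlen, g2⟩ := stk_sound g1
  clear g1
  obtain ⟨x, C, hst, g3⟩ := hd_sound g2
  clear g2
  rw [List.append_nil] at hst
  obtain ⟨h1, g4⟩ := br_false g3
  clear g3
  obtain ⟨h2, g5⟩ := br_false g4
  clear g4
  obtain ⟨h3, g6⟩ := br_false g5
  clear g5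
  obtain ⟨i, I2, hI1, g7⟩ := hd_sound g6
  clear g6
  have hQc : Qc = C.reverse ++ [x] := by
    have := congrArg List.reverse hst
    rwa [List.reverse_reverse, List.reverse_cons] at this
  have hq : 1 ≤ cq x := Nat.le_of_ble_eq_true h2
  have hc : 1 ≤ cc x := Nat.le_of_ble_eq_true h3
  have hks : ksum d (cq x) (cc x) ≤ w := Nat.le_of_ble_eq_true h1
  have hc' : cc x ≤ 1023 := by
    unfold cc
    exact Nat.and_le_right
  -- the remaining program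
  set P1 : Bool := Nat.beq (Nat.land a 1) 1 with hP1
  set P2 : Bool := Nat.beq (Nat.land (Nat.shiftRight a 1) 1) 1 with hP2
  have hR : Det (fun k' : ℕ × List ℕ × Tr × Bt → Bool =>
      disp i (Nat.div d (Nat.sub (Nat.add (cq x) (cc x)) 1)) (Nat.sub w (ksum d (cq x) (cc x))) T F
        (fun T1 F1 => cols d w P1 P2 (cc x) C (Nat.succ (Nat.div d (cq x))) 1
          (Nat.div d (Nat.mul (cq x) (Nat.succ (cq x)))) (cq x) (cc x)
          (Nat.sub w (ksum d (cq x) (cc x))) 0 0 0 (List.cons x List.nil) I2 T1 F1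
          (fun U' I' T' F' => k' (U', I', T', F')))) (Up4 T F) := by
    refine Det.bind2 (disp_det _ _ _ T F) (fun T1 F1 h1 => ?_)
    exact (cols_det _ _ _ _ _ _ _ _ _ _ _ _ _ _ _ _ _ T1 F1).mono (fun a ha => Up.trans h1 ha)
  obtain ⟨z, hTF, hk, hdet⟩ := hR.get
    (k := fun z : ℕ × List ℕ × Tr × Bt =>
      br (Nat.ble z.1 l) (k (Nat.sub l z.1) Q1 z.2.1 z.2.2.1 z.2.2.2) false) g7
  obtain ⟨U, I3, T2, F2⟩ := z
  obtain ⟨hT, hF⟩ := hTF
  have hT' : T.ms ≤ T2.ms := hT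
  have hF' : F2.ms ≤ F.ms := hF
  obtain ⟨hUl', hk'⟩ := br_false hk
  have hUl : U ≤ l := Nat.le_of_ble_eq_true hUl'
  obtain ⟨A, hA⟩ := Multiset.le_iff_exists_add.1 hT'
  obtain ⟨L, hL⟩ := Multiset.le_iff_exists_add.1 hF'
  refine ⟨Qc, Q1, I3, l - U, T2, F2, A, L, hQ, by rw [hA, add_comm], by rw [hL, add_comm], hk', ?_⟩
  intro e he
  apply Trans.of_disp
  intro aw b hab
  obtain ⟨ha1, ha2, hb1, hb2⟩ := hab
  simp only at ha1 ha2 hb1 hb2
  classical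
  have hrun := hdet (fun z => decide (z = (U, I3, T2, F2)))
  simp only [decide_true] at hrun
  -- real data of the last column
  have hkb := ksum_bounds hd hq (cc x)
  have hch : ch (cq x) (cc x) ≤ aw := by
    have h5 : (ksum d (cq x) (cc x) : ℝ) ≤ w := by exact_mod_cast hks
    have h6 : ch (cq x) (cc x) * 2 ^ 112 ≤ aw * 2 ^ 112 := by linarith [hkb.1]
    exact le_of_mul_le_mul_right h6 (by positivity)
  have happ : App (e + 2 * Qc.length + 2048)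
      (Nat.div d (Nat.sub (Nat.add (cq x) (cc x)) 1), Nat.sub w (ksum d (cq x) (cc x)))
      (1 / ((cq x + cc x - 1 : ℕ) : ℝ), aw - ch (cq x) (cc x)) := by
    have h6 : 1 ≤ cq x + cc x - 1 := by omega
    have h7 := blk_div_lo (a := cq x + cc x - 1) hd
    have h8 := blk_div_hi hd h6
    have h9 : ((w - ksum d (cq x) (cc x) : ℕ) : ℝ) = (w : ℝ) - ksum d (cq x) (cc x) :=
      Nat.cast_sub hks
    have h10 : (cc x : ℝ) ≤ 1023 := by exact_mod_cast hc'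
    have h11 : (0 : ℝ) ≤ ((e + 2 * Qc.length : ℕ) : ℝ) := Nat.cast_nonneg _
    have h12 : (e : ℝ) ≤ ((e + 2 * Qc.length : ℕ) : ℝ) := by
      exact_mod_cast Nat.le_add_right _ _
    have h13 : ((e + 2 * Qc.length + 2048 : ℕ) : ℝ) = ((e + 2 * Qc.length : ℕ) : ℝ) + 2048 := by
      rw [Nat.cast_add (e + 2 * Qc.length) 2048]
      norm_num
    refine ⟨h7, ?_, ?_, ?_⟩
    · show 1 / ((cq x + cc x - 1 : ℕ) : ℝ) * 2 ^ 112 ≤
        ((d / (cq x + cc x - 1) : ℕ) : ℝ) + ((e + 2 * Qc.length + 2048 : ℕ) : ℝ)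
      rw [h13]
      linarith
    · show ((w - ksum d (cq x) (cc x) : ℕ) : ℝ) ≤ (aw - ch (cq x) (cc x)) * 2 ^ 112
      rw [h9]
      linarith [hkb.1]
    · show (aw - ch (cq x) (cc x)) * 2 ^ 112 ≤
        ((w - ksum d (cq x) (cc x) : ℕ) : ℝ) + ((e + 2 * Qc.length + 2048 : ℕ) : ℝ)
      rw [h9, h13]
      linarith [hkb.2]
  obtain ⟨T1, F1, A1, L1, hT1, hF1, hD1, hrun⟩ := disp_sound hrun happ he
  have hlen' : C.length + 1 = Qc.length := by
    rw [hQc, List.length_append, List.length_reverse, List.length_singleton]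
  have hsrt : Srt [x] := ⟨List.pairwise_singleton _ _, by
    intro y hy
    rw [List.mem_singleton] at hy
    rw [hy]
    exact ⟨hq, hc⟩⟩
  have hgap : ((w - ksum d (cq x) (cc x) : ℕ) : ℝ) = (w : ℝ) - ksum d (cq x) (cc x) :=
    Nat.cast_sub hks
  have hinv : CInv w e aw (cc x) 1 (Nat.div d (Nat.mul (cq x) (Nat.succ (cq x)))) (cq x) (cc x)
      (Nat.sub w (ksum d (cq x) (cc x))) 0 0 0 [x] := by
    have h6 : 1 ≤ cq x * (cq x + 1) := Nat.mul_pos hq (by omega)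
    have h7 := blk_div_lo (a := cq x * (cq x + 1)) hd
    have h8 := blk_div_hi hd h6
    have hlY : lY [x] = 1 / ((cq x * (cq x + 1) : ℕ) : ℝ) := by
      unfold lY
      simp only [List.map_cons, List.map_nil, List.sum_cons, List.sum_nil, add_zero]
      push_cast
      rfl
    refine ⟨hsrt, ⟨x, [], rfl, rfl, rfl⟩, ?_, rfl, ?_, ?_, ?_, ?_, ?_, ?_, ?_⟩
    · intro y hy
      rw [List.mem_singleton] at hy
      rw [hy]
    · intro y hy
      rw [List.mem_singleton] at hy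
      rw [hy]
      exact hch
    · rw [hlY]
      exact h7
    · rw [hlY]
      show 1 / ((cq x * (cq x + 1) : ℕ) : ℝ) * 2 ^ 112 ≤
        ((d / (cq x * (cq x + 1)) : ℕ) : ℝ) + ((1 : ℕ) : ℝ)
      rw [Nat.cast_one]
      exact h8
    · show ((w - ksum d (cq x) (cc x) : ℕ) : ℝ) ≤ (aw - ch (cq x) (cc x)) * 2 ^ 112
      rw [hgap]
      linarith [hkb.1]
    · show (aw - ch (cq x) (cc x)) * 2 ^ 112 ≤
        ((w - ksum d (cq x) (cc x) : ℕ) : ℝ) + (e : ℝ) + (cc x : ℝ) + 3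
      rw [hgap]
      linarith [hkb.2]
    · intro _
      exact ⟨rfl, rfl⟩
    · intro h
      exact absurd rfl h
  have hlX : lX 0 [x] = 1 / (cq x : ℝ) := by
    unfold lX
    simp
  have hU1 : lX 0 [x] * 2 ^ 112 ≤ (Nat.succ (Nat.div d (cq x)) : ℕ) := by
    have h8 := blk_div_hi hd hq
    rw [hlX]
    show 1 / (cq x : ℝ) * 2 ^ 112 ≤ ((d / cq x + 1 : ℕ) : ℝ)
    rw [Nat.cast_add, Nat.cast_one]
    exact h8
  have hU2 : ((Nat.succ (Nat.div d (cq x)) : ℕ) : ℝ) ≤ lX 0 [x] * 2 ^ 112 + ((1 : ℕ) : ℝ) := by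
    have h8 := blk_div_lo (a := cq x) hd
    rw [hlX]
    show ((d / cq x + 1 : ℕ) : ℝ) ≤ 1 / (cq x : ℝ) * 2 ^ 112 + ((1 : ℕ) : ℝ)
    rw [Nat.cast_add, Nat.cast_one]
    linarith
  obtain ⟨x0, S', U', I', T', F', A2, L2, ρ, hCS, hsrt', hht, hl1, hl2, hbody, hT2, hF2, hkk, hD2⟩ :=
    cols_sound (e' := e + 2 * Qc.length + 2048) hd ⟨ha1, ha2⟩ hc' he C _ 1 _ _ _ _ 0 0 0 [x] I2 T1 F1
      (fun U' I' T' F' => decide ((U', I', T', F') = (U, I3, T2, F2))) hinv hU1 hU2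
      (by rw [List.length_singleton]; omega) hrun
  have heq := of_decide_eq_true hkk
  simp only [Prod.mk.injEq] at heq
  obtain ⟨rfl, rfl, rfl, rfl⟩ := heq
  have hQ0 : Qc = x0 :: S' := by rw [hQc, hCS]
  have hA' : A = A2 + A1 := by
    have h5 : T.ms + A = T.ms + (A2 + A1) := by
      rw [← hA, hT2, hT1]
      abel
    exact add_left_cancel h5
  have hL' : L = L2 + L1 := by
    have h5 : T'.ms = T'.ms := rfl
    have h6 : F'.ms + L = F'.ms + (L2 + L1) := by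
      rw [← hL, hF1, hF2]
      abel
    exact add_left_cancel h6
  have hlast : ∀ y, (x0 :: S').getLast? = some y → cc y = cc x := by
    intro y hy
    rw [← hQ0, hQc, List.getLast?_append] at hy
    simp at hy
    rw [hy]
  have hlb : lX 0 (x0 :: S') ≤ b := by
    have h5 : (U' : ℝ) ≤ l := by exact_mod_cast hUl
    have h6 : lX 0 (x0 :: S') * 2 ^ 112 ≤ b * 2 ^ 112 := by linarith
    exact le_of_mul_le_mul_right h6 (by positivity)
  refine ⟨aw, b - lX 0 (x0 :: S'), body aw (cc x) (x0 :: S') +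
    lgM aw (cc x) (cq x0) (cc x0) (x0 :: S'), ?_, ?_, ?_⟩
  · have h5 : ((l - U' : ℕ) : ℝ) = (l : ℝ) - U' := Nat.cast_sub hUl
    have h6 : ((x0 :: S').length : ℝ) = (Qc.length : ℝ) := by rw [hQ0]
    have h7 : (0 : ℝ) ≤ (Qc.length : ℝ) := Nat.cast_nonneg _
    refine ⟨ha1, ?_, ?_, ?_⟩
    · show aw * 2 ^ 112 ≤ (w : ℝ) + ((e + 2 * Qc.length + 2048 : ℕ) : ℝ)
      push_cast
      linarith
    · show ((l - U' : ℕ) : ℝ) ≤ (b - lX 0 (x0 :: S')) * 2 ^ 112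
      rw [h5]
      linarith
    · show (b - lX 0 (x0 :: S')) * 2 ^ 112 ≤ ((l - U' : ℕ) : ℝ) + ((e + 2 * Qc.length + 2048 : ℕ) : ℝ)
      rw [h5]
      push_cast
      rw [h6] at hl2
      linarith
  · rw [hQ0]
    exact block_ref hsrt' hlast hht hlb
  · rw [hbody, hA', hL']
    exact hD2.add hD1

/-- A block. -/
theorem block_sound {d w l e : ℕ} {Q I : List ℕ} {T : Tr} {F : Bt}
    {k : ℕ → List ℕ → List ℕ → Tr → Bt → Bool} (hd : d = 2 ^ 112)
    (h : block d w l Q I T F k = true) :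
    ∃ (Qc Q' I' : List ℕ) (l' : ℕ) (T' : Tr) (F' : Bt) (A : Multiset (ℕ × ℕ)) (L : Multiset ℕ),
      Q = Qc ++ Q' ∧ T'.ms = A + T.ms ∧ F.ms = L + F'.ms ∧ k l' Q' I' T' F' = true ∧
      (e + 2 * Qc.length + 2048 ≤ 2 ^ 34 →
        Trans e (e + 2 * Qc.length + 2048) {(w, l)} (csq Qc) ({(w, l')} + A) 0 L) := by
  obtain ⟨Qc, Q', I', l', T', F', A, L, h1, h2, h3, h4, h5⟩ := block_sound_all hd h
  exact ⟨Qc, Q', I', l', T', F', A, L, h1, h2, h3, h4, h5 e⟩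

end Pool.Agent.Moser.Ck
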