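import Pool.Agent.Lib_MP_cc07e8_ck.CkTok

/-! # MP_cc07e8_co: soundness of a whole geometry module (piece CHECK) -/

open Finset

namespace Pool.Agent.Moser.Ck

theorem csq_nil : csq [] = 0 := rfl

theorem csq_append (L L' : List ℕ) : csq (L ++ L') = csq L + csq L' := by
  unfold csq
  rw [List.map_append, List.sum_append]

theorem Ico_val_add {a b c : ℕ} (h1 : a ≤ b) (h2 : b ≤ c) :
    (Ico a b).val + (Ico b c).val = (Ico a c).val := by
  have h : Disjoint (Ico a b) (Ico b c) := Ico_disjoint_Ico_consecutive a b c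
  have h3 := Finset.disjUnion_val (Ico a b) (Ico b c) h
  rw [← h3]
  congr 1
  ext x
  simp only [Finset.mem_disjUnion, mem_Ico]
  omega

theorem Rl.refl (S : St) : Rl 0 S S := by
  refine ⟨le_rfl, 0, 0, 0, [], [], [], rfl, rfl, rfl, ?_, ?_, ?_, ?_⟩
  · rw [zero_add]
  · rw [zero_add]
  · rw [Finset.Ico_self]; rfl
  · intro e e' h _
    have h1 : S.rc + (([].map unp : List (ℕ × ℕ)) : Multiset (ℕ × ℕ)) = S.rc := by
      simp
    rw [h1]
    exact Trans.refl (by simp at h; omega)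

theorem Rl.trans {n n' : ℕ} {S S' S'' : St} (h : Rl n S S') (h' : Rl n' S' S'') : Rl (n + n') S S'' := by
  obtain ⟨hm, Sq, R, F, Qc, Kc, Xc, hQ, hK, hX, hB, hF, hS, hT⟩ := h
  obtain ⟨hm', Sq', R', F', Qc', Kc', Xc', hQ', hK', hX', hB', hF', hS', hT'⟩ := h'
  refine ⟨hm.trans hm', Sq + Sq', R + R', F + F', Qc ++ Qc', Kc ++ Kc', Xc ++ Xc', ?_, ?_, ?_, ?_, ?_,
    ?_, ?_⟩
  · rw [hQ, hQ', List.append_assoc]
  · rw [hK, hK', List.append_assoc]
  · rw [hX, hX', List.append_assoc]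
  · rw [hB, hB', add_assoc]
  · rw [hF, hF', add_assoc]
  · rw [csq_append, csq_append, ← Ico_val_add hm hm']
    calc Sq + Sq' + (csq Kc + csq Kc') = (Sq + csq Kc) + (Sq' + csq Kc') := by abel
      _ = ((Ico S.m S'.m).val + csq Qc) + ((Ico S'.m S''.m).val + csq Qc') := by rw [hS, hS']
      _ = _ := by abel
  · intro e e' h1 h2
    rw [List.length_append] at h1
    have h3 := hT e (e + (S'.m - S.m) + 4096 * n + 2 * Qc.length) le_rfl (by omega)
    have h4 := hT' (e + (S'.m - S.m) + 4096 * n + 2 * Qc.length) e' (by omega) h2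
    have h5 := h4.frame (by omega) ((Xc.map unp : List (ℕ × ℕ)) : Multiset (ℕ × ℕ))
    have h6 := h3.comp h5
    have h7 : S''.rc + (((Xc ++ Xc').map unp : List (ℕ × ℕ)) : Multiset (ℕ × ℕ)) =
        S''.rc + ((Xc'.map unp : List (ℕ × ℕ)) : Multiset (ℕ × ℕ)) +
          ((Xc.map unp : List (ℕ × ℕ)) : Multiset (ℕ × ℕ)) := by
      rw [List.map_append, ← Multiset.coe_add]
      abel
    rw [h7]
    exact h6

theorem step_sound {d c : ℕ} {S : St} {k : St → Bool} (hd : d = 2 ^ 112) (hm : 1 ≤ S.m)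
    (h : step d c S k = true) : ∃ S', k S' = true ∧ Rl 1 S S' := by
  cases S with
  | no m T B F s =>
    rcases tok0_sound (d := d) (kd := Nat.land c 15) (t := Nat.land (Nat.shiftRight c 4) 16383)
      (key := Nat.land (Nat.shiftRight c 18) 1023) (m := m) (T := T) (B := B) (F := F) (s := s)
      (k0 := fun m T B F s => k (St.no m T B F s))
      (k1 := fun w l m T B F s => k (St.cu w l m T B F s)) hd hm h with
      ⟨m', T', B', F', s', h1, h2⟩ | ⟨w, l, m', T', B', F', s', h1, h2⟩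
    · exact ⟨_, h1, h2⟩
    · exact ⟨_, h1, h2⟩
  | cu w l m T B F s =>
    rcases tok1_sound (d := d) (kd := Nat.land c 15) (t := Nat.land (Nat.shiftRight c 4) 16383)
      (key := Nat.land (Nat.shiftRight c 18) 1023) (w := w) (l := l) (m := m) (T := T) (B := B)
      (F := F) (s := s) (k0 := fun m T B F s => k (St.no m T B F s))
      (k1 := fun w l m T B F s => k (St.cu w l m T B F s)) hd hm h with
      ⟨m', T', B', F', s', h1, h2⟩ | ⟨w', l', m', T', B', F', s', h1, h2⟩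
    · exact ⟨_, h1, h2⟩
    · exact ⟨_, h1, h2⟩

theorem chunk_sound {d : ℕ} (hd : d = 2 ^ 112) (n : ℕ) : ∀ (c : ℕ) (S : St) (k : St → Bool),
    1 ≤ S.m → chunk d n c S k = true → ∃ S', k S' = true ∧ Rl n S S' := by
  induction n with
  | zero =>
    intro c S k _ h
    exact ⟨S, h, Rl.refl S⟩
  | succ n ih =>
    intro c S k hm h
    obtain ⟨S1, h1, h2⟩ := step_sound (k := fun S' => chunk d n (Nat.shiftRight c 28) S' k) hd hm h
    obtain ⟨S2, h3, h4⟩ := ih _ S1 k (hm.trans h2.1) h1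
    refine ⟨S2, h3, ?_⟩
    have := h2.trans h4
    rwa [add_comm] at this

theorem fm_sound {S : St} {k : St → Bool} (h : St.fm S k = true) : k S = true := by
  cases S with
  | no m T B F s =>
    have h1 : force m (fun m' => k (St.no m' T B F s)) = true := h
    rwa [force_eq] at h1
  | cu w l m T B F s =>
    have h1 : force m (fun m' => k (St.cu w l m' T B F s)) = true := h
    rwa [force_eq] at h1

/-- piece CHECK -/
theorem prog_sound {d : ℕ} (hd : d = 2 ^ 112) : ∀ (l : List ℕ) (S : St) (k : St → Bool), 1 ≤ S.m →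
    prog d l S k = true → ∃ S', k S' = true ∧ Rl (64 * l.length) S S' := by
  intro l
  induction l with
  | nil =>
    intro S k _ h
    exact ⟨S, h, Rl.refl S⟩
  | cons c r ih =>
    intro S k hm h
    obtain ⟨S1, h1, h2⟩ := chunk_sound hd 64 c S (fun S' => St.fm S' (fun S'' => prog d r S'' k)) hm h
    have h3 : prog d r S1 k = true := fm_sound (k := fun S'' => prog d r S'' k) h1
    obtain ⟨S2, h4, h5⟩ := ih S1 k (hm.trans h2.1) h3
    refine ⟨S2, h4, ?_⟩
    have := h2.trans h5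
    rwa [show 64 + 64 * r.length = 64 * (c :: r).length by rw [List.length_cons]; ring] at this

/-- piece CHECK -/
theorem check_sound {d dep : ℕ} {toks : List ℕ} {m0 m1 : ℕ} {imp exp : List ℕ} {B F : Bt}
    {Q K I : List ℕ} (hd : d = 2 ^ 112) (hm : 1 ≤ m0)
    (h : check d dep toks m0 m1 imp exp B F Q K I = true) :
    m0 ≤ m1 ∧ ∃ Sq : Multiset ℕ, Sq + csq K = (Ico m0 m1).val + csq Q ∧
      ∀ e e' : ℕ, e + (m1 - m0) + 4096 * (64 * toks.length) + 2 * Q.length ≤ e' → e' ≤ 2 ^ 34 →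
        Trans e e' ((imp.map unp : List (ℕ × ℕ)) : Multiset (ℕ × ℕ)) Sq
          ((exp.map unp : List (ℕ × ℕ)) : Multiset (ℕ × ℕ)) B.ms F.ms := by
  unfold check at h
  obtain ⟨T, hT, h1⟩ := load_sound h
  rw [Tr.full_ms, add_zero] at hT
  obtain ⟨S, h2, h3⟩ := prog_sound hd toks (St.no m0 T B F (Sm.mk Q K I exp)) _ hm h1
  cases S with
  | cu w l m T B F s => exact absurd h2 (by simp)
  | no m T1 B1 F1 s =>
    obtain ⟨Q1, K1, I1, X1⟩ := s
    obtain ⟨a1, h2⟩ := br_false h2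
    obtain ⟨a2, h2⟩ := br_false h2
    obtain ⟨a3, h2⟩ := br_false h2
    obtain ⟨a4, h2⟩ := br_false h2
    obtain ⟨a5, h2⟩ := br_false h2
    obtain ⟨a6, h2⟩ := br_false h2
    obtain ⟨a7, a8⟩ := br_false h2
    have b1 : m = m1 := Nat.eq_of_beq_eq_true a1
    have b2 := Tr.empty_sound a2
    have b3 := Bt.empty_sound a3
    have b4 := Bt.empty_sound a4
    have b5 := nl_sound a5
    have b6 := nl_sound a6
    have b8 := nl_sound a8
    obtain ⟨hmm, Sq, R, FF, Qc, Kc, Xc, hQ, hK, hX, hB, hF, hS, hTr⟩ := h3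
    simp only [St.m, St.s, St.B, St.F, St.rc, Sm.Q, Sm.K, Sm.X] at hmm hQ hK hX hB hF hS hTr
    subst b1 b5 b6 b8
    rw [List.append_nil] at hQ hK hX
    subst hQ hK hX
    rw [b3, add_zero] at hB
    rw [b4, add_zero] at hF
    refine ⟨hmm, Sq, hS, fun e e' h4 h5 => ?_⟩
    have h6 := hTr e e' h4 h5
    rw [b2, zero_add, hT] at h6
    rw [hB, hF]
    exact h6

end Pool.Agent.Moser.Ck
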