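import Pool.Agent.Lib_MP_cc07e8_ck.CkSem

/-! # MP_cc07e8_co: sums of reciprocals (piece HS) -/

open Finset

namespace Pool.Agent.Moser.Ck

theorem hs_lsum_succ (d m k : ℕ) : lsum d m (k + 1) = lsum d m k + (d / (m + k) + 1) := rfl

theorem hs_ch_succ (m k : ℕ) : ch m (k + 1) = ch m k + 1 / ((m + k : ℕ) : ℝ) := by
  simp [ch, Finset.sum_range_succ]

/-- Term by term: `lsum` adds `d / (m + n) + 1`. -/
theorem lsum_bounds {d m : ℕ} (hd : d = 2 ^ 112) (hm : 1 ≤ m) (k : ℕ) :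
    (2 : ℝ) ^ 112 * ch m k ≤ lsum d m k ∧ (lsum d m k : ℝ) ≤ 2 ^ 112 * ch m k + k := by
  have hdR : (d : ℝ) = 2 ^ 112 := by rw [hd]; norm_num
  induction k with
  | zero => simp [ch, lsum]
  | succ k ih =>
    obtain ⟨ih1, ih2⟩ := ih
    rw [hs_ch_succ, hs_lsum_succ]
    have hpos0 : 0 < m + k := by omega
    have hpos : (0 : ℝ) < ((m + k : ℕ) : ℝ) := by
      exact_mod_cast hpos0
    have h1 : ((d / (m + k) : ℕ) : ℝ) ≤ (d : ℝ) / ((m + k : ℕ) : ℝ) := Nat.cast_div_le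
    have h2 : (d : ℝ) / ((m + k : ℕ) : ℝ) < ((d / (m + k) : ℕ) : ℝ) + 1 := by
      rw [div_lt_iff₀ hpos]
      have h3 := Nat.div_add_mod d (m + k)
      have h4 := Nat.mod_lt d hpos0
      have h5 : d < (d / (m + k) + 1) * (m + k) := by nlinarith
      exact_mod_cast h5
    rw [hdR] at h1 h2
    have h3 : (2 : ℝ) ^ 112 * (1 / ((m + k : ℕ) : ℝ)) = 2 ^ 112 / ((m + k : ℕ) : ℝ) := by ring
    rw [mul_add, h3]
    push_cast at h1 h2 ih1 ih2 ⊢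
    constructor <;> linarith

/-- the symmetric sum -/
noncomputable def hsW (C : ℝ) (k : ℕ) : ℝ := ∑ t ∈ range k, 2 / (C + (2 * (t : ℝ) + 1 - k))

/-- the value of the series -/
noncomputable def hsV (C K : ℝ) : ℝ :=
  2 * K / (105 * C ^ 7) * (105 * C ^ 6 + 35 * (K ^ 2 - 1) * C ^ 4 +
    7 * (K ^ 2 - 1) * (3 * K ^ 2 - 7) * C ^ 2 + 5 * (K ^ 2 - 1) * (3 * K ^ 4 - 18 * K ^ 2 + 31))

theorem hsW_succ2 (C : ℝ) (k : ℕ) :
    hsW C (k + 2) = 2 / (C - (k + 1)) + hsW C k + 2 / (C + (k + 1)) := by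
  unfold hsW
  rw [Finset.sum_range_succ, Finset.sum_range_succ']
  have h1 : ∀ t ∈ range k, (2 : ℝ) / (C + (2 * ((t + 1 : ℕ) : ℝ) + 1 - ((k + 2 : ℕ) : ℝ))) =
      2 / (C + (2 * (t : ℝ) + 1 - k)) := by
    intro t _
    push_cast
    congr 1
    ring
  rw [Finset.sum_congr rfl h1]
  have h2 : (C + (2 * ((0 : ℕ) : ℝ) + 1 - ((k + 2 : ℕ) : ℝ))) = C - (k + 1) := by push_cast; ring
  have h3 : (C + (2 * ((k + 1 : ℕ) : ℝ) + 1 - ((k + 2 : ℕ) : ℝ))) = C + (k + 1) := by push_cast; ring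
  rw [h2, h3]
  ring

theorem hsV_succ2 {C : ℝ} (hC : 0 < C) (K : ℝ) :
    hsV C (K + 2) = hsV C K +
      4 / C ^ 7 * (C ^ 6 + (K + 1) ^ 2 * C ^ 4 + (K + 1) ^ 4 * C ^ 2 + (K + 1) ^ 6) := by
  unfold hsV
  field_simp
  ring

theorem hsW_bounds {C : ℝ} (hC : 0 < C) : ∀ k : ℕ, 2 * (k : ℝ) ≤ C →
    hsV C k ≤ hsW C k ∧ hsW C k ≤ hsV C k + 4 * (k : ℝ) ^ 9 / C ^ 9
  | 0, _ => by simp [hsW, hsV]
  | 1, h => by
    have h1 : hsW C 1 = 2 / C := by simp [hsW]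
    have h2 : hsV C ((1 : ℕ) : ℝ) = 2 / C := by
      unfold hsV
      push_cast
      field_simp
      ring
    rw [h1, h2]
    have : 0 < C ^ 9 := by positivity
    constructor
    · exact le_refl _
    · have : 0 ≤ 4 * (((1 : ℕ) : ℝ)) ^ 9 / C ^ 9 := by positivity
      linarith
  | k + 2, h => by
    have hk : 2 * (k : ℝ) ≤ C := by push_cast at h; linarith
    obtain ⟨ih1, ih2⟩ := hsW_bounds hC k hk
    have hcast : ((k + 2 : ℕ) : ℝ) = (k : ℝ) + 2 := by push_cast; ring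
    rw [hsW_succ2, hcast, hsV_succ2 hC]
    have hk0 : (0 : ℝ) ≤ k := Nat.cast_nonneg k
    set K : ℝ := (k : ℝ) with hK
    have hlt : 2 * (K + 2) ≤ C := by rw [hcast] at h; exact h
    have hC1 : 0 < C - (K + 1) := by linarith
    have hC2 : 0 < C + (K + 1) := by linarith
    have e1 : 2 / (C - (K + 1)) + 2 / (C + (K + 1)) = 4 * C / (C ^ 2 - (K + 1) ^ 2) := by
      have h3 : C ^ 2 - (K + 1) ^ 2 = (C - (K + 1)) * (C + (K + 1)) := by ring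
      rw [h3]
      field_simp
      ring
    have hD : 0 < C ^ 2 - (K + 1) ^ 2 := by nlinarith
    have e2 : 4 * C / (C ^ 2 - (K + 1) ^ 2) =
        4 / C ^ 7 * (C ^ 6 + (K + 1) ^ 2 * C ^ 4 + (K + 1) ^ 4 * C ^ 2 + (K + 1) ^ 6) +
          4 * (K + 1) ^ 8 / (C ^ 7 * (C ^ 2 - (K + 1) ^ 2)) := by
      field_simp
      ring
    have hp : 0 ≤ 4 * (K + 1) ^ 8 / (C ^ 7 * (C ^ 2 - (K + 1) ^ 2)) := by positivity
    have hu : 4 * (K + 1) ^ 8 / (C ^ 7 * (C ^ 2 - (K + 1) ^ 2)) ≤ 8 * (K + 1) ^ 8 / C ^ 9 := by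
      rw [div_le_div_iff₀ (by positivity) (by positivity)]
      have h4 : C ^ 2 ≤ 2 * (C ^ 2 - (K + 1) ^ 2) := by nlinarith
      have h5 : 0 ≤ 4 * (K + 1) ^ 8 * C ^ 7 := by positivity
      calc 4 * (K + 1) ^ 8 * C ^ 9 = (4 * (K + 1) ^ 8 * C ^ 7) * C ^ 2 := by ring
        _ ≤ (4 * (K + 1) ^ 8 * C ^ 7) * (2 * (C ^ 2 - (K + 1) ^ 2)) :=
            mul_le_mul_of_nonneg_left h4 h5
        _ = 8 * (K + 1) ^ 8 * (C ^ 7 * (C ^ 2 - (K + 1) ^ 2)) := by ring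
    have hv : 4 * K ^ 9 / C ^ 9 + 8 * (K + 1) ^ 8 / C ^ 9 ≤ 4 * (K + 2) ^ 9 / C ^ 9 := by
      rw [← add_div]
      apply div_le_div_of_nonneg_right _ (by positivity)
      have h6 : 4 * (K + 2) ^ 9 - (4 * K ^ 9 + 8 * (K + 1) ^ 8) = 64 * K ^ 8 + 512 * K ^ 7 + 2464 * K ^ 6
          + 7616 * K ^ 5 + 15568 * K ^ 4 + 21056 * K ^ 3 + 18208 * K ^ 2 + 9152 * K + 2040 := by
        ring
      have h7 : 0 ≤ 64 * K ^ 8 + 512 * K ^ 7 + 2464 * K ^ 6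
          + 7616 * K ^ 5 + 15568 * K ^ 4 + 21056 * K ^ 3 + 18208 * K ^ 2 + 9152 * K + 2040 := by
        positivity
      linarith
    constructor
    · linarith
    · linarith

theorem ch_eq_hsW {m k : ℕ} (hm : 1 ≤ m) : ch m k = hsW (2 * m + k - 1) k := by
  unfold ch hsW
  apply Finset.sum_congr rfl
  intro t _
  have h1 : (2 * (m : ℝ) + k - 1 + (2 * (t : ℝ) + 1 - k)) = 2 * ((m + t : ℕ) : ℝ) := by
    push_cast; ring
  rw [h1]
  have h2 : (0 : ℝ) < ((m + t : ℕ) : ℝ) := by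
    have : 0 < m + t := by omega
    exact_mod_cast this
  field_simp

/-- the numerator of `hs` without the factor `2 d k` -/
def hsN (C2 K2 K1 : ℕ) : ℕ :=
  (((105 * C2 + 35 * K1) * C2 + 7 * K1 * (3 * K2 - 7)) * C2 + 5 * K1 * (3 * (K2 * K2) + 31 - 18 * K2))

theorem hs_eq (d m k : ℕ) : hs d m k =
    2 * (d * k) * hsN ((2 * m + k - 1) * (2 * m + k - 1)) (k * k) (k * k - 1) /
      (105 * (2 * m + k - 1) * ((2 * m + k - 1) * (2 * m + k - 1) *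
        ((2 * m + k - 1) * (2 * m + k - 1) * ((2 * m + k - 1) * (2 * m + k - 1))))) := rfl

theorem hsN_cast (C : ℕ) {k : ℕ} (hk : 1 ≤ k) : (hsN (C * C) (k * k) (k * k - 1) : ℝ) =
    105 * (C : ℝ) ^ 6 + 35 * ((k : ℝ) ^ 2 - 1) * (C : ℝ) ^ 4 +
    7 * ((k : ℝ) ^ 2 - 1) * (3 * (k : ℝ) ^ 2 - 7) * (C : ℝ) ^ 2 +
      5 * ((k : ℝ) ^ 2 - 1) * (3 * (k : ℝ) ^ 4 - 18 * (k : ℝ) ^ 2 + 31) := by
  have h1 : ((k * k - 1 : ℕ) : ℝ) = (k : ℝ) ^ 2 - 1 := by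
    have : 1 ≤ k * k := Nat.one_le_iff_ne_zero.mpr (by positivity)
    rw [Nat.cast_sub this]; push_cast; ring
  have h2 : ((3 * (k * k * (k * k)) + 31 - 18 * (k * k) : ℕ) : ℝ) =
      3 * (k : ℝ) ^ 4 - 18 * (k : ℝ) ^ 2 + 31 := by
    have : 18 * (k * k) ≤ 3 * (k * k * (k * k)) + 31 := by
      zify
      nlinarith [sq_nonneg ((k : ℤ) * k - 3)]
    rw [Nat.cast_sub this]; push_cast; ring
  have h3 : ((7 * (k * k - 1) * (3 * (k * k) - 7) : ℕ) : ℝ) =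
      7 * ((k : ℝ) ^ 2 - 1) * (3 * (k : ℝ) ^ 2 - 7) := by
    rcases Nat.lt_or_ge k 2 with h | h
    · have : k = 1 := by omega
      subst this
      norm_num
    · have : 7 ≤ 3 * (k * k) := by nlinarith
      rw [Nat.cast_mul, Nat.cast_mul, h1, Nat.cast_sub this]
      push_cast
      ring
  unfold hsN
  rw [Nat.cast_add, Nat.cast_mul, Nat.cast_add, h3, Nat.cast_mul, Nat.cast_mul (5 * (k * k - 1)),
    h2, Nat.cast_mul 5, h1, Nat.cast_add, Nat.cast_mul 35, h1]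
  push_cast
  ring

/-- The midpoint series. With `C = 2 m + k - 1`, `i_t = 2 t + 1 - k`:
`∑ 1 / (m + t) = ∑ 2 / (C + i_t) = ∑ 2 C / (C ^ 2 - i_t ^ 2)` (symmetry `t ↦ k - 1 - t`), and with
`x = i ^ 2 / C ^ 2 ≤ 1 / 2`: `1 + x + x ^ 2 + x ^ 3 ≤ 1 / (1 - x) ≤ 1 + x + x ^ 2 + x ^ 3 + 2 x ^ 4`.
`∑ i ^ 2 = k (k ^ 2 - 1) / 3`, `∑ i ^ 4 = k (k ^ 2 - 1) (3 k ^ 2 - 7) / 15`,
`∑ i ^ 6 = k (k ^ 2 - 1) (3 k ^ 4 - 18 k ^ 2 + 31) / 21`, `∑ i ^ 8 ≤ k ^ 9`. The error of the series is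
at most `4 k ^ 9 / C ^ 9 ≤ 4 / 8192 ^ 9 = 2 ^ (-115)`. -/
theorem hs_bounds {d m k : ℕ} (hd : d = 2 ^ 112) (hm : 1 ≤ m) (hk : 8192 * k ≤ 2 * m + k - 1) :
    (2 : ℝ) ^ 112 * ch m k ≤ hs d m k + 2 ∧ (hs d m k : ℝ) ≤ 2 ^ 112 * ch m k := by
  have hdR : (d : ℝ) = 2 ^ 112 := by rw [hd]; norm_num
  rcases Nat.eq_zero_or_pos k with h0 | hk1
  · subst h0
    have : hs d m 0 = 0 := by
      rw [hs_eq]; simp
    rw [this]
    simp [ch]
  · set Cn : ℕ := 2 * m + k - 1 with hCn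
    have hCn1 : 1 ≤ Cn := by omega
    have hCR : (Cn : ℝ) = 2 * m + k - 1 := by
      have : Cn + 1 = 2 * m + k := by omega
      have h2 : ((Cn + 1 : ℕ) : ℝ) = ((2 * m + k : ℕ) : ℝ) := by rw [this]
      push_cast at h2
      linarith
    have hC : (0 : ℝ) < (Cn : ℝ) := by exact_mod_cast hCn1
    have hkC : 8192 * (k : ℝ) ≤ (Cn : ℝ) := by exact_mod_cast hk
    have hk0 : (0 : ℝ) ≤ k := Nat.cast_nonneg k
    obtain ⟨hb1, hb2⟩ := hsW_bounds hC k (by linarith)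
    rw [hCR, ← ch_eq_hsW hm, ← hCR] at hb1 hb2
    have herr : 4 * (k : ℝ) ^ 9 / (Cn : ℝ) ^ 9 * 2 ^ 112 ≤ 1 := by
      have h9 : (8192 * (k : ℝ)) ^ 9 ≤ (Cn : ℝ) ^ 9 := pow_le_pow_left₀ (by positivity) hkC 9
      have hCp : 0 < (Cn : ℝ) ^ 9 := by positivity
      rw [div_mul_eq_mul_div, div_le_one hCp]
      refine le_trans ?_ h9
      have h10 : 0 ≤ (k : ℝ) ^ 9 := by positivity
      rw [mul_pow]
      nlinarith
    set D : ℕ := 105 * Cn * (Cn * Cn * (Cn * Cn * (Cn * Cn))) with hD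
    set N : ℕ := 2 * (d * k) * hsN (Cn * Cn) (k * k) (k * k - 1) with hN
    have hDpos0 : 0 < D := by positivity
    have hDpos : (0 : ℝ) < (D : ℝ) := by exact_mod_cast hDpos0
    have hDR : (D : ℝ) = 105 * (Cn : ℝ) ^ 7 := by rw [hD]; push_cast; ring
    have hNR : (N : ℝ) / (D : ℝ) = 2 ^ 112 * hsV Cn k := by
      rw [hN, hDR, Nat.cast_mul, hsN_cast Cn hk1]
      unfold hsV
      push_cast
      rw [hdR]
      field_simp
    have hfl : hs d m k = N / D := by rw [hs_eq]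
    have h1 : ((N / D : ℕ) : ℝ) ≤ (N : ℝ) / (D : ℝ) := Nat.cast_div_le
    have h2 : (N : ℝ) / (D : ℝ) < ((N / D : ℕ) : ℝ) + 1 := by
      rw [div_lt_iff₀ hDpos]
      have h3 := Nat.div_add_mod N D
      have h4 := Nat.mod_lt N hDpos0
      have h5 : N < (N / D + 1) * D := by nlinarith
      exact_mod_cast h5
    rw [hfl]
    rw [hNR] at h1 h2
    constructor
    · have := mul_le_mul_of_nonneg_left hb2 (show (0 : ℝ) ≤ 2 ^ 112 by positivity)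
      linarith
    · have := mul_le_mul_of_nonneg_left hb1 (show (0 : ℝ) ≤ 2 ^ 112 by positivity)
      linarith

theorem ksum_bounds {d m : ℕ} (hd : d = 2 ^ 112) (hm : 1 ≤ m) (k : ℕ) :
    (2 : ℝ) ^ 112 * ch m k ≤ ksum d m k ∧ (ksum d m k : ℝ) ≤ 2 ^ 112 * ch m k + k + 3 := by
  have hk0 : (0 : ℝ) ≤ k := Nat.cast_nonneg k
  cases hb : Nat.ble (Nat.mul 8192 k) (Nat.sub (Nat.add (Nat.mul 2 m) k) 1) with
  | false =>
    have he : ksum d m k = lsum d m k := by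
      show Bool.rec (motive := fun _ => ℕ) (lsum d m k) (Nat.add (hs d m k) 2)
        (Nat.ble (Nat.mul 8192 k) (Nat.sub (Nat.add (Nat.mul 2 m) k) 1)) = _
      rw [hb]
    rw [he]
    obtain ⟨h1, h2⟩ := lsum_bounds hd hm k
    constructor <;> linarith
  | true =>
    have he : ksum d m k = hs d m k + 2 := by
      show Bool.rec (motive := fun _ => ℕ) (lsum d m k) (Nat.add (hs d m k) 2)
        (Nat.ble (Nat.mul 8192 k) (Nat.sub (Nat.add (Nat.mul 2 m) k) 1)) = _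
      rw [hb]
    have hle : 8192 * k ≤ 2 * m + k - 1 := Nat.le_of_ble_eq_true hb
    obtain ⟨h1, h2⟩ := hs_bounds hd hm hle
    rw [he]
    push_cast
    constructor <;> linarith

end Pool.Agent.Moser.Ck
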