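import Pool.Agent.Lib_MP_cc07e8_ck.CkPk
import Pool.Agent.Lib_MP_cc07e8_ck.CkBgeo
import Pool.Agent.Lib_MP_cc07e8_ck.CkHs

/-! # MP_cc07e8_co: the columns of a block (piece COLS) -/

open Finset

namespace Pool.Agent.Moser.Ck

theorem cols_nil_eq (d H : ℕ) (P G : Bool) (ck : ℕ) (U nj X qn cn gn Xs ns qs : ℕ) (S I : List ℕ)
    (T : Tr) (F : Bt) (k : ℕ → List ℕ → Tr → Bt → Bool) :
    cols d H P G ck [] U nj X qn cn gn Xs ns qs S I T F k =
      lg d G qn cn gn X nj Xs ns qs S I T F (fun I' T' F' => k U I' T' F') := rfl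

theorem cols_cons_eq (d H : ℕ) (P G : Bool) (ck x : ℕ) (C : List ℕ) (U nj X qn cn gn Xs ns qs : ℕ)
    (S I : List ℕ) (T : Tr) (F : Bt) (k : ℕ → List ℕ → Tr → Bt → Bool) :
    cols d H P G ck (x :: C) U nj X qn cn gn Xs ns qs S I T F k =
      br (Nat.ble (ksum d (cq x) (cc x)) H)
        (br (Nat.ble 1 (cq x)) (br (Nat.ble 1 (cc x)) (br (Nat.ble (cq x) qn) (br (Nat.ble (cc x) cn)
          (hd I (fun i I1 =>
            disp i (d / (cq x + cc x - 1)) (H - ksum d (cq x) (cc x)) T F (fun T1 F1 =>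
              pk d H P ck (cq x) (cc x) qn cn gn X nj Xs ns qs S I1 T1 F1 (fun I2 T2 F2 =>
                br (Nat.beq (cc x) cn)
                  (cols d H P G ck C (U + (d / (cq x) + 1)) (nj + 1)
                    (X + d / (cq x * (cq x + 1))) (cq x) (cc x) (H - ksum d (cq x) (cc x)) Xs ns qs
                    (x :: S) I2 T2 F2 k)
                  (cols d H P G ck C (U + (d / (cq x) + 1)) (nj + 1)
                    (X + d / (cq x * (cq x + 1))) (cq x) (cc x) (H - ksum d (cq x) (cc x)) X nj qn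
                    (x :: S) I2 T2 F2 k)))))
          false) false) false) false) false := rfl

theorem cols_div_bounds {d n : ℕ} (hd : d = 2 ^ 112) (hn : 1 ≤ n) :
    ((d / n : ℕ) : ℝ) ≤ 1 / (n : ℝ) * 2 ^ 112 ∧ 1 / (n : ℝ) * 2 ^ 112 ≤ ((d / n : ℕ) : ℝ) + 1 := by
  have hdR : (d : ℝ) = 2 ^ 112 := by rw [hd]; norm_num
  have hpos : (0 : ℝ) < (n : ℝ) := by exact_mod_cast hn
  have h1 : ((d / n : ℕ) : ℝ) ≤ (d : ℝ) / (n : ℝ) := Nat.cast_div_le
  have h2 : (d : ℝ) / (n : ℝ) < ((d / n : ℕ) : ℝ) + 1 := by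
    rw [div_lt_iff₀ hpos]
    have h3 := Nat.div_add_mod d n
    have h4 := Nat.mod_lt d hn
    have h5 : d < (d / n + 1) * n := by nlinarith
    exact_mod_cast h5
  have h3 : 1 / (n : ℝ) * 2 ^ 112 = d / n := by rw [hdR]; ring
  rw [h3]
  exact ⟨h1, h2.le⟩

theorem cols_lX0_cons (x : ℕ) (S : List ℕ) : lX 0 (x :: S) = 1 / (cq x : ℝ) + lX 0 S := by
  simp [lX]

theorem cols_lY_cons (x : ℕ) (S : List ℕ) :
    lY (x :: S) = 1 / ((cq x : ℝ) * ((cq x : ℝ) + 1)) + lY S := by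
  simp [lY]

/-- one more column: the invariant -/
theorem cols_inv_step {d Hn e ck x nj X qn cn gn Xs ns qs : ℕ} {H : ℝ} {S : List ℕ} (hd : d = 2 ^ 112)
    (hH : (Hn : ℝ) ≤ H * 2 ^ 112 ∧ H * 2 ^ 112 ≤ Hn + e)
    (hI : CInv Hn e H ck nj X qn cn gn Xs ns qs S)
    (hk : ksum d (cq x) (cc x) ≤ Hn) (hq : 1 ≤ cq x) (hc : 1 ≤ cc x) (hqn : cq x ≤ qn) (hcn : cc x ≤ cn) :
    (cc x = cn → CInv Hn e H ck (nj + 1) (X + d / (cq x * (cq x + 1))) (cq x) (cc x)
      (Hn - ksum d (cq x) (cc x)) Xs ns qs (x :: S)) ∧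
    (cc x ≠ cn → CInv Hn e H ck (nj + 1) (X + d / (cq x * (cq x + 1))) (cq x) (cc x)
      (Hn - ksum d (cq x) (cc x)) X nj qn (x :: S)) := by
  obtain ⟨x1, S1, hS, hx1, hx1'⟩ := hI.head
  have hmin : ∀ y ∈ S, qn ≤ cq y ∧ cn ≤ cc y := by
    intro y hy
    rw [hS] at hy
    rcases List.mem_cons.mp hy with rfl | hy
    · exact ⟨hx1.ge, hx1'.ge⟩
    · have := hI.srt.1
      rw [hS, List.pairwise_cons] at this
      have h2 := this.1 y hy
      rw [hx1, hx1'] at h2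
      exact h2
  have hks := ksum_bounds hd hq (cc x)
  have hkR : (ksum d (cq x) (cc x) : ℝ) ≤ Hn := by exact_mod_cast hk
  have hch : ch (cq x) (cc x) ≤ H := by
    have h1 : (2 : ℝ) ^ 112 * ch (cq x) (cc x) ≤ 2 ^ 112 * H := by
      linarith [hks.1, hH.1]
    exact le_of_mul_le_mul_left h1 (by positivity)
  have hsub : ((Hn - ksum d (cq x) (cc x) : ℕ) : ℝ) = (Hn : ℝ) - ksum d (cq x) (cc x) := by
    rw [Nat.cast_sub hk]
  have hdv := cols_div_bounds hd (n := cq x * (cq x + 1)) (by nlinarith)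
  have hdv1 : ((cq x * (cq x + 1) : ℕ) : ℝ) = (cq x : ℝ) * ((cq x : ℝ) + 1) := by push_cast; ring
  rw [hdv1] at hdv
  have hsrt : Srt (x :: S) := by
    refine ⟨List.pairwise_cons.mpr ⟨?_, hI.srt.1⟩, ?_⟩
    · intro y hy
      obtain ⟨h1, h2⟩ := hmin y hy
      exact ⟨hqn.trans h1, hcn.trans h2⟩
    · intro y hy
      rcases List.mem_cons.mp hy with rfl | hy
      · exact ⟨hq, hc⟩
      · exact hI.srt.2 y hy
  have hx1S : x1 ∈ S := by rw [hS]; exact List.mem_cons_self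
  have hlast : ∀ y ∈ x :: S, cc y ≤ ck := by
    intro y hy
    rcases List.mem_cons.mp hy with rfl | hy
    · have := hI.last x1 hx1S
      rw [hx1'] at this
      exact hcn.trans this
    · exact hI.last y hy
  have hht : ∀ y ∈ x :: S, ch (cq y) (cc y) ≤ H := by
    intro y hy
    rcases List.mem_cons.mp hy with rfl | hy
    · exact hch
    · exact hI.ht y hy
  have hXl : ((X + d / (cq x * (cq x + 1)) : ℕ) : ℝ) ≤ lY (x :: S) * 2 ^ 112 := by
    rw [cols_lY_cons, Nat.cast_add, add_mul]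
    linarith [hI.Xl, hdv.1]
  have hXu : lY (x :: S) * 2 ^ 112 ≤ ((X + d / (cq x * (cq x + 1)) : ℕ) : ℝ) + ((nj + 1 : ℕ) : ℝ) := by
    rw [cols_lY_cons, Nat.cast_add, add_mul, Nat.cast_add nj, Nat.cast_one]
    linarith [hI.Xu, hdv.2]
  have hgl : ((Hn - ksum d (cq x) (cc x) : ℕ) : ℝ) ≤ (H - ch (cq x) (cc x)) * 2 ^ 112 := by
    rw [hsub]; linarith [hks.1, hH.1]
  have hgu : (H - ch (cq x) (cc x)) * 2 ^ 112 ≤ ((Hn - ksum d (cq x) (cc x) : ℕ) : ℝ) + e + (cc x : ℝ) + 3 := by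
    rw [hsub]; linarith [hks.2, hH.2]
  have hlen : nj + 1 = (x :: S).length := by simp [hI.len]
  have hqn1 : 1 ≤ qn := by
    have := (hI.srt.2 x1 hx1S).1
    rw [hx1] at this
    exact this
  constructor
  · intro heq
    refine ⟨hsrt, ⟨x, S, rfl, rfl, rfl⟩, hlast, hlen, hht, hXl, hXu, hgl, hgu, ?_, ?_⟩
    · intro h0
      obtain ⟨h1, h2⟩ := hI.st0 h0
      exact ⟨h1, heq.trans h2⟩
    · intro h0
      obtain ⟨h1, A, B, hAB, hA, hB, hB2, h3, h4, h5⟩ := hI.st1 h0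
      refine ⟨by rw [heq]; exact h1, x :: A, B, by rw [hAB]; rfl, ?_, hB, ?_, h3, h4, h5⟩
      · intro y hy
        rcases List.mem_cons.mp hy with rfl | hy
        · rfl
        · rw [hA y hy, heq]
      · intro y hy
        rw [heq]
        exact hB2 y hy
  · intro hne
    have hlt : cc x < cn := lt_of_le_of_ne hcn hne
    refine ⟨hsrt, ⟨x, S, rfl, rfl, rfl⟩, hlast, hlen, hht, hXl, hXu, hgl, hgu, ?_, ?_⟩
    · intro h0
      exfalso
      have := hI.len
      rw [h0, hS] at this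
      simp at this
    · intro _
      refine ⟨?_, [x], S, rfl, ?_, hI.len.symm, ?_, hqn1, hI.Xl, hI.Xu⟩
      · have := hI.last x1 hx1S
        rw [hx1'] at this
        exact lt_of_lt_of_le hlt this
      · intro y hy
        rw [List.mem_singleton.mp hy]
      · intro y hy
        obtain ⟨h1, h2⟩ := hmin y hy
        exact ⟨hlt.trans_le h2, h1⟩

/-- The columns `C` (stack: nearest one first) to the left of the columns `S` treated so far. -/
theorem cols_sound {d Hn e e' ck : ℕ} {H : ℝ} {P G : Bool} (hd : d = 2 ^ 112)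
    (hH : (Hn : ℝ) ≤ H * 2 ^ 112 ∧ H * 2 ^ 112 ≤ Hn + e) (hck : ck ≤ 1023) (he' : e' ≤ 2 ^ 34) :
    ∀ (C : List ℕ) (U nj X qn cn gn Xs ns qs : ℕ) (S I : List ℕ) (T : Tr) (F : Bt)
      (k : ℕ → List ℕ → Tr → Bt → Bool),
      CInv Hn e H ck nj X qn cn gn Xs ns qs S → lX 0 S * 2 ^ 112 ≤ U → (U : ℝ) ≤ lX 0 S * 2 ^ 112 + nj →
      e + 2 * (C.length + S.length) + 2048 ≤ e' →
      cols d Hn P G ck C U nj X qn cn gn Xs ns qs S I T F k = true →
      ∃ (x0 : ℕ) (S' : List ℕ) (U' : ℕ) (I' : List ℕ) (T' : Tr) (F' : Bt) (A : Multiset (ℕ × ℕ))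
        (L : Multiset ℕ) (ρ : Multiset (ℝ × ℝ)),
        C.reverse ++ S = x0 :: S' ∧ Srt (x0 :: S') ∧ (∀ x ∈ x0 :: S', ch (cq x) (cc x) ≤ H) ∧
        lX 0 (x0 :: S') * 2 ^ 112 ≤ U' ∧ (U' : ℝ) ≤ lX 0 (x0 :: S') * 2 ^ 112 + (x0 :: S').length ∧
        body H ck (x0 :: S') + lgM H ck (cq x0) (cc x0) (x0 :: S') = ρ + body H ck S ∧
        T'.ms = A + T.ms ∧ F.ms = L + F'.ms ∧ k U' I' T' F' = true ∧ Disp e' ρ A L := by
  intro C
  induction C with
  | nil =>
    intro U nj X qn cn gn Xs ns qs S I T F k hI hU1 hU2 he h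
    rw [cols_nil_eq] at h
    obtain ⟨x1, S1, hS, hx1, hx1'⟩ := hI.head
    have hx1S : x1 ∈ S := by rw [hS]; exact List.mem_cons_self
    have hcn : cn ≤ 1023 := by
      have := hI.last x1 hx1S
      rw [hx1'] at this
      exact this.trans hck
    obtain ⟨I', T', F', A, L, h1, h2, h3, h4⟩ := lg_sound hd hcn hI (by simpa using he) he' h
    refine ⟨x1, S1, U, I', T', F', A, L, lgM H ck qn cn S, by rw [hS]; rfl, ?_, ?_, ?_, ?_, ?_, h1, h2,
      h3, h4⟩
    · rw [← hS]; exact hI.srt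
    · rw [← hS]; exact hI.ht
    · rw [← hS]; exact hU1
    · rw [← hS, ← hI.len]; exact hU2
    · rw [← hS, hx1, hx1', add_comm]
  | cons x C ih =>
    intro U nj X qn cn gn Xs ns qs S I T F k hI hU1 hU2 he h
    rw [cols_cons_eq] at h
    obtain ⟨hk, h⟩ := br_false h
    obtain ⟨hq, h⟩ := br_false h
    obtain ⟨hc, h⟩ := br_false h
    obtain ⟨hqn, h⟩ := br_false h
    obtain ⟨hcn, h⟩ := br_false h
    replace hk := Nat.le_of_ble_eq_true hk
    replace hq := Nat.le_of_ble_eq_true hq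
    replace hc := Nat.le_of_ble_eq_true hc
    replace hqn := Nat.le_of_ble_eq_true hqn
    replace hcn := Nat.le_of_ble_eq_true hcn
    obtain ⟨i, I1, hI1, h⟩ := hd_sound h
    obtain ⟨x1, S1, hS, hx1, hx1'⟩ := hI.head
    have hx1S : x1 ∈ S := by rw [hS]; exact List.mem_cons_self
    have hcnck : cn ≤ ck := by
      have := hI.last x1 hx1S
      rw [hx1'] at this
      exact this
    have hcn' : cn ≤ 1023 := hcnck.trans hck
    have hstep := cols_inv_step hd hH hI hk hq hc hqn hcn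
    have hks := ksum_bounds hd hq (cc x)
    have hkR : (ksum d (cq x) (cc x) : ℝ) ≤ Hn := by exact_mod_cast hk
    have hch : ch (cq x) (cc x) ≤ H := by
      have h1 : (2 : ℝ) ^ 112 * ch (cq x) (cc x) ≤ 2 ^ 112 * H := by
        linarith [hks.1, hH.1]
      exact le_of_mul_le_mul_left h1 (by positivity)
    have hsub : ((Hn - ksum d (cq x) (cc x) : ℕ) : ℝ) = (Hn : ℝ) - ksum d (cq x) (cc x) := by
      rw [Nat.cast_sub hk]
    simp only [List.length_cons] at he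
    have heR : (e : ℝ) + (cc x : ℝ) + 3 ≤ e' := by
      have h1 : e + cc x + 3 ≤ e' := by omega
      exact_mod_cast h1
    have he1 : (1 : ℝ) ≤ e' := by
      have h1 : 1 ≤ e' := by omega
      exact_mod_cast h1
    have hdv := cols_div_bounds hd (n := cq x + cc x - 1) (by omega)
    have hApp : App e' (d / (cq x + cc x - 1), Hn - ksum d (cq x) (cc x))
        (1 / ((cq x + cc x - 1 : ℕ) : ℝ), H - ch (cq x) (cc x)) := by
      refine ⟨hdv.1, by simpa using hdv.2.trans (by linarith), ?_, ?_⟩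
      · show ((Hn - ksum d (cq x) (cc x) : ℕ) : ℝ) ≤ (H - ch (cq x) (cc x)) * 2 ^ 112
        rw [hsub]; linarith [hks.1, hH.1]
      · show (H - ch (cq x) (cc x)) * 2 ^ 112 ≤ ((Hn - ksum d (cq x) (cc x) : ℕ) : ℝ) + e'
        rw [hsub]; linarith [hks.2, hH.2]
    obtain ⟨T1, F1, A1, L1, hT1, hF1, hD1, h⟩ := disp_sound h hApp he'
    obtain ⟨I2, T2, F2, A2, L2, hT2, hF2, h, hD2⟩ := pk_sound hd hH hcn' hI hq hqn hc hcn hch
      (by omega) he' h
    have hdq := cols_div_bounds hd hq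
    have hUa : lX 0 (x :: S) * 2 ^ 112 ≤ ((U + (d / cq x + 1) : ℕ) : ℝ) := by
      rw [cols_lX0_cons]
      push_cast
      linarith [hdq.2]
    have hUb : ((U + (d / cq x + 1) : ℕ) : ℝ) ≤ lX 0 (x :: S) * 2 ^ 112 + ((nj + 1 : ℕ) : ℝ) := by
      rw [cols_lX0_cons]
      push_cast
      linarith [hdq.1]
    have hbody : body H ck (x :: S) = {(1 / ((cq x + cc x - 1 : ℕ) : ℝ), H - ch (cq x) (cc x))} +
        (pkM H ck (cq x) (cc x) qn cn S + body H ck S) := by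
      rw [hS, ← hx1, ← hx1']
      rfl
    have hfin : ∀ {Xs' ns' qs' : ℕ}, CInv Hn e H ck (nj + 1) (X + d / (cq x * (cq x + 1))) (cq x) (cc x)
          (Hn - ksum d (cq x) (cc x)) Xs' ns' qs' (x :: S) →
        cols d Hn P G ck C (U + (d / (cq x) + 1)) (nj + 1)
                    (X + d / (cq x * (cq x + 1))) (cq x) (cc x) (Hn - ksum d (cq x) (cc x)) Xs' ns' qs'
                    (x :: S) I2 T2 F2 k = true →
        ∃ (x0 : ℕ) (S' : List ℕ) (U' : ℕ) (I' : List ℕ) (T' : Tr) (F' : Bt) (A : Multiset (ℕ × ℕ))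
        (L : Multiset ℕ) (ρ : Multiset (ℝ × ℝ)),
        (x :: C).reverse ++ S = x0 :: S' ∧ Srt (x0 :: S') ∧ (∀ x ∈ x0 :: S', ch (cq x) (cc x) ≤ H) ∧
        lX 0 (x0 :: S') * 2 ^ 112 ≤ U' ∧ (U' : ℝ) ≤ lX 0 (x0 :: S') * 2 ^ 112 + (x0 :: S').length ∧
        body H ck (x0 :: S') + lgM H ck (cq x0) (cc x0) (x0 :: S') = ρ + body H ck S ∧
        T'.ms = A + T.ms ∧ F.ms = L + F'.ms ∧ k U' I' T' F' = true ∧ Disp e' ρ A L := by
      intro Xs' ns' qs' hI' h'
      obtain ⟨x0, S', U', I', T', F', A, L, ρ, g1, g2, g3, g4, g5, g6, g7, g8, g9, g10⟩ :=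
        ih _ _ _ _ _ _ _ _ _ _ _ _ _ _ hI' hUa hUb (by simp only [List.length_cons]; omega) h'
      refine ⟨x0, S', U', I', T', F', A + (A1 + A2), L + (L1 + L2),
        ρ + ({(1 / ((cq x + cc x - 1 : ℕ) : ℝ), H - ch (cq x) (cc x))} +
          pkM H ck (cq x) (cc x) qn cn S), ?_, g2, g3, g4, g5, ?_, ?_, ?_, g9, ?_⟩
      · rw [← g1]; simp
      · rw [g6, hbody]; simp only [add_assoc]
      · rw [g7, hT2, hT1]
        simp only [add_assoc]
        rw [add_left_comm A2 A1]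
      · rw [hF1, hF2, g8]
        simp only [add_assoc]
        rw [add_left_comm L L1, add_left_comm L L2]
      · exact g10.add (hD1.add hD2)
    rcases br_true h with ⟨hb, h⟩ | ⟨hb, h⟩
    · exact hfin (hstep.1 (Nat.eq_of_beq_eq_true hb)) h
    · exact hfin (hstep.2 (Nat.ne_of_beq_eq_false hb)) h

end Pool.Agent.Moser.Ck
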