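/-!
# MP_cc07e8_co: programs evaluated by the kernel (geometry part)

Everything is in continuation passing style with result type `Bool`.
All lengths are natural numbers `x`, lower bounds in units of `1 / d` (`d = 2 ^ 112`): the real length
times `d` lies between `x` and `x + e` (`e` a small error bound).

Data formats
* rectangle in import and export lists: `w * 2 ^ 128 + l`
* column: `q * 1024 + c` (the squares `q, ..., q + c - 1`)
* run record: `(w' * 2 ^ 26 + m) * 2 ^ 20 + k` with `w' = w / 2 ^ 24`: the rectangles
  `(w - 1 / q, 1 / q)`, `m ≤ q < m + k`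
* fat record: `((L * 2 ^ 64 + s) * 2 ^ 64 + x) * 2 ^ 12 + n`: at most `n` rectangles with widths between
  `x` and `x + s + 1200` in units of `2 ^ (-88)` and total length at most `L * 2 ^ (-36)`
-/

set_option linter.unusedVariables false

namespace Pool.Agent.Moser.Ck

noncomputable section

/-- branch -/
@[reducible] def br (b : Bool) (t e : Bool) : Bool := Bool.rec (motive := fun _ => Bool) e t b

/-- evaluate a number and continue with its value -/
def force (x : Nat) (k : Nat → Bool) : Bool :=
  Nat.rec (motive := fun _ => Bool) (k 0) (fun n _ => k (Nat.succ n)) x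

/-- memory: binary trie of rectangles; `e` is a free place -/
inductive Tr
  | e : Tr
  | l : Nat → Nat → Tr
  | n : Tr → Tr → Tr

/-- empty memory with `2 ^ k` places -/
def Tr.full (k : Nat) : Tr := Nat.rec (motive := fun _ => Tr) Tr.e (fun _ t => Tr.n t t) k

/-- store a rectangle; fails if the place is occupied -/
def ins (t : Tr) : Nat → Nat → Nat → (Tr → Bool) → Bool :=
  Tr.rec (motive := fun _ => Nat → Nat → Nat → (Tr → Bool) → Bool)
    (fun _ w l c => c (Tr.l w l))
    (fun _ _ _ _ _ _ => false)
    (fun a b iha ihb key w l c =>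
      Bool.rec (motive := fun _ => Bool)
        (ihb (Nat.shiftRight key 1) w l (fun s => c (Tr.n a s)))
        (iha (Nat.shiftRight key 1) w l (fun s => c (Tr.n s b)))
        (Nat.beq (Nat.land key 1) 0))
    t

/-- take out the rectangle at a place -/
def ext (t : Tr) : Nat → (Tr → Nat → Nat → Bool) → Bool :=
  Tr.rec (motive := fun _ => Nat → (Tr → Nat → Nat → Bool) → Bool)
    (fun _ _ => false)
    (fun w l _ c => c Tr.e w l)
    (fun a b iha ihb key c =>
      Bool.rec (motive := fun _ => Bool)
        (ihb (Nat.shiftRight key 1) (fun s w l => c (Tr.n a s) w l))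
        (iha (Nat.shiftRight key 1) (fun s w l => c (Tr.n s b) w l))
        (Nat.beq (Nat.land key 1) 0))
    t

/-- no rectangles -/
def Tr.empty (t : Tr) : Bool :=
  Tr.rec (motive := fun _ => Bool) true (fun _ _ => false) (fun _ _ a b => br a b false) t

/-- lists of records, arranged in a binary tree -/
inductive Bt
  | l : List Nat → Bt
  | n : Bt → Bt → Bt

/-- take the next record out of one of the lists -/
def pop (t : Bt) : Nat → (Nat → Bt → Bool) → Bool :=
  Bt.rec (motive := fun _ => Nat → (Nat → Bt → Bool) → Bool)
    (fun xs _ c => List.rec (motive := fun _ => Bool) false (fun x r _ => c x (Bt.l r)) xs)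
    (fun a b iha ihb key c =>
      Bool.rec (motive := fun _ => Bool)
        (ihb (Nat.shiftRight key 1) (fun x s => c x (Bt.n a s)))
        (iha (Nat.shiftRight key 1) (fun x s => c x (Bt.n s b)))
        (Nat.beq (Nat.land key 1) 0))
    t

/-- all lists are used up -/
def Bt.empty (t : Bt) : Bool :=
  Bt.rec (motive := fun _ => Bool)
    (fun xs => List.rec (motive := fun _ => Bool) true (fun _ _ _ => false) xs)
    (fun _ _ a b => br a b false) t

/-- upper bound for `d * ∑ 1 / q` over `m ≤ q < m + k`, term by term -/
def lsum (d m k : Nat) : Nat :=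
  Nat.rec (motive := fun _ => Nat) 0
    (fun n ih => Nat.add ih (Nat.succ (Nat.div d (Nat.add m n)))) k

/-- the same by the midpoint series (`C = 2 m + k - 1`), lower bound -/
def hs (d m k : Nat) : Nat :=
  (fun C K2 =>
    (fun C2 K1 =>
      Nat.div
        (Nat.mul (Nat.mul 2 (Nat.mul d k))
          (Nat.add
            (Nat.mul
              (Nat.add
                (Nat.mul (Nat.add (Nat.mul 105 C2) (Nat.mul 35 K1)) C2)
                (Nat.mul (Nat.mul 7 K1) (Nat.sub (Nat.mul 3 K2) 7)))
              C2)
            (Nat.mul (Nat.mul 5 K1) (Nat.sub (Nat.add (Nat.mul 3 (Nat.mul K2 K2)) 31) (Nat.mul 18 K2)))))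
        (Nat.mul (Nat.mul 105 C) (Nat.mul C2 (Nat.mul C2 C2))))
      (Nat.mul C C) (Nat.sub K2 1))
    (Nat.sub (Nat.add (Nat.mul 2 m) k) 1) (Nat.mul k k)

/-- upper bound for `d * ∑ 1 / q` over `m ≤ q < m + k` -/
def ksum (d m k : Nat) : Nat :=
  Bool.rec (motive := fun _ => Nat) (lsum d m k) (Nat.add (hs d m k) 2)
    (Nat.ble (Nat.mul 8192 k) (Nat.sub (Nat.add (Nat.mul 2 m) k) 1))

/-- the next run of squares is placed along the rectangle `w × l`, starting with the square `m`; the
rectangles beside the squares are leaves (record taken from the list `key`) -/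
def run (d w l m key : Nat) (B : Bt) (c : Nat → Nat → Bt → Bool) : Bool :=
  pop B key (fun r B' =>
    (fun k =>
      br (Nat.ble (Nat.succ (Nat.div d m)) w)
        (br (Nat.beq (Nat.land (Nat.shiftRight r 20) 67108863) m)
          (br (Nat.beq (Nat.shiftRight r 46) (Nat.shiftRight w 24))
            (br (Nat.ble (ksum d m k) l)
              (c (Nat.sub l (ksum d m k)) (Nat.add m k) B') false) false) false) false)
      (Nat.land r 1048575))

/-- emit a fat record with the fields `L, s, x, n` (all in their final units) -/
def fat (L s x n key : Nat) (F : Bt) (c : Bt → Bool) : Bool :=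
  pop F key (fun r F' =>
    br (Nat.beq r (Nat.add (Nat.shiftLeft (Nat.add (Nat.shiftLeft (Nat.add (Nat.shiftLeft L 64) s) 64) x) 12) n))
      (br (Nat.ble (Nat.succ s) 18446744073709551616)
        (br (Nat.ble (Nat.succ x) 18446744073709551616)
          (br (Nat.ble (Nat.succ n) 4096) (c F') false) false) false) false)

/-- emit the rectangle `w × l` (`w` its width) -/
def fat1 (w l key : Nat) (F : Bt) (c : Bt → Bool) : Bool :=
  fat (Nat.add (Nat.shiftRight l 76) 2) 0 (Nat.shiftRight w 24) 1 key F c

/-- dispose of the rectangle `w × l`: `i mod 4 = 0` store, `1` leaf, `2` store turned, `3` leaf turned;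
`i / 4` the place or list -/
def disp (i w l : Nat) (T : Tr) (F : Bt) (c : Tr → Bt → Bool) : Bool :=
  (fun k a =>
    br (Nat.beq k 0) (ins T a w l (fun T' => c T' F))
      (br (Nat.beq k 1) (fat1 w l a F (fun F' => c T F'))
        (br (Nat.beq k 2) (ins T a l w (fun T' => c T' F))
          (fat1 l w a F (fun F' => c T F')))))
    (Nat.land i 3) (Nat.shiftRight i 2)

/-- take the head of a list -/
def hd (xs : List Nat) (c : Nat → List Nat → Bool) : Bool :=
  List.rec (motive := fun _ => Bool) false (fun x r _ => c x r) xs

/-- move `n` elements to a stack -/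
def stk (n : Nat) : List Nat → List Nat → (List Nat → List Nat → Bool) → Bool :=
  Nat.rec (motive := fun _ => List Nat → List Nat → (List Nat → List Nat → Bool) → Bool)
    (fun xs st c => c xs st)
    (fun _ ih xs st c => hd xs (fun x r => ih r (List.cons x st) c))
    n

/-- minimum of `r` and `c - 1` (`c ≥ 1`) -/
def mnc (r c : Nat) : Nat := Nat.sub r (Nat.sub r (Nat.sub c 1))

/-- lower bound for `d / a - d / b` -/
def dif (d a b : Nat) : Nat := Nat.sub (Nat.sub (Nat.div d a) (Nat.div d b)) 1

/-- lower bound for `d` times the sum of the width differences of the rows `r` and `r + 1` over the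
columns `S` -/
def xdif (d r : Nat) (S : List Nat) : Nat :=
  List.rec (motive := fun _ => Nat) 0
    (fun x _ ih => Nat.add ih
      ((fun q c => dif d (Nat.add q (mnc r c)) (Nat.add q (mnc (Nat.succ r) c)))
        (Nat.shiftRight x 10) (Nat.land x 1023))) S

/-- lower bound for `d` times the sum of the width differences of the rows `0` and `r` -/
def zdif (d r : Nat) (S : List Nat) : Nat :=
  List.rec (motive := fun _ => Nat) 0
    (fun x _ ih => Nat.add ih
      ((fun q c => dif d q (Nat.add q (mnc r c)))
        (Nat.shiftRight x 10) (Nat.land x 1023))) S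

/-- pockets one by one, rows `r, r + 1, ..., r + n - 1`; left column `q, c`, first right column `qn`,
`S` the columns from the right one on; `y` lower bound for the difference of the heights up to row `r`, `z`
upper bound for the height of the right column up to row `r` -/
def pock (d H q c qn : Nat) (S : List Nat) (n : Nat) :
    Nat → Nat → Nat → List Nat → Tr → Bt → (List Nat → Tr → Bt → Bool) → Bool :=
  Nat.rec (motive := fun _ => Nat → Nat → Nat → List Nat → Tr → Bt → (List Nat → Tr → Bt → Bool) → Bool)
    (fun _ _ _ I T F k => k I T F)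
    (fun _ ih r y z I T F k =>
      hd I (fun i I' =>
        (fun y' z' =>
          disp i (xdif d r S)
            (Bool.rec (motive := fun _ => Nat) (Nat.sub H z') y' (Nat.ble (Nat.succ r) c)) T F
            (fun T' F' => ih (Nat.succ r) y' z' I' T' F' k))
          (Nat.add y (dif d (Nat.add q r) (Nat.add qn r)))
          (Nat.add z (Nat.succ (Nat.div d (Nat.add qn r))))))
    n

/-- left gaps one by one, rows `r, ..., r + n - 1`; `q` the first column, `S` all columns -/
def lgap (d q : Nat) (S : List Nat) (n : Nat) :
    Nat → List Nat → Tr → Bt → (List Nat → Tr → Bt → Bool) → Bool :=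
  Nat.rec (motive := fun _ => Nat → List Nat → Tr → Bt → (List Nat → Tr → Bt → Bool) → Bool)
    (fun _ I T F k => k I T F)
    (fun _ ih r I T F k => hd I (fun i I' =>
      disp i (zdif d r S) (Nat.div d (Nat.add q r)) T F (fun T' F' => ih (Nat.succ r) I' T' F' k)))
    n

/-- emit a fat record for rectangles with widths between `xl` and `xh` (units `1 / d`) -/
def fatR (L xl xh n key : Nat) (F : Bt) (c : Bt → Bool) : Bool :=
  fat L (Nat.sub (Nat.shiftRight xh 24) (Nat.shiftRight xl 24)) (Nat.shiftRight xl 24) n key F c

/-- left gaps in coarse form, rows `r, ..., r + n - 1`; `X, nj` as in `cols` -/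
def lgapC (q X nj : Nat) (n : Nat) : Nat → List Nat → Bt → (List Nat → Bt → Bool) → Bool :=
  Nat.rec (motive := fun _ => Nat → List Nat → Bt → (List Nat → Bt → Bool) → Bool)
    (fun _ I F k => k I F)
    (fun _ ih r I F k => hd I (fun i I' =>
      fatR (Nat.succ (Nat.div 68719476736 (Nat.add q r)))
        (Nat.sub (Nat.mul r X) (Nat.succ (Nat.div (Nat.mul (Nat.mul r r) X) q)))
        (Nat.mul r (Nat.add X nj)) 1 i F (fun F' => ih (Nat.succ r) I' F' k)))
    n

/-- pockets in coarse form between the columns `q, c` and `qn, cn`; `X, nj, gn, Xs, ns, qs` as in `cols` -/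
def pkC (q c qn cn gn X nj Xs ns qs : Nat) (I : List Nat) (F : Bt) (k : List Nat → Bt → Bool) : Bool :=
  br (Nat.ble cn (Nat.succ c))
    (br (Nat.ble 2 cn)
      (hd I (fun i I2 =>
        fatR (Nat.succ (Nat.div (Nat.mul 34359738368 (Nat.mul (Nat.mul cn (Nat.sub cn 1)) (Nat.sub qn q)))
            (Nat.mul q qn)))
          (Nat.sub X (Nat.succ (Nat.div (Nat.mul 2 (Nat.mul cn X)) qn)))
          (Nat.add X nj) (Nat.sub cn 1) i F (fun F2 =>
        br (Nat.beq ns 0) (k I2 F2)
          (hd I2 (fun i' I3 =>
            fatR (Bool.rec (motive := fun _ => Nat) (Nat.add (Nat.shiftRight gn 76) 2)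
                (Nat.succ (Nat.div (Nat.mul 68719476736 (Nat.mul cn (Nat.sub qn q))) (Nat.mul q qn)))
                (Nat.beq c cn))
              (Nat.sub Xs (Nat.succ (Nat.div (Nat.mul 2 (Nat.mul cn Xs)) qs)))
              (Nat.add Xs ns) 1 i' F2 (fun F3 => k I3 F3)))))) false) false

/-- pockets between the columns `q, c` and `qn, cn` (`P = true`: one by one) -/
def pk (d H : Nat) (P : Bool) (ck q c qn cn gn X nj Xs ns qs : Nat) (S : List Nat) (I : List Nat)
    (T : Tr) (F : Bt) (k : List Nat → Tr → Bt → Bool) : Bool :=
  br P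
    (pock d H q c qn S
      (Bool.rec (motive := fun _ => Nat) (Nat.sub cn 1) cn (Nat.ble (Nat.succ cn) ck)) 0 0 0 I T F k)
    (pkC q c qn cn gn X nj Xs ns qs I F (fun I' F' => k I' T F'))

/-- left gaps and the corner (`G = true`: one by one) -/
def lg (d : Nat) (G : Bool) (qn cn gn X nj Xs ns qs : Nat) (S : List Nat) (I : List Nat)
    (T : Tr) (F : Bt) (k : List Nat → Tr → Bt → Bool) : Bool :=
  br (Nat.ble 2 cn)
    (br G
      (lgap d qn S (Nat.sub cn 1) 1 I T F (fun I' T' F' =>
        hd I' (fun i I'' => disp i (zdif d cn S) gn T' F' (fun T'' F'' => k I'' T'' F''))))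
      (lgapC qn X nj (Nat.sub cn 1) 1 I F (fun I' F' =>
        hd I' (fun i I'' =>
          fatR (Nat.add (Nat.shiftRight gn 76) 2)
            (Nat.sub (Nat.add (Nat.mul (Nat.sub cn 1) X) Xs)
              (Nat.add (Nat.add (Nat.div (Nat.mul (Nat.mul (Nat.sub cn 1) (Nat.sub cn 1)) X) qn)
                (Nat.div (Nat.mul 2 (Nat.mul cn Xs)) qs)) 2))
            (Nat.add (Nat.mul (Nat.sub cn 1) (Nat.add X nj)) (Nat.add Xs ns)) 1 i F'
            (fun F'' => k I'' T F'')))))
    -- blocks of one row: no left gaps; the corner has width 0 or is the difference of rows 0 and 1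
    (br (Nat.beq ns 0) (k I T F)
      (hd I (fun i I' => disp i (zdif d cn S) gn T F (fun T' F' => k I' T' F'))))

/-- The columns of a block from the last one to the first one (`C` the columns left of the ones
treated). `H` height, `P`, `G` the modes, `ck` the number of squares of the last column.
State: `U` width used, `nj` number of columns treated, `X` sum of `d / (q (q + 1))` over them,
`qn, cn, gn` the last one treated (`gn` its gap), `Xs, ns, qs` the values of `X, nj, qn` at the last
step of the stair (`ns = 0`: none), `S` the columns treated, `I` instructions -/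
def cols (d H : Nat) (P G : Bool) (ck : Nat) (C : List Nat) :
    Nat → Nat → Nat → Nat → Nat → Nat → Nat → Nat → Nat → List Nat → List Nat → Tr → Bt →
      (Nat → List Nat → Tr → Bt → Bool) → Bool :=
  List.rec (motive := fun _ => Nat → Nat → Nat → Nat → Nat → Nat → Nat → Nat → Nat → List Nat → List Nat → Tr → Bt →
      (Nat → List Nat → Tr → Bt → Bool) → Bool)
    (fun U nj X qn cn gn Xs ns qs S I T F k =>
      lg d G qn cn gn X nj Xs ns qs S I T F (fun I' T' F' => k U I' T' F'))
    (fun x _ ih U nj X qn cn gn Xs ns qs S I T F k =>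
      (fun q c =>
        br (Nat.ble (ksum d q c) H)
          (br (Nat.ble 1 q) (br (Nat.ble 1 c) (br (Nat.ble q qn) (br (Nat.ble c cn)
            (hd I (fun i I1 =>
              disp i (Nat.div d (Nat.sub (Nat.add q c) 1)) (Nat.sub H (ksum d q c)) T F (fun T1 F1 =>
                pk d H P ck q c qn cn gn X nj Xs ns qs S I1 T1 F1 (fun I2 T2 F2 =>
                  br (Nat.beq c cn)
                    (ih (Nat.add U (Nat.succ (Nat.div d q))) (Nat.succ nj)
                      (Nat.add X (Nat.div d (Nat.mul q (Nat.succ q)))) q c (Nat.sub H (ksum d q c)) Xs ns qs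
                      (List.cons x S) I2 T2 F2 k)
                    (ih (Nat.add U (Nat.succ (Nat.div d q))) (Nat.succ nj)
                      (Nat.add X (Nat.div d (Nat.mul q (Nat.succ q)))) q c (Nat.sub H (ksum d q c)) X nj qn
                      (List.cons x S) I2 T2 F2 k)))))
            false) false) false) false) false)
        (Nat.shiftRight x 10) (Nat.land x 1023))
    C

/-- a block in the rectangle `w × l` (`w` the height): number of columns and modes from `I`, columns
from `Q`; continues with the rest of `l` -/
def block (d w l : Nat) (Q I : List Nat) (T : Tr) (F : Bt)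
    (k : Nat → List Nat → List Nat → Tr → Bt → Bool) : Bool :=
  hd I (fun a I1 =>
    stk (Nat.shiftRight a 2) Q List.nil (fun Q1 st =>
      hd st (fun x C =>
        (fun q c =>
          br (Nat.ble (ksum d q c) w)
            (br (Nat.ble 1 q) (br (Nat.ble 1 c)
              (hd I1 (fun i I2 =>
                disp i (Nat.div d (Nat.sub (Nat.add q c) 1)) (Nat.sub w (ksum d q c)) T F (fun T1 F1 =>
                  cols d w (Nat.beq (Nat.land a 1) 1) (Nat.beq (Nat.land (Nat.shiftRight a 1) 1) 1) c C
                    (Nat.succ (Nat.div d q)) 1 (Nat.div d (Nat.mul q (Nat.succ q))) q c (Nat.sub w (ksum d q c))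
                    0 0 0 (List.cons x List.nil) I2 T1 F1 (fun U I3 T2 F2 =>
                      br (Nat.ble U l) (k (Nat.sub l U) Q1 I3 T2 F2) false)))) false) false) false)
          (Nat.shiftRight x 10) (Nat.land x 1023))))

/-- a visit: take the rectangle at place `t`, place a run of squares, put the rest back -/
def visit (d t key m : Nat) (T : Tr) (B : Bt) (k : Nat → Tr → Bt → Bool) : Bool :=
  ext T t (fun T' w l => run d w l m key B (fun l' m' B' => ins T' t w l' (fun T'' => k m' T'' B')))

/-- the streams: columns to be placed, columns to be skipped, instructions, exports -/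
inductive Sm
  | mk : List Nat → List Nat → List Nat → List Nat → Sm

/-- the token without a current rectangle: kind `c mod 16`, place `c / 16 mod 2 ^ 14`, list
`c / 2 ^ 18 mod 2 ^ 10` -/
def tok0 (d kd t key m : Nat) (T : Tr) (B F : Bt) (s : Sm)
    (k0 : Nat → Tr → Bt → Bt → Sm → Bool) (k1 : Nat → Nat → Nat → Tr → Bt → Bt → Sm → Bool) : Bool :=
  br (Nat.beq kd 0) (visit d t key m T B (fun m' T' B' => k0 m' T' B' F s))
  (br (Nat.beq kd 1) (ext T t (fun T' w l => run d w l m key B (fun l' m' B' => k1 w l' m' T' B' F s)))
  (br (Nat.beq kd 2) (ext T t (fun T' w l => k1 w l m T' B F s))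
  (br (Nat.beq kd 3)
    (Sm.rec (motive := fun _ => Bool) (fun Q K I X => hd K (fun x K' =>
      br (Nat.beq (Nat.shiftRight x 10) m) (k0 (Nat.add m (Nat.land x 1023)) T B F (Sm.mk Q K' I X)) false)) s)
  (br (Nat.beq kd 4)
    (Sm.rec (motive := fun _ => Bool) (fun Q K I X => hd X (fun x X' =>
      ext T t (fun T' w l => br (Nat.beq w (Nat.shiftRight x 128))
        (br (Nat.beq l (Nat.land x 340282366920938463463374607431768211455)) (k0 m T' B F (Sm.mk Q K I X')) false)
        false))) s)
  (br (Nat.beq kd 5) (k0 m T B F s) false)))))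

/-- the token with the current rectangle `w × l` -/
def tok1 (d kd t key w l m : Nat) (T : Tr) (B F : Bt) (s : Sm)
    (k0 : Nat → Tr → Bt → Bt → Sm → Bool) (k1 : Nat → Nat → Nat → Tr → Bt → Bt → Sm → Bool) : Bool :=
  br (Nat.beq kd 0) (ins T t w l (fun T' => k0 m T' B F s))
  (br (Nat.beq kd 1) (fat1 w l key F (fun F' => k0 m T B F' s))
  (br (Nat.beq kd 2) (fat1 l w key F (fun F' => k0 m T B F' s))
  (br (Nat.beq kd 3) (run d w l m key B (fun l' m' B' => k1 w l' m' T B' F s))
  (br (Nat.beq kd 4) (k1 l w m T B F s)
  (br (Nat.beq kd 5)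
    (br (Nat.ble (Nat.succ (Nat.div d m)) w)
      (br (Nat.ble (Nat.succ (Nat.div d m)) l)
        (ins T t (Nat.sub w (Nat.succ (Nat.div d m))) (Nat.div d m) (fun T' =>
          k1 w (Nat.sub l (Nat.succ (Nat.div d m))) (Nat.succ m) T' B F s)) false) false)
  (br (Nat.beq kd 6)
    (Sm.rec (motive := fun _ => Bool) (fun Q K I X => hd I (fun h I' =>
      br (Nat.ble h l) (ins T t w h (fun T' => k1 w (Nat.sub l h) m T' B F (Sm.mk Q K I' X))) false)) s)
  (br (Nat.beq kd 7)
    (Sm.rec (motive := fun _ => Bool) (fun Q K I X =>
      block d w l Q I T F (fun l' Q' I' T' F' => k1 w l' m T' B F' (Sm.mk Q' K I' X))) s)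
    false)))))))

/-- machine state: without or with a current rectangle -/
inductive St
  | no : Nat → Tr → Bt → Bt → Sm → St
  | cu : Nat → Nat → Nat → Tr → Bt → Bt → Sm → St

/-- one token -/
def step (d c : Nat) (S : St) (k : St → Bool) : Bool :=
  (fun kd t key =>
    St.rec (motive := fun _ => Bool)
      (fun m T B F s => tok0 d kd t key m T B F s (fun m T B F s => k (St.no m T B F s))
        (fun w l m T B F s => k (St.cu w l m T B F s)))
      (fun w l m T B F s => tok1 d kd t key w l m T B F s (fun m T B F s => k (St.no m T B F s))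
        (fun w l m T B F s => k (St.cu w l m T B F s)))
      S)
    (Nat.land c 15) (Nat.land (Nat.shiftRight c 4) 16383) (Nat.land (Nat.shiftRight c 18) 1023)

/-- a chunk of `n` tokens -/
def chunk (d n : Nat) : Nat → St → (St → Bool) → Bool :=
  Nat.rec (motive := fun _ => Nat → St → (St → Bool) → Bool)
    (fun _ S k => k S)
    (fun _ ih c S k => step d c S (fun S' => ih (Nat.shiftRight c 28) S' k))
    n

/-- evaluate the time -/
def St.fm (S : St) (k : St → Bool) : Bool :=
  St.rec (motive := fun _ => Bool)
    (fun m T B F s => force m (fun m' => k (St.no m' T B F s)))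
    (fun w l m T B F s => force m (fun m' => k (St.cu w l m' T B F s))) S

/-- all chunks (64 tokens each) -/
def prog (d : Nat) (l : List Nat) : St → (St → Bool) → Bool :=
  List.rec (motive := fun _ => St → (St → Bool) → Bool)
    (fun S k => k S)
    (fun c _ ih S k => chunk d 64 c S (fun S' => St.fm S' (fun S'' => ih S'' k)))
    l

/-- store the imports at the places `a, a + 1, ...` -/
def load (xs : List Nat) : Nat → Tr → (Tr → Bool) → Bool :=
  List.rec (motive := fun _ => Nat → Tr → (Tr → Bool) → Bool)
    (fun _ T k => k T)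
    (fun x _ ih a T k => ins T a (Nat.shiftRight x 128) (Nat.land x 340282366920938463463374607431768211455)
      (fun T' => ih (Nat.succ a) T' k))
    xs

/-- list is empty -/
def nl (xs : List Nat) : Bool := List.rec (motive := fun _ => Bool) true (fun _ _ _ => false) xs

/-- The check of a module: scale, depth of the memory, tokens, start, end, imports, exports, run
records, fat records, columns placed, columns skipped, instructions -/
def check (d dep : Nat) (toks : List Nat) (m0 m1 : Nat) (imp exp : List Nat) (B F : Bt)
    (Q K I : List Nat) : Bool :=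
  load imp 0 (Tr.full dep) (fun T =>
    prog d toks (St.no m0 T B F (Sm.mk Q K I exp)) (fun S =>
      St.rec (motive := fun _ => Bool)
        (fun m T B F s =>
          Sm.rec (motive := fun _ => Bool) (fun Q K I X =>
            br (Nat.beq m m1) (br (Tr.empty T) (br (Bt.empty B) (br (Bt.empty F)
              (br (nl Q) (br (nl K) (br (nl I) (nl X) false) false) false) false) false) false) false) s)
        (fun _ _ _ _ _ _ _ => false) S))

end

end Pool.Agent.Moser.Ck
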