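import Pool.Agent.Lib_MP_cc07e8_ck.CkHs

/-! # MP_cc07e8_co: widths and heights in a block (piece DIF) -/

open Finset

namespace Pool.Agent.Moser.Ck

theorem mnc_eq {r c : ℕ} (hc : 1 ≤ c) : mnc r c = min r (c - 1) := by
  show r - (r - (c - 1)) = min r (c - 1)
  omega

private lemma nat_div_le (a : ℕ) :
    (((2 ^ 112 / a : ℕ)) : ℝ) ≤ 1 / (a : ℝ) * 2 ^ 112 := by
  have h := Nat.cast_div_le (α := ℝ) (m := 2 ^ 112) (n := a)
  push_cast at h
  calc (((2 ^ 112 / a : ℕ)) : ℝ) ≤ 2 ^ 112 / (a : ℝ) := by exact_mod_cast h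
    _ = 1 / (a : ℝ) * 2 ^ 112 := by ring

private lemma lt_nat_div {a : ℕ} (ha : 1 ≤ a) :
    1 / (a : ℝ) * 2 ^ 112 < (((2 ^ 112 / a : ℕ)) : ℝ) + 1 := by
  have ha0 : (0 : ℝ) < a := by exact_mod_cast ha
  have h := Nat.lt_div_mul_add (a := 2 ^ 112) (b := a) (by omega)
  have h1 : ((2 ^ 112 : ℕ) : ℝ) < ((2 ^ 112 / a * a + a : ℕ) : ℝ) := by exact_mod_cast h
  rw [one_div_mul_eq_div, div_lt_iff₀ ha0]
  push_cast at h1 ⊢
  linarith

theorem dif_bounds {d a b : ℕ} (hd : d = 2 ^ 112) (ha : 1 ≤ a) (hab : a ≤ b) :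
    (dif d a b : ℝ) ≤ (1 / (a : ℝ) - 1 / b) * 2 ^ 112 ∧
      (1 / (a : ℝ) - 1 / b) * 2 ^ 112 ≤ dif d a b + 2 := by
  have h0 : dif d a b = d / a - d / b - 1 := rfl
  rw [h0, hd]
  have h1 := nat_div_le a
  have h2 := lt_nat_div ha
  have h3 := nat_div_le b
  have h4 := lt_nat_div (ha.trans hab)
  have h5 : 2 ^ 112 / b ≤ 2 ^ 112 / a := Nat.div_le_div_left hab (by omega)
  have ha0 : (0 : ℝ) < a := by exact_mod_cast ha
  have hab' : (a : ℝ) ≤ b := by exact_mod_cast hab
  have h6 : 1 / (b : ℝ) ≤ 1 / (a : ℝ) := one_div_le_one_div_of_le ha0 hab'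
  have h7 : 0 ≤ (1 / (a : ℝ) - 1 / b) * 2 ^ 112 := mul_nonneg (by linarith) (by positivity)
  set A := 2 ^ 112 / a with hA
  set B := 2 ^ 112 / b with hB
  rcases Nat.lt_or_ge A (B + 1) with h | h
  · have hAB : A = B := by omega
    have h8 : A - B - 1 = 0 := by omega
    rw [h8, Nat.cast_zero]
    have hAB' : (A : ℝ) = B := by exact_mod_cast hAB
    constructor
    · exact h7
    · rw [sub_mul]; linarith
  · have h8 : ((A - B - 1 : ℕ) : ℝ) = (A : ℝ) - B - 1 := by
      rw [Nat.cast_sub (by omega), Nat.cast_sub h5]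
      simp
    rw [h8, sub_mul]
    constructor <;> linarith

private lemma lX_nil (r : ℕ) : lX r [] = 0 := by simp [lX]

private lemma lX_cons (r x : ℕ) (S : List ℕ) :
    lX r (x :: S) = 1 / ((cq x + min r (cc x - 1) : ℕ) : ℝ) + lX r S := by
  simp [lX]

private lemma lY_nil : lY [] = 0 := by simp [lY]

private lemma lY_cons (x : ℕ) (S : List ℕ) :
    lY (x :: S) = 1 / ((cq x : ℝ) * ((cq x : ℝ) + 1)) + lY S := by
  simp [lY]

theorem lX_anti {r s : ℕ} {S : List ℕ} (hS : ∀ x ∈ S, 1 ≤ cq x ∧ 1 ≤ cc x) (h : r ≤ s) :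
    lX s S ≤ lX r S := by
  induction S with
  | nil => simp [lX_nil]
  | cons x S ih =>
    rw [lX_cons, lX_cons]
    have h1 := hS x (List.mem_cons_self)
    have h2 := ih fun y hy => hS y (List.mem_cons_of_mem _ hy)
    have h3 : (cq x + min r (cc x - 1) : ℕ) ≤ (cq x + min s (cc x - 1) : ℕ) := by omega
    have h4 : 0 < (cq x + min r (cc x - 1) : ℕ) := by omega
    have h5 : 1 / ((cq x + min s (cc x - 1) : ℕ) : ℝ) ≤ 1 / ((cq x + min r (cc x - 1) : ℕ) : ℝ) :=
      one_div_le_one_div_of_le (by exact_mod_cast h4) (by exact_mod_cast h3)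
    linarith

theorem xdif_bounds {d r : ℕ} {S : List ℕ} (hd : d = 2 ^ 112) (hS : ∀ x ∈ S, 1 ≤ cq x ∧ 1 ≤ cc x) :
    (xdif d r S : ℝ) ≤ (lX r S - lX (r + 1) S) * 2 ^ 112 ∧
      (lX r S - lX (r + 1) S) * 2 ^ 112 ≤ xdif d r S + 2 * S.length := by
  induction S with
  | nil =>
    rw [lX_nil, lX_nil]
    have : xdif d r [] = 0 := rfl
    rw [this]
    simp
  | cons x S ih =>
    have h1 := hS x (List.mem_cons_self)
    obtain ⟨h2, h3⟩ := ih fun y hy => hS y (List.mem_cons_of_mem _ hy)
    have h4 : xdif d r (x :: S) = xdif d r S + dif d (cq x + mnc r (cc x)) (cq x + mnc (r + 1) (cc x)) :=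
      rfl
    rw [h4, lX_cons, lX_cons, mnc_eq h1.2, mnc_eq h1.2]
    obtain ⟨h5, h6⟩ := dif_bounds (a := cq x + min r (cc x - 1)) (b := cq x + min (r + 1) (cc x - 1))
      hd (by omega) (by omega)
    rw [List.length_cons]
    push_cast at h5 h6 ⊢
    constructor
    · linarith
    · linarith

theorem zdif_bounds {d r : ℕ} {S : List ℕ} (hd : d = 2 ^ 112) (hS : ∀ x ∈ S, 1 ≤ cq x ∧ 1 ≤ cc x) :
    (zdif d r S : ℝ) ≤ (lX 0 S - lX r S) * 2 ^ 112 ∧
      (lX 0 S - lX r S) * 2 ^ 112 ≤ zdif d r S + 2 * S.length := by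
  induction S with
  | nil =>
    rw [lX_nil, lX_nil]
    have : zdif d r [] = 0 := rfl
    rw [this]
    simp
  | cons x S ih =>
    have h1 := hS x (List.mem_cons_self)
    obtain ⟨h2, h3⟩ := ih fun y hy => hS y (List.mem_cons_of_mem _ hy)
    have h4 : zdif d r (x :: S) = zdif d r S + dif d (cq x) (cq x + mnc r (cc x)) := rfl
    rw [h4, lX_cons, lX_cons, mnc_eq h1.2]
    obtain ⟨h5, h6⟩ := dif_bounds (a := cq x) (b := cq x + min r (cc x - 1))
      hd (by omega) (by omega)
    have h7 : min 0 (cc x - 1) = 0 := by omega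
    rw [List.length_cons, h7, add_zero]
    push_cast at h5 h6 ⊢
    constructor
    · linarith
    · linarith

/-- rows `r`, `r + 1` with `r + 2` at most the number of squares of every column -/
theorem xdif_coarse {r qn : ℕ} {S : List ℕ} (hq : 1 ≤ qn)
    (hS : ∀ x ∈ S, qn ≤ cq x ∧ r + 2 ≤ cc x) :
    lY S * (1 - 2 * r / qn) ≤ lX r S - lX (r + 1) S ∧ lX r S - lX (r + 1) S ≤ lY S := by
  induction S with
  | nil => simp [lX_nil, lY_nil]
  | cons x S ih =>
    have h1 := hS x (List.mem_cons_self)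
    obtain ⟨h2, h3⟩ := ih fun y hy => hS y (List.mem_cons_of_mem _ hy)
    rw [lX_cons, lX_cons, lY_cons]
    have e1 : min r (cc x - 1) = r := by omega
    have e2 : min (r + 1) (cc x - 1) = r + 1 := by omega
    rw [e1, e2]
    have hqn : (1 : ℝ) ≤ qn := by exact_mod_cast hq
    have hqx : (qn : ℝ) ≤ cq x := by exact_mod_cast h1.1
    have hr : (0 : ℝ) ≤ r := Nat.cast_nonneg r
    have key : 1 / ((cq x : ℝ) * ((cq x : ℝ) + 1)) * (1 - 2 * r / qn) ≤
          1 / ((cq x + r : ℕ) : ℝ) - 1 / ((cq x + (r + 1) : ℕ) : ℝ) ∧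
        1 / ((cq x + r : ℕ) : ℝ) - 1 / ((cq x + (r + 1) : ℕ) : ℝ) ≤
          1 / ((cq x : ℝ) * ((cq x : ℝ) + 1)) := by
      push_cast
      set q : ℝ := (cq x : ℝ) with hqd
      have hq0 : 0 < q := by linarith
      have e3 : 1 / (q + r) - 1 / (q + (r + 1)) = 1 / ((q + r) * (q + r + 1)) := by
        field_simp
        ring
      rw [e3]
      constructor
      · have e4 : 1 - 2 * (r : ℝ) / qn ≤ 1 - 2 * (r : ℝ) / q := by
          have : 2 * (r : ℝ) / q ≤ 2 * (r : ℝ) / qn :=
            div_le_div_of_nonneg_left (by positivity) (by linarith) hqx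
          linarith
        calc 1 / (q * (q + 1)) * (1 - 2 * r / qn) ≤ 1 / (q * (q + 1)) * (1 - 2 * r / q) :=
              mul_le_mul_of_nonneg_left e4 (by positivity)
          _ ≤ 1 / ((q + r) * (q + r + 1)) := by
            rw [le_div_iff₀ (by positivity)]
            have e5 : 1 / (q * (q + 1)) * (1 - 2 * r / q) * ((q + r) * (q + r + 1)) =
                (q - 2 * r) * ((q + r) * (q + r + 1)) / (q ^ 2 * (q + 1)) := by
              field_simp
            rw [e5, div_le_one (by positivity)]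
            nlinarith [mul_nonneg hr hr, mul_nonneg hr hq0.le, mul_nonneg (mul_nonneg hr hr) hr,
              mul_nonneg (mul_nonneg hr hr) hq0.le]
      · apply one_div_le_one_div_of_le (by positivity)
        nlinarith [mul_nonneg hr hq0.le]
    constructor
    · have := key.1
      rw [add_mul]
      linarith
    · linarith [key.2]

/-- rows `0`, `r` with `r + 1` at most the number of squares of every column -/
theorem zdif_coarse {r qn : ℕ} {S : List ℕ} (hq : 1 ≤ qn)
    (hS : ∀ x ∈ S, qn ≤ cq x ∧ r + 1 ≤ cc x) :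
    r * lY S * (1 - r / qn) ≤ lX 0 S - lX r S ∧ lX 0 S - lX r S ≤ r * lY S := by
  induction S with
  | nil => simp [lX_nil, lY_nil]
  | cons x S ih =>
    have h1 := hS x (List.mem_cons_self)
    obtain ⟨h2, h3⟩ := ih fun y hy => hS y (List.mem_cons_of_mem _ hy)
    rw [lX_cons, lX_cons, lY_cons]
    have e1 : min r (cc x - 1) = r := by omega
    have e2 : min 0 (cc x - 1) = 0 := by omega
    rw [e1, e2, add_zero]
    have hqn : (1 : ℝ) ≤ qn := by exact_mod_cast hq
    have hqx : (qn : ℝ) ≤ cq x := by exact_mod_cast h1.1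
    have hr : (0 : ℝ) ≤ r := Nat.cast_nonneg r
    have key : r * (1 / ((cq x : ℝ) * ((cq x : ℝ) + 1))) * (1 - r / qn) ≤
          1 / ((cq x : ℕ) : ℝ) - 1 / ((cq x + r : ℕ) : ℝ) ∧
        1 / ((cq x : ℕ) : ℝ) - 1 / ((cq x + r : ℕ) : ℝ) ≤
          r * (1 / ((cq x : ℝ) * ((cq x : ℝ) + 1))) := by
      push_cast
      set q : ℝ := (cq x : ℝ) with hqd
      have hq0 : 0 < q := by linarith
      have e3 : 1 / q - 1 / (q + r) = r / (q * (q + r)) := by
        field_simp
        ring
      rw [e3]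
      constructor
      · have e4 : 1 - (r : ℝ) / qn ≤ 1 - (r : ℝ) / q := by
          have : (r : ℝ) / q ≤ (r : ℝ) / qn :=
            div_le_div_of_nonneg_left (by positivity) (by linarith) hqx
          linarith
        calc r * (1 / (q * (q + 1))) * (1 - r / qn) ≤ r * (1 / (q * (q + 1))) * (1 - r / q) :=
              mul_le_mul_of_nonneg_left e4 (by positivity)
          _ ≤ r / (q * (q + r)) := by
            rw [le_div_iff₀ (by positivity)]
            have e5 : r * (1 / (q * (q + 1))) * (1 - r / q) * (q * (q + r)) =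
                r * ((q - r) * (q + r) / (q * (q + 1))) := by
              field_simp
            rw [e5]
            have e6 : (q - r) * (q + r) / (q * (q + 1)) ≤ 1 := by
              rw [div_le_one (by positivity)]
              nlinarith [mul_nonneg hr hr]
            calc r * ((q - r) * (q + r) / (q * (q + 1))) ≤ r * 1 :=
                  mul_le_mul_of_nonneg_left e6 hr
              _ = r := mul_one _
      · rcases Nat.eq_zero_or_pos r with h0 | h0
        · rw [h0]; simp
        · have h0' : (1 : ℝ) ≤ r := by exact_mod_cast h0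
          rw [mul_one_div]
          apply div_le_div_of_nonneg_left hr (by positivity)
          nlinarith
    constructor
    · have := key.1
      rw [mul_add, add_mul]
      linarith
    · have := key.2
      rw [mul_add]
      linarith

/-- no later column has more than `r + 1` squares -/
theorem xdif_zero {r : ℕ} {S : List ℕ} (hS : ∀ x ∈ S, cc x ≤ r + 1) : lX r S = lX (r + 1) S := by
  induction S with
  | nil => simp [lX_nil]
  | cons x S ih =>
    have h1 := hS x (List.mem_cons_self)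
    rw [lX_cons, lX_cons, ih fun y hy => hS y (List.mem_cons_of_mem _ hy)]
    have e1 : min r (cc x - 1) = min (r + 1) (cc x - 1) := by omega
    rw [e1]

/-- row `r` only sees the columns with at least `r + 2` squares -/
theorem xdif_split {r : ℕ} {S1 S2 : List ℕ} (hS : ∀ x ∈ S1, cc x ≤ r + 1) :
    lX r (S1 ++ S2) - lX (r + 1) (S1 ++ S2) = lX r S2 - lX (r + 1) S2 := by
  have h := xdif_zero hS
  have h1 : ∀ t, lX t (S1 ++ S2) = lX t S1 + lX t S2 := by
    intro t
    simp [lX]
  rw [h1, h1, h]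
  ring

theorem ch_anti {q q' r : ℕ} (hq : 1 ≤ q) (h : q ≤ q') : ch q' r ≤ ch q r := by
  unfold ch
  refine Finset.sum_le_sum fun t _ => ?_
  have h4 : 0 < q + t := by omega
  exact one_div_le_one_div_of_le (by exact_mod_cast h4) (by exact_mod_cast Nat.add_le_add_right h t)

/-- differences of the heights of two columns -/
theorem ch_dif_le {q q' r : ℕ} (hq : 1 ≤ q) (h : q ≤ q') :
    ch q r - ch q' r ≤ r * ((q' : ℝ) - q) / (q * q') := by
  unfold ch
  rw [← Finset.sum_sub_distrib]
  have hq0 : (0 : ℝ) < q := by exact_mod_cast hq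
  have hqq : (q : ℝ) ≤ q' := by exact_mod_cast h
  calc ∑ t ∈ range r, (1 / ((q + t : ℕ) : ℝ) - 1 / ((q' + t : ℕ) : ℝ)) ≤
      ∑ _t ∈ range r, ((q' : ℝ) - q) / (q * q') := by
        refine Finset.sum_le_sum fun t _ => ?_
        push_cast
        have ht : (0 : ℝ) ≤ t := Nat.cast_nonneg t
        have e : 1 / ((q : ℝ) + t) - 1 / ((q' : ℝ) + t) =
            ((q' : ℝ) - q) / (((q : ℝ) + t) * ((q' : ℝ) + t)) := by
          have h1 : (q : ℝ) + t ≠ 0 := by positivity
          have h2 : (q' : ℝ) + t ≠ 0 := by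
            have : (0 : ℝ) < q' + t := by linarith
            exact this.ne'
          field_simp
          ring
        rw [e]
        apply div_le_div_of_nonneg_left (by linarith) (by nlinarith)
        nlinarith
    _ = r * ((q' : ℝ) - q) / (q * q') := by
        rw [Finset.sum_const, card_range, nsmul_eq_mul, mul_div_assoc]

/-- the sum over the rows -/
theorem ch_dif_sum_le {q q' n : ℕ} (hq : 1 ≤ q) (h : q ≤ q') :
    ∑ r ∈ range n, (ch q (r + 1) - ch q' (r + 1)) ≤
      (n : ℝ) * (n + 1) / 2 * ((q' : ℝ) - q) / (q * q') := by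
  induction n with
  | zero => simp
  | succ n ih =>
    rw [Finset.sum_range_succ]
    have h1 := ch_dif_le (r := n + 1) hq h
    push_cast at h1 ⊢
    have e : ((n : ℝ) + 1) * ((n : ℝ) + 1 + 1) / 2 * ((q' : ℝ) - q) / (q * q') =
        (n : ℝ) * (n + 1) / 2 * ((q' : ℝ) - q) / (q * q') + ((n : ℝ) + 1) * ((q' : ℝ) - q) / (q * q') := by
      ring
    rw [e]
    linarith

end Pool.Agent.Moser.Ck
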