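import Pool.Agent.Lib_MP_cc07e8_ck.CkRng
import Pool.Agent.Lib_MP_cc07e8_ck.CkTrans

/-! # MP_cc07e8_co: entries of the bucket sums -/

open Finset

namespace Pool.Agent.Moser.Ck

/-- An entry `(j, v)` (bucket `j` absolute, value `v`) for a real strip `r`: in every query
interval `[lo, hi)` of values of `1 / width` that contains the strip the bucket is found, up to the
margin `mu` to the left, and the length is at most `v * 2 ^ (-36)`. -/
def Ent (t M mu : ℕ) (p : ℕ × ℕ) (r : ℝ × ℝ) : Prop :=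
  r.2 * 2 ^ 36 ≤ p.2 ∧ ∀ lo hi : ℕ, (lo : ℝ) * r.1 ≤ 1 → 1 < (hi : ℝ) * r.1 →
    lo / 2 ^ t ≤ p.1 + mu ∧ p.1 < (hi + M) / 2 ^ t + 1

/-- Entries of a fat record: one entry for several strips. `D` describes the strips of the entries:
every strip of the group fulfils the bucket condition, the total length is at most the value. -/
def EntG (t M mu : ℕ) (p : ℕ × ℕ) (G : Multiset (ℝ × ℝ)) : Prop :=
  (G.map Prod.snd).sum * 2 ^ 36 ≤ p.2 ∧ ∀ r ∈ G, 0 ≤ r.2 ∧ ∀ lo hi : ℕ, (lo : ℝ) * r.1 ≤ 1 →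
    1 < (hi : ℝ) * r.1 → lo / 2 ^ t ≤ p.1 + mu ∧ p.1 < (hi + M) / 2 ^ t + 1

end Pool.Agent.Moser.Ck
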