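import Pool.Agent.Lib_MP_cc07e8_ck.CkTrie
import Pool.Agent.Lib_MP_cc07e8_ck.CkTrans

/-! # MP_cc07e8_co: fat records and disposal (piece FAT) -/

open Finset

namespace Pool.Agent.Moser.Ck

theorem fat_sound {L s x n key : ℕ} {F : Bt} {c : Bt → Bool} (h : fat L s x n key F c = true) :
    ∃ (r : ℕ) (F' : Bt), F.ms = r ::ₘ F'.ms ∧ fn r = n ∧ fx r = x ∧ fs r = s ∧ fL r = L ∧
      c F' = true := by
  unfold fat at h
  obtain ⟨r, F', hF, h⟩ := pop_sound h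
  obtain ⟨h1, h⟩ := br_false h
  obtain ⟨h2, h⟩ := br_false h
  obtain ⟨h3, h⟩ := br_false h
  obtain ⟨h4, h⟩ := br_false h
  have hs : s < 18446744073709551616 := Nat.le_of_ble_eq_true h2
  have hx : x < 18446744073709551616 := Nat.le_of_ble_eq_true h3
  have hn : n < 4096 := Nat.le_of_ble_eq_true h4
  have hr : r = ((L * 18446744073709551616 + s) * 18446744073709551616 + x) * 4096 + n := by
    have := Nat.eq_of_beq_eq_true h1
    rw [this]
    change (((((L <<< 64) + s) <<< 64) + x) <<< 12) + n = _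
    simp only [Nat.shiftLeft_eq]
  refine ⟨r, F', hF, ?_, ?_, ?_, ?_, h⟩
  · unfold fn; omega
  · unfold fx
    norm_num
    omega
  · unfold fs
    norm_num
    omega
  · unfold fL
    norm_num
    omega

theorem fat_shift_le (a k : ℕ) : ((a >>> k : ℕ) : ℝ) * 2 ^ k ≤ a := by
  rw [Nat.shiftRight_eq_div_pow]
  have := Nat.div_mul_le_self a (2 ^ k)
  exact_mod_cast this

theorem fat_shift_lt (a k : ℕ) : (a : ℝ) ≤ ((a >>> k : ℕ) : ℝ) * 2 ^ k + 2 ^ k := by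
  rw [Nat.shiftRight_eq_div_pow]
  have h : a ≤ a / 2 ^ k * 2 ^ k + 2 ^ k := by
    have h1 := Nat.div_add_mod a (2 ^ k)
    have h2 : a % 2 ^ k < 2 ^ k := Nat.mod_lt _ (by positivity)
    rw [Nat.mul_comm] at h1
    omega
  exact_mod_cast h

theorem fatR_sound {L xl xh n key : ℕ} {F : Bt} {c : Bt → Bool} {G : Multiset (ℝ × ℝ)}
    (h : fatR L xl xh n key F c = true) (hn : G.card ≤ n)
    (hw : ∀ p ∈ G, (xl : ℝ) ≤ p.1 * 2 ^ 112 ∧ p.1 * 2 ^ 112 ≤ xh + 2 ^ 34) (hl : ∀ p ∈ G, 0 ≤ p.2)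
    (ht : (G.map Prod.snd).sum * 2 ^ 36 ≤ L) :
    ∃ (r : ℕ) (F' : Bt), F.ms = r ::ₘ F'.ms ∧ LeafF r G ∧ c F' = true := by
  unfold fatR at h
  obtain ⟨r, F', hF, h1, h2, h3, h4, h⟩ := fat_sound h
  refine ⟨r, F', hF, ⟨?_, ?_, hl, ?_⟩, h⟩
  · rw [h1]; exact hn
  · intro p hp
    obtain ⟨ha, hb⟩ := hw p hp
    have e1 := fat_shift_le xl 24
    have e2 := fat_shift_lt xh 24
    have e3 : ((xh >>> 24 : ℕ) : ℝ) ≤ ((xl >>> 24 : ℕ) : ℝ) + ((xh >>> 24 - xl >>> 24 : ℕ) : ℝ) := by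
      have : xh >>> 24 ≤ xl >>> 24 + (xh >>> 24 - xl >>> 24) := by omega
      exact_mod_cast this
    rw [h2, h3]
    change ((xl >>> 24 : ℕ) : ℝ) ≤ _ ∧ _ ≤ ((xl >>> 24 : ℕ) : ℝ) + ((xh >>> 24 - xl >>> 24 : ℕ) : ℝ) + 1200
    constructor
    · nlinarith
    · nlinarith
  · rw [h4]; exact ht

theorem fat1_sound {e w l key : ℕ} {a b : ℝ} {F : Bt} {c : Bt → Bool}
    (h : fat1 w l key F c = true) (ha : App e (w, l) (a, b)) (he : e ≤ 2 ^ 34) :
    ∃ (r : ℕ) (F' : Bt), F.ms = r ::ₘ F'.ms ∧ LeafF r {(a, b)} ∧ c F' = true := by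
  unfold fat1 at h
  obtain ⟨r, F', hF, h1, h2, h3, h4, h⟩ := fat_sound h
  obtain ⟨a1, a2, a3, a4⟩ := ha
  simp only at a1 a2 a3 a4
  have he' : (e : ℝ) ≤ 2 ^ 34 := by exact_mod_cast he
  refine ⟨r, F', hF, ⟨?_, ?_, ?_, ?_⟩, h⟩
  · rw [h1]; simp
  · intro p hp
    rw [Multiset.mem_singleton] at hp
    subst hp
    have e1 := fat_shift_le w 24
    have e2 := fat_shift_lt w 24
    rw [h2, h3]
    change ((w >>> 24 : ℕ) : ℝ) ≤ _ ∧ _ ≤ ((w >>> 24 : ℕ) : ℝ) + ((0 : ℕ) : ℝ) + 1200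
    simp only [Nat.cast_zero]
    constructor
    · nlinarith
    · nlinarith
  · intro p hp
    rw [Multiset.mem_singleton] at hp
    subst hp
    have : (0 : ℝ) ≤ l := Nat.cast_nonneg l
    simp only
    nlinarith
  · rw [h4]
    have e2 := fat_shift_lt l 76
    change _ ≤ ((l >>> 76 + 2 : ℕ) : ℝ)
    push_cast
    simp only [Multiset.map_singleton, Multiset.sum_singleton]
    nlinarith

theorem disp_sound {e i w l : ℕ} {a b : ℝ} {T : Tr} {F : Bt} {c : Tr → Bt → Bool}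
    (h : disp i w l T F c = true) (ha : App e (w, l) (a, b)) (he : e ≤ 2 ^ 34) :
    ∃ (T' : Tr) (F' : Bt) (A : Multiset (ℕ × ℕ)) (L : Multiset ℕ), T'.ms = A + T.ms ∧
      F.ms = L + F'.ms ∧ Disp e {(a, b)} A L ∧ c T' F' = true := by
  unfold disp at h
  simp only at h
  rcases br_true h with ⟨_, h⟩ | ⟨_, h⟩
  · obtain ⟨T', hT, h⟩ := ins_sound h
    exact ⟨T', F, {(w, l)}, 0, by rw [hT, Multiset.singleton_add], by simp, Disp.store ha, h⟩
  · rcases br_true h with ⟨_, h⟩ | ⟨_, h⟩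
    · obtain ⟨r, F', hF, hr, h⟩ := fat1_sound h ha he
      exact ⟨T, F', 0, {r}, by simp, by rw [hF, Multiset.singleton_add], Disp.leaf hr, h⟩
    · rcases br_true h with ⟨_, h⟩ | ⟨_, h⟩
      · obtain ⟨T', hT, h⟩ := ins_sound h
        exact ⟨T', F, {(l, w)}, 0, by rw [hT, Multiset.singleton_add], by simp, Disp.storeT ha, h⟩
      · obtain ⟨r, F', hF, hr, h⟩ := fat1_sound h ha.turn he
        exact ⟨T, F', 0, {r}, by simp, by rw [hF, Multiset.singleton_add],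
          Disp.leafT ha.nonneg.1 ha.nonneg.2 hr, h⟩

end Pool.Agent.Moser.Ck
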