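import Pool.Agent.Lib_MP_cc07e8_ck.CkXX
import Pool.Agent.Lib_MP_cc07e8_ck.CkFinDefs
import Pool.Agent.Lib_MP_cc07e8_ck.CkTrie

/-! # MP_cc07e8_co: the final row bounds (piece FIN1) -/

open Finset

namespace Pool.Agent.Moser.Ck

/-- The row bounds of `Eng.Start`. -/
structure RowB (G : Multiset (ℝ × ℝ)) : Prop where
  rowA : ∀ k : ℕ, 10320 ≤ k → k < 61730 → Eng.XX k G ≤ 0.42
  rowB : ∀ k : ℕ, 61730 ≤ k → k < 80000 → Eng.XX k G + Eng.YY k G ≤ 0.51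
  rowC : ∀ k : ℕ, 80000 ≤ k → k < 119940 → Eng.XX k G + Eng.YY k G ≤ 0.5602
  rowC2 : ∀ k : ℕ, 119940 ≤ k → k < 160000 → Eng.XX k G + Eng.YY k G ≤ 0.5535
  rowD : ∀ k : ℕ, 160000 ≤ k → k < 670000 → Eng.XX k G + Eng.YY k G ≤ 0.5538
  rowE : ∀ k : ℕ, 670000 ≤ k → k < 946000 → Eng.XX k G ≤ 0.09
  rowF : ∀ k : ℕ, 946000 ≤ k → k < 1600000 → Eng.XX k G ≤ 0.0235
  rowG : ∀ k : ℕ, 1600000 ≤ k → k < 16000000 → Eng.XX k G ≤ 0.03
  rowH : ∀ k : ℕ, 16000000 ≤ k → Eng.XX k G ≤ 0.015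

variable {G : Multiset (ℝ × ℝ)}

/-- the factor of a cell in `yyT` -/
def fin1_T (ka kb a b : ℕ) : ℕ :=
  (1099511627776 * b ^ 3) / ka ^ 3 + 1 + ((1099511627776 * (750 * kb)) / a ^ 3 + 1)

theorem fin1_yyT_cons (ka kb x : ℕ) (xs : List ℕ) (i : ℕ) :
    yyT ka kb (x :: xs) i = Bool.rec (motive := fun _ => ℕ)
      (Bool.rec (motive := fun _ => ℕ)
        ((x >>> 20) * (i + bn x + 32) * fin1_T ka kb i (i + bn x) + yyT ka kb xs (i + bn x))
        (yyT ka kb xs (i + bn x)) (Nat.ble (100 * (i + bn x) ^ 4) (895 * ka ^ 3)))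
      0 (Nat.ble (482 * kb ^ 3) (10 * i ^ 4)) := rfl

/-- bound for `phi` on the cell `[a, b)` -/
noncomputable def fin1_B (ka kb a b : ℕ) : ℝ :=
  if 482 * kb ^ 3 ≤ 10 * a ^ 4 then 0 else if 100 * b ^ 4 ≤ 895 * ka ^ 3 then 0
    else (1.0015 + 800 / (ka : ℝ)) * ((fin1_T ka kb a b : ℝ) / 2 ^ 40)

theorem fin1_B_nonneg (ka kb a b : ℕ) : 0 ≤ fin1_B ka kb a b := by
  unfold fin1_B
  split_ifs
  · exact le_rfl
  · exact le_rfl
  · positivity

theorem fin1_div {n m : ℕ} (hm : 1 ≤ m) : (n : ℝ) / (m : ℝ) ≤ ((n / m + 1 : ℕ) : ℝ) := by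
  have hm' : (0 : ℝ) < m := by exact_mod_cast hm
  rw [div_le_iff₀ hm']
  have h3 := Nat.div_add_mod n m
  have h4 := Nat.mod_lt n hm
  have h5 : n ≤ (n / m + 1) * m := by nlinarith
  exact_mod_cast h5

theorem fin1_T_le {ka kb a b : ℕ} (hka : 1 ≤ ka) (ha : 1 ≤ a) :
    (b : ℝ) ^ 3 / (ka : ℝ) ^ 3 + 750 * (kb : ℝ) / (a : ℝ) ^ 3 ≤ (fin1_T ka kb a b : ℝ) / 2 ^ 40 := by
  have hka3 : 1 ≤ ka ^ 3 := Nat.one_le_pow _ _ hka
  have ha3 : 1 ≤ a ^ 3 := Nat.one_le_pow _ _ ha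
  have h1 := fin1_div (n := 1099511627776 * b ^ 3) hka3
  have h2 := fin1_div (n := 1099511627776 * (750 * kb)) ha3
  rw [le_div_iff₀ (by positivity)]
  unfold fin1_T
  rw [Nat.cast_add]
  refine le_trans (le_of_eq ?_) (add_le_add h1 h2)
  push_cast
  ring

theorem fin1_phi {ka kb k a b i : ℕ} (hka : 10320 ≤ ka) (h1 : ka ≤ k) (h2 : k < kb) (ha : 1 ≤ a)
    (h3 : a ≤ i) (h4 : i < b) : Eng.phi k i ≤ fin1_B ka kb a b := by
  have hp := phi_le (k := k) (i := i) (i0 := a) (i1 := b - 1) (ka := ka) (kb := k) hka h1 le_rfl ha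
    h3 (by omega)
  have hp2 := phi_le (k := k) (i := i) (i0 := a) (i1 := b) (ka := ka) (kb := kb) hka h1 h2.le ha
    h3 h4.le
  unfold fin1_B
  split_ifs with hA hB
  · apply le_of_eq
    apply hp.2.2
    have hk : (k : ℝ) < kb := by exact_mod_cast h2
    have hk0 : (0 : ℝ) ≤ k := Nat.cast_nonneg k
    have hk3 : (k : ℝ) ^ 3 < (kb : ℝ) ^ 3 := pow_lt_pow_left₀ hk hk0 (by norm_num)
    have hA' : (482 : ℝ) * (kb : ℝ) ^ 3 ≤ 10 * (a : ℝ) ^ 4 := by exact_mod_cast hA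
    linarith
  · apply le_of_eq
    apply hp.2.1
    have hb : ((b - 1 : ℕ) : ℝ) < (b : ℝ) := by
      have : b - 1 < b := by omega
      exact_mod_cast this
    have hb4 : ((b - 1 : ℕ) : ℝ) ^ 4 < (b : ℝ) ^ 4 := pow_lt_pow_left₀ hb (Nat.cast_nonneg _) (by norm_num)
    have hB' : (100 : ℝ) * (b : ℝ) ^ 4 ≤ 895 * (ka : ℝ) ^ 3 := by exact_mod_cast hB
    linarith
  · exact hp2.1.trans (mul_le_mul_of_nonneg_left (fin1_T_le (by omega) ha) (by positivity))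

/-- the bound for `YY` as a sum over the cells -/
noncomputable def fin1_Y (G : Multiset (ℝ × ℝ)) (ka kb : ℕ) : ℕ → List ℕ → ℝ
  | _, [] => 0
  | i, x :: xs => (((i + bn x : ℕ) : ℝ) + 32) / 36 * fin1_B ka kb i (i + bn x) *
      lam (Eng.tau i) (Eng.tau (i + bn x)) G + fin1_Y G ka kb (i + bn x) xs

/-- the boundaries of the cells -/
def fin1_w (i : ℕ) (CC : List ℕ) (j : ℕ) : ℕ := cellsEnd i (CC.take j)

theorem fin1_w_zero (i : ℕ) (CC : List ℕ) : fin1_w i CC 0 = i := by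
  unfold fin1_w
  rw [List.take_zero]
  rfl

theorem fin1_w_succ (i x : ℕ) (xs : List ℕ) (j : ℕ) :
    fin1_w i (x :: xs) (j + 1) = fin1_w (i + bn x) xs j := by
  unfold fin1_w
  rw [List.take_succ_cons]
  rfl

theorem fin1_w_lt : ∀ (CC : List ℕ) (i : ℕ), (∀ x ∈ CC, 1 ≤ bn x) → ∀ j < CC.length,
    fin1_w i CC j < fin1_w i CC (j + 1)
  | [], _, _, j, hj => by simp at hj
  | x :: xs, i, h, 0, _ => by
    rw [fin1_w_succ, fin1_w_zero, fin1_w_zero]
    have := h x List.mem_cons_self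
    omega
  | x :: xs, i, h, j + 1, hj => by
    rw [fin1_w_succ, fin1_w_succ]
    exact fin1_w_lt xs (i + bn x) (fun y hy => h y (List.mem_cons_of_mem _ hy)) j
      (by simpa using hj)

theorem fin1_w_ge : ∀ (CC : List ℕ) (i : ℕ) (j : ℕ), i ≤ fin1_w i CC j
  | [], i, j => by
    unfold fin1_w
    rw [List.take_nil]
    exact le_rfl
  | x :: xs, i, 0 => by rw [fin1_w_zero]
  | x :: xs, i, j + 1 => by
    rw [fin1_w_succ]
    exact le_trans (Nat.le_add_right _ _) (fin1_w_ge xs (i + bn x) j)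

theorem fin1_Y_eq (ka kb : ℕ) : ∀ (CC : List ℕ) (i : ℕ), fin1_Y G ka kb i CC =
    ∑ j ∈ range CC.length, ((fin1_w i CC (j + 1) : ℝ) + 32) / 36 *
      fin1_B ka kb (fin1_w i CC j) (fin1_w i CC (j + 1)) *
      lam (Eng.tau (fin1_w i CC j)) (Eng.tau (fin1_w i CC (j + 1))) G
  | [], i => by simp [fin1_Y]
  | x :: xs, i => by
    rw [List.length_cons, Finset.sum_range_succ', fin1_Y, fin1_Y_eq ka kb xs (i + bn x)]
    simp only [fin1_w_succ, fin1_w_zero]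
    rw [add_comm]

theorem fin1_Y_stop (ka kb : ℕ) : ∀ (CC : List ℕ) (i : ℕ), 482 * kb ^ 3 ≤ 10 * i ^ 4 →
    fin1_Y G ka kb i CC = 0
  | [], _, _ => rfl
  | x :: xs, i, h => by
    rw [fin1_Y, fin1_B, if_pos h, fin1_Y_stop ka kb xs (i + bn x)]
    · ring
    · refine h.trans ?_
      gcongr
      omega

theorem fin1_Y_le {ka kb : ℕ} (hG : ∀ r ∈ G, 0 ≤ r.1 ∧ 0 ≤ r.2) : ∀ (CC : List ℕ) (i : ℕ),
    CellsOK G i CC → fin1_Y G ka kb i CC ≤
      (1.0015 + 800 / (ka : ℝ)) * (yyT ka kb CC i : ℝ) / (36 * 2 ^ 76)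
  | [], i, _ => by
    have : yyT ka kb [] i = 0 := rfl
    rw [this, fin1_Y]
    simp
  | x :: xs, i, h => by
    obtain ⟨h1, h2⟩ := h
    have ih := fin1_Y_le (ka := ka) (kb := kb) hG xs (i + bn x) h2
    have hl : 0 ≤ lam (Eng.tau i) (Eng.tau (i + bn x)) G := lam_nonneg (fun r hr => (hG r hr).2)
    rw [fin1_yyT_cons]
    cases hA : Nat.ble (482 * kb ^ 3) (10 * i ^ 4) with
    | true =>
      have hA' := Nat.le_of_ble_eq_true hA
      rw [fin1_Y_stop ka kb _ _ hA']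
      simp
    | false =>
      have hA' : ¬ 482 * kb ^ 3 ≤ 10 * i ^ 4 := by
        intro hc
        rw [Nat.ble_eq_true_of_le hc] at hA
        exact absurd hA (by simp)
      cases hB : Nat.ble (100 * (i + bn x) ^ 4) (895 * ka ^ 3) with
      | true =>
        have hB' := Nat.le_of_ble_eq_true hB
        rw [fin1_Y, fin1_B, if_neg hA', if_pos hB']
        simp only [mul_zero, zero_mul, zero_add]
        exact ih
      | false =>
        have hB' : ¬ 100 * (i + bn x) ^ 4 ≤ 895 * ka ^ 3 := by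
          intro hc
          rw [Nat.ble_eq_true_of_le hc] at hB
          exact absurd hB (by simp)
        rw [fin1_Y, fin1_B, if_neg hA', if_neg hB']
        have hc0 : (0 : ℝ) ≤ 1.0015 + 800 / (ka : ℝ) := by positivity
        set c : ℝ := 1.0015 + 800 / (ka : ℝ) with hc
        change _ ≤ c * (Nat.cast ((x >>> 20) * (i + bn x + 32) *
          fin1_T ka kb i (i + bn x) + yyT ka kb xs (i + bn x)) : ℝ) / (36 * 2 ^ 76)
        set l : ℝ := lam (Eng.tau i) (Eng.tau (i + bn x)) G with hl'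
        set TT : ℝ := (fin1_T ka kb i (i + bn x) : ℝ) with hTT
        have hTT0 : 0 ≤ TT := Nat.cast_nonneg _
        have hv : l ≤ (Nat.cast (x >>> 20) : ℝ) / 2 ^ 36 := by
          rw [le_div_iff₀ (by positivity)]
          exact h1
        have hfac : 0 ≤ (((i + bn x : ℕ) : ℝ) + 32) / 36 * (c * (TT / 2 ^ 40)) := by positivity
        have h5 := mul_le_mul_of_nonneg_left hv hfac
        have h6 : (((i + bn x : ℕ) : ℝ) + 32) / 36 * (c * (TT / 2 ^ 40)) *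
            ((Nat.cast (x >>> 20) : ℝ) / 2 ^ 36) + c * (yyT ka kb xs (i + bn x) : ℝ) / (36 * 2 ^ 76) =
            c * (Nat.cast ((x >>> 20) * (i + bn x + 32) *
          fin1_T ka kb i (i + bn x) + yyT ka kb xs (i + bn x)) : ℝ) / (36 * 2 ^ 76) := by
          rw [hTT]
          push_cast
          ring
        linarith

/-- bound for `YY` -/
theorem fin1_YY_le {ka kb i0 k : ℕ} {CC : List ℕ} (hka : 10320 ≤ ka)
    (hG : ∀ r ∈ G, 0 ≤ r.1 ∧ 0 ≤ r.2) (h1 : ka ≤ k) (h2 : k < kb) (hk : k < 670000)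
    (hi0 : ∀ i, 10320 ≤ i → i < i0 → Eng.phi k i = 0) (hi0' : 10320 ≤ i0) (hC : CellsOK G i0 CC)
    (hC' : ∀ x ∈ CC, 1 ≤ bn x) (hcE : 62000 ≤ cellsEnd i0 CC) :
    Eng.YY k G ≤ (1.0015 + 800 / (ka : ℝ)) * (yyT ka kb CC i0 : ℝ) / (36 * 2 ^ 76) := by
  refine le_trans ?_ (fin1_Y_le hG CC i0 hC)
  rw [fin1_Y_eq]
  have hwn : fin1_w i0 CC CC.length = cellsEnd i0 CC := by
    unfold fin1_w
    rw [List.take_length]
  have hout : ∀ i, fin1_w i0 CC CC.length ≤ i → Eng.phi k i = 0 := by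
    intro i hi
    rw [hwn] at hi
    have hi2 : 62000 ≤ i := hcE.trans hi
    have hp := phi_le (k := k) (i := i) (i0 := i) (i1 := i) (ka := ka) (kb := k) hka h1 le_rfl
      (by omega) le_rfl le_rfl
    apply hp.2.2
    have hk' : (k : ℝ) ≤ 670000 := by exact_mod_cast hk.le
    have hk0 : (0 : ℝ) ≤ k := Nat.cast_nonneg k
    have hi3 : (62000 : ℝ) ≤ i := by exact_mod_cast hi2
    have hk3 : (k : ℝ) ^ 3 ≤ 670000 ^ 3 := pow_le_pow_left₀ hk0 hk' 3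
    have hi4 : (62000 : ℝ) ^ 4 ≤ (i : ℝ) ^ 4 := pow_le_pow_left₀ (by norm_num) hi3 4
    have : (48.2 : ℝ) * 670000 ^ 3 < 62000 ^ 4 := by norm_num
    linarith
  have hwge : ∀ j, 10320 ≤ fin1_w i0 CC j := fun j => hi0'.trans (fin1_w_ge CC i0 j)
  rcases Nat.eq_or_lt_of_le hi0' with he | hlt
  · exact YY_le (hka.trans h1) (fin1_w i0 CC)
      (fun j => fin1_B ka kb (fin1_w i0 CC j) (fin1_w i0 CC (j + 1)))
      (by rw [fin1_w_zero]; exact he.symm) (fin1_w_lt CC i0 hC') (fun j _ => fin1_B_nonneg _ _ _ _)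
      (fun j _ i hi hi' => fin1_phi hka h1 h2 (by have := hwge j; omega) hi hi') hout hG
  · have hY := YY_le (k := k) (n := CC.length + 1) (hka.trans h1)
      (fun j => Nat.rec (motive := fun _ => ℕ) 10320 (fun j _ => fin1_w i0 CC j) j)
      (fun j => Nat.rec (motive := fun _ => ℝ) 0
        (fun j _ => fin1_B ka kb (fin1_w i0 CC j) (fin1_w i0 CC (j + 1))) j) rfl ?_ ?_ ?_ hout hG
    · rw [Finset.sum_range_succ'] at hY
      refine hY.trans (le_of_eq ?_)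
      change _ + _ * (0 : ℝ) * _ = _
      rw [mul_zero, zero_mul, add_zero]
    · intro j hj
      rcases j with _ | j
      · show 10320 < fin1_w i0 CC 0
        rw [fin1_w_zero]; exact hlt
      · exact fin1_w_lt CC i0 hC' j (by omega)
    · intro j hj
      rcases j with _ | j
      · exact le_rfl
      · exact fin1_B_nonneg _ _ _ _
    · intro j hj i hi hi'
      rcases j with _ | j
      · apply le_of_eq
        apply hi0 i hi
        have hi2 : i < fin1_w i0 CC 0 := hi'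
        rw [fin1_w_zero] at hi2
        exact hi2
      · exact fin1_phi hka h1 h2 (by have := hwge j; omega) hi hi'

theorem fin1_XX_le {kb V k : ℕ} (hk : 10320 ≤ k) (h2 : k < kb)
    (hG : ∀ r ∈ G, 0 ≤ r.1 ∧ 0 ≤ r.2)
    (hV : lam (Eng.tau (k - 15)) (Eng.tau (k - 3)) G * 2 ^ 36 ≤ V) :
    Eng.XX k G ≤ (V : ℝ) * ((kb : ℝ) + 28) / (36 * 2 ^ 36) := by
  refine (XX_le hk hG).trans ?_
  have hl : 0 ≤ lam (Eng.tau (k - 15)) (Eng.tau (k - 3)) G := lam_nonneg (fun r hr => (hG r hr).2)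
  have hv : lam (Eng.tau (k - 15)) (Eng.tau (k - 3)) G ≤ (V : ℝ) / 2 ^ 36 := by
    rw [le_div_iff₀ (by positivity)]
    exact hV
  have hkb : (k : ℝ) + 29 ≤ (kb : ℝ) + 28 := by
    have : k + 29 ≤ kb + 28 := by omega
    exact_mod_cast this
  have hk0 : (0 : ℝ) ≤ k := Nat.cast_nonneg k
  calc ((k : ℝ) + 29) / 36 * lam (Eng.tau (k - 15)) (Eng.tau (k - 3)) G ≤
      ((kb : ℝ) + 28) / 36 * ((V : ℝ) / 2 ^ 36) := by
        apply mul_le_mul _ hv hl (by positivity)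
        linarith
    _ = (V : ℝ) * ((kb : ℝ) + 28) / (36 * 2 ^ 36) := by ring

theorem fin1_finX {kb V b : ℕ} (h : finX kb V b = true) :
    (V : ℝ) * ((kb : ℝ) + 28) / (36 * 2 ^ 36) ≤ (b : ℝ) / 10000 := by
  have h1 : V * (kb + 28) * 10000 ≤ b * 36 * 68719476736 := Nat.le_of_ble_eq_true h
  have h2 : (V : ℝ) * ((kb : ℝ) + 28) * 10000 ≤ (b : ℝ) * 36 * 68719476736 := by exact_mod_cast h1
  rw [div_le_div_iff₀ (by positivity) (by positivity)]
  norm_num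
  linarith

theorem fin1_finY {ka kb V b i0 : ℕ} {CC : List ℕ} (hka : 1 ≤ ka)
    (h : finY ka kb V b i0 CC = true) :
    (V : ℝ) * ((kb : ℝ) + 28) / (36 * 2 ^ 36) +
      (1.0015 + 800 / (ka : ℝ)) * (yyT ka kb CC i0 : ℝ) / (36 * 2 ^ 76) ≤ (b : ℝ) / 10000 := by
  have h1 : V * (kb + 28) * 1099511627776 * (ka * 10000) +
      (10015 * ka + 8000000) * yyT ka kb CC i0 ≤ b * 36 * 75557863725914323419136 * ka :=
    Nat.le_of_ble_eq_true h
  have h2 : (V : ℝ) * ((kb : ℝ) + 28) * 1099511627776 * ((ka : ℝ) * 10000) +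
      (10015 * (ka : ℝ) + 8000000) * (yyT ka kb CC i0 : ℝ) ≤
        (b : ℝ) * 36 * 75557863725914323419136 * (ka : ℝ) := by exact_mod_cast h1
  have hka' : (0 : ℝ) < ka := by exact_mod_cast hka
  set Y : ℝ := (yyT ka kb CC i0 : ℝ)
  have e : (V : ℝ) * ((kb : ℝ) + 28) / (36 * 2 ^ 36) +
      (1.0015 + 800 / (ka : ℝ)) * Y / (36 * 2 ^ 76) =
      ((V : ℝ) * ((kb : ℝ) + 28) * 1099511627776 * ((ka : ℝ) * 10000) +
      (10015 * (ka : ℝ) + 8000000) * Y) / (36 * 75557863725914323419136 * (ka : ℝ) * 10000) := by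
    field_simp
    ring
  rw [e, div_le_div_iff₀ (by positivity) (by norm_num)]
  nlinarith

/-- one block of rows -/
theorem fin1_sound {ka kb V i0 : ℕ} {CC : List ℕ} (hka : 10320 ≤ ka)
    (h : fin1 ka kb V i0 CC = true) (hG : ∀ r ∈ G, 0 ≤ r.1 ∧ 0 ≤ r.2) {k : ℕ} (h1 : ka ≤ k)
    (h2 : k < kb) (hV : lam (Eng.tau (k - 15)) (Eng.tau (k - 3)) G * 2 ^ 36 ≤ V)
    (hi0 : ∀ i, 10320 ≤ i → i < i0 → Eng.phi k i = 0) (hi0' : 10320 ≤ i0) (hC : CellsOK G i0 CC)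
    (hC' : ∀ x ∈ CC, 1 ≤ bn x) (hcE : 62000 ≤ cellsEnd i0 CC) :
    (k < 61730 → Eng.XX k G ≤ 0.42) ∧
    (61730 ≤ k → k < 80000 → Eng.XX k G + Eng.YY k G ≤ 0.51) ∧
    (80000 ≤ k → k < 119940 → Eng.XX k G + Eng.YY k G ≤ 0.5602) ∧
    (119940 ≤ k → k < 160000 → Eng.XX k G + Eng.YY k G ≤ 0.5535) ∧
    (160000 ≤ k → k < 670000 → Eng.XX k G + Eng.YY k G ≤ 0.5538) ∧
    (670000 ≤ k → k < 946000 → Eng.XX k G ≤ 0.09) ∧
    (946000 ≤ k → k < 1600000 → Eng.XX k G ≤ 0.0235) ∧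
    (1600000 ≤ k → k < 16000000 → Eng.XX k G ≤ 0.03) ∧
    (16000000 ≤ k → Eng.XX k G ≤ 0.015) := by
  have hX := fin1_XX_le (hka.trans h1) h2 hG hV
  have hXb : ∀ b : ℕ, finX kb V b = true → Eng.XX k G ≤ (b : ℝ) / 10000 :=
    fun b hb => hX.trans (fin1_finX hb)
  have hYb : ∀ b : ℕ, k < 670000 → finY ka kb V b i0 CC = true →
      Eng.XX k G + Eng.YY k G ≤ (b : ℝ) / 10000 := by
    intro b hk hb
    have h3 := fin1_YY_le hka hG h1 h2 hk hi0 hi0' hC hC' hcE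
    exact (add_le_add hX h3).trans (fin1_finY (by omega) hb)
  unfold fin1 at h
  rcases br_true h with ⟨hb, h⟩ | ⟨hb, h⟩
  · replace hb := Nat.le_of_ble_eq_true hb
    have h3 := hXb _ h
    norm_num at h3
    refine ⟨fun _ => by norm_num; exact h3, ?_, ?_, ?_, ?_, ?_, ?_, ?_, ?_⟩ <;> intros <;> omega
  clear hb
  rcases br_true h with ⟨hb, h⟩ | ⟨hb, h⟩
  · replace hb := Nat.le_of_ble_eq_true hb
    obtain ⟨ha, h⟩ := br_false h
    replace ha := Nat.le_of_ble_eq_true ha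
    have h3 := hYb _ (by omega) h
    norm_num at h3
    refine ⟨?_, fun _ _ => by norm_num; exact h3, ?_, ?_, ?_, ?_, ?_, ?_, ?_⟩ <;> intros <;> omega
  clear hb
  rcases br_true h with ⟨hb, h⟩ | ⟨hb, h⟩
  · replace hb := Nat.le_of_ble_eq_true hb
    obtain ⟨ha, h⟩ := br_false h
    replace ha := Nat.le_of_ble_eq_true ha
    have h3 := hYb _ (by omega) h
    norm_num at h3
    refine ⟨?_, ?_, fun _ _ => by norm_num; exact h3, ?_, ?_, ?_, ?_, ?_, ?_⟩ <;> intros <;> omega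
  clear hb
  rcases br_true h with ⟨hb, h⟩ | ⟨hb, h⟩
  · replace hb := Nat.le_of_ble_eq_true hb
    obtain ⟨ha, h⟩ := br_false h
    replace ha := Nat.le_of_ble_eq_true ha
    have h3 := hYb _ (by omega) h
    norm_num at h3
    refine ⟨?_, ?_, ?_, fun _ _ => by norm_num; exact h3, ?_, ?_, ?_, ?_, ?_⟩ <;> intros <;> omega
  clear hb
  rcases br_true h with ⟨hb, h⟩ | ⟨hb, h⟩
  · replace hb := Nat.le_of_ble_eq_true hb
    obtain ⟨ha, h⟩ := br_false h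
    replace ha := Nat.le_of_ble_eq_true ha
    have h3 := hYb _ (by omega) h
    norm_num at h3
    refine ⟨?_, ?_, ?_, ?_, fun _ _ => by norm_num; exact h3, ?_, ?_, ?_, ?_⟩ <;> intros <;> omega
  clear hb
  rcases br_true h with ⟨hb, h⟩ | ⟨hb, h⟩
  · replace hb := Nat.le_of_ble_eq_true hb
    obtain ⟨ha, h⟩ := br_false h
    replace ha := Nat.le_of_ble_eq_true ha
    have h3 := hXb _ h
    norm_num at h3
    refine ⟨?_, ?_, ?_, ?_, ?_, fun _ _ => by norm_num; exact h3, ?_, ?_, ?_⟩ <;> intros <;> omega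
  clear hb
  rcases br_true h with ⟨hb, h⟩ | ⟨hb, h⟩
  · replace hb := Nat.le_of_ble_eq_true hb
    obtain ⟨ha, h⟩ := br_false h
    replace ha := Nat.le_of_ble_eq_true ha
    have h3 := hXb _ h
    norm_num at h3
    refine ⟨?_, ?_, ?_, ?_, ?_, ?_, fun _ _ => by norm_num; exact h3, ?_, ?_⟩ <;> intros <;> omega
  clear hb
  rcases br_true h with ⟨hb, h⟩ | ⟨hb, h⟩
  · replace hb := Nat.le_of_ble_eq_true hb
    obtain ⟨ha, h⟩ := br_false h
    replace ha := Nat.le_of_ble_eq_true ha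
    have h3 := hXb _ h
    norm_num at h3
    refine ⟨?_, ?_, ?_, ?_, ?_, ?_, ?_, fun _ _ => by norm_num; exact h3, ?_⟩ <;> intros <;> omega
  · obtain ⟨ha, h⟩ := br_false h
    replace ha := Nat.le_of_ble_eq_true ha
    have h3 := hXb _ h
    norm_num at h3
    refine ⟨?_, ?_, ?_, ?_, ?_, ?_, ?_, ?_, ?_⟩ <;> intros <;>
      first | omega | (norm_num; linarith)

end Pool.Agent.Moser.Ck
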