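import Pool.Agent.Lib_MP_cc07e8_ck.CkFat
import Pool.Agent.Lib_MP_cc07e8_ck.CkDif

/-! # MP_cc07e8_co: left gaps and corner (piece LG) -/

open Finset

namespace Pool.Agent.Moser.Ck

/-- Invariant of `cols`: `S` are the columns treated (from left to right, `qn, cn` the first one), `ck`
the number of squares of the last one, `X` and `nj` approximate `lY S`, `gn` the gap of the first
column, `Xs, ns, qs` the data of the columns with more than `cn` squares. -/
structure CInv (Hn e : ℕ) (H : ℝ) (ck nj X qn cn gn Xs ns qs : ℕ) (S : List ℕ) : Prop where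
  srt : Srt S
  head : ∃ x S', S = x :: S' ∧ cq x = qn ∧ cc x = cn
  last : ∀ x ∈ S, cc x ≤ ck
  len : nj = S.length
  ht : ∀ x ∈ S, ch (cq x) (cc x) ≤ H
  Xl : (X : ℝ) ≤ lY S * 2 ^ 112
  Xu : lY S * 2 ^ 112 ≤ X + nj
  gl : (gn : ℝ) ≤ (H - ch qn cn) * 2 ^ 112
  gu : (H - ch qn cn) * 2 ^ 112 ≤ gn + e + cn + 3
  st0 : ns = 0 → Xs = 0 ∧ cn = ck
  st1 : ns ≠ 0 → cn < ck ∧ ∃ S1 S2, S = S1 ++ S2 ∧ (∀ x ∈ S1, cc x = cn) ∧ S2.length = ns ∧
    (∀ x ∈ S2, cn + 1 ≤ cc x ∧ qs ≤ cq x) ∧ 1 ≤ qs ∧ (Xs : ℝ) ≤ lY S2 * 2 ^ 112 ∧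
    lY S2 * 2 ^ 112 ≤ Xs + ns

private lemma disp_one {e w l : ℕ} {a b : ℝ} (h1 : (w : ℝ) ≤ a * 2 ^ 112)
    (h2 : a * 2 ^ 112 ≤ w + e) (h3 : (l : ℝ) ≤ b * 2 ^ 112) (h4 : b * 2 ^ 112 ≤ l + e) :
    App e (w, l) (a, b) := ⟨h1, h2, h3, h4⟩

private lemma lt_div_add' {d m : ℕ} (hm : 1 ≤ m) :
    1 / (m : ℝ) * d < ((d / m : ℕ) : ℝ) + 1 := by
  have ha0 : (0 : ℝ) < m := by exact_mod_cast hm
  have h := Nat.lt_div_mul_add (a := d) (b := m) (by omega)
  have h1 : ((d : ℕ) : ℝ) < ((d / m * m + m : ℕ) : ℝ) := by exact_mod_cast h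
  rw [one_div_mul_eq_div, div_lt_iff₀ ha0]
  push_cast at h1 ⊢
  linarith

private lemma div_le_real' (d m : ℕ) : ((d / m : ℕ) : ℝ) ≤ 1 / (m : ℝ) * d := by
  have h := Nat.cast_div_le (α := ℝ) (m := d) (n := m)
  calc ((d / m : ℕ) : ℝ) ≤ (d : ℝ) / (m : ℝ) := h
    _ = 1 / (m : ℝ) * d := by ring

/-- left gaps one by one -/
theorem lgap_sound {d e' q : ℕ} {S : List ℕ} (hd : d = 2 ^ 112)
    (hS : ∀ x ∈ S, 1 ≤ cq x ∧ 1 ≤ cc x) (hq : 1 ≤ q) (he : 2 * S.length + 1 ≤ e') (he' : e' ≤ 2 ^ 34) :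
    ∀ (n r : ℕ) (I : List ℕ) (T : Tr) (F : Bt) (k : List ℕ → Tr → Bt → Bool),
      lgap d q S n r I T F k = true →
      ∃ (I' : List ℕ) (T' : Tr) (F' : Bt) (A : Multiset (ℕ × ℕ)) (L : Multiset ℕ),
        T'.ms = A + T.ms ∧ F.ms = L + F'.ms ∧ k I' T' F' = true ∧
        Disp e' (∑ s ∈ Ico r (r + n), {(lX 0 S - lX s S, 1 / ((q + s : ℕ) : ℝ))}) A L := by
  intro n
  induction n with
  | zero =>
    intro r I T F k h
    refine ⟨I, T, F, 0, 0, by simp, by simp, h, ?_⟩
    simpa using Disp.zero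
  | succ n ih =>
    intro r I T F k h
    obtain ⟨i, I1, -, h1⟩ := hd_sound h
    have hz := zdif_bounds (r := r) hd hS
    have he2 : 2 * (S.length : ℝ) + 1 ≤ e' := by exact_mod_cast he
    have b1 := lt_div_add' (d := d) (m := q + r) (by omega)
    have b2 := div_le_real' d (q + r)
    have hdr : (d : ℝ) = 2 ^ 112 := by rw [hd]; norm_num
    rw [hdr] at b1 b2
    have hApp : App e' (zdif d r S, d / (q + r)) (lX 0 S - lX r S, 1 / ((q + r : ℕ) : ℝ)) := by
      refine disp_one hz.1 (by linarith [hz.2]) b2 ?_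
      have : (0 : ℝ) ≤ S.length := Nat.cast_nonneg _
      linarith
    obtain ⟨T1, F1, A1, L1, t1, f1, d1, h2⟩ := disp_sound h1 hApp he'
    obtain ⟨I2, T2, F2, A2, L2, t2, f2, h3, d2⟩ := ih (r + 1) I1 T1 F1 k h2
    refine ⟨I2, T2, F2, A1 + A2, L1 + L2, ?_, ?_, h3, ?_⟩
    · rw [t2, t1]; ac_rfl
    · rw [f1, f2]; ac_rfl
    · rw [Finset.sum_eq_sum_Ico_succ_bot (by omega)]
      have e1 : r + (n + 1) = r + 1 + n := by ring
      rw [e1]
      exact d1.add d2

/-- left gaps in coarse form (see `zdif_coarse`) -/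
theorem lgapC_sound {e' q X nj cn : ℕ} {S : List ℕ} (hS : ∀ x ∈ S, q ≤ cq x ∧ cn ≤ cc x) (hq : 1 ≤ q)
    (hXl : (X : ℝ) ≤ lY S * 2 ^ 112) (hXu : lY S * 2 ^ 112 ≤ X + nj) :
    ∀ (n r : ℕ) (I : List ℕ) (F : Bt) (k : List ℕ → Bt → Bool), 1 ≤ r → r + n ≤ cn →
      lgapC q X nj n r I F k = true →
      ∃ (I' : List ℕ) (F' : Bt) (L : Multiset ℕ), F.ms = L + F'.ms ∧ k I' F' = true ∧
        Disp e' (∑ s ∈ Ico r (r + n), {(lX 0 S - lX s S, 1 / ((q + s : ℕ) : ℝ))}) 0 L := by
  intro n
  induction n with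
  | zero =>
    intro r I F k _ _ h
    refine ⟨I, F, 0, by simp, h, ?_⟩
    simpa using Disp.zero
  | succ n ih =>
    intro r I F k hr hrn h
    obtain ⟨i, I1, -, h1⟩ := hd_sound h
    have hz := zdif_coarse (r := r) (qn := q) (S := S) hq fun x hx => by
      have := hS x hx
      omega
    have hS1 : ∀ x ∈ S, 1 ≤ cq x ∧ 1 ≤ cc x := fun x hx => by
      have := hS x hx
      omega
    have hanti := lX_anti (r := 0) (s := r) hS1 (Nat.zero_le r)
    have hq0 : (0 : ℝ) < q := by exact_mod_cast hq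
    have hr0 : (0 : ℝ) ≤ r := Nat.cast_nonneg r
    have hX0 : (0 : ℝ) ≤ X := Nat.cast_nonneg X
    set G : Multiset (ℝ × ℝ) := {(lX 0 S - lX r S, 1 / ((q + r : ℕ) : ℝ))} with hG
    obtain ⟨rec, F1, f1, l1, h2⟩ := fatR_sound (G := G) h1 (by simp [hG])
      (by
        intro p hp
        rw [hG, Multiset.mem_singleton] at hp
        subst hp
        show ((r * X - ((r * r) * X / q + 1) : ℕ) : ℝ) ≤ (lX 0 S - lX r S) * 2 ^ 112 ∧
          (lX 0 S - lX r S) * 2 ^ 112 ≤ ((r * (X + nj) : ℕ) : ℝ) + 2 ^ 34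
        constructor
        · rcases Nat.lt_or_ge ((r * r) * X / q + 1) (r * X) with hc | hc
          · rw [Nat.cast_sub hc.le]
            have c1 := lt_div_add' (d := (r * r) * X) hq
            have c2 : ((((r * r) * X / q + 1 : ℕ)) : ℝ) < ((r * X : ℕ) : ℝ) := by exact_mod_cast hc
            push_cast at c1 c2 ⊢
            have c3 : (r : ℝ) * X - (((r * r * X / q : ℕ) : ℝ) + 1) ≤ r * X * (1 - r / q) := by
              have : (r : ℝ) * X * (1 - r / q) = r * X - 1 / q * (r * r * X) := by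
                field_simp
              rw [this]
              linarith
            have c4 : 0 < (r : ℝ) * X * (1 - r / q) := by linarith
            have c5 : 0 < 1 - (r : ℝ) / q := by
              by_contra hneg
              push Not at hneg
              have := mul_nonpos_of_nonneg_of_nonpos (mul_nonneg hr0 hX0) hneg
              linarith
            have c6 : (r : ℝ) * X * (1 - r / q) ≤ r * (lY S * 2 ^ 112) * (1 - r / q) :=
              mul_le_mul_of_nonneg_right (mul_le_mul_of_nonneg_left hXl hr0) c5.le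
            have c7 : r * (lY S * 2 ^ 112) * (1 - r / q) ≤ (lX 0 S - lX r S) * 2 ^ 112 := by
              have := mul_le_mul_of_nonneg_right hz.1 (by positivity : (0 : ℝ) ≤ 2 ^ 112)
              linarith
            linarith
          · rw [Nat.sub_eq_zero_of_le hc, Nat.cast_zero]
            exact mul_nonneg (by linarith) (by positivity)
        · push_cast
          have c7 := mul_le_mul_of_nonneg_right hz.2 (by positivity : (0 : ℝ) ≤ 2 ^ 112)
          have c8 : (r : ℝ) * (lY S * 2 ^ 112) ≤ r * (X + nj) := mul_le_mul_of_nonneg_left hXu hr0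
          have c9 : (0 : ℝ) ≤ 2 ^ 34 := by positivity
          linarith)
      (by
        intro p hp
        rw [hG, Multiset.mem_singleton] at hp
        subst hp
        positivity)
      (by
        rw [hG, Multiset.map_singleton, Multiset.sum_singleton]
        have := lt_div_add' (d := 68719476736) (m := q + r) (by omega)
        show 1 / ((q + r : ℕ) : ℝ) * 2 ^ 36 ≤ ((68719476736 / (q + r) + 1 : ℕ) : ℝ)
        push_cast at this ⊢
        norm_num at this ⊢
        linarith)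
    obtain ⟨I2, F2, L2, f2, h3, d2⟩ := ih (r + 1) I1 F1 k (by omega) (by omega) h2
    refine ⟨I2, F2, {rec} + L2, ?_, h3, ?_⟩
    · rw [f1, f2, Multiset.singleton_add, Multiset.cons_add]
    · rw [Finset.sum_eq_sum_Ico_succ_bot (by omega)]
      have e1 : r + (n + 1) = r + 1 + n := by ring
      rw [e1]
      have := (Disp.leaf (e := e') l1).add d2
      rwa [add_zero] at this

/-- the pieces of `lgM` -/
private lemma lgM_eq {H : ℝ} {ck qn cn : ℕ} {S : List ℕ} (h1 : 1 ≤ cn) (h2 : cn ≤ ck)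
    (hS : ∀ x ∈ S, cc x ≤ ck) :
    ∃ Z : Multiset (ℝ × ℝ), (∀ r ∈ Z, ∃ s, r = (lX 0 S - lX s S, 0)) ∧
      lgM H ck qn cn S = ∑ s ∈ Ico 1 cn, {(lX 0 S - lX s S, 1 / ((qn + s : ℕ) : ℝ))} +
        ({(lX 0 S - lX cn S, H - ch qn cn)} + Z) := by
  have hrow : ∀ s ∈ Ico 1 cn, hh H (s + 1) qn cn - hh H s qn cn = 1 / ((qn + s : ℕ) : ℝ) := by
    intro s hs
    rw [Finset.mem_Ico] at hs
    unfold hh
    rw [if_pos (by omega), if_pos (by omega)]
    unfold ch
    rw [Finset.sum_range_succ]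
    ring
  have hsum : (∑ r ∈ range (ck - 1), {(lX 0 S - lX (r + 1) S,
        hh H (r + 2) qn cn - hh H (r + 1) qn cn)} : Multiset (ℝ × ℝ)) =
      ∑ s ∈ Ico 1 ck, {(lX 0 S - lX s S, hh H (s + 1) qn cn - hh H s qn cn)} := by
    rw [Finset.sum_Ico_eq_sum_range]
    refine Finset.sum_congr rfl fun r _ => ?_
    rw [show 1 + r = r + 1 by ring]
  have hfirst : (∑ s ∈ Ico 1 cn, {(lX 0 S - lX s S, hh H (s + 1) qn cn - hh H s qn cn)} :
      Multiset (ℝ × ℝ)) = ∑ s ∈ Ico 1 cn, {(lX 0 S - lX s S, 1 / ((qn + s : ℕ) : ℝ))} :=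
    Finset.sum_congr rfl fun s hs => by rw [hrow s hs]
  unfold lgM
  rw [hsum]
  rcases h2.eq_or_lt with h | h
  · subst h
    refine ⟨0, by simp, ?_⟩
    rw [hfirst, if_pos rfl, add_zero]
    have h3 : lX (cn - 1) S = lX cn S := by
      have := xdif_zero (r := cn - 1) (S := S) fun x hx => by
        have := hS x hx
        omega
      rwa [Nat.sub_add_cancel h1] at this
    rw [h3]
  · refine ⟨∑ s ∈ Ico (cn + 1) ck, {(lX 0 S - lX s S, hh H (s + 1) qn cn - hh H s qn cn)}, ?_, ?_⟩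
    · intro r hr
      rw [Multiset.mem_sum] at hr
      obtain ⟨s, hs, hr⟩ := hr
      rw [Finset.mem_Ico] at hs
      rw [Multiset.mem_singleton] at hr
      refine ⟨s, ?_⟩
      rw [hr]
      unfold hh
      rw [if_neg (by omega), if_neg (by omega), sub_self]
    · rw [if_neg (by omega), add_zero, ← Finset.sum_Ico_consecutive _ h1 h2, hfirst,
        Finset.sum_eq_sum_Ico_succ_bot h]
      congr 2
      unfold hh
      rw [if_neg (by omega), if_pos le_rfl]

/-- Left gaps and corner. `lgM` consists of the rows `1, ..., cn - 1` (heights `1 / (qn + s)`), the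
piece of height `H - ch qn cn` (row `cn` if `cn < ck`, the corner if `cn = ck`) and pieces of height
`0`. In the coarse mode the width of the latter is `lX 0 S - lX (cn - 1) S` plus the row difference of
the columns with more than `cn` squares (`xdif_split`, `xdif_coarse`). -/
theorem lg_sound {d Hn e e' ck nj X qn cn gn Xs ns qs : ℕ} {S : List ℕ} {H : ℝ} {G : Bool}
    (hd : d = 2 ^ 112) (hcn : cn ≤ 1023) (hI : CInv Hn e H ck nj X qn cn gn Xs ns qs S)
    (he : e + 2 * S.length + 2048 ≤ e') (he' : e' ≤ 2 ^ 34) {I : List ℕ} {T : Tr} {F : Bt}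
    {k : List ℕ → Tr → Bt → Bool} (h : lg d G qn cn gn X nj Xs ns qs S I T F k = true) :
    ∃ (I' : List ℕ) (T' : Tr) (F' : Bt) (A : Multiset (ℕ × ℕ)) (L : Multiset ℕ),
      T'.ms = A + T.ms ∧ F.ms = L + F'.ms ∧ k I' T' F' = true ∧ Disp e' (lgM H ck qn cn S) A L := by
  obtain ⟨srt, ⟨x0, S0, hx0, hqx, hcx⟩, last, len, ht, Xl, Xu, gl, gu, st0, st1⟩ := hI
  have hS1 : ∀ x ∈ S, 1 ≤ cq x ∧ 1 ≤ cc x := srt.2
  have hx0S : x0 ∈ S := by rw [hx0]; exact List.mem_cons_self
  have hmin : ∀ x ∈ S, qn ≤ cq x ∧ cn ≤ cc x := by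
    intro x hx
    have h1 := srt.1
    rw [hx0, List.pairwise_cons] at h1
    rw [hx0, List.mem_cons] at hx
    rcases hx with rfl | hx
    · exact ⟨hqx.symm.le, hcx.symm.le⟩
    · have := h1.1 x hx
      rw [hqx, hcx] at this
      exact this
  have hcn1 : 1 ≤ cn := hcx ▸ (hS1 x0 hx0S).2
  have hqn1 : 1 ≤ qn := hqx ▸ (hS1 x0 hx0S).1
  have hck : cn ≤ ck := hcx ▸ last x0 hx0S
  have hht : ch qn cn ≤ H := by
    have := ht x0 hx0S
    rwa [hqx, hcx] at this
  obtain ⟨Z, hZ, hM⟩ := lgM_eq (H := H) (qn := qn) hcn1 hck last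
  have hanti : ∀ s, lX s S ≤ lX 0 S := fun s => lX_anti hS1 (Nat.zero_le s)
  have hZd : Disp e' Z 0 0 := by
    apply Disp.drop
    intro r hr
    obtain ⟨s, rfl⟩ := hZ r hr
    exact ⟨by have := hanti s; simp only; linarith, le_rfl, Or.inr rfl⟩
  -- it suffices to dispose of the two main parts
  have hfin : ∀ {A : Multiset (ℕ × ℕ)} {L : Multiset ℕ},
      Disp e' (∑ s ∈ Ico 1 cn, {(lX 0 S - lX s S, 1 / ((qn + s : ℕ) : ℝ))} +
        {(lX 0 S - lX cn S, H - ch qn cn)}) A L → Disp e' (lgM H ck qn cn S) A L := by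
    intro A L hAL
    rw [hM, ← add_assoc]
    have := hAL.add hZd
    rwa [add_zero, add_zero] at this
  have hz := zdif_bounds (r := cn) hd hS1
  have heR : (e : ℝ) + 2 * S.length + 2048 ≤ e' := by exact_mod_cast he
  have hcnR : (cn : ℝ) ≤ 1023 := by exact_mod_cast hcn
  have hlen0 : (0 : ℝ) ≤ S.length := Nat.cast_nonneg _
  have he0 : (0 : ℝ) ≤ e := Nat.cast_nonneg _
  have hAppL : App e' (zdif d cn S, gn) (lX 0 S - lX cn S, H - ch qn cn) :=
    disp_one hz.1 (by linarith [hz.2]) gl (by linarith)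
  rcases br_true h with ⟨g1, h1⟩ | ⟨g1, h1⟩
  · have hcn2 : 2 ≤ cn := Nat.le_of_ble_eq_true g1
    rcases br_true h1 with ⟨g2, h2⟩ | ⟨g2, h2⟩
    · -- one by one
      obtain ⟨I1, T1, F1, A1, L1, t1, f1, h3, d1⟩ :=
        lgap_sound (e' := e') hd hS1 hqn1 (by omega) he' _ _ _ _ _ _ h2
      obtain ⟨i, I2, -, h4⟩ := hd_sound h3
      obtain ⟨T2, F2, A2, L2, t2, f2, d2, h5⟩ := disp_sound h4 hAppL he'
      refine ⟨I2, T2, F2, A1 + A2, L1 + L2, ?_, ?_, h5, hfin ?_⟩
      · rw [t2, t1]; ac_rfl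
      · rw [f1, f2]; ac_rfl
      · have e1 : 1 + (cn - 1) = cn := by omega
        have d1' : Disp e' (∑ s ∈ Ico 1 (1 + (cn - 1)),
          {(lX 0 S - lX s S, 1 / ((qn + s : ℕ) : ℝ))}) A1 L1 := d1
        rw [e1] at d1'
        exact d1'.add d2
    · -- coarse
      obtain ⟨I1, F1, L1, f1, h3, d1⟩ :=
        lgapC_sound (e' := e') (cn := cn) hmin hqn1 Xl Xu (cn - 1) 1 I F _ le_rfl (by omega) h2
      obtain ⟨i, I2, -, h4⟩ := hd_sound h3
      -- widths
      have hW1 := zdif_coarse (r := cn - 1) (qn := qn) (S := S) hqn1 fun x hx => by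
        have := hmin x hx
        omega
      have hcm : ((cn - 1 : ℕ) : ℝ) = (cn : ℝ) - 1 := by
        rw [Nat.cast_sub hcn1]; simp
      have hW10 : 0 ≤ lX 0 S - lX (cn - 1) S := by have := hanti (cn - 1); linarith
      have hW20 : 0 ≤ lX (cn - 1) S - lX cn S := by
        have := lX_anti (r := cn - 1) (s := cn) hS1 (by omega)
        linarith
      have hcn1R : (1 : ℝ) ≤ cn := by exact_mod_cast hcn1
      have hqn0 : (0 : ℝ) < qn := by exact_mod_cast hqn1
      have hp : (0 : ℝ) ≤ 2 ^ 112 := by positivity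
      have hX0 : (0 : ℝ) ≤ X := Nat.cast_nonneg X
      -- second part of the width
      have hW2 : (Xs : ℝ) - ((((2 * (cn * Xs)) / qs : ℕ) : ℝ) + 1) ≤
            (lX (cn - 1) S - lX cn S) * 2 ^ 112 ∧
          (lX (cn - 1) S - lX cn S) * 2 ^ 112 ≤ Xs + ns := by
        by_cases hns : ns = 0
        · obtain ⟨hXs, hcc⟩ := st0 hns
          have hxz := xdif_zero (r := cn - 1) (S := S) fun x hx => by
            have := last x hx
            omega
          rw [Nat.sub_add_cancel hcn1] at hxz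
          rw [hxz, hXs, hns]
          simp only [sub_self, zero_mul, Nat.cast_zero, add_zero, le_refl, and_true, zero_sub,
            Left.neg_nonpos_iff]
          positivity
        · obtain ⟨-, S1, S2, hSS, hS1c, hS2l, hS2, hqs, hXsl, hXsu⟩ := st1 hns
          have hsp := xdif_split (r := cn - 1) (S1 := S1) (S2 := S2) fun x hx => by
            have := hS1c x hx
            omega
          rw [Nat.sub_add_cancel hcn1, ← hSS] at hsp
          have hco := xdif_coarse (r := cn - 1) (qn := qs) (S := S2) hqs fun x hx => by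
            have := hS2 x hx
            omega
          rw [Nat.sub_add_cancel hcn1, hcm] at hco
          rw [hsp] at hW20 ⊢
          have hqs0 : (0 : ℝ) < qs := by exact_mod_cast hqs
          have hXs0 : (0 : ℝ) ≤ Xs := Nat.cast_nonneg Xs
          constructor
          · have c1 := lt_div_add' (d := 2 * (cn * Xs)) hqs
            push_cast at c1
            have c2 : (Xs : ℝ) - ((((2 * (cn * Xs)) / qs : ℕ) : ℝ) + 1) ≤
                Xs * (1 - 2 * ((cn : ℝ) - 1) / qs) := by
              have c3 : (Xs : ℝ) * (1 - 2 * ((cn : ℝ) - 1) / qs) =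
                  Xs - 1 / qs * (2 * (cn * Xs)) + 2 * Xs / qs := by
                field_simp
                ring
              rw [c3]
              have c4 : 0 ≤ 2 * (Xs : ℝ) / qs := by positivity
              linarith
            refine c2.trans ?_
            rcases le_or_gt 0 (1 - 2 * ((cn : ℝ) - 1) / qs) with hs | hs
            · have c5 := mul_le_mul_of_nonneg_right hXsl hs
              have c6 := mul_le_mul_of_nonneg_right hco.1 hp
              linarith
            · have c5 := mul_nonpos_of_nonneg_of_nonpos hXs0 hs.le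
              exact c5.trans (mul_nonneg hW20 hp)
          · have c6 := mul_le_mul_of_nonneg_right hco.2 hp
            linarith
      have hW1l : ((cn : ℝ) - 1) * X - ((((cn - 1) * (cn - 1) * X / qn : ℕ) : ℝ) + 1) ≤
          (lX 0 S - lX (cn - 1) S) * 2 ^ 112 := by
        have c1 := lt_div_add' (d := (cn - 1) * (cn - 1) * X) hqn1
        rw [Nat.cast_mul, Nat.cast_mul, hcm] at c1
        have c2 : ((cn : ℝ) - 1) * X - ((((cn - 1) * (cn - 1) * X / qn : ℕ) : ℝ) + 1) ≤
            ((cn : ℝ) - 1) * X * (1 - ((cn : ℝ) - 1) / qn) := by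
          have c3 : ((cn : ℝ) - 1) * X * (1 - ((cn : ℝ) - 1) / qn) =
              ((cn : ℝ) - 1) * X - 1 / qn * (((cn : ℝ) - 1) * ((cn : ℝ) - 1) * X) := by
            field_simp
          rw [c3]
          linarith
        refine c2.trans ?_
        rw [hcm] at hW1
        rcases le_or_gt 0 (1 - ((cn : ℝ) - 1) / qn) with hs | hs
        · have c5 := mul_le_mul_of_nonneg_right
            (mul_le_mul_of_nonneg_left Xl (by linarith : (0 : ℝ) ≤ (cn : ℝ) - 1)) hs
          have c6 := mul_le_mul_of_nonneg_right hW1.1 hp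
          linarith
        · have c5 := mul_nonpos_of_nonneg_of_nonpos
            (mul_nonneg (by linarith : (0 : ℝ) ≤ (cn : ℝ) - 1) hX0) hs.le
          exact c5.trans (mul_nonneg hW10 hp)
      have hW1u : (lX 0 S - lX (cn - 1) S) * 2 ^ 112 ≤ ((cn : ℝ) - 1) * (X + nj) := by
        rw [hcm] at hW1
        have c6 := mul_le_mul_of_nonneg_right hW1.2 hp
        have c7 := mul_le_mul_of_nonneg_left Xu (by linarith : (0 : ℝ) ≤ (cn : ℝ) - 1)
        linarith
      set Gp : Multiset (ℝ × ℝ) := {(lX 0 S - lX cn S, H - ch qn cn)} with hG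
      obtain ⟨rec, F2, f2, l2, h5⟩ := fatR_sound (G := Gp) h4 (by simp [hG])
        (by
          intro p hp'
          rw [hG, Multiset.mem_singleton] at hp'
          subst hp'
          show (((((cn - 1) * X + Xs) - (((cn - 1) * (cn - 1) * X / qn + 2 * (cn * Xs) / qs) + 2) : ℕ)) : ℝ)
              ≤ (lX 0 S - lX cn S) * 2 ^ 112 ∧
            (lX 0 S - lX cn S) * 2 ^ 112 ≤ (((cn - 1) * (X + nj) + (Xs + ns) : ℕ) : ℝ) + 2 ^ 34
          constructor
          · rcases Nat.lt_or_ge (((cn - 1) * (cn - 1) * X / qn + 2 * (cn * Xs) / qs) + 2)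
              ((cn - 1) * X + Xs) with hc | hc
            · rw [Nat.cast_sub hc.le, Nat.cast_add, Nat.cast_mul, hcm, Nat.cast_add, Nat.cast_add]
              have := hW2.1
              push_cast at this hW1l ⊢
              linarith
            · rw [Nat.sub_eq_zero_of_le hc, Nat.cast_zero]
              have := hanti cn
              exact mul_nonneg (by linarith) hp
          · rw [Nat.cast_add, Nat.cast_mul, hcm]
            push_cast
            have := hW2.2
            have c9 : (0 : ℝ) ≤ 2 ^ 34 := by positivity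
            linarith)
        (by
          intro p hp'
          rw [hG, Multiset.mem_singleton] at hp'
          subst hp'
          show 0 ≤ H - ch qn cn
          linarith)
        (by
          rw [hG, Multiset.map_singleton, Multiset.sum_singleton]
          show (H - ch qn cn) * (2 : ℝ) ^ 36 ≤ (((gn >>> 76) + 2 : ℕ) : ℝ)
          rw [Nat.shiftRight_eq_div_pow]
          have h7 : gn < gn / 2 ^ 76 * 2 ^ 76 + 2 ^ 76 := Nat.lt_div_mul_add (by norm_num)
          set Q := gn / 2 ^ 76 with hQ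
          have h8 : (gn : ℝ) ≤ (Q : ℝ) * 2 ^ 76 + 2 ^ 76 := by exact_mod_cast h7.le
          have c2 : (H - ch qn cn) * 2 ^ 36 = (H - ch qn cn) * 2 ^ 112 / 2 ^ 76 := by
            rw [show (2 : ℝ) ^ 112 = 2 ^ 36 * 2 ^ 76 by norm_num]
            field_simp
          rw [c2, div_le_iff₀ (by positivity), Nat.cast_add]
          have c3 : (e : ℝ) ≤ 2 ^ 34 := by
            have : e ≤ 2 ^ 34 := by omega
            exact_mod_cast this
          have c4 : (2 : ℝ) ^ 34 + 1023 + 3 ≤ 2 ^ 76 := by norm_num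
          have c5 : ((Q : ℝ) + ((2 : ℕ) : ℝ)) * 2 ^ 76 = (Q : ℝ) * 2 ^ 76 + 2 ^ 76 + 2 ^ 76 := by
            push_cast
            ring
          rw [c5]
          linarith)
      refine ⟨I2, T, F2, 0, L1 + {rec}, by simp, ?_, h5, hfin ?_⟩
      · rw [f1, f2, ← Multiset.singleton_add]; ac_rfl
      · have e1 : 1 + (cn - 1) = cn := by omega
        have d1' : Disp e' (∑ s ∈ Ico 1 (1 + (cn - 1)),
          {(lX 0 S - lX s S, 1 / ((qn + s : ℕ) : ℝ))}) 0 L1 := d1
        rw [e1] at d1'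
        have := d1'.add (Disp.leaf (e := e') l2)
        rwa [add_zero] at this
  · -- one row
    have hcn2 : cn = 1 := by
      have h6 : ¬ 2 ≤ cn := fun hc => by
        have := Nat.ble_eq_true_of_le hc
        have g1' : Nat.ble 2 cn = false := g1
        rw [this] at g1'
        exact absurd g1' (by simp)
      omega
    have hI0 : (∑ s ∈ Ico 1 cn, {(lX 0 S - lX s S, 1 / ((qn + s : ℕ) : ℝ))} : Multiset (ℝ × ℝ)) = 0 := by
      rw [hcn2]; simp
    rcases br_true h1 with ⟨g2, h2⟩ | ⟨g2, h2⟩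
    · have hns : ns = 0 := Nat.eq_of_beq_eq_true g2
      obtain ⟨hXs, hcc⟩ := st0 hns
      refine ⟨I, T, F, 0, 0, by simp, by simp, h2, hfin ?_⟩
      rw [hI0, zero_add]
      apply Disp.drop
      intro r hr
      rw [Multiset.mem_singleton] at hr
      subst hr
      have hxz := xdif_zero (r := 0) (S := S) fun x hx => by
        have := last x hx
        omega
      refine ⟨?_, ?_, Or.inl ?_⟩
      · have := hanti cn
        show 0 ≤ lX 0 S - lX cn S
        linarith
      · show 0 ≤ H - ch qn cn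
        linarith
      · show lX 0 S - lX cn S = 0
        rw [hcn2, hxz]
        simp
    · obtain ⟨i, I1, -, h3⟩ := hd_sound h2
      obtain ⟨T1, F1, A1, L1, t1, f1, d1, h4⟩ := disp_sound h3 hAppL he'
      refine ⟨I1, T1, F1, A1, L1, t1, f1, h4, hfin ?_⟩
      rw [hI0, zero_add]
      exact d1

end Pool.Agent.Moser.Ck
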