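import Mathlib

/-! # MP_cc07e8_co: digits of pi (piece PI) -/

namespace Pool.Agent.Moser.Ck

private theorem ckpi_arctan (x : ℝ) (h0 : 0 ≤ x) (h1 : x < 1) (N : ℕ) :
    |(∑ i ∈ Finset.range N, (-1 : ℝ) ^ i * x ^ (2 * i + 1) / ((2 * i + 1 : ℕ) : ℝ)) - Real.arctan x|
      ≤ x * (x ^ 2) ^ N / (1 - x ^ 2) := by
  have hs := Real.hasSum_arctan (x := x) (by rw [Real.norm_eq_abs, abs_of_nonneg h0]; exact h1)
  have hr : x ^ 2 < 1 := by nlinarith
  have h := norm_sub_le_of_geometric_bound_of_hasSum hr (C := x) (fun n => ?_) hs N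
  · rw [Real.norm_eq_abs] at h
    exact h
  · rw [Real.norm_eq_abs, abs_div, abs_mul, abs_pow, abs_neg, abs_one, one_pow, one_mul,
      abs_of_nonneg (pow_nonneg h0 _), Nat.abs_cast]
    have e : x * (x ^ 2) ^ n = x ^ (2 * n + 1) := by ring
    rw [e]
    exact div_le_self (pow_nonneg h0 _) (by exact_mod_cast (by omega : 1 ≤ 2 * n + 1))

/-- e.g. by `Real.four_mul_arctan_inv_5_sub_arctan_inv_239` and the series of `arctan` with a geometric
bound of the tail -/
theorem pi_digits :
    (3.14159265358979323846264338327950288419716939937510 : ℝ) < Real.pi ∧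
      Real.pi < 3.14159265358979323846264338327950288419716939937511 := by
  have h5 := abs_le.1 (ckpi_arctan (1 / 5) (by norm_num) (by norm_num) 38)
  have h239 := abs_le.1 (ckpi_arctan (1 / 239) (by norm_num) (by norm_num) 11)
  have hp := Real.four_mul_arctan_inv_5_sub_arctan_inv_239
  have e5 : (5 : ℝ)⁻¹ = 1 / 5 := by norm_num
  have e239 : (239 : ℝ)⁻¹ = 1 / 239 := by norm_num
  rw [e5, e239] at hp
  obtain ⟨a1, a2⟩ := h5
  obtain ⟨b1, b2⟩ := h239
  simp only [Finset.sum_range_succ, Finset.sum_range_zero] at a1 a2 b1 b2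
  norm_num at a1 a2 b1 b2
  norm_num at hp
  constructor
  · norm_num
    linarith
  · norm_num
    linarith

/-- `π ^ 2` in units `2 ^ (-140)` -/
theorem pi_sq_bounds : (13756220809936888792555873389733620818053206 : ℝ) ≤ Real.pi ^ 2 * 2 ^ 140 ∧
    Real.pi ^ 2 * 2 ^ 140 ≤ 13756220809936888792555873389733620818053207 := by
  obtain ⟨h1, h2⟩ := pi_digits
  have h3 : (3.14159265358979323846264338327950288419716939937510 : ℝ) ^ 2 ≤ Real.pi ^ 2 := by
    gcongr
  have h4 : Real.pi ^ 2 ≤ (3.14159265358979323846264338327950288419716939937511 : ℝ) ^ 2 := by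
    gcongr
  norm_num at h3 h4
  constructor
  · norm_num
    linarith
  · norm_num
    linarith

end Pool.Agent.Moser.Ck
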