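import Pool.Agent.Lib_MP_cc07e8_ck.CkLg

/-! # MP_cc07e8_co: pockets between two columns in coarse form (piece PKC) -/

open Finset

namespace Pool.Agent.Moser.Ck

theorem pkc_natdiv (a b : ℕ) (hb : 0 < b) : (a : ℝ) / b ≤ ((Nat.succ (a / b) : ℕ) : ℝ) := by
  have hb' : (0 : ℝ) < b := by exact_mod_cast hb
  rw [div_le_iff₀ hb']
  have h1 : a < b * (a / b + 1) := Nat.lt_mul_div_succ a hb
  have h2 : a ≤ (Nat.succ (a / b)) * b := by
    rw [Nat.mul_comm]
    exact h1.le
  exact_mod_cast h2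

/-- the lower bound of the widths in coarse form -/
theorem pkc_low {X Y cn qn s : ℕ} {l w : ℝ} (hq : 1 ≤ qn) (hs : s ≤ cn) (hXl : (X : ℝ) ≤ l * 2 ^ 112)
    (hw0 : 0 ≤ w) (hw : l * (1 - 2 * s / qn) ≤ w) (hY : Y = X - Nat.succ (2 * (cn * X) / qn)) :
    (Y : ℝ) ≤ w * 2 ^ 112 := by
  have hq' : (0 : ℝ) < qn := by exact_mod_cast hq
  have hP : (0 : ℝ) < 2 ^ 112 := by positivity
  rcases le_total X (Nat.succ (2 * (cn * X) / qn)) with h | h
  · rw [hY, Nat.sub_eq_zero_of_le h, Nat.cast_zero]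
    positivity
  · rw [hY, Nat.cast_sub h]
    have h1 := pkc_natdiv (2 * (cn * X)) qn (by omega)
    have hX0 : (0 : ℝ) ≤ X := Nat.cast_nonneg _
    have hs' : (s : ℝ) ≤ cn := by exact_mod_cast hs
    have h2 : (2 * (s : ℝ) / qn) * X ≤ ((2 * (cn * X) : ℕ) : ℝ) / qn := by
      push_cast
      rw [div_mul_eq_mul_div, div_le_div_iff_of_pos_right hq']
      nlinarith
    have h3 : (X : ℝ) - ((Nat.succ (2 * (cn * X) / qn) : ℕ) : ℝ) ≤ X * (1 - 2 * s / qn) := by
      nlinarith
    rcases le_total 0 (1 - 2 * (s : ℝ) / qn) with h4 | h4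
    · have h5 : (X : ℝ) * (1 - 2 * s / qn) ≤ l * 2 ^ 112 * (1 - 2 * s / qn) := mul_le_mul_of_nonneg_right hXl h4
      have h6 : l * 2 ^ 112 * (1 - 2 * s / qn) = l * (1 - 2 * s / qn) * 2 ^ 112 := by ring
      have h7 : l * (1 - 2 * s / qn) * 2 ^ 112 ≤ w * 2 ^ 112 := mul_le_mul_of_nonneg_right hw hP.le
      linarith
    · have h5 : (X : ℝ) * (1 - 2 * s / qn) ≤ 0 := mul_nonpos_of_nonneg_of_nonpos hX0 h4
      have h6 : 0 ≤ w * 2 ^ 112 := by positivity
      linarith

theorem pkc_sum_card {α : Type} (f : ℕ → α) (n : ℕ) : (∑ s ∈ range n, ({f s} : Multiset α)).card = n := by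
  induction n with
  | zero => simp
  | succ n ih => rw [Finset.sum_range_succ, Multiset.card_add, ih, Multiset.card_singleton]

theorem pkc_sum_mem {α : Type} (f : ℕ → α) (n : ℕ) (p : α) (h : p ∈ ∑ s ∈ range n, ({f s} : Multiset α)) :
    ∃ s, s < n ∧ p = f s := by
  induction n with
  | zero => simp at h
  | succ n ih =>
    rw [Finset.sum_range_succ, Multiset.mem_add] at h
    rcases h with h | h
    · obtain ⟨s, hs, hp⟩ := ih h
      exact ⟨s, by omega, hp⟩
    · rw [Multiset.mem_singleton] at h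
      exact ⟨n, by omega, h⟩

theorem pkc_sum_snd (f : ℕ → ℝ × ℝ) (n : ℕ) :
    ((∑ s ∈ range n, ({f s} : Multiset (ℝ × ℝ))).map Prod.snd).sum = ∑ s ∈ range n, (f s).2 := by
  induction n with
  | zero => simp
  | succ n ih =>
    rw [Finset.sum_range_succ, Finset.sum_range_succ, Multiset.map_add, Multiset.sum_add, ih,
      Multiset.map_singleton, Multiset.sum_singleton]

theorem pkc_sum_Ico_mem {α : Type} (f : ℕ → α) (a b : ℕ) (p : α) (h : p ∈ ∑ s ∈ Ico a b, ({f s} : Multiset α)) :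
    ∃ s, a ≤ s ∧ s < b ∧ p = f s := by
  rw [Finset.sum_Ico_eq_sum_range] at h
  obtain ⟨s, hs, hp⟩ := pkc_sum_mem (fun i => f (a + i)) _ _ h
  exact ⟨a + s, by omega, by omega, hp⟩

theorem pkc_beq {a b : ℕ} : Nat.beq a b = true ↔ a = b := by
  constructor
  · exact Nat.eq_of_beq_eq_true
  · rintro rfl
    exact Nat.beq_refl _

/-- Pockets in coarse form. Rows `s ≤ cn - 2`: widths by `xdif_coarse` (`S`, all columns have at least
`cn` squares), heights `ch q (s + 1) - ch qn (s + 1)` (because `cn ≤ c + 1`), total by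
`ch_dif_sum_le`. Row `cn - 1`: width `0` if `ns = 0`, else by `xdif_split`, `xdif_coarse` (`S2`), height
`ch q cn - ch qn cn` (`c = cn`) or `H - ch qn cn` (`c + 1 = cn`). Rows `s ≥ cn`: height `0`. -/
theorem pkC_sound {Hn e e' ck q c nj X qn cn gn Xs ns qs : ℕ} {S : List ℕ} {H : ℝ}
    (hcn : cn ≤ 1023) (hI : CInv Hn e H ck nj X qn cn gn Xs ns qs S) (hq : 1 ≤ q) (hqn : q ≤ qn)
    (hc : 1 ≤ c) (hccn : c ≤ cn) (hch : ch q c ≤ H) (he : e + 2048 ≤ e') (he' : e' ≤ 2 ^ 34)
    {I : List ℕ} {F : Bt} {k : List ℕ → Bt → Bool}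
    (h : pkC q c qn cn gn X nj Xs ns qs I F k = true) :
    ∃ (I' : List ℕ) (F' : Bt) (L : Multiset ℕ), F.ms = L + F'.ms ∧ k I' F' = true ∧
      Disp e' (pkM H ck q c qn cn S) 0 L := by
  obtain ⟨x0, S', hS0, hx1, hx2⟩ := hI.head
  have hqn1 : 1 ≤ qn := hq.trans hqn
  have hpos : ∀ x ∈ S, 1 ≤ cq x ∧ 1 ≤ cc x := hI.srt.2
  have hall : ∀ x ∈ S, qn ≤ cq x ∧ cn ≤ cc x := by
    intro x hx
    have hp := hI.srt.1
    rw [hS0] at hp hx
    rw [List.pairwise_cons] at hp
    rcases List.mem_cons.1 hx with rfl | hx'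
    · exact ⟨hx1.ge, hx2.ge⟩
    · have := hp.1 x hx'
      rw [hx1, hx2] at this
      exact this
  have hx0 : x0 ∈ S := by rw [hS0]; exact List.mem_cons_self
  have hck : cn ≤ ck := by
    have := hI.last x0 hx0
    rwa [hx2] at this
  have hchn : ch qn cn ≤ H := by
    have := hI.ht x0 hx0
    rwa [hx1, hx2] at this
  obtain ⟨hb1, h⟩ := br_false h
  obtain ⟨hb2, h⟩ := br_false h
  have hcc : cn ≤ c + 1 := Nat.le_of_ble_eq_true hb1
  have hcn2 : 2 ≤ cn := Nat.le_of_ble_eq_true hb2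
  obtain ⟨i, I2, hIi, h⟩ := hd_sound h
  -- rows below cn - 1
  set f : ℕ → ℝ × ℝ := fun r => (lX r S - lX (r + 1) S, hh H (r + 1) q c - hh H (r + 1) qn cn) with hf
  have hw0 : ∀ r, 0 ≤ lX r S - lX (r + 1) S := by
    intro r
    have := lX_anti hpos (Nat.le_succ r)
    linarith
  have hfr : ∀ r, r + 1 < cn → f r = (lX r S - lX (r + 1) S, ch q (r + 1) - ch qn (r + 1)) := by
    intro r hr
    rw [hf]
    dsimp only
    unfold hh
    rw [if_pos (by omega), if_pos (by omega)]
  have hP : (0 : ℝ) < 2 ^ 112 := by positivity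
  have hq0 : (0 : ℝ) < q := by exact_mod_cast hq
  have hqn0 : (0 : ℝ) < qn := by exact_mod_cast hqn1
  have hleaf1 := fatR_sound (G := ∑ s ∈ range (cn - 1), {f s}) h
    (by rw [pkc_sum_card]; exact le_refl _)
    (by
      intro p hp
      obtain ⟨s, hs, rfl⟩ := pkc_sum_mem _ _ _ hp
      have hcoarse := xdif_coarse (r := s) (qn := qn) hqn1 (S := S)
        (fun x hx => ⟨(hall x hx).1, by have := (hall x hx).2; omega⟩)
      constructor
      · exact pkc_low hqn1 (show s ≤ cn by omega) hI.Xl (hw0 s) hcoarse.1 rfl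
      · change (lX s S - lX (s + 1) S) * 2 ^ 112 ≤ ((X + nj : ℕ) : ℝ) + 2 ^ 34
        have h1 : (lX s S - lX (s + 1) S) * 2 ^ 112 ≤ lY S * 2 ^ 112 := mul_le_mul_of_nonneg_right hcoarse.2 hP.le
        have h2 := hI.Xu
        push_cast
        have h3 : (0 : ℝ) ≤ 2 ^ 34 := by positivity
        linarith)
    (by
      intro p hp
      obtain ⟨s, hs, rfl⟩ := pkc_sum_mem _ _ _ hp
      rw [hfr s (by omega)]
      have := ch_anti (r := s + 1) hq hqn
      change 0 ≤ ch q (s + 1) - ch qn (s + 1)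
      linarith)
    (by
      rw [pkc_sum_snd]
      have h1 : ∑ s ∈ range (cn - 1), (f s).2 = ∑ s ∈ range (cn - 1), (ch q (s + 1) - ch qn (s + 1)) := by
        apply Finset.sum_congr rfl
        intro s hs
        rw [hfr s (by have := Finset.mem_range.1 hs; omega)]
      rw [h1]
      have h2 := ch_dif_sum_le (n := cn - 1) hq hqn
      have h3 := pkc_natdiv (34359738368 * (cn * (cn - 1) * (qn - q))) (q * qn) (Nat.mul_pos (by omega) (by omega))
      refine le_trans ?_ h3
      have h4 : (∑ s ∈ range (cn - 1), (ch q (s + 1) - ch qn (s + 1))) * 2 ^ 36 ≤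
          (((cn - 1 : ℕ) : ℝ) * (((cn - 1 : ℕ) : ℝ) + 1) / 2 * ((qn : ℝ) - q) / (q * qn)) * 2 ^ 36 :=
        mul_le_mul_of_nonneg_right h2 (by positivity)
      refine h4.trans (le_of_eq ?_)
      rw [Nat.cast_mul, Nat.cast_mul, Nat.cast_mul, Nat.cast_mul, Nat.cast_sub hqn,
        Nat.cast_sub (show 1 ≤ cn by omega)]
      push_cast
      field_simp
      ring)
  obtain ⟨r1, F2, hF1, hlf1, h⟩ := hleaf1
  have hpk : pkM H ck q c qn cn S = ∑ s ∈ range (ck - 1), {f s} := rfl
  by_cases hns : ns = 0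
  · -- one record
    have hst := hI.st0 hns
    rcases br_true h with ⟨hb3, h⟩ | ⟨hb3, h⟩
    · refine ⟨I2, F2, {r1}, ?_, h, ?_⟩
      · rw [hF1, Multiset.singleton_add]
      · rw [hpk, ← hst.2]
        exact Disp.leaf hlf1
    · exfalso
      have : Nat.beq ns 0 = true := pkc_beq.2 hns
      rw [this] at hb3
      exact Bool.noConfusion hb3
  · rcases br_true h with ⟨hb3, h⟩ | ⟨hb3, h⟩
    · exact absurd (pkc_beq.1 hb3) hns
    obtain ⟨hckn, S1, S2, hS12, hS1, hS2l, hS2, hqs, hXsl, hXsu⟩ := hI.st1 hns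
    obtain ⟨i2, I3, hI3, h⟩ := hd_sound h
    have hsplit : lX (cn - 1) S - lX (cn - 1 + 1) S = lX (cn - 1) S2 - lX (cn - 1 + 1) S2 := by
      rw [hS12]
      apply xdif_split
      intro x hx
      rw [hS1 x hx]
      omega
    have hcoarse2 := xdif_coarse (r := cn - 1) (qn := qs) hqs (S := S2)
      (fun x hx => ⟨(hS2 x hx).2, by have := (hS2 x hx).1; omega⟩)
    have hleaf2 := fatR_sound (G := {f (cn - 1)}) h
      (by rw [Multiset.card_singleton])
      (by
        intro p hp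
        rw [Multiset.mem_singleton] at hp
        subst hp
        change ((Xs - Nat.succ (2 * (cn * Xs) / qs) : ℕ) : ℝ) ≤ (lX (cn - 1) S - lX (cn - 1 + 1) S) * 2 ^ 112 ∧
          (lX (cn - 1) S - lX (cn - 1 + 1) S) * 2 ^ 112 ≤ ((Xs + ns : ℕ) : ℝ) + 2 ^ 34
        rw [hsplit]
        constructor
        · apply pkc_low hqs (show cn - 1 ≤ cn by omega) hXsl _ hcoarse2.1 rfl
          rw [← hsplit]
          exact hw0 (cn - 1)
        · have h1 : (lX (cn - 1) S2 - lX (cn - 1 + 1) S2) * 2 ^ 112 ≤ lY S2 * 2 ^ 112 :=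
            mul_le_mul_of_nonneg_right hcoarse2.2 hP.le
          push_cast
          have h3 : (0 : ℝ) ≤ 2 ^ 34 := by positivity
          linarith)
      (by
        intro p hp
        rw [Multiset.mem_singleton] at hp
        subst hp
        change 0 ≤ hh H (cn - 1 + 1) q c - hh H (cn - 1 + 1) qn cn
        rw [show cn - 1 + 1 = cn by omega]
        unfold hh
        rw [if_pos (le_refl cn)]
        by_cases hccn' : cn ≤ c
        · rw [if_pos hccn']
          have := ch_anti (r := cn) hq hqn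
          linarith
        · rw [if_neg hccn']
          linarith)
      (by
        rw [Multiset.map_singleton, Multiset.sum_singleton]
        change (hh H (cn - 1 + 1) q c - hh H (cn - 1 + 1) qn cn) * 2 ^ 36 ≤ _
        rw [show cn - 1 + 1 = cn by omega]
        unfold hh
        rw [if_pos (le_refl cn)]
        by_cases hccn' : cn ≤ c
        · have hceq : c = cn := by omega
          rw [if_pos hccn', show Nat.beq c cn = true from pkc_beq.2 hceq]
          change (ch q cn - ch qn cn) * 2 ^ 36 ≤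
            ((Nat.succ (68719476736 * (cn * (qn - q)) / (q * qn)) : ℕ) : ℝ)
          have h1 := pkc_natdiv (68719476736 * (cn * (qn - q))) (q * qn) (Nat.mul_pos (by omega) (by omega))
          refine le_trans ?_ h1
          have h2 := ch_dif_le (r := cn) hq hqn
          have h3 : (ch q cn - ch qn cn) * 2 ^ 36 ≤ ((cn : ℝ) * ((qn : ℝ) - q) / (q * qn)) * 2 ^ 36 :=
            mul_le_mul_of_nonneg_right h2 (by positivity)
          refine h3.trans (le_of_eq ?_)
          rw [Nat.cast_mul, Nat.cast_mul, Nat.cast_mul, Nat.cast_sub hqn]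
          push_cast
          field_simp
          ring
        · have hbf : Nat.beq c cn = false := by
            cases hcase : Nat.beq c cn with
            | false => rfl
            | true => exact absurd (pkc_beq.1 hcase) (by omega)
          rw [if_neg hccn', hbf]
          change (H - ch qn cn) * (2 : ℝ) ^ 36 ≤ (((gn >>> 76) + 2 : ℕ) : ℝ)
          have h1 := hI.gu
          have h2 := pkc_natdiv gn (2 ^ 76) (by positivity)
          have h3 : gn >>> 76 = gn / 2 ^ 76 := Nat.shiftRight_eq_div_pow gn 76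
          rw [h3]
          have h4 : (H - ch qn cn) * 2 ^ 36 = (H - ch qn cn) * 2 ^ 112 / 2 ^ 76 := by
            rw [show (112 : ℕ) = 36 + 76 from rfl, pow_add]
            field_simp
          rw [h4]
          have h5 : (H - ch qn cn) * 2 ^ 112 / 2 ^ 76 ≤ ((gn : ℝ) + e + cn + 3) / 2 ^ 76 :=
            div_le_div_of_nonneg_right h1 (by positivity)
          have h6 : ((e : ℝ) + cn + 3) / 2 ^ 76 ≤ 1 := by
            rw [div_le_one (by positivity)]
            have h7 : e + cn + 3 ≤ 2 ^ 76 := by omega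
            exact_mod_cast h7
          have h8 : ((gn : ℝ) + e + cn + 3) / 2 ^ 76 = (gn : ℝ) / 2 ^ 76 + ((e : ℝ) + cn + 3) / 2 ^ 76 := by ring
          push_cast at h2 ⊢
          linarith)
    obtain ⟨r2, F3, hF2, hlf2, h⟩ := hleaf2
    refine ⟨I3, F3, {r1} + {r2}, ?_, h, ?_⟩
    · rw [hF1, hF2, add_assoc, Multiset.singleton_add, Multiset.singleton_add]
    · rw [hpk]
      have e1 : ∑ s ∈ range (ck - 1), ({f s} : Multiset (ℝ × ℝ)) =
          (∑ s ∈ range (cn - 1), {f s}) + ({f (cn - 1)} + ∑ s ∈ Ico cn (ck - 1), {f s}) := by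
        rw [← Finset.sum_range_add_sum_Ico _ (show cn - 1 ≤ ck - 1 by omega)]
        congr 1
        rw [Finset.sum_eq_sum_Ico_succ_bot (show cn - 1 < ck - 1 by omega)]
        rw [show cn - 1 + 1 = cn by omega]
      rw [e1]
      have d1 : Disp e' (∑ s ∈ range (cn - 1), {f s}) 0 {r1} := Disp.leaf hlf1
      have d2 : Disp e' {f (cn - 1)} 0 {r2} := Disp.leaf hlf2
      have d3 : Disp e' (∑ s ∈ Ico cn (ck - 1), {f s}) 0 0 := by
        apply Disp.drop
        intro p hp
        obtain ⟨s, hs1, hs2, rfl⟩ := pkc_sum_Ico_mem _ _ _ _ hp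
        have e2 : f s = (lX s S - lX (s + 1) S, 0) := by
          rw [hf]
          dsimp only
          unfold hh
          rw [if_neg (by omega), if_neg (by omega), sub_self]
        rw [e2]
        exact ⟨hw0 s, le_refl _, Or.inr rfl⟩
      have d4 := Disp.add d1 (Disp.add d2 d3)
      simpa using d4

end Pool.Agent.Moser.Ck
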