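import Pool.Agent.Lib_MP_cc07e8_ck.CkPock
import Pool.Agent.Lib_MP_cc07e8_ck.CkPkC

/-! # MP_cc07e8_co: all pockets between two columns (piece PK) -/

open Finset

namespace Pool.Agent.Moser.Ck

/-- All pockets between two columns, both modes (`pock_sound` with `r = y = z = 0`, the remaining rows
are degenerate by `xdif_zero` or have height `0`). -/
theorem pk_sound {d Hn e e' ck q c nj X qn cn gn Xs ns qs : ℕ} {S : List ℕ} {H : ℝ} {P : Bool}
    (hd : d = 2 ^ 112) (hH : (Hn : ℝ) ≤ H * 2 ^ 112 ∧ H * 2 ^ 112 ≤ Hn + e)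
    (hcn : cn ≤ 1023) (hI : CInv Hn e H ck nj X qn cn gn Xs ns qs S) (hq : 1 ≤ q) (hqn : q ≤ qn)
    (hc : 1 ≤ c) (hccn : c ≤ cn) (hch : ch q c ≤ H) (he : e + 2 * S.length + 2048 ≤ e')
    (he' : e' ≤ 2 ^ 34) {I : List ℕ} {T : Tr} {F : Bt} {k : List ℕ → Tr → Bt → Bool}
    (h : pk d Hn P ck q c qn cn gn X nj Xs ns qs S I T F k = true) :
    ∃ (I' : List ℕ) (T' : Tr) (F' : Bt) (A : Multiset (ℕ × ℕ)) (L : Multiset ℕ),
      T'.ms = A + T.ms ∧ F.ms = L + F'.ms ∧ k I' T' F' = true ∧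
      Disp e' (pkM H ck q c qn cn S) A L := by
  obtain ⟨x, S', hSx, hxq, hxc⟩ := hI.head
  have hxS : x ∈ S := by rw [hSx]; exact List.mem_cons_self
  have hcnck : cn ≤ ck := hxc ▸ hI.last x hxS
  have hchn : ch qn cn ≤ H := by rw [← hxq, ← hxc]; exact hI.ht x hxS
  unfold pk at h
  rcases br_true h with ⟨_, h⟩ | ⟨_, h⟩
  · obtain ⟨n, hn, hn1, hn2⟩ : ∃ n, (Bool.rec (motive := fun _ => ℕ) (Nat.sub cn 1) cn
        (Nat.ble (Nat.succ cn) ck)) = n ∧ n ≤ cn ∧ (n = ck - 1 ∨ (n = cn ∧ cn < ck)) := by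
      by_cases hb : cn < ck
      · refine ⟨cn, ?_, le_rfl, Or.inr ⟨rfl, hb⟩⟩
        rw [Nat.ble_eq_true_of_le hb]
      · refine ⟨cn - 1, ?_, Nat.sub_le _ _, Or.inl (by omega)⟩
        have : Nat.ble (Nat.succ cn) ck = false := by
          rw [← Bool.not_eq_true]
          intro h'
          exact hb (Nat.le_of_ble_eq_true h')
        rw [this]
        rfl
    rw [hn] at h
    have h00 : ch q 0 = 0 := by simp [ch]
    have h01 : ch qn 0 = 0 := by simp [ch]
    obtain ⟨I', T', F', A, L, h1, h2, h3, h4⟩ := pock_sound (e := e) (e' := e') hd hI.srt.2 hq hqn hcn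
      hH hchn he he' n 0 0 0 I T F k (by omega) (fun _ => by rw [h00, h01]; norm_num)
      (by rw [h01]; norm_num) (by rw [h01]; norm_num) h
    refine ⟨I', T', F', A, L, h1, h2, h3, ?_⟩
    have hle : n ≤ ck - 1 := by omega
    have hsplit : pkM H ck q c qn cn S =
        (∑ s ∈ Ico 0 (0 + n), {(lX s S - lX (s + 1) S, hh H (s + 1) q c - hh H (s + 1) qn cn)}) +
          (∑ s ∈ Ico n (ck - 1), {(lX s S - lX (s + 1) S,
            hh H (s + 1) q c - hh H (s + 1) qn cn)}) := by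
      unfold pkM
      rw [Nat.zero_add, Finset.range_eq_Ico, Finset.sum_Ico_consecutive _ (Nat.zero_le _) hle]
    rw [hsplit]
    have hdrop : Disp e' (∑ s ∈ Ico n (ck - 1), ({(lX s S - lX (s + 1) S,
            hh H (s + 1) q c - hh H (s + 1) qn cn)} : Multiset (ℝ × ℝ))) 0 0 := by
      apply Disp.drop
      intro r hr
      rw [Multiset.mem_sum] at hr
      obtain ⟨s, hs, hr⟩ := hr
      rw [Multiset.mem_singleton] at hr
      rw [Finset.mem_Ico] at hs
      rcases hn2 with hn2 | ⟨hn2, hn3⟩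
      · omega
      · have h5 : ¬ s + 1 ≤ c := by omega
        have h6 : ¬ s + 1 ≤ cn := by omega
        have h7 : hh H (s + 1) q c - hh H (s + 1) qn cn = 0 := by
          unfold hh
          rw [if_neg h5, if_neg h6, sub_self]
        rw [hr, h7]
        refine ⟨?_, le_rfl, Or.inr rfl⟩
        exact sub_nonneg.2 (lX_anti hI.srt.2 (Nat.le_succ s))
    have := h4.add hdrop
    rw [add_zero, add_zero] at this
    exact this
  · obtain ⟨I', F', L, h1, h2, h3⟩ := pkC_sound (e := e) (e' := e') hcn hI hq hqn hc hccn hch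
      (by omega) he' h
    exact ⟨I', T, F', 0, L, by simp, h1, h2, h3⟩

end Pool.Agent.Moser.Ck
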