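import Pool.Agent.Lib_MP_cc07e8_ck.CkFat
import Pool.Agent.Lib_MP_cc07e8_ck.CkDif

/-! # MP_cc07e8_co: pockets one by one (piece POCK) -/

open Finset

namespace Pool.Agent.Moser.Ck

theorem pock_div {d m : ℕ} (hd : d = 2 ^ 112) (hm : 1 ≤ m) :
    ((d / m : ℕ) : ℝ) ≤ 1 / (m : ℝ) * 2 ^ 112 ∧ 1 / (m : ℝ) * 2 ^ 112 ≤ ((d / m : ℕ) : ℝ) + 1 := by
  have hm' : (0 : ℝ) < m := by exact_mod_cast hm
  have hd' : (d : ℝ) = 2 ^ 112 := by rw [hd, Nat.cast_pow, Nat.cast_ofNat]
  have e1 : 1 / (m : ℝ) * 2 ^ 112 = (d : ℝ) / m := by rw [hd']; ring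
  rw [e1]
  refine ⟨Nat.cast_div_le, ?_⟩
  rw [div_le_iff₀ hm']
  have h1 : d < m * (d / m + 1) := Nat.lt_mul_div_succ d (by omega)
  have h2 : (d : ℝ) < m * (((d / m : ℕ) : ℝ) + 1) := by exact_mod_cast h1
  linarith

theorem pock_ch_succ (q r : ℕ) : ch q (r + 1) = ch q r + 1 / ((q + r : ℕ) : ℝ) := by
  unfold ch
  rw [Finset.sum_range_succ]

theorem pock_ch_mono (q : ℕ) {r s : ℕ} (h : r ≤ s) : ch q r ≤ ch q s := by
  unfold ch
  apply Finset.sum_le_sum_of_subset_of_nonneg (Finset.range_mono h)
  intro i _ _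
  positivity

/-- Pockets in the rows `r, ..., r + n - 1`: left column `q, c`, next column `qn, cn`, `S` the columns
from the next one on. In every row the error of the width is at most `2 * S.length` (`xdif_bounds`), the
error of the height at most `2 * (r + 1)` (rows below `c`) or `e + (r + 1)`. -/
theorem pock_sound {d Hn e e' q c qn cn : ℕ} {S : List ℕ} {H : ℝ} (hd : d = 2 ^ 112)
    (hS : ∀ x ∈ S, 1 ≤ cq x ∧ 1 ≤ cc x) (hq : 1 ≤ q) (hqn : q ≤ qn)
    (hcn' : cn ≤ 1023) (hH : (Hn : ℝ) ≤ H * 2 ^ 112 ∧ H * 2 ^ 112 ≤ Hn + e)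
    (hch : ch qn cn ≤ H) (he : e + 2 * S.length + 2048 ≤ e') (he' : e' ≤ 2 ^ 34) :
    ∀ (n r y z : ℕ) (I : List ℕ) (T : Tr) (F : Bt) (k : List ℕ → Tr → Bt → Bool),
      r + n ≤ cn →
      (r ≤ c → (y : ℝ) ≤ (ch q r - ch qn r) * 2 ^ 112 ∧ (ch q r - ch qn r) * 2 ^ 112 ≤ y + 2 * r) →
      ch qn r * 2 ^ 112 ≤ z → (z : ℝ) ≤ ch qn r * 2 ^ 112 + r →
      pock d Hn q c qn S n r y z I T F k = true →
      ∃ (I' : List ℕ) (T' : Tr) (F' : Bt) (A : Multiset (ℕ × ℕ)) (L : Multiset ℕ),
        T'.ms = A + T.ms ∧ F.ms = L + F'.ms ∧ k I' T' F' = true ∧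
        Disp e' (∑ s ∈ Ico r (r + n),
          {(lX s S - lX (s + 1) S, hh H (s + 1) q c - hh H (s + 1) qn cn)}) A L := by
  intro n
  induction n with
  | zero =>
    intro r y z I T F k _ _ _ _ h
    refine ⟨I, T, F, 0, 0, by simp, by simp, h, ?_⟩
    rw [Nat.add_zero, Finset.Ico_self, Finset.sum_empty]
    exact Disp.zero
  | succ n ih =>
    intro r y z I T F k hrn hy hz1 hz2 h
    cases I with
    | nil => exact absurd h (by intro h'; exact Bool.false_ne_true h')
    | cons i I1 =>
      set y' : ℕ := y + dif d (q + r) (qn + r) with hy'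
      set z' : ℕ := z + Nat.succ (d / (qn + r)) with hz'
      have h' : disp i (xdif d r S)
            (Bool.rec (motive := fun _ => Nat) (Nat.sub Hn z') y' (Nat.ble (Nat.succ r) c)) T F
            (fun T' F' => pock d Hn q c qn S n (Nat.succ r) y' z' I1 T' F' k) = true := h
      have hP : (0 : ℝ) < 2 ^ 112 := by positivity
      have hdz := pock_div hd (show 1 ≤ qn + r by omega)
      have hz1' : ch qn (r + 1) * 2 ^ 112 ≤ z' := by
        rw [pock_ch_succ, hz', add_mul]
        push_cast
        push_cast at hdz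
        linarith [hdz.2]
      have hz2' : (z' : ℝ) ≤ ch qn (r + 1) * 2 ^ 112 + ((r + 1 : ℕ) : ℝ) := by
        rw [pock_ch_succ, hz', add_mul]
        push_cast
        push_cast at hdz
        linarith [hdz.1]
      have hdy := dif_bounds hd (show 1 ≤ q + r by omega) (show q + r ≤ qn + r by omega)
      have hyb : r + 1 ≤ c → (y' : ℝ) ≤ (ch q (r + 1) - ch qn (r + 1)) * 2 ^ 112 ∧
          (ch q (r + 1) - ch qn (r + 1)) * 2 ^ 112 ≤ y' + 2 * ((r + 1 : ℕ) : ℝ) := by
        intro hrc
        have h1 := hy (by omega)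
        have e1 : (ch q (r + 1) - ch qn (r + 1)) * 2 ^ 112 =
            (ch q r - ch qn r) * 2 ^ 112 + (1 / ((q + r : ℕ) : ℝ) - 1 / ((qn + r : ℕ) : ℝ)) * 2 ^ 112 := by
          rw [pock_ch_succ, pock_ch_succ]; ring
        rw [e1, hy']
        push_cast
        push_cast at hdy
        constructor
        · linarith [h1.1, hdy.1]
        · linarith [h1.2, hdy.2]
      have he1 : (e : ℝ) + 2 * S.length + 2048 ≤ e' := by exact_mod_cast he
      have hr1 : ((r + 1 : ℕ) : ℝ) ≤ 1023 := by
        have : r + 1 ≤ 1023 := by omega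
        exact_mod_cast this
      have hx := xdif_bounds (r := r) hd hS
      have hlen : (0 : ℝ) ≤ S.length := Nat.cast_nonneg _
      have he0 : (0 : ℝ) ≤ e := Nat.cast_nonneg _
      have hhn : hh H (r + 1) qn cn = ch qn (r + 1) := by
        unfold hh
        rw [if_pos (by omega)]
      have happ : App e' (xdif d r S, (Bool.rec (motive := fun _ => Nat) (Nat.sub Hn z') y' (Nat.ble (Nat.succ r) c)))
          (lX r S - lX (r + 1) S, hh H (r + 1) q c - hh H (r + 1) qn cn) := by
        refine ⟨hx.1, ?_, ?_, ?_⟩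
        · change (lX r S - lX (r + 1) S) * 2 ^ 112 ≤ (xdif d r S : ℝ) + e'
          linarith [hx.2]
        · change (((Bool.rec (motive := fun _ => Nat) (Nat.sub Hn z') y' (Nat.ble (Nat.succ r) c)) : ℕ) : ℝ) ≤
            (hh H (r + 1) q c - hh H (r + 1) qn cn) * 2 ^ 112
          by_cases hrc : r + 1 ≤ c
          · have hb : Nat.ble (Nat.succ r) c = true := Nat.ble_eq_true_of_le hrc
            have hhq : hh H (r + 1) q c = ch q (r + 1) := by
              unfold hh
              rw [if_pos hrc]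
            rw [hb, hhq, hhn]
            exact (hyb hrc).1
          · have hb : Nat.ble (Nat.succ r) c = false := by
              cases hcase : Nat.ble (Nat.succ r) c with
              | false => rfl
              | true => exact absurd (Nat.le_of_ble_eq_true hcase) hrc
            have hhq : hh H (r + 1) q c = H := by
              unfold hh
              rw [if_neg hrc]
            rw [hb, hhq, hhn]
            change ((Hn - z' : ℕ) : ℝ) ≤ (H - ch qn (r + 1)) * 2 ^ 112
            rcases le_total z' Hn with h1 | h1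
            · rw [Nat.cast_sub h1, sub_mul]
              linarith [hH.1]
            · rw [Nat.sub_eq_zero_of_le h1, Nat.cast_zero]
              have h2 : ch qn (r + 1) ≤ ch qn cn := pock_ch_mono qn (by omega)
              have h3 : 0 ≤ H - ch qn (r + 1) := by linarith
              positivity
        · change (hh H (r + 1) q c - hh H (r + 1) qn cn) * 2 ^ 112 ≤
            (((Bool.rec (motive := fun _ => Nat) (Nat.sub Hn z') y' (Nat.ble (Nat.succ r) c)) : ℕ) : ℝ) + e'
          by_cases hrc : r + 1 ≤ c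
          · have hb : Nat.ble (Nat.succ r) c = true := Nat.ble_eq_true_of_le hrc
            have hhq : hh H (r + 1) q c = ch q (r + 1) := by
              unfold hh
              rw [if_pos hrc]
            rw [hb, hhq, hhn]
            change (ch q (r + 1) - ch qn (r + 1)) * 2 ^ 112 ≤ (y' : ℝ) + e'
            linarith [(hyb hrc).2]
          · have hb : Nat.ble (Nat.succ r) c = false := by
              cases hcase : Nat.ble (Nat.succ r) c with
              | false => rfl
              | true => exact absurd (Nat.le_of_ble_eq_true hcase) hrc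
            have hhq : hh H (r + 1) q c = H := by
              unfold hh
              rw [if_neg hrc]
            rw [hb, hhq, hhn]
            change (H - ch qn (r + 1)) * 2 ^ 112 ≤ ((Hn - z' : ℕ) : ℝ) + e'
            rw [sub_mul]
            rcases le_total z' Hn with h1 | h1
            · rw [Nat.cast_sub h1]
              linarith [hH.2]
            · have h1' : (Hn : ℝ) ≤ z' := by exact_mod_cast h1
              have h2 : (0 : ℝ) ≤ ((Hn - z' : ℕ) : ℝ) := Nat.cast_nonneg _
              linarith [hH.2]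
      obtain ⟨T1, F1, A1, L1, hT1, hF1, hD1, hk1⟩ := disp_sound h' happ he'
      obtain ⟨I2, T2, F2, A2, L2, hT2, hF2, hk2, hD2⟩ := ih (r + 1) y' z' I1 T1 F1 k (by omega) hyb hz1' hz2' hk1
      refine ⟨I2, T2, F2, A1 + A2, L1 + L2, ?_, ?_, hk2, ?_⟩
      · rw [hT2, hT1]
        ac_rfl
      · rw [hF1, hF2]
        ac_rfl
      · have e2 : r + (n + 1) = (r + 1) + n := by ring
        rw [e2, Finset.sum_eq_sum_Ico_succ_bot (show r < r + 1 + n by omega)]
        exact Disp.add hD1 hD2

end Pool.Agent.Moser.Ck
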