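import Pool.Agent.Lib_MP_cc07e8_ck.CkRowSem

/-! # MP_cc07e8_co: packed bucket sums (piece RNG) -/

open Finset

namespace Pool.Agent.Moser.Ck

/-- the number that packs the entries `(bucket, value)` with slots of `s` bits -/
def pack (s : ℕ) (M : Multiset (ℕ × ℕ)) : ℕ := (M.map fun p => p.2 * 2 ^ (s * p.1)).sum

/-- sum of the values -/
def tv (M : Multiset (ℕ × ℕ)) : ℕ := (M.map Prod.snd).sum

theorem tauN_eq (i : ℕ) : tauN i = Eng.tau i := by
  change 64 * (i * (i * i) / 1728000) = 64 * (i ^ 3 / 1728000)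
  congr 2
  ring

theorem pack_add (s : ℕ) (M N : Multiset (ℕ × ℕ)) : pack s (M + N) = pack s M + pack s N := by
  unfold pack
  rw [Multiset.map_add, Multiset.sum_add]

theorem pack_zero (s : ℕ) : pack s 0 = 0 := by
  simp [pack]

theorem pack_cons (s : ℕ) (p : ℕ × ℕ) (M : Multiset (ℕ × ℕ)) :
    pack s (p ::ₘ M) = p.2 * 2 ^ (s * p.1) + pack s M := by
  simp [pack]

theorem tv_add (M N : Multiset (ℕ × ℕ)) : tv (M + N) = tv M + tv N := by
  unfold tv
  rw [Multiset.map_add, Multiset.sum_add]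

theorem tv_zero : tv 0 = 0 := by
  simp [tv]

theorem tv_cons (p : ℕ × ℕ) (M : Multiset (ℕ × ℕ)) : tv (p ::ₘ M) = p.2 + tv M := by
  simp [tv]

private theorem rng_pack_le (s n : ℕ) (M : Multiset (ℕ × ℕ)) (h : ∀ p ∈ M, p.1 ≤ n) :
    pack s M ≤ tv M * 2 ^ (s * n) := by
  induction M using Multiset.induction_on with
  | empty => simp [pack_zero]
  | cons p M ih =>
    have h1 := ih (fun q hq => h q (Multiset.mem_cons_of_mem hq))
    have h2 : p.1 ≤ n := h p (Multiset.mem_cons_self p M)
    have h3 : 2 ^ (s * p.1) ≤ 2 ^ (s * n) :=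
      Nat.pow_le_pow_right (by norm_num) (Nat.mul_le_mul_left s h2)
    rw [pack_cons, tv_cons, add_mul]
    exact add_le_add (Nat.mul_le_mul_left _ h3) h1

private theorem rng_pack_lt (s n : ℕ) (M : Multiset (ℕ × ℕ)) (h : ∀ p ∈ M, p.1 < n)
    (ht : tv M < 2 ^ s) : pack s M < 2 ^ (s * n) := by
  cases n with
  | zero =>
    have : M = 0 := by
      rw [Multiset.eq_zero_iff_forall_notMem]
      intro p hp
      exact absurd (h p hp) (by omega)
    subst this
    simp [pack_zero]
  | succ n =>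
    have h1 := rng_pack_le s n M (fun p hp => by have := h p hp; omega)
    calc pack s M ≤ tv M * 2 ^ (s * n) := h1
      _ < 2 ^ s * 2 ^ (s * n) := Nat.mul_lt_mul_of_pos_right ht (by positivity)
      _ = 2 ^ (s * (n + 1)) := by rw [← pow_add]; congr 1; ring

private theorem rng_pack_shift (s a : ℕ) (M : Multiset (ℕ × ℕ)) (h : ∀ p ∈ M, a ≤ p.1) :
    pack s M = 2 ^ (s * a) * pack s (M.map fun p => (p.1 - a, p.2)) := by
  induction M using Multiset.induction_on with
  | empty => simp [pack_zero]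
  | cons p M ih =>
    have h1 := ih (fun q hq => h q (Multiset.mem_cons_of_mem hq))
    have h2 : a ≤ p.1 := h p (Multiset.mem_cons_self p M)
    rw [Multiset.map_cons, pack_cons, pack_cons, h1, mul_add]
    congr 1
    have h3 : s * p.1 = s * a + s * (p.1 - a) := by
      rw [← mul_add]; congr 1; omega
    simp only
    rw [h3, pow_add]
    ring

private theorem rng_pack_mod (s : ℕ) (M : Multiset (ℕ × ℕ)) :
    pack s M ≡ tv M [MOD (2 ^ s - 1)] := by
  have h0 : 2 ^ s ≡ 1 [MOD (2 ^ s - 1)] := by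
    have h1 : 2 ^ s = (2 ^ s - 1) + 1 := by
      have : 1 ≤ 2 ^ s := Nat.one_le_two_pow
      omega
    conv_lhs => rw [h1]
    unfold Nat.ModEq
    rw [Nat.add_mod_left]
  induction M using Multiset.induction_on with
  | empty => rw [pack_zero, tv_zero]
  | cons p M ih =>
    rw [pack_cons, tv_cons]
    refine Nat.ModEq.add ?_ ih
    have h2 : 2 ^ (s * p.1) ≡ 1 [MOD (2 ^ s - 1)] := by
      rw [pow_mul]
      have := h0.pow p.1
      rwa [one_pow] at this
    have h3 := h2.mul_left p.2
    rwa [mul_one] at h3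

/-- The sum of the buckets `a ≤ j < b`. (Split `M` into the parts below `a`, in `[a, b)` and from `b`
on; the lower part is less than `2 ^ (s a)`, and `2 ^ (s j) ≡ 1` modulo `2 ^ s - 1`.) -/
theorem rng_eq {s : ℕ} (hs : 1 ≤ s) {M : Multiset (ℕ × ℕ)} (hM : tv M + 2 ≤ 2 ^ s) {a b : ℕ}
    (hab : a ≤ b) : rng s (pack s M) a b = tv (M.filter fun p => a ≤ p.1 ∧ p.1 < b) := by
  have hrng : rng s (pack s M) a b =
      ((pack s M >>> (s * a)) &&& ((1 <<< (s * (b - a))) - 1)) % ((1 <<< s) - 1) := rfl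
  set L := M.filter (fun p => p.1 < a) with hL
  set N := M.filter (fun p => ¬ p.1 < a) with hN
  have hMLN : M = L + N := (Multiset.filter_add_not (fun p : ℕ × ℕ => p.1 < a) M).symm
  set C := N.filter (fun p => p.1 < b) with hC
  set H := N.filter (fun p => ¬ p.1 < b) with hH
  have hNCH : N = C + H := (Multiset.filter_add_not (fun p : ℕ × ℕ => p.1 < b) N).symm
  have hCeq : M.filter (fun p => a ≤ p.1 ∧ p.1 < b) = C := by
    rw [hC, hN, Multiset.filter_filter]
    apply Multiset.filter_congr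
    intro p _
    constructor
    · rintro ⟨h1, h2⟩; exact ⟨h2, by omega⟩
    · rintro ⟨h1, h2⟩; exact ⟨by omega, h1⟩
  have htv : tv M = tv L + (tv C + tv H) := by rw [hMLN, tv_add, hNCH, tv_add]
  rw [hCeq]
  have hLlt : pack s L < 2 ^ (s * a) := by
    apply rng_pack_lt
    · intro p hp
      exact (Multiset.mem_filter.1 hp).2
    · omega
  have hNa : ∀ p ∈ N, a ≤ p.1 := by
    intro p hp
    have := (Multiset.mem_filter.1 hp).2
    omega
  have hCa : ∀ p ∈ C, a ≤ p.1 ∧ p.1 < b := by
    intro p hp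
    have h1 := Multiset.mem_filter.1 hp
    exact ⟨hNa p h1.1, h1.2⟩
  have hHb : ∀ p ∈ H, b ≤ p.1 := by
    intro p hp
    have h1 := Multiset.mem_filter.1 hp
    omega
  set C' := C.map (fun p => (p.1 - a, p.2)) with hC'
  set H' := H.map (fun p => (p.1 - b, p.2)) with hH'
  have e1 : pack s C = 2 ^ (s * a) * pack s C' := rng_pack_shift s a C (fun p hp => (hCa p hp).1)
  have e2 : pack s H = 2 ^ (s * b) * pack s H' := rng_pack_shift s b H hHb
  have hsab : s * b = s * a + s * (b - a) := by rw [← mul_add]; congr 1; omega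
  have e3 : pack s M = pack s L + 2 ^ (s * a) * (pack s C' + 2 ^ (s * (b - a)) * pack s H') := by
    rw [hMLN, pack_add, hNCH, pack_add, e1, e2, hsab, pow_add]
    ring
  have tvC' : tv C' = tv C := by
    unfold tv
    rw [hC', Multiset.map_map]
    rfl
  have hClt : pack s C' < 2 ^ (s * (b - a)) := by
    apply rng_pack_lt
    · intro p hp
      rw [hC', Multiset.mem_map] at hp
      obtain ⟨q, hq, rfl⟩ := hp
      have := hCa q hq
      simp only
      omega
    · rw [tvC']; omega
  have f1 : pack s M >>> (s * a) = pack s C' + 2 ^ (s * (b - a)) * pack s H' := by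
    rw [Nat.shiftRight_eq_div_pow, e3, Nat.add_mul_div_left _ _ (by positivity),
      Nat.div_eq_of_lt hLlt, zero_add]
  have f2 : (pack s M >>> (s * a)) &&& ((1 <<< (s * (b - a))) - 1) = pack s C' := by
    rw [f1, Nat.one_shiftLeft, Nat.and_two_pow_sub_one_eq_mod, Nat.add_mul_mod_self_left,
      Nat.mod_eq_of_lt hClt]
  rw [hrng, f2, Nat.one_shiftLeft]
  have f3 := rng_pack_mod s C'
  rw [tvC'] at f3
  unfold Nat.ModEq at f3
  rw [f3]
  apply Nat.mod_eq_of_lt
  omega

theorem rng_nonneg_of_le {s : ℕ} {S a b : ℕ} (hab : b ≤ a) : rng s S a b = 0 := by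
  have hrng : rng s S a b =
      ((S >>> (s * a)) &&& ((1 <<< (s * (b - a))) - 1)) % ((1 <<< s) - 1) := rfl
  rw [hrng, Nat.sub_eq_zero_of_le hab]
  simp

/-- `ksm` packs the rectangles of a run: bucket `A / (w1 - dr / q) - jl`, value 1 -/
theorem ksm_eq (dr A w1 s jl m n : ℕ) : ksm dr A w1 s jl m n =
    pack s (((range n).val.map fun i => (A / (w1 - dr / (m + i)) - jl, 1))) := by
  induction n with
  | zero => simp [pack, ksm]
  | succ n ih =>
    have h1 : ksm dr A w1 s jl m (n + 1) =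
        ksm dr A w1 s jl m n + 1 <<< (s * (A / (w1 - dr / (m + n)) - jl)) := rfl
    rw [h1, ih, Finset.range_val, Finset.range_val, Multiset.range_succ, Multiset.map_cons,
      pack_cons, Nat.one_shiftLeft, one_mul, add_comm]

end Pool.Agent.Moser.Ck
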