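import Pool.Agent.Lib_MP_cc07e8_ck.CkSem
import Pool.Agent.Lib_MP_cc07e8_ck.CkRowDefs

/-! # MP_cc07e8_co: meaning of the row programs -/

open Finset

namespace Pool.Agent.Moser.Ck

open Classical in
/-- total length of the strips with `a ≤ 1 / width < b` -/
noncomputable def lam (a b : ℝ) (G : Multiset (ℝ × ℝ)) : ℝ :=
  (G.map fun r => if a * r.1 ≤ 1 ∧ 1 < b * r.1 then r.2 else 0).sum

/-- Fields of a block of rows. -/
def bn (x : ℕ) : ℕ := x &&& 1048575
/-- Fields of a block of rows. -/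
def bg (x : ℕ) : ℕ := (x >>> 20) &&& 1048575
/-- Fields of a block of rows. -/
def bV (x : ℕ) : ℕ := x >>> 40

/-- rows of the blocks `xs` starting with the row `k` -/
def RowsOK (G : Multiset (ℝ × ℝ)) : ℕ → List ℕ → Prop
  | _, [] => True
  | k, x :: xs => (∀ k', k ≤ k' → k' < k + bn x * bg x →
      lam (Eng.tau (k' - 15)) (Eng.tau (k' - 3)) G * 2 ^ 36 ≤ bV x) ∧ RowsOK G (k + bn x * bg x) xs

/-- last row of the blocks (excluded) -/
def rowsEnd : ℕ → List ℕ → ℕ
  | k, [] => k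
  | k, x :: xs => rowsEnd (k + bn x * bg x) xs

/-- cells of windows `xs` starting with the window `i` -/
def CellsOK (G : Multiset (ℝ × ℝ)) : ℕ → List ℕ → Prop
  | _, [] => True
  | i, x :: xs => lam (Eng.tau i) (Eng.tau (i + bn x)) G * 2 ^ 36 ≤ (x >>> 20 : ℕ) ∧
      CellsOK G (i + bn x) xs

/-- last window of the cells (excluded) -/
def cellsEnd : ℕ → List ℕ → ℕ
  | i, [] => i
  | i, x :: xs => cellsEnd (i + bn x) xs

/-- what is used about the run records in the row programs -/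
def RunOK (r : ℕ) : Prop := 1 ≤ rk r ∧ 1 ≤ rm r ∧ 2 ^ 88 / rm r + 2 ≤ rw' r

end Pool.Agent.Moser.Ck
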