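import Pool.Agent.Lib_MP_cc07e8_ck.CkTrie
import Pool.Agent.Lib_MP_cc07e8_ck.CkTrans
import Pool.Agent.Lib_MP_cc07e8_ck.CkHs

/-! # MP_cc07e8_co: runs and single squares (piece RUN) -/

open Finset

namespace Pool.Agent.Moser.Ck

private lemma rel_one {e : ℕ} {p : ℕ × ℕ} {ρ : Multiset (ℝ × ℝ)}
    (h : Multiset.Rel (App e) {p} ρ) : ∃ r, ρ = {r} ∧ App e p r := by
  rw [← Multiset.cons_zero, Multiset.rel_cons_left] at h
  obtain ⟨b, bs, h1, h2, h3⟩ := h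
  rw [Multiset.rel_zero_left] at h2
  rw [h2] at h3
  exact ⟨b, h3, h1⟩

private lemma one_rel {e : ℕ} {p : ℕ × ℕ} {r : ℝ × ℝ} (h : App e p r) :
    Multiset.Rel (App e) {p} {r} := by
  rw [← Multiset.cons_zero, ← Multiset.cons_zero]
  exact Multiset.Rel.cons h Multiset.Rel.zero

private lemma ico_succ (m k : ℕ) : (Ico m (m + (k + 1))).val = (Ico m (m + k)).val + {m + k} := by
  have h : Ico m (m + (k + 1)) = insert (m + k) (Ico m (m + k)) := by
    ext x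
    simp only [Finset.mem_Ico, Finset.mem_insert]
    omega
  rw [h, Finset.insert_val_of_notMem (by simp), ← Multiset.singleton_add, add_comm]

private lemma kids_succ (x : ℝ) (m k : ℕ) :
    kids x m (k + 1) = kids x m k + {(x - 1 / ((m + k : ℕ) : ℝ), 1 / ((m + k : ℕ) : ℝ))} := by
  unfold kids
  rw [ico_succ, Multiset.map_add, Multiset.map_singleton]

private lemma ch_succ (m k : ℕ) : ch m (k + 1) = ch m k + 1 / ((m + k : ℕ) : ℝ) := by
  unfold ch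
  rw [Finset.sum_range_succ]

/-- one square in the corner of a strip -/
private lemma one_ref {x y : ℝ} {q : ℕ} (hq : 1 ≤ q) (hx : 1 / (q : ℝ) ≤ x) (hy : 1 / (q : ℝ) ≤ y) :
    Ref {(x, y)} {q} ({(x - 1 / (q : ℝ), 1 / (q : ℝ))} + {(x, y - 1 / (q : ℝ))}) := by
  have hq0 : (0 : ℝ) < 1 / (q : ℝ) := by
    have : (0 : ℝ) < q := by exact_mod_cast hq
    positivity
  set s : ℝ := 1 / (q : ℝ) with hs
  have h1 : Ref {(x, y)} 0 ({(x, s)} + {(x, y - s)}) := by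
    have := Ref.cut (a := x) (b := s) (c := y - s) (by linarith) hq0.le (by linarith)
    rw [show s + (y - s) = y by ring] at this
    exact this
  have h2 : Ref {(x, s)} 0 ({(s, s)} + {(x - s, s)}) := by
    have := Ref.cut' (a := s) (b := x - s) (c := s) hq0.le (by linarith) hq0.le
    rw [show s + (x - s) = x by ring] at this
    exact this
  have h3 : Ref {(s, s)} {q} 0 := Ref.put q
  have h4 : Ref {(x, s)} (0 + ({q} + 0)) (0 + {(x - s, s)}) :=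
    h2.trans (h3.add (Ref.refl {(x - s, s)}))
  have h5 := h1.trans (h4.add (Ref.refl {(x, y - s)}))
  simpa using h5

/-- `k` squares along a strip -/
theorem run_ref {x y : ℝ} {m : ℕ} (hm : 1 ≤ m) (hx : 1 / (m : ℝ) ≤ x) (k : ℕ) (hy : ch m k ≤ y) :
    Ref {(x, y)} (Ico m (m + k)).val ({(x, y - ch m k)} + kids x m k) := by
  induction k with
  | zero =>
    have h1 : ch m 0 = 0 := by simp [ch]
    have h2 : kids x m 0 = 0 := by simp [kids]
    rw [h1, h2]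
    simpa using Ref.refl {(x, y)}
  | succ k ih =>
    have hm0 : (0 : ℝ) < m := by exact_mod_cast hm
    have hpos : 0 < 1 / ((m + k : ℕ) : ℝ) := by
      have : (0 : ℝ) < ((m + k : ℕ) : ℝ) := by exact_mod_cast (by omega : 0 < m + k)
      positivity
    have hle : 1 / ((m + k : ℕ) : ℝ) ≤ 1 / (m : ℝ) :=
      one_div_le_one_div_of_le hm0 (by push_cast; linarith [(Nat.cast_nonneg k : (0 : ℝ) ≤ k)])
    have e1 := ch_succ m k
    rw [e1] at hy
    have h1 := ih (by linarith)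
    have h2 := one_ref (x := x) (y := y - ch m k) (q := m + k) (by omega) (by linarith) (by linarith)
    have h3 := h1.trans (h2.add (Ref.refl (kids x m k)))
    rw [ico_succ, kids_succ, e1]
    have e2 : y - (ch m k + 1 / ((m + k : ℕ) : ℝ)) = y - ch m k - 1 / ((m + k : ℕ) : ℝ) := by ring
    rw [e2]
    have e3 : ({m + k} : Multiset ℕ) + 0 = {m + k} := add_zero _
    rw [e3] at h3
    have e4 : ({(x - 1 / ((m + k : ℕ) : ℝ), 1 / ((m + k : ℕ) : ℝ))} +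
          {(x, y - ch m k - 1 / ((m + k : ℕ) : ℝ))} + kids x m k : Multiset (ℝ × ℝ)) =
        {(x, y - ch m k - 1 / ((m + k : ℕ) : ℝ))} +
          (kids x m k + {(x - 1 / ((m + k : ℕ) : ℝ), 1 / ((m + k : ℕ) : ℝ))}) := by
      ac_rfl
    rw [e4] at h3
    exact h3

private lemma lt_div_add {m : ℕ} (hm : 1 ≤ m) :
    1 / (m : ℝ) * 2 ^ 112 < (((2 ^ 112 / m : ℕ)) : ℝ) + 1 := by
  have ha0 : (0 : ℝ) < m := by exact_mod_cast hm
  have h := Nat.lt_div_mul_add (a := 2 ^ 112) (b := m) (by omega)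
  have h1 : ((2 ^ 112 : ℕ) : ℝ) < ((2 ^ 112 / m * m + m : ℕ) : ℝ) := by exact_mod_cast h
  rw [one_div_mul_eq_div, div_lt_iff₀ ha0]
  push_cast at h1 ⊢
  linarith

private lemma div_le_real (m : ℕ) :
    (((2 ^ 112 / m : ℕ)) : ℝ) ≤ 1 / (m : ℝ) * 2 ^ 112 := by
  have h := Nat.cast_div_le (α := ℝ) (m := 2 ^ 112) (n := m)
  push_cast at h
  calc (((2 ^ 112 / m : ℕ)) : ℝ) ≤ 2 ^ 112 / (m : ℝ) := by exact_mod_cast h
    _ = 1 / (m : ℝ) * 2 ^ 112 := by ring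

theorem run_sound {d w l m key : ℕ} {B : Bt} {c : ℕ → ℕ → Bt → Bool} (hd : d = 2 ^ 112)
    (hm : 1 ≤ m) (h : run d w l m key B c = true) :
    ∃ (n r : ℕ) (B' : Bt), B.ms = r ::ₘ B'.ms ∧ ksum d m n ≤ l ∧
      c (l - ksum d m n) (m + n) B' = true ∧
      ∀ e : ℕ, e + n + 3 ≤ 2 ^ 34 →
        Trans e (e + n + 3) {(w, l)} (Ico m (m + n)).val {(w, l - ksum d m n)} {r} 0 := by
  obtain ⟨r, B', h1, h2⟩ := pop_sound (t := B) (key := key) h
  obtain ⟨g1, h3⟩ := br_false h2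
  obtain ⟨g2, h4⟩ := br_false h3
  obtain ⟨g3, h5⟩ := br_false h4
  obtain ⟨g4, h6⟩ := br_false h5
  have a1 : d / m + 1 ≤ w := Nat.le_of_ble_eq_true g1
  have a2 : (r >>> 20) &&& 67108863 = m := Nat.eq_of_beq_eq_true g2
  have a3 : r >>> 46 = w >>> 24 := Nat.eq_of_beq_eq_true g3
  have a4 : ksum d m (r &&& 1048575) ≤ l := Nat.le_of_ble_eq_true g4
  have b1 : r &&& 1048575 = rk r := by
    have := Nat.and_two_pow_sub_one_eq_mod r 20
    simpa [rk] using this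
  have b2 : rm r = m := by
    rw [← a2, Nat.shiftRight_eq_div_pow]
    have := Nat.and_two_pow_sub_one_eq_mod (r / 2 ^ 20) 26
    simpa [rm] using this.symm
  have b3 : rw' r = w / 2 ^ 24 := by
    rw [Nat.shiftRight_eq_div_pow, Nat.shiftRight_eq_div_pow] at a3
    exact a3
  rw [b1] at a4
  refine ⟨rk r, r, B', h1, a4, ?_, ?_⟩
  · rw [← b1]; exact h6
  intro e he ρ hρ
  obtain ⟨⟨a, b⟩, rfl, hab⟩ := rel_one hρ
  obtain ⟨c1, c2, c3, c4⟩ := hab
  simp only at c1 c2 c3 c4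
  obtain ⟨k1, k2⟩ := ksum_bounds hd hm (rk r)
  set n := rk r with hn
  have hsub : ((l - ksum d m n : ℕ) : ℝ) = (l : ℝ) - ksum d m n := Nat.cast_sub a4
  have a4' : (ksum d m n : ℝ) ≤ l := by exact_mod_cast a4
  have hp : (0 : ℝ) < 2 ^ 112 := by positivity
  have hch : ch m n ≤ b := by
    have : ch m n * 2 ^ 112 ≤ b * 2 ^ 112 := by linarith
    exact le_of_mul_le_mul_right this hp
  have hxa : 1 / (m : ℝ) ≤ a := by
    have e1 := lt_div_add hm
    have e2 : (((2 ^ 112 / m : ℕ)) : ℝ) + 1 ≤ w := by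
      rw [hd] at a1
      exact_mod_cast a1
    have : 1 / (m : ℝ) * 2 ^ 112 ≤ a * 2 ^ 112 := by linarith
    exact le_of_mul_le_mul_right this hp
  refine ⟨{(a, b - ch m n)}, kids a m n, one_rel ?_, ?_, run_ref hm hxa n hch⟩
  · refine ⟨?_, ?_, ?_, ?_⟩
    · exact c1
    · show a * 2 ^ 112 ≤ (w : ℝ) + ((e + n + 3 : ℕ) : ℝ)
      push_cast
      have : (0 : ℝ) ≤ n := Nat.cast_nonneg n
      linarith
    · show ((l - ksum d m n : ℕ) : ℝ) ≤ (b - ch m n) * 2 ^ 112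
      rw [hsub]
      linarith
    · show (b - ch m n) * 2 ^ 112 ≤ ((l - ksum d m n : ℕ) : ℝ) + ((e + n + 3 : ℕ) : ℝ)
      rw [hsub]
      push_cast
      linarith
  · apply Leaves.run
    refine ⟨a, ?_, ?_, ?_, ?_, ?_⟩
    · rw [b3]
      have e1 : ((w / 2 ^ 24 : ℕ) : ℝ) ≤ (w : ℝ) / 2 ^ 24 := by
        have := Nat.cast_div_le (α := ℝ) (m := w) (n := 2 ^ 24)
        push_cast at this
        exact_mod_cast this
      have e2 : a * 2 ^ 88 = a * 2 ^ 112 / 2 ^ 24 := by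
        rw [show (2 : ℝ) ^ 112 = 2 ^ 88 * 2 ^ 24 by norm_num]
        field_simp
      rw [e2]
      exact e1.trans (div_le_div_of_nonneg_right c1 (by positivity))
    · rw [b3]
      have e1 : (w : ℝ) / 2 ^ 24 ≤ ((w / 2 ^ 24 : ℕ) : ℝ) + 1 := by
        have h7 := Nat.lt_div_mul_add (a := w) (b := 2 ^ 24) (by norm_num)
        have h8 : (w : ℝ) < ((w / 2 ^ 24 * 2 ^ 24 + 2 ^ 24 : ℕ) : ℝ) := by exact_mod_cast h7
        rw [div_le_iff₀ (by positivity)]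
        push_cast at h8 ⊢
        linarith
      have e2 : a * 2 ^ 88 = a * 2 ^ 112 / 2 ^ 24 := by
        rw [show (2 : ℝ) ^ 112 = 2 ^ 88 * 2 ^ 24 by norm_num]
        field_simp
      have e3 : (e : ℝ) ≤ 2 ^ 34 := by
        have : e ≤ 2 ^ 34 := by omega
        exact_mod_cast this
      rw [e2]
      calc a * 2 ^ 112 / 2 ^ 24 ≤ (w + e) / 2 ^ 24 :=
            div_le_div_of_nonneg_right c2 (by positivity)
        _ = w / 2 ^ 24 + e / 2 ^ 24 := by ring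
        _ ≤ (((w / 2 ^ 24 : ℕ) : ℝ) + 1) + 2 ^ 34 / 2 ^ 24 :=
            add_le_add e1 (div_le_div_of_nonneg_right e3 (by positivity))
        _ ≤ ((w / 2 ^ 24 : ℕ) : ℝ) + 1200 := by norm_num; linarith
    · rw [b2]; exact hm
    · rw [b2]; exact hxa
    · rw [b2]

/-- one square with a stored side rectangle -/
theorem one_trans {d w l m e : ℕ} (hd : d = 2 ^ 112) (hm : 1 ≤ m) (hw : d / m + 1 ≤ w)
    (hl : d / m + 1 ≤ l) :
    Trans e (e + 1) {(w, l)} {m} ({(w - (d / m + 1), d / m)} + {(w, l - (d / m + 1))}) 0 0 := by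
  intro ρ hρ
  obtain ⟨⟨a, b⟩, rfl, hab⟩ := rel_one hρ
  obtain ⟨c1, c2, c3, c4⟩ := hab
  simp only at c1 c2 c3 c4
  have hp : (0 : ℝ) < 2 ^ 112 := by positivity
  have e1 := lt_div_add hm
  have e0 := div_le_real m
  rw [← hd] at e1 e0
  have hw' : ((w - (d / m + 1) : ℕ) : ℝ) = (w : ℝ) - ((d / m : ℕ) + 1) := by
    rw [Nat.cast_sub hw]; push_cast; ring
  have hl' : ((l - (d / m + 1) : ℕ) : ℝ) = (l : ℝ) - ((d / m : ℕ) + 1) := by
    rw [Nat.cast_sub hl]; push_cast; ring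
  have hw2 : ((d / m : ℕ) : ℝ) + 1 ≤ w := by exact_mod_cast hw
  have hl2 : ((d / m : ℕ) : ℝ) + 1 ≤ l := by exact_mod_cast hl
  have hxa : 1 / (m : ℝ) ≤ a := by
    have : 1 / (m : ℝ) * 2 ^ 112 ≤ a * 2 ^ 112 := by linarith
    exact le_of_mul_le_mul_right this hp
  have hxb : 1 / (m : ℝ) ≤ b := by
    have : 1 / (m : ℝ) * 2 ^ 112 ≤ b * 2 ^ 112 := by linarith
    exact le_of_mul_le_mul_right this hp
  refine ⟨{(a - 1 / (m : ℝ), 1 / (m : ℝ))} + {(a, b - 1 / (m : ℝ))}, 0, ?_, Leaves.zero, ?_⟩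
  · refine Multiset.Rel.add (one_rel ⟨?_, ?_, ?_, ?_⟩) (one_rel ⟨?_, ?_, ?_, ?_⟩)
    · show ((w - (d / m + 1) : ℕ) : ℝ) ≤ (a - 1 / (m : ℝ)) * 2 ^ 112
      rw [hw']; linarith
    · show (a - 1 / (m : ℝ)) * 2 ^ 112 ≤ ((w - (d / m + 1) : ℕ) : ℝ) + ((e + 1 : ℕ) : ℝ)
      rw [hw']; push_cast; linarith
    · show ((d / m : ℕ) : ℝ) ≤ 1 / (m : ℝ) * 2 ^ 112
      exact e0
    · show 1 / (m : ℝ) * 2 ^ 112 ≤ ((d / m : ℕ) : ℝ) + ((e + 1 : ℕ) : ℝ)
      push_cast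
      have : (0 : ℝ) ≤ e := Nat.cast_nonneg e
      linarith
    · exact c1
    · show a * 2 ^ 112 ≤ (w : ℝ) + ((e + 1 : ℕ) : ℝ)
      push_cast; linarith
    · show ((l - (d / m + 1) : ℕ) : ℝ) ≤ (b - 1 / (m : ℝ)) * 2 ^ 112
      rw [hl']; linarith
    · show (b - 1 / (m : ℝ)) * 2 ^ 112 ≤ ((l - (d / m + 1) : ℕ) : ℝ) + ((e + 1 : ℕ) : ℝ)
      rw [hl']; push_cast; linarith
  · rw [add_zero]
    exact one_ref hm hxa hxb

end Pool.Agent.Moser.Ck
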