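import Pool.Agent.Lib_MP_cc07e8_ck.CkDefs
import Pool.Agent.Lib_MP_cc07e8_co.Geo
import Pool.Agent.Lib_MP_cc07e8_co.EngDefs

/-!
# MP_cc07e8_co: meaning of the data of the checker

The scale is `d = 2 ^ 112`; records use the scales `2 ^ 88` (widths) and `2 ^ 36` (lengths).
-/

open Finset

namespace Pool.Agent.Moser.Ck

/-- `p` approximates the rectangle `r` from below with error `e` (units `2 ^ (-112)`) -/
def App (e : ℕ) (p : ℕ × ℕ) (r : ℝ × ℝ) : Prop :=
  (p.1 : ℝ) ≤ r.1 * 2 ^ 112 ∧ r.1 * 2 ^ 112 ≤ p.1 + e ∧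
    (p.2 : ℝ) ≤ r.2 * 2 ^ 112 ∧ r.2 * 2 ^ 112 ≤ p.2 + e

/-- fields of a fat record -/
def fn (r : ℕ) : ℕ := r % 4096
/-- fields of a fat record -/
def fx (r : ℕ) : ℕ := r / 4096 % 2 ^ 64
/-- fields of a fat record -/
def fs (r : ℕ) : ℕ := r / 2 ^ 76 % 2 ^ 64
/-- fields of a fat record -/
def fL (r : ℕ) : ℕ := r / 2 ^ 140

/-- fields of a run record -/
def rk (r : ℕ) : ℕ := r % 2 ^ 20
/-- fields of a run record -/
def rm (r : ℕ) : ℕ := r / 2 ^ 20 % 2 ^ 26
/-- fields of a run record -/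
def rw' (r : ℕ) : ℕ := r / 2 ^ 46

/-- meaning of a fat record -/
structure LeafF (r : ℕ) (G : Multiset (ℝ × ℝ)) : Prop where
  card : G.card ≤ fn r
  wid : ∀ p ∈ G, (fx r : ℝ) ≤ p.1 * 2 ^ 88 ∧ p.1 * 2 ^ 88 ≤ fx r + fs r + 1200
  len : ∀ p ∈ G, 0 ≤ p.2
  tot : (G.map Prod.snd).sum * 2 ^ 36 ≤ fL r

/-- the rectangles beside the squares `m ≤ q < m + k` in a strip of width `x` -/
noncomputable def kids (x : ℝ) (m k : ℕ) : Multiset (ℝ × ℝ) :=
  (Ico m (m + k)).val.map fun q : ℕ => (x - 1 / (q : ℝ), 1 / (q : ℝ))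

/-- meaning of a run record -/
def LeafR (r : ℕ) (G : Multiset (ℝ × ℝ)) : Prop :=
  ∃ x : ℝ, (rw' r : ℝ) ≤ x * 2 ^ 88 ∧ x * 2 ^ 88 ≤ rw' r + 1200 ∧ 1 ≤ rm r ∧ 1 / (rm r : ℝ) ≤ x ∧
    G = kids x (rm r) (rk r)

/-- meaning of a multiset of run records and fat records -/
def Leaves (R F : Multiset ℕ) (G : Multiset (ℝ × ℝ)) : Prop :=
  ∃ A B : Multiset (Multiset (ℝ × ℝ)), Multiset.Rel LeafR R A ∧ Multiset.Rel LeafF F B ∧
    G = A.sum + B.sum

/-- The approximate rectangles `A` (error `e`) can be refined to the squares `S`, the approximate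
rectangles `A'` (error `e'`) and the leaves described by the records `R`, `F`. -/
def Trans (e e' : ℕ) (A : Multiset (ℕ × ℕ)) (S : Multiset ℕ) (A' : Multiset (ℕ × ℕ))
    (R F : Multiset ℕ) : Prop :=
  ∀ ρ, Multiset.Rel (App e) A ρ →
    ∃ σ G, Multiset.Rel (App e') A' σ ∧ Leaves R F G ∧ Ref ρ S (σ + G)

/-- The rectangles `ρ` are disposed of: stored as `A` (error `e`) or leaves (fat records `F`) or
degenerate. -/
def Disp (e : ℕ) (ρ : Multiset (ℝ × ℝ)) (A : Multiset (ℕ × ℕ)) (F : Multiset ℕ) : Prop :=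
  ∃ σ G, Multiset.Rel (App e) A σ ∧ Leaves 0 F G ∧ Ref ρ 0 (σ + G)

/-! ### memory and record lists as multisets -/

/-- the rectangles in the memory -/
def Tr.ms : Tr → Multiset (ℕ × ℕ)
  | Tr.e => 0
  | Tr.l w h => {(w, h)}
  | Tr.n a b => a.ms + b.ms

/-- the records -/
def Bt.ms : Bt → Multiset ℕ
  | Bt.l xs => (xs : Multiset ℕ)
  | Bt.n a b => a.ms + b.ms

/-- import and export entries -/
def unp (x : ℕ) : ℕ × ℕ := (x >>> 128, x &&& 340282366920938463463374607431768211455)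

/-- first square of a column -/
def cq (x : ℕ) : ℕ := x >>> 10
/-- number of squares of a column -/
def cc (x : ℕ) : ℕ := x &&& 1023

/-- the squares of a list of columns -/
def csq (L : List ℕ) : Multiset ℕ := (L.map fun x => (Ico (cq x) (cq x + cc x)).val).sum

/-! ### real quantities of a block -/

/-- sum of the widths in row `r` over the columns `S` -/
noncomputable def lX (r : ℕ) (S : List ℕ) : ℝ :=
  (S.map fun x => 1 / ((cq x + min r (cc x - 1) : ℕ) : ℝ)).sum

/-- sum of `1 / (q (q + 1))` over the columns `S` -/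
noncomputable def lY (S : List ℕ) : ℝ :=
  (S.map fun x => 1 / ((cq x : ℝ) * ((cq x : ℝ) + 1))).sum

/-- height of a column -/
noncomputable def ch (q c : ℕ) : ℝ := ∑ t ∈ range c, 1 / ((q + t : ℕ) : ℝ)

/-- height up to row `r` of a column in a block of height `H` -/
noncomputable def hh (H : ℝ) (r q c : ℕ) : ℝ := if r ≤ c then ch q r else H

/-- the pockets between the column `q, c` and the next column `qn, cn`, `S` the columns from the next
one on, `ck` the number of squares of the last column -/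
noncomputable def pkM (H : ℝ) (ck q c qn cn : ℕ) (S : List ℕ) : Multiset (ℝ × ℝ) :=
  ∑ r ∈ range (ck - 1), {(lX r S - lX (r + 1) S, hh H (r + 1) q c - hh H (r + 1) qn cn)}

/-- left gaps and corner, `qn, cn` the first column, `S` all columns, `ck` the number of squares of
the last column -/
noncomputable def lgM (H : ℝ) (ck qn cn : ℕ) (S : List ℕ) : Multiset (ℝ × ℝ) :=
  (∑ r ∈ range (ck - 1), {(lX 0 S - lX (r + 1) S, hh H (r + 2) qn cn - hh H (r + 1) qn cn)}) +
    (if cn = ck then {(lX 0 S - lX (ck - 1) S, H - ch qn cn)} else 0)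

/-- tops of the columns `S` (from left to right) and pockets between them -/
noncomputable def body (H : ℝ) (ck : ℕ) : List ℕ → Multiset (ℝ × ℝ)
  | [] => 0
  | [x] => {(1 / ((cq x + cc x - 1 : ℕ) : ℝ), H - ch (cq x) (cc x))}
  | x :: y :: S =>
    {(1 / ((cq x + cc x - 1 : ℕ) : ℝ), H - ch (cq x) (cc x))} +
      (pkM H ck (cq x) (cc x) (cq y) (cc y) (y :: S) + body H ck (y :: S))

/-- the columns are sorted -/
def Srt (S : List ℕ) : Prop :=
  S.Pairwise (fun a b => cq a ≤ cq b ∧ cc a ≤ cc b) ∧ ∀ x ∈ S, 1 ≤ cq x ∧ 1 ≤ cc x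

end Pool.Agent.Moser.Ck
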