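import Pool.Agent.Lib_MP_cc07e8_ck.ExCheck
import Pool.Agent.Lib_MP_cc07e8_cd.Ds

/-! # MP_cc07e8_co: exact start, in terms of the table of modules `Cd.ms` -/

open Finset

namespace Pool.Agent.Moser.Ck

theorem ex_len : Cd.ms.length = 93 := by decide +kernel

theorem ex_gm : gm Cd.ms 0 = Cd.d0 := rfl

/-- all export lists of module `0` but the first one are empty -/
theorem ex_nil : ((List.range 94).all fun j =>
    Bool.rec (motive := fun _ => Bool) (Nat.beq (gl Cd.d0.E j).length 0) true (Nat.beq j 1)) = true := by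
  decide +kernel

theorem ex_one : gl Cd.d0.E 1 = Cd.e0_1 := rfl

theorem ex_sum : ∑ j ∈ Ico 1 (Cd.ms.length + 1), um (gl (gm Cd.ms 0).E j) = um Cd.e0_1 := by
  rw [ex_len, ex_gm, ← ex_one]
  refine Finset.sum_eq_single 1 (fun j hj h1 => ?_) (fun h => absurd (by simp) h)
  have h2 := ex_nil
  rw [List.all_eq_true] at h2
  have h3 := h2 j (List.mem_range.2 (by have := (mem_Ico.1 hj).2; omega))
  have h4 : Nat.beq j 1 = false := by
    rw [Bool.eq_false_iff]
    intro h5
    exact h1 (Nat.eq_of_beq_eq_true h5)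
  rw [h4] at h3
  have h5 : (gl Cd.d0.E j).length = 0 := Nat.eq_of_beq_eq_true h3
  rw [List.eq_nil_of_length_eq_zero h5]
  rfl

/-- the exact start of the table `Cd.ms` -/
theorem ex_ms : ∃ (a b : ℝ) (ρ0 : Multiset (ℝ × ℝ)), a * b = Real.pi ^ 2 / 6 - 1 ∧
    Dec a b (Ico 2 101).val ρ0 ∧
    Multiset.Rel (App 4) (∑ j ∈ Ico 1 (Cd.ms.length + 1), um (gl (gm Cd.ms 0).E j)) ρ0 := by
  rw [ex_sum]
  exact ex_start

end Pool.Agent.Moser.Ck
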