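import Pool.Agent.Lib_MP_cc07e8_ck.CkAsm
import Pool.Agent.Lib_MP_cc07e8_ck.ExGlue
import Pool.Agent.Lib_MP_cc07e8_cr.Tfin
import Pool.Agent.Lib_MP_cc07e8_cr.Ttab
import Pool.Agent.Lib_MP_cc07e8_cr.Geo

/-! # MP_cc07e8_co: the explicit start exists -/

namespace Pool.Agent.Moser.Ck

/-- The squares of side `1 / n`, `2 ≤ n < 40707584`, one larger rectangle and thin strips with the
required bounds decompose a rectangle of area `π² / 6 - 1`. -/
theorem exists_start : ∃ (a b X Y : ℝ) (G : Multiset (ℝ × ℝ)), Eng.Start a b X Y G := by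
  obtain ⟨a, b, ρ0, h1, h2, h3⟩ := ex_ms
  obtain ⟨X, Y, G, h⟩ := start_of_checks h1 h2 h3 Cr.m1 Cr.hF Cr.hR Cr.hx Cr.ht rfl Cr.hcc Cr.hfin
  exact ⟨a, b, X, Y, G, h⟩

end Pool.Agent.Moser.Ck
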