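import Pool.Agent.Lib_MP_cc07e8_ck.CkBlock
import Pool.Agent.Lib_MP_cc07e8_ck.CkRun

/-! # MP_cc07e8_co: soundness of one token (piece TOK) -/

open Finset

namespace Pool.Agent.Moser.Ck

/-- time of a state -/
def St.m : St → ℕ
  | St.no m _ _ _ _ => m
  | St.cu _ _ m _ _ _ _ => m

/-- rectangles of a state -/
def St.rc : St → Multiset (ℕ × ℕ)
  | St.no _ T _ _ _ => T.ms
  | St.cu w l _ T _ _ _ => {(w, l)} + T.ms

/-- run records left -/
def St.B : St → Multiset ℕ
  | St.no _ _ B _ _ => B.ms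
  | St.cu _ _ _ _ B _ _ => B.ms

/-- fat records left -/
def St.F : St → Multiset ℕ
  | St.no _ _ _ F _ => F.ms
  | St.cu _ _ _ _ _ F _ => F.ms

/-- streams -/
def St.s : St → Sm
  | St.no _ _ _ _ s => s
  | St.cu _ _ _ _ _ _ s => s

/-- columns to be placed -/
def Sm.Q : Sm → List ℕ | Sm.mk Q _ _ _ => Q
/-- columns to be skipped -/
def Sm.K : Sm → List ℕ | Sm.mk _ K _ _ => K
/-- exports -/
def Sm.X : Sm → List ℕ | Sm.mk _ _ _ X => X

/-- Relation between two states of the machine after at most `n` tokens. -/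
def Rl (n : ℕ) (S S' : St) : Prop :=
  S.m ≤ S'.m ∧ ∃ (Sq R F : Multiset ℕ) (Qc Kc Xc : List ℕ),
    S.s.Q = Qc ++ S'.s.Q ∧ S.s.K = Kc ++ S'.s.K ∧ S.s.X = Xc ++ S'.s.X ∧
    S.B = R + S'.B ∧ S.F = F + S'.F ∧ Sq + csq Kc = (Ico S.m S'.m).val + csq Qc ∧
    ∀ e e' : ℕ, e + (S'.m - S.m) + 4096 * n + 2 * Qc.length ≤ e' → e' ≤ 2 ^ 34 →
      Trans e e' S.rc Sq (S'.rc + ((Xc.map unp : List (ℕ × ℕ)) : Multiset (ℕ × ℕ))) R F

/-- relation with empty streams -/
private theorem tok_mk {S S' : St} (hm : S.m ≤ S'.m) (hs : S.s = S'.s) {Sq R F : Multiset ℕ}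
    (hB : S.B = R + S'.B) (hF : S.F = F + S'.F) (hq : Sq = (Ico S.m S'.m).val)
    (h : ∀ e e' : ℕ, e + (S'.m - S.m) + 4096 ≤ e' → e' ≤ 2 ^ 34 →
      Trans e e' S.rc Sq S'.rc R F) : Rl 1 S S' := by
  refine ⟨hm, Sq, R, F, [], [], [], by rw [hs]; rfl, by rw [hs]; rfl, by rw [hs]; rfl, hB, hF,
    by rw [hq], ?_⟩
  intro e e' he he'
  have h1 : ((([] : List ℕ).map unp : List (ℕ × ℕ)) : Multiset (ℕ × ℕ)) = 0 := rfl
  rw [h1, add_zero]
  apply h e e' _ he'
  simp only [List.length_nil] at he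
  omega

/-- relation with instructions used up -/
private theorem tok_mkI {S S' : St} (hm : S.m = S'.m)
    (hs : S.s.Q = S'.s.Q ∧ S.s.K = S'.s.K ∧ S.s.X = S'.s.X) {F : Multiset ℕ}
    (hB : S.B = S'.B) (hF : S.F = F + S'.F)
    (h : ∀ e e' : ℕ, e + 4096 ≤ e' → e' ≤ 2 ^ 34 → Trans e e' S.rc 0 S'.rc 0 F) : Rl 1 S S' := by
  refine ⟨hm.le, 0, 0, F, [], [], [], by rw [hs.1]; rfl, by rw [hs.2.1]; rfl, by rw [hs.2.2]; rfl,
    by rw [hB, zero_add], hF, ?_, ?_⟩
  · rw [hm]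
    simp
  · intro e e' he he'
    have h1 : ((([] : List ℕ).map unp : List (ℕ × ℕ)) : Multiset (ℕ × ℕ)) = 0 := rfl
    rw [h1, add_zero]
    apply h e e' _ he'
    simp only [List.length_nil] at he
    omega

private theorem tok_leaf {e e' w l r : ℕ}
    (h : ∀ a b : ℝ, App e (w, l) (a, b) → LeafF r {(a, b)}) :
    Trans e e' {(w, l)} 0 0 0 {r} := by
  intro ρ hρ
  have hρ' : Multiset.Rel (App e) ((w, l) ::ₘ 0) ρ := hρ
  rw [Multiset.rel_cons_left] at hρ'
  obtain ⟨p, bs, hp, hbs, rfl⟩ := hρ'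
  rw [Multiset.rel_zero_left] at hbs
  subst hbs
  refine ⟨0, {p}, Multiset.Rel.zero, Leaves.fat (h p.1 p.2 hp), ?_⟩
  rw [zero_add]
  exact Ref.refl _

/-- leaf: record independent of the real rectangle -/
private theorem tok_fat1 {w l key : ℕ} {F : Bt} {c : Bt → Bool} (h : fat1 w l key F c = true) :
    ∃ (r : ℕ) (F' : Bt), F.ms = r ::ₘ F'.ms ∧ c F' = true ∧
      ∀ (e : ℕ) (a b : ℝ), e ≤ 2 ^ 34 → App e (w, l) (a, b) → LeafF r {(a, b)} := by
  classical
  obtain ⟨F0, -, hc, hdet⟩ := (fat1_det w l key F).get h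
  have h1 : fat1 w l key F (fun G => decide (G = F0)) = true := by
    rw [hdet]
    simp
  obtain ⟨r, F', hF, -, -, -, -, hF'⟩ := fat_sound h1
  have hF'' : F' = F0 := by simpa using hF'
  subst hF''
  refine ⟨r, F', hF, hc, ?_⟩
  intro e a b he hab
  obtain ⟨r', F2, hF2, hleaf, hF2'⟩ := fat1_sound h1 hab he
  have h3 : F2 = F' := by simpa using hF2'
  subst h3
  have h4 : r' ::ₘ F2.ms = r ::ₘ F2.ms := by rw [← hF2, hF]
  rw [Multiset.cons_inj_left] at h4
  rw [← h4]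
  exact hleaf

/-- piece TOK -/
theorem tok0_sound {d kd t key m : ℕ} {T : Tr} {B F : Bt} {s : Sm}
    {k0 : ℕ → Tr → Bt → Bt → Sm → Bool} {k1 : ℕ → ℕ → ℕ → Tr → Bt → Bt → Sm → Bool}
    (hd : d = 2 ^ 112) (hm : 1 ≤ m) (h : tok0 d kd t key m T B F s k0 k1 = true) :
    (∃ m' T' B' F' s', k0 m' T' B' F' s' = true ∧ Rl 1 (St.no m T B F s) (St.no m' T' B' F' s')) ∨
    (∃ w l m' T' B' F' s', k1 w l m' T' B' F' s' = true ∧
      Rl 1 (St.no m T B F s) (St.cu w l m' T' B' F' s')) := by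
  rcases br_true h with ⟨-, h⟩ | ⟨-, h⟩
  · -- visit
    left
    obtain ⟨T1, w, l, hT, h⟩ := ext_sound h
    obtain ⟨n, r, B', hB, hks, h, htr⟩ := run_sound hd hm h
    rw [← Multiset.singleton_add] at hB
    obtain ⟨T2, hT2, h⟩ := ins_sound h
    refine ⟨m + n, T2, B', F, s, h, tok_mk (R := {r}) (Nat.le_add_right _ _) rfl hB (zero_add _).symm rfl ?_⟩
    intro e e' he he'
    have he2 : e + (m + n - m) + 4096 ≤ e' := he
    have h1 : e + n + 3 ≤ e' := by omega
    show Trans e e' T.ms (Ico m (m + n)).val T2.ms {r} 0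
    rw [hT, hT2, ← Multiset.singleton_add, ← Multiset.singleton_add]
    exact (((htr e (by omega)).mono le_rfl h1).frame (by omega) _)
  rcases br_true h with ⟨-, h⟩ | ⟨-, h⟩
  · -- run, keep
    right
    obtain ⟨T1, w, l, hT, h⟩ := ext_sound h
    obtain ⟨n, r, B', hB, hks, h, htr⟩ := run_sound hd hm h
    rw [← Multiset.singleton_add] at hB
    refine ⟨w, l - ksum d m n, m + n, T1, B', F, s, h,
      tok_mk (R := {r}) (Nat.le_add_right _ _) rfl hB (zero_add _).symm rfl ?_⟩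
    intro e e' he he'
    have he2 : e + (m + n - m) + 4096 ≤ e' := he
    have h1 : e + n + 3 ≤ e' := by omega
    show Trans e e' T.ms (Ico m (m + n)).val ({(w, l - ksum d m n)} + T1.ms) {r} 0
    rw [hT, ← Multiset.singleton_add]
    exact (((htr e (by omega)).mono le_rfl h1).frame (by omega) _)
  rcases br_true h with ⟨-, h⟩ | ⟨-, h⟩
  · -- take
    right
    obtain ⟨T1, w, l, hT, h⟩ := ext_sound h
    refine ⟨w, l, m, T1, B, F, s, h,
      tok_mk (Sq := 0) le_rfl rfl (zero_add _).symm (zero_add _).symm (by simp [St.m]) ?_⟩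
    intro e e' he he'
    show Trans e e' T.ms 0 ({(w, l)} + T1.ms) 0 0
    rw [hT, ← Multiset.singleton_add]
    exact Trans.refl (by omega)
  rcases br_true h with ⟨-, h⟩ | ⟨-, h⟩
  · -- skip
    left
    obtain ⟨Q, K, I, X⟩ := s
    obtain ⟨x, K', hK, h⟩ := hd_sound h
    obtain ⟨hx, h⟩ := br_false h
    have hx' : cq x = m := Nat.eq_of_beq_eq_true hx
    refine ⟨m + cc x, T, B, F, Sm.mk Q K' I X, h, Nat.le_add_right _ _, 0, 0, 0, [], [x], [], rfl,
      ?_, rfl, (zero_add _).symm, (zero_add _).symm, ?_, ?_⟩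
    · show K = [x] ++ K'
      rw [hK]
      rfl
    · show 0 + csq [x] = (Ico m (m + cc x)).val + csq []
      unfold csq
      simp [hx']
    · intro e e' he he'
      show Trans e e' T.ms 0 (T.ms + 0) 0 0
      rw [add_zero]
      exact Trans.refl (by omega)
  rcases br_true h with ⟨-, h⟩ | ⟨-, h⟩
  · -- export
    left
    obtain ⟨Q, K, I, X⟩ := s
    obtain ⟨x, X', hX, h⟩ := hd_sound h
    obtain ⟨T1, w, l, hT, h⟩ := ext_sound h
    obtain ⟨h1, h⟩ := br_false h
    obtain ⟨h2, h⟩ := br_false h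
    have h1' : w = x >>> 128 := Nat.eq_of_beq_eq_true h1
    have h2' : l = x &&& 340282366920938463463374607431768211455 := Nat.eq_of_beq_eq_true h2
    refine ⟨m, T1, B, F, Sm.mk Q K I X', h, le_rfl, 0, 0, 0, [], [], [x], rfl,
      rfl, ?_, (zero_add _).symm, (zero_add _).symm, ?_, ?_⟩
    · show X = [x] ++ X'
      rw [hX]
      rfl
    · show 0 + csq [] = (Ico m m).val + csq []
      simp
    · intro e e' he he'
      show Trans e e' T.ms 0 (T1.ms + (([unp x] : List (ℕ × ℕ)) : Multiset (ℕ × ℕ))) 0 0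
      have h3 : unp x = (w, l) := by
        unfold unp
        rw [h1', h2']
      rw [h3, hT, Multiset.coe_singleton, add_comm, Multiset.singleton_add]
      exact Trans.refl (by omega)
  · obtain ⟨-, h⟩ := br_false h
    left
    refine ⟨m, T, B, F, s, h,
      tok_mk (Sq := 0) le_rfl rfl (zero_add _).symm (zero_add _).symm (by simp [St.m]) ?_⟩
    intro e e' he he'
    exact Trans.refl (by omega)

/-- piece TOK -/
theorem tok1_sound {d kd t key w l m : ℕ} {T : Tr} {B F : Bt} {s : Sm}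
    {k0 : ℕ → Tr → Bt → Bt → Sm → Bool} {k1 : ℕ → ℕ → ℕ → Tr → Bt → Bt → Sm → Bool}
    (hd : d = 2 ^ 112) (hm : 1 ≤ m) (h : tok1 d kd t key w l m T B F s k0 k1 = true) :
    (∃ m' T' B' F' s', k0 m' T' B' F' s' = true ∧
      Rl 1 (St.cu w l m T B F s) (St.no m' T' B' F' s')) ∨
    (∃ w' l' m' T' B' F' s', k1 w' l' m' T' B' F' s' = true ∧
      Rl 1 (St.cu w l m T B F s) (St.cu w' l' m' T' B' F' s')) := by
  rcases br_true h with ⟨-, h⟩ | ⟨-, h⟩
  · -- store
    left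
    obtain ⟨T1, hT, h⟩ := ins_sound h
    refine ⟨m, T1, B, F, s, h,
      tok_mk (Sq := 0) le_rfl rfl (zero_add _).symm (zero_add _).symm (by simp [St.m]) ?_⟩
    intro e e' he he'
    show Trans e e' ({(w, l)} + T.ms) 0 T1.ms 0 0
    rw [hT, ← Multiset.singleton_add]
    exact Trans.refl (by omega)
  rcases br_true h with ⟨-, h⟩ | ⟨-, h⟩
  · -- leaf
    left
    obtain ⟨r, F', hF, h, hleaf⟩ := tok_fat1 h
    rw [← Multiset.singleton_add] at hF
    refine ⟨m, T, B, F', s, h,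
      tok_mk (Sq := 0) (F := {r}) le_rfl rfl (zero_add _).symm hF (by simp [St.m]) ?_⟩
    intro e e' he he'
    show Trans e e' ({(w, l)} + T.ms) 0 T.ms 0 {r}
    have h1 : Trans e e' {(w, l)} 0 0 0 {r} := tok_leaf (fun a b => hleaf e a b (by omega))
    have h2 := h1.frame (by omega) T.ms
    rw [zero_add] at h2
    exact h2
  rcases br_true h with ⟨-, h⟩ | ⟨-, h⟩
  · -- leaf turned
    left
    obtain ⟨r, F', hF, h, hleaf⟩ := tok_fat1 h
    rw [← Multiset.singleton_add] at hF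
    refine ⟨m, T, B, F', s, h,
      tok_mk (Sq := 0) (F := {r}) le_rfl rfl (zero_add _).symm hF (by simp [St.m]) ?_⟩
    intro e e' he he'
    show Trans e e' ({(w, l)} + T.ms) 0 T.ms 0 {r}
    have h1 : Trans e e' {(l, w)} 0 0 0 {r} := tok_leaf (fun a b => hleaf e a b (by omega))
    have h3 : Trans e e' {(w, l)} (0 + 0) 0 (0 + 0) (0 + {r}) := Trans.turn.comp h1
    rw [add_zero, zero_add] at h3
    have h2 := h3.frame (by omega) T.ms
    rw [zero_add] at h2
    exact h2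
  rcases br_true h with ⟨-, h⟩ | ⟨-, h⟩
  · -- run
    right
    obtain ⟨n, r, B', hB, hks, h, htr⟩ := run_sound hd hm h
    rw [← Multiset.singleton_add] at hB
    refine ⟨w, l - ksum d m n, m + n, T, B', F, s, h,
      tok_mk (R := {r}) (Nat.le_add_right _ _) rfl hB (zero_add _).symm rfl ?_⟩
    intro e e' he he'
    have he2 : e + (m + n - m) + 4096 ≤ e' := he
    have h1 : e + n + 3 ≤ e' := by omega
    exact (((htr e (by omega)).mono le_rfl h1).frame (by omega) _)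
  rcases br_true h with ⟨-, h⟩ | ⟨-, h⟩
  · -- turn
    right
    refine ⟨l, w, m, T, B, F, s, h,
      tok_mk (Sq := 0) le_rfl rfl (zero_add _).symm (zero_add _).symm (by simp [St.m]) ?_⟩
    intro e e' he he'
    exact (Trans.turn.mono le_rfl (by omega)).frame (by omega) _
  rcases br_true h with ⟨-, h⟩ | ⟨-, h⟩
  · -- one square
    right
    obtain ⟨h1, h⟩ := br_false h
    obtain ⟨h2, h⟩ := br_false h
    obtain ⟨T1, hT, h⟩ := ins_sound h
    have h1' : d / m + 1 ≤ w := Nat.le_of_ble_eq_true h1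
    have h2' : d / m + 1 ≤ l := Nat.le_of_ble_eq_true h2
    refine ⟨w, l - (d / m + 1), m + 1, T1, B, F, s, h,
      tok_mk (Nat.le_succ _) rfl (Sq := {m}) (zero_add _).symm (zero_add _).symm ?_ ?_⟩
    · show ({m} : Multiset ℕ) = (Ico m (m + 1)).val
      rw [Nat.Ico_succ_singleton]
      rfl
    intro e e' he he'
    show Trans e e' ({(w, l)} + T.ms) {m} ({(w, l - (d / m + 1))} + T1.ms) 0 0
    have h3 := ((one_trans (e := e) hd hm h1' h2').mono le_rfl (by omega : e + 1 ≤ e')).frame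
      (by omega) T.ms
    have h4 : T1.ms = {(w - (d / m + 1), d / m)} + T.ms := by
      rw [hT, ← Multiset.singleton_add]
      rfl
    rw [h4]
    have h5 : ({(w, l - (d / m + 1))} + ({(w - (d / m + 1), d / m)} + T.ms) : Multiset (ℕ × ℕ)) =
        {(w - (d / m + 1), d / m)} + {(w, l - (d / m + 1))} + T.ms := by abel
    rw [h5]
    exact h3
  rcases br_true h with ⟨-, h⟩ | ⟨-, h⟩
  · -- cut
    right
    obtain ⟨Q, K, I, X⟩ := s
    obtain ⟨x, I', hI, h⟩ := hd_sound h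
    obtain ⟨h1, h⟩ := br_false h
    obtain ⟨T1, hT, h⟩ := ins_sound h
    have h1' : x ≤ l := Nat.le_of_ble_eq_true h1
    refine ⟨w, l - x, m, T1, B, F, Sm.mk Q K I' X, h,
      tok_mkI rfl ⟨rfl, rfl, rfl⟩ rfl (zero_add _).symm ?_⟩
    intro e e' he he'
    show Trans e e' ({(w, l)} + T.ms) 0 ({(w, l - x)} + T1.ms) 0 0
    have h3 := ((Trans.cut (e := e) (w := w) h1').mono le_rfl (by omega : e ≤ e')).frame
      (by omega) T.ms
    rw [hT, ← Multiset.singleton_add]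
    have h5 : ({(w, l - x)} + ({(w, x)} + T.ms) : Multiset (ℕ × ℕ)) =
        {(w, x)} + {(w, l - x)} + T.ms := by abel
    rw [h5]
    exact h3
  · obtain ⟨-, h⟩ := br_false h
    right
    obtain ⟨Q, K, I, X⟩ := s
    obtain ⟨Qc, Q', I', l', T', F', A, L, hQ, hT, hF, h, htr⟩ := block_sound_all hd h
    refine ⟨w, l', m, T', B, F', Sm.mk Q' K I' X, h, le_rfl, csq Qc, 0, L, Qc, [], [], hQ, rfl, rfl,
      (zero_add _).symm, hF, ?_, ?_⟩
    · show csq Qc + csq [] = (Ico m m).val + csq Qc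
      unfold csq
      simp
    · intro e e' he he'
      have he2 : e + (m - m) + 4096 * 1 + 2 * Qc.length ≤ e' := he
      show Trans e e' ({(w, l)} + T.ms) (csq Qc) ({(w, l')} + T'.ms + 0) 0 L
      have h3 := ((htr e (by omega)).mono le_rfl (by omega : e + 2 * Qc.length + 2048 ≤ e')).frame
        (by omega) T.ms
      rw [add_zero, hT, ← add_assoc]
      exact h3

end Pool.Agent.Moser.Ck
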