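import Pool.Agent.Lib_MP_cc07e8_ck.CkRowSem
import Pool.Agent.Lib_MP_cc07e8_co.EngTau

/-! # MP_cc07e8_co: `XX` and `YY` from lengths (piece XXYY) -/

open Finset

namespace Pool.Agent.Moser.Ck

variable {G G' : Multiset (ℝ × ℝ)}

theorem lam_add (a b : ℝ) : lam a b (G + G') = lam a b G + lam a b G' := by
  unfold lam
  rw [Multiset.map_add, Multiset.sum_add]

theorem lam_nonneg {a b : ℝ} (hG : ∀ r ∈ G, 0 ≤ r.2) : 0 ≤ lam a b G := by
  unfold lam
  apply Multiset.sum_nonneg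
  intro x hx
  rw [Multiset.mem_map] at hx
  obtain ⟨r, hr, rfl⟩ := hx
  split_ifs
  · exact hG r hr
  · exact le_rfl

theorem lam_mono {a b a' b' : ℝ} (hG : ∀ r ∈ G, 0 ≤ r.1 ∧ 0 ≤ r.2) (ha : a' ≤ a) (hb : b ≤ b') :
    lam a b G ≤ lam a' b' G := by
  unfold lam
  apply Multiset.sum_map_le_sum_map
  intro r hr
  obtain ⟨h1, h2⟩ := hG r hr
  by_cases h : a * r.1 ≤ 1 ∧ 1 < b * r.1
  · have h' : a' * r.1 ≤ 1 ∧ 1 < b' * r.1 :=
      ⟨(mul_le_mul_of_nonneg_right ha h1).trans h.1,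
        h.2.trans_le (mul_le_mul_of_nonneg_right hb h1)⟩
    rw [if_pos h, if_pos h']
  · rw [if_neg h]
    split_ifs
    · exact h2
    · exact le_rfl

/-- strips outside of the interval do not count -/
theorem lam_zero {a b : ℝ} (hG : ∀ r ∈ G, 1 < a * r.1 ∨ b * r.1 ≤ 1) : lam a b G = 0 := by
  unfold lam
  apply Multiset.sum_eq_zero
  intro x hx
  rw [Multiset.mem_map] at hx
  obtain ⟨r, hr, rfl⟩ := hx
  rw [if_neg]
  rintro ⟨h1, h2⟩
  rcases hG r hr with h | h <;> linarith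

/-- `slots / DD ≤ (i + 33) / 36 * l` for `i ≥ 10305` -/
theorem slots_le {i : ℕ} (hi : 10305 ≤ i) {l : ℝ} (hl : 0 ≤ l) :
    (Eng.slots i l : ℝ) / (Eng.DD i : ℝ) ≤ ((i : ℝ) + 33) / 36 * l := by
  have h0 : 0 < (Eng.DD i : ℝ) := Eng.DD_pos (by omega)
  rw [div_le_iff₀ h0]
  have h1 : (Eng.slots i l : ℝ) ≤ l * (Eng.tau (i + 16) : ℝ) :=
    Nat.floor_le (mul_nonneg hl (Nat.cast_nonneg _))
  have h2 : (Eng.tau (i + 16) : ℝ) ≤ ((i : ℝ) + 33) / 36 * (Eng.DD i : ℝ) := by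
    rw [Eng.DD_cast]
    have h3 := Eng.tau_le (i + 4)
    have h4 := Eng.lt_tau (i + 16)
    push_cast at h3 h4
    have h5 : (10305 : ℝ) ≤ i := by exact_mod_cast hi
    have h6 : ((i : ℝ) + 33) * (Eng.tau (i + 4) : ℝ) ≤ ((i : ℝ) + 33) * (((i : ℝ) + 4) ^ 3 / 27000) :=
      mul_le_mul_of_nonneg_left h3 (by linarith)
    have h7 : ((i : ℝ) - 3) * (((i : ℝ) + 16) ^ 3 / 27000 - 64) ≤
        ((i : ℝ) - 3) * (Eng.tau (i + 16) : ℝ) :=
      mul_le_mul_of_nonneg_left h4.le (by linarith)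
    have h8 : ((i : ℝ) + 33) * (((i : ℝ) + 4) ^ 3 / 27000) ≤
        ((i : ℝ) - 3) * (((i : ℝ) + 16) ^ 3 / 27000 - 64) := by
      nlinarith [mul_nonneg (sub_nonneg.2 h5) (by linarith : (0 : ℝ) ≤ (i : ℝ))]
    linarith
  calc (Eng.slots i l : ℝ) ≤ l * (Eng.tau (i + 16) : ℝ) := h1
    _ ≤ l * (((i : ℝ) + 33) / 36 * (Eng.DD i : ℝ)) := mul_le_mul_of_nonneg_left h2 hl
    _ = ((i : ℝ) + 33) / 36 * l * (Eng.DD i : ℝ) := by ring

private theorem xxyy_inW_unique {i i' : ℕ} {x : ℝ} (h : Eng.InW i x) (h' : Eng.InW i' x) :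
    i = i' := by
  have key : ∀ {i i' : ℕ}, Eng.InW i x → Eng.InW i' x → ¬ i < i' := by
    intro i i' h h' hlt
    have hx : 0 ≤ x := by
      by_contra hx
      push Not at hx
      have : (Eng.tau (i + 1) : ℝ) * x ≤ 0 := mul_nonpos_of_nonneg_of_nonpos (Nat.cast_nonneg _) hx.le
      linarith [h.2]
    have h1 : (Eng.tau (i + 1) : ℝ) ≤ Eng.tau i' := by
      exact_mod_cast Eng.tau_mono (show i + 1 ≤ i' by omega)
    have h2 := mul_le_mul_of_nonneg_right h1 hx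
    linarith [h.2, h'.1]
  rcases lt_trichotomy i i' with h1 | h1 | h1
  · exact absurd h1 (key h h')
  · exact h1
  · exact absurd h1 (key h' h)

open Classical in
private theorem xxyy_sum_le (s : Finset ℕ) (F : ℕ → ℝ) (x B : ℝ) (hB : 0 ≤ B)
    (h : ∀ i ∈ s, Eng.InW i x → F i ≤ B) :
    ∑ i ∈ s, (if Eng.InW i x then F i else 0) ≤ B := by
  by_cases hex : ∃ i ∈ s, Eng.InW i x
  · obtain ⟨i, hi, hw⟩ := hex
    rw [Finset.sum_eq_single_of_mem i hi, if_pos hw]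
    · exact h i hi hw
    · intro j _ hne
      rw [if_neg]
      intro hj
      exact hne (xxyy_inW_unique hj hw)
  · have : ∑ i ∈ s, (if Eng.InW i x then F i else 0) = 0 := by
      apply Finset.sum_eq_zero
      intro i hi
      rw [if_neg]
      intro hw
      exact hex ⟨i, hi, hw⟩
    rw [this]
    exact hB

private theorem xxyy_pos {i : ℕ} {x : ℝ} (h : Eng.InW i x) : 0 ≤ x := by
  by_contra hx
  push Not at hx
  have : (Eng.tau (i + 1) : ℝ) * x ≤ 0 := mul_nonpos_of_nonneg_of_nonpos (Nat.cast_nonneg _) hx.le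
  linarith [h.2]

/-- a strip of window `i` is in the range of windows `a ≤ i < b` -/
private theorem xxyy_range {i a b : ℕ} {x : ℝ} (h : Eng.InW i x) (ha : a ≤ i) (hb : i + 1 ≤ b) :
    (Eng.tau a : ℝ) * x ≤ 1 ∧ 1 < (Eng.tau b : ℝ) * x := by
  have hx := xxyy_pos h
  have h1 : (Eng.tau a : ℝ) ≤ Eng.tau i := by exact_mod_cast Eng.tau_mono ha
  have h2 : (Eng.tau (i + 1) : ℝ) ≤ Eng.tau b := by exact_mod_cast Eng.tau_mono hb
  exact ⟨(mul_le_mul_of_nonneg_right h1 hx).trans h.1,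
    h.2.trans_le (mul_le_mul_of_nonneg_right h2 hx)⟩

theorem XX_le {k : ℕ} (hk : 10320 ≤ k) (hG : ∀ r ∈ G, 0 ≤ r.1 ∧ 0 ≤ r.2) :
    Eng.XX k G ≤ ((k : ℝ) + 29) / 36 * lam (Eng.tau (k - 15)) (Eng.tau (k - 3)) G := by
  classical
  unfold Eng.XX lam
  rw [← Multiset.sum_map_mul_left]
  apply Multiset.sum_map_le_sum_map
  intro r hr
  obtain ⟨h1, h2⟩ := hG r hr
  unfold Eng.xx
  have hk0 : (0 : ℝ) ≤ ((k : ℝ) + 29) / 36 := by positivity
  have key := xxyy_sum_le (Icc (k - 15) (k - 4))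
    (fun i => (Eng.slots i r.2 : ℝ) / (Eng.DD i : ℝ)) r.1
    (((k : ℝ) + 29) / 36 * (if (Eng.tau (k - 15) : ℝ) * r.1 ≤ 1 ∧ 1 < (Eng.tau (k - 3) : ℝ) * r.1
      then r.2 else 0)) (by
        apply mul_nonneg hk0
        split_ifs
        · exact h2
        · exact le_rfl) (by
        intro i hi hw
        rw [Finset.mem_Icc] at hi
        rw [if_pos (xxyy_range hw hi.1 (by omega))]
        refine (slots_le (by omega) h2).trans ?_
        apply mul_le_mul_of_nonneg_right _ h2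
        have h3 : (i : ℝ) + 4 ≤ k := by
          have : i + 4 ≤ k := by omega
          exact_mod_cast this
        linarith)
  convert key

/-- `phi` on a cell of windows and rows -/
theorem phi_le {k i i0 i1 ka kb : ℕ} (hka : 10320 ≤ ka) (h1 : ka ≤ k) (h2 : k ≤ kb) (hi0 : 1 ≤ i0)
    (h3 : i0 ≤ i) (h4 : i ≤ i1) :
    Eng.phi k i ≤ (1.0015 + 800 / (ka : ℝ)) * ((i1 : ℝ) ^ 3 / (ka : ℝ) ^ 3 + 750 * (kb : ℝ) / (i0 : ℝ) ^ 3) ∧
      ((i1 : ℝ) ^ 4 < 8.95 * (ka : ℝ) ^ 3 → Eng.phi k i = 0) ∧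
      (48.2 * (kb : ℝ) ^ 3 < (i0 : ℝ) ^ 4 → Eng.phi k i = 0) := by
  have a0 : (0 : ℝ) < ka := by
    have : 0 < ka := by omega
    exact_mod_cast this
  have a1 : (ka : ℝ) ≤ k := by exact_mod_cast h1
  have a2 : (k : ℝ) ≤ kb := by exact_mod_cast h2
  have a3 : (0 : ℝ) < i0 := by exact_mod_cast hi0
  have a4 : (i0 : ℝ) ≤ i := by exact_mod_cast h3
  have a5 : (i : ℝ) ≤ i1 := by exact_mod_cast h4
  have a6 : (0 : ℝ) < k := a0.trans_le a1
  have a7 : (0 : ℝ) < i := a3.trans_le a4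
  refine ⟨?_, ?_, ?_⟩
  · unfold Eng.phi
    split_ifs
    · gcongr
    · positivity
  · intro h
    unfold Eng.phi
    rw [if_neg]
    rintro ⟨b1, -⟩
    have b2 : (i : ℝ) ^ 4 ≤ (i1 : ℝ) ^ 4 := by gcongr
    have b3 : (8.95 : ℝ) * (ka : ℝ) ^ 3 ≤ 8.95 * (k : ℝ) ^ 3 := by gcongr
    linarith
  · intro h
    unfold Eng.phi
    rw [if_neg]
    rintro ⟨-, b1⟩
    have b2 : (i0 : ℝ) ^ 4 ≤ (i : ℝ) ^ 4 := by gcongr
    have b3 : (48.2 : ℝ) * (k : ℝ) ^ 3 ≤ 48.2 * (kb : ℝ) ^ 3 := by gcongr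
    linarith

/-- each window before the last cell boundary is in a cell -/
private theorem xxyy_cell {n : ℕ} {w : ℕ → ℕ} {i : ℕ} (h0 : w 0 ≤ i) (hn : i < w n) :
    ∃ j < n, w j ≤ i ∧ i < w (j + 1) := by
  induction n with
  | zero => omega
  | succ n ih =>
    by_cases h : i < w n
    · obtain ⟨j, hj, h'⟩ := ih h
      exact ⟨j, by omega, h'⟩
    · exact ⟨n, by omega, by omega, hn⟩

/-- Cell bound for `YY`: windows split at `w 0 = 10320 < w 1 < ... < w n`, all later windows outside of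
the support of `phi k`; `b j` a bound for `phi k` on the cell `[w j, w (j + 1))`. -/
theorem YY_le {k n : ℕ} (hk : 10320 ≤ k) (w : ℕ → ℕ) (b : ℕ → ℝ) (hw0 : w 0 = 10320)
    (hw : ∀ j < n, w j < w (j + 1)) (hb : ∀ j < n, 0 ≤ b j)
    (hphi : ∀ j < n, ∀ i, w j ≤ i → i < w (j + 1) → Eng.phi k i ≤ b j)
    (hout : ∀ i, w n ≤ i → Eng.phi k i = 0) (hG : ∀ r ∈ G, 0 ≤ r.1 ∧ 0 ≤ r.2) :
    Eng.YY k G ≤ ∑ j ∈ range n, ((w (j + 1) : ℝ) + 32) / 36 * b j *
      lam (Eng.tau (w j)) (Eng.tau (w (j + 1))) G := by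
  classical
  -- per strip bound
  have hstrip : ∀ r ∈ G, Eng.yy k r ≤ ∑ j ∈ range n, ((w (j + 1) : ℝ) + 32) / 36 * b j *
      (if (Eng.tau (w j) : ℝ) * r.1 ≤ 1 ∧ 1 < (Eng.tau (w (j + 1)) : ℝ) * r.1 then r.2 else 0) := by
    intro r hr
    obtain ⟨h1, h2⟩ := hG r hr
    have hnn : ∀ j ∈ range n, 0 ≤ ((w (j + 1) : ℝ) + 32) / 36 * b j *
        (if (Eng.tau (w j) : ℝ) * r.1 ≤ 1 ∧ 1 < (Eng.tau (w (j + 1)) : ℝ) * r.1 then r.2
          else 0) := by
      intro j hj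
      have hbj := hb j (Finset.mem_range.1 hj)
      split_ifs
      · positivity
      · simp
    have key := xxyy_sum_le (Ico 10320 k)
      (fun i => (Eng.slots i r.2 : ℝ) / (Eng.DD i : ℝ) * Eng.phi k i) r.1
      (∑ j ∈ range n, ((w (j + 1) : ℝ) + 32) / 36 * b j *
      (if (Eng.tau (w j) : ℝ) * r.1 ≤ 1 ∧ 1 < (Eng.tau (w (j + 1)) : ℝ) * r.1 then r.2 else 0))
      (Finset.sum_nonneg hnn) (by
        intro i hi hwi
        rw [Finset.mem_Ico] at hi
        by_cases hin : i < w n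
        · obtain ⟨j, hj, hj1, hj2⟩ := xxyy_cell (n := n) (w := w) (i := i) (by omega) hin
          refine le_trans ?_ (Finset.single_le_sum hnn (Finset.mem_range.2 hj))
          rw [if_pos (xxyy_range hwi hj1 (by omega))]
          have hbj := hb j hj
          have h3 := slots_le (i := i) (by omega) h2
          have h4 := hphi j hj i hj1 hj2
          have h5 : (i : ℝ) + 1 ≤ w (j + 1) := by exact_mod_cast hj2
          have h6 : (0 : ℝ) ≤ (Eng.slots i r.2 : ℝ) / (Eng.DD i : ℝ) := by positivity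
          calc (Eng.slots i r.2 : ℝ) / (Eng.DD i : ℝ) * Eng.phi k i
              ≤ (Eng.slots i r.2 : ℝ) / (Eng.DD i : ℝ) * b j := mul_le_mul_of_nonneg_left h4 h6
            _ ≤ (((i : ℝ) + 33) / 36 * r.2) * b j := mul_le_mul_of_nonneg_right h3 hbj
            _ ≤ ((w (j + 1) : ℝ) + 32) / 36 * r.2 * b j := by
                apply mul_le_mul_of_nonneg_right _ hbj
                apply mul_le_mul_of_nonneg_right _ h2
                linarith
            _ = ((w (j + 1) : ℝ) + 32) / 36 * b j * r.2 := by ring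
        · rw [hout i (by omega), mul_zero]
          exact Finset.sum_nonneg hnn)
    unfold Eng.yy
    convert key
  have hsum : Eng.YY k G ≤ (G.map fun r => ∑ j ∈ range n, ((w (j + 1) : ℝ) + 32) / 36 * b j *
      (if (Eng.tau (w j) : ℝ) * r.1 ≤ 1 ∧ 1 < (Eng.tau (w (j + 1)) : ℝ) * r.1 then r.2
        else 0)).sum := by
    unfold Eng.YY
    exact Multiset.sum_map_le_sum_map _ _ hstrip
  refine hsum.trans (le_of_eq ?_)
  clear hstrip hsum hG
  induction G using Multiset.induction with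
  | empty => simp [lam]
  | cons r G ih =>
    rw [Multiset.map_cons, Multiset.sum_cons, ih, ← Finset.sum_add_distrib]
    apply Finset.sum_congr rfl
    intro j _
    have : lam (Eng.tau (w j)) (Eng.tau (w (j + 1))) (r ::ₘ G) =
        (if (Eng.tau (w j) : ℝ) * r.1 ≤ 1 ∧ 1 < (Eng.tau (w (j + 1)) : ℝ) * r.1 then r.2 else 0) +
        lam (Eng.tau (w j)) (Eng.tau (w (j + 1))) G := by
      unfold lam
      rw [Multiset.map_cons, Multiset.sum_cons]
    rw [this, mul_add]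

end Pool.Agent.Moser.Ck
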