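import Pool.Agent.Lib_MP_cc07e8_ck.ExDefs
import Pool.Agent.Lib_MP_cc07e8_ck.CkChain
import Pool.Agent.Lib_MP_cc07e8_ck.CkPi

/-! # MP_cc07e8_co: exact start (module 0), soundness -/

open Finset

namespace Pool.Agent.Moser.Ck

/-- real number with the components `p`, `q` -/
noncomputable def exv (t : ℝ) (Q p q : ℕ) : ℝ := ((1 - t) * (p : ℝ) + t * (q : ℝ)) / (Q : ℝ)

theorem exv_nonneg {t : ℝ} (h0 : 0 ≤ t) (h1 : t ≤ 1) (Q p q : ℕ) : 0 ≤ exv t Q p q := by
  unfold exv
  have h2 : 0 ≤ 1 - t := by linarith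
  positivity

theorem exv_mono {t : ℝ} (h0 : 0 ≤ t) (h1 : t ≤ 1) (Q : ℕ) {p q p' q' : ℕ} (hp : p ≤ p') (hq : q ≤ q') :
    exv t Q p q ≤ exv t Q p' q' := by
  unfold exv
  have h2 : 0 ≤ 1 - t := by linarith
  have h3 : (p : ℝ) ≤ p' := by exact_mod_cast hp
  have h4 : (q : ℝ) ≤ q' := by exact_mod_cast hq
  gcongr

theorem exv_add (t : ℝ) (Q p q p' q' : ℕ) :
    exv t Q (p + p') (q + q') = exv t Q p q + exv t Q p' q' := by
  unfold exv
  push_cast
  ring

theorem exv_mul (t : ℝ) (Q p q p' q' : ℕ) :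
    exv t Q p q * exv t Q p' q' =
      ((1 - t) ^ 2 * (p * p' : ℕ) + (1 - t) * t * (p * q' + q * p' : ℕ) + t ^ 2 * (q * q' : ℕ)) / (Q : ℝ) ^ 2 := by
  unfold exv
  push_cast
  ring

theorem exle_sound {t : ℝ} (h0 : 0 ≤ t) (h1 : t ≤ 1) (Q : ℕ) {p0 p1 q0 q1 r0 r1 : ℕ}
    (h : exle p0 p1 q0 q1 r0 r1 = true) : exv t Q p0 p1 + exv t Q q0 q1 ≤ exv t Q r0 r1 := by
  unfold exle at h
  obtain ⟨h2, h3⟩ := br_false h
  rw [← exv_add]
  exact exv_mono h0 h1 Q (Nat.le_of_ble_eq_true h2) (Nat.le_of_ble_eq_true h3)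

theorem exbr_or {b e : Bool} (h : br b true e = true) : b = true ∨ e = true := by
  cases b
  · exact Or.inr h
  · exact Or.inl rfl

theorem Sep.exsymm {x y a b x' y' a' b' : ℝ} (h : Sep x y a b x' y' a' b') : Sep x' y' a' b' x y a b := by
  unfold Sep at h ⊢
  tauto

/-- the boxes as real boxes are separated -/
def ExSep (t : ℝ) (Q : ℕ) (u v : Bx) : Prop :=
  Sep (exv t Q u.x0 u.x1) (exv t Q u.y0 u.y1) (exv t Q u.a0 u.a1) (exv t Q u.b0 u.b1)
    (exv t Q v.x0 v.x1) (exv t Q v.y0 v.y1) (exv t Q v.a0 v.a1) (exv t Q v.b0 v.b1)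

theorem exsep_sound {t : ℝ} (h0 : 0 ≤ t) (h1 : t ≤ 1) (Q : ℕ) {u v : Bx} (h : exsep u v = true) :
    ExSep t Q u v := by
  obtain ⟨m, f, x0, x1, y0, y1, a0, a1, b0, b1⟩ := u
  obtain ⟨m', f', x0', x1', y0', y1', a0', a1', b0', b1'⟩ := v
  unfold ExSep Sep
  simp only
  change br (exle x0 x1 a0 a1 x0' x1') true
        (br (exle x0' x1' a0' a1' x0 x1) true
          (br (exle y0 y1 b0 b1 y0' y1') true (exle y0' y1' b0' b1' y0 y1))) = true at h
  rcases exbr_or h with h | h
  · exact Or.inl (exle_sound h0 h1 Q h)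
  rcases exbr_or h with h | h
  · exact Or.inr (Or.inl (exle_sound h0 h1 Q h))
  rcases exbr_or h with h | h
  · exact Or.inr (Or.inr (Or.inl (exle_sound h0 h1 Q h)))
  · exact Or.inr (Or.inr (Or.inr (exle_sound h0 h1 Q h)))

theorem exall_sound {f : Bx → Bool} {l : List Bx} (h : exall f l = true) : ∀ u ∈ l, f u = true := by
  induction l with
  | nil => simp
  | cons v l ih =>
    have h1 : br (f v) (exall f l) false = true := h
    obtain ⟨h2, h3⟩ := br_false h1
    intro u hu
    rcases List.mem_cons.1 hu with rfl | hu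
    · exact h2
    · exact ih h3 u hu

theorem expairs_sound {t : ℝ} (h0 : 0 ≤ t) (h1 : t ≤ 1) (Q : ℕ) {l : List Bx} (h : expairs l = true) :
    l.Pairwise (ExSep t Q) := by
  induction l with
  | nil => exact List.Pairwise.nil
  | cons v l ih =>
    have h1' : br (exall (exsep v) l) (expairs l) false = true := h
    obtain ⟨h2, h3⟩ := br_false h1'
    exact List.Pairwise.cons (fun u hu => exsep_sound h0 h1 Q (exall_sound h2 u hu)) (ih h3)

theorem exbox_sound {t : ℝ} (h0 : 0 ≤ t) (h1 : t ≤ 1) {Q W0 W1 H0 H1 : ℕ} (hQ : 1 ≤ Q) {u : Bx}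
    (h : exbox Q W0 W1 H0 H1 u = true) :
    exv t Q u.x0 u.x1 + exv t Q u.a0 u.a1 ≤ exv t Q W0 W1 ∧
      exv t Q u.y0 u.y1 + exv t Q u.b0 u.b1 ≤ exv t Q H0 H1 ∧
      (u.m ≠ 0 → exv t Q u.a0 u.a1 = 1 / (u.m : ℝ) ∧ exv t Q u.b0 u.b1 = 1 / (u.m : ℝ)) := by
  obtain ⟨m, f, x0, x1, y0, y1, a0, a1, b0, b1⟩ := u
  simp only
  change br (exle x0 x1 a0 a1 W0 W1)
      (br (exle y0 y1 b0 b1 H0 H1)
        (br (Nat.beq m 0) true
          (br (Nat.beq (Nat.mul m a0) Q) (br (Nat.beq (Nat.mul m a1) Q)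
            (br (Nat.beq (Nat.mul m b0) Q) (Nat.beq (Nat.mul m b1) Q) false) false) false)) false) false = true at h
  obtain ⟨h2, h⟩ := br_false h
  obtain ⟨h3, h⟩ := br_false h
  refine ⟨exle_sound h0 h1 Q h2, exle_sound h0 h1 Q h3, fun hm => ?_⟩
  rcases exbr_or h with h | h
  · exact absurd (Nat.eq_of_beq_eq_true h) hm
  obtain ⟨k1, h⟩ := br_false h
  obtain ⟨k2, h⟩ := br_false h
  obtain ⟨k3, k4⟩ := br_false h
  have k1 := Nat.eq_of_beq_eq_true k1
  have k2 := Nat.eq_of_beq_eq_true k2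
  have k3 := Nat.eq_of_beq_eq_true k3
  have k4 := Nat.eq_of_beq_eq_true k4
  have hm' : (m : ℝ) ≠ 0 := by exact_mod_cast hm
  have hQ' : (Q : ℝ) ≠ 0 := by
    have : Q ≠ 0 := by omega
    exact_mod_cast this
  have key : ∀ p q : ℕ, Nat.mul m p = Q → Nat.mul m q = Q → exv t Q p q = 1 / (m : ℝ) := by
    intro p q hp hq
    have hp' : (m : ℝ) * (p : ℝ) = (Q : ℝ) := by exact_mod_cast hp
    have hq' : (m : ℝ) * (q : ℝ) = (Q : ℝ) := by exact_mod_cast hq
    unfold exv
    rw [div_eq_div_iff hQ' hm']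
    linear_combination (1 - t) * hp' + t * hq'
  exact ⟨key _ _ k1 k2, key _ _ k3 k4⟩

theorem exsum_eq (f : Bx → ℕ) (l : List Bx) : exsum f l = (l.map f).sum := by
  induction l with
  | nil => rfl
  | cons u l ih =>
    rw [List.map_cons, List.sum_cons, ← ih]
    rfl

theorem exarea_sound {t : ℝ} {Q W0 W1 H0 H1 : ℕ} {l : List Bx} (h : exarea W0 W1 H0 H1 l = true) :
    (l.map fun u => exv t Q u.a0 u.a1 * exv t Q u.b0 u.b1).sum = exv t Q W0 W1 * exv t Q H0 H1 := by
  unfold exarea at h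
  obtain ⟨k1, h⟩ := br_false h
  obtain ⟨k2, k3⟩ := br_false h
  have k1 := Nat.eq_of_beq_eq_true k1
  have k2 := Nat.eq_of_beq_eq_true k2
  have k3 := Nat.eq_of_beq_eq_true k3
  rw [exsum_eq] at k1 k2 k3
  have key : ∀ l : List Bx, (l.map fun u => exv t Q u.a0 u.a1 * exv t Q u.b0 u.b1).sum =
      ((1 - t) ^ 2 * ((l.map fun u => u.a0 * u.b0).sum : ℕ) +
        (1 - t) * t * ((l.map fun u => u.a0 * u.b1 + u.a1 * u.b0).sum : ℕ) +
        t ^ 2 * ((l.map fun u => u.a1 * u.b1).sum : ℕ)) / (Q : ℝ) ^ 2 := by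
    intro l
    induction l with
    | nil => simp
    | cons u l ih =>
      simp only [List.map_cons, List.sum_cons]
      rw [ih, exv_mul]
      push_cast
      ring
  rw [key, exv_mul]
  have e1 : (l.map fun u => u.a0 * u.b0).sum = W0 * H0 := k1
  have e2 : (l.map fun u => u.a1 * u.b1).sum = W1 * H1 := k2
  have e3 : (l.map fun u => u.a0 * u.b1 + u.a1 * u.b0).sum = W0 * H1 + W1 * H0 := k3
  rw [e1, e2, e3]

/-- squares of a box -/
def exS (u : Bx) : Multiset ℕ := if u.m = 0 then 0 else {u.m}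

/-- rectangles of a box -/
noncomputable def exR (t : ℝ) (Q : ℕ) (u : Bx) : Multiset (ℝ × ℝ) :=
  if u.m = 0 then
    (if u.f = 0 then {(exv t Q u.a0 u.a1, exv t Q u.b0 u.b1)} else {(exv t Q u.b0 u.b1, exv t Q u.a0 u.a1)})
  else 0

theorem exseq_sound {m1 : ℕ} {l : List Bx} (k : ℕ) (h : exseq m1 l k = true) :
    k ≤ m1 ∧ (l.map exS).sum = (Ico k m1).val := by
  induction l generalizing k with
  | nil =>
    have h1 : Nat.beq k m1 = true := h
    have h2 := Nat.eq_of_beq_eq_true h1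
    subst h2
    simp
  | cons u l ih =>
    have h1 : br (Nat.beq u.m 0) (exseq m1 l k) (br (Nat.beq u.m k) (exseq m1 l (Nat.succ k)) false) = true := h
    rw [List.map_cons, List.sum_cons]
    by_cases hu : u.m = 0
    · have h2 : Nat.beq u.m 0 = true := by rw [hu]; rfl
      rw [h2] at h1
      have h3 : exseq m1 l k = true := h1
      obtain ⟨h4, h5⟩ := ih k h3
      refine ⟨h4, ?_⟩
      rw [h5]
      unfold exS
      rw [if_pos hu, zero_add]
    · have h2 : Nat.beq u.m 0 = false := by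
        rw [Bool.eq_false_iff]
        intro h3
        exact hu (Nat.eq_of_beq_eq_true h3)
      rw [h2] at h1
      have h3 : br (Nat.beq u.m k) (exseq m1 l (Nat.succ k)) false = true := h1
      obtain ⟨h4, h5⟩ := br_false h3
      have h4 := Nat.eq_of_beq_eq_true h4
      obtain ⟨h6, h7⟩ := ih (Nat.succ k) h5
      refine ⟨by omega, ?_⟩
      rw [h7]
      unfold exS
      rw [if_neg hu, h4]
      rw [← Finset.insert_Ico_add_one_left_eq_Ico (show k < m1 by omega)]
      rw [Finset.insert_val_of_notMem (by simp)]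
      rfl

theorem exapp_sound {t : ℝ} (h0 : 0 ≤ t) (h1 : t ≤ 1) {Q e w x0 x1 : ℕ} (hQ : 1 ≤ Q)
    (h : exapp Q e w x0 x1 = true) :
    (w : ℝ) ≤ exv t Q x0 x1 * 2 ^ 112 ∧ exv t Q x0 x1 * 2 ^ 112 ≤ w + e := by
  unfold exapp at h
  obtain ⟨k1, h⟩ := br_false h
  obtain ⟨k2, h⟩ := br_false h
  obtain ⟨k3, k4⟩ := br_false h
  have k1 : w * Q ≤ 5192296858534827628530496329220096 * x0 := Nat.le_of_ble_eq_true k1
  have k2 : w * Q ≤ 5192296858534827628530496329220096 * x1 := Nat.le_of_ble_eq_true k2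
  have k3 : 5192296858534827628530496329220096 * x0 ≤ (w + e) * Q := Nat.le_of_ble_eq_true k3
  have k4 : 5192296858534827628530496329220096 * x1 ≤ (w + e) * Q := Nat.le_of_ble_eq_true k4
  have c : (2 : ℝ) ^ 112 = ((5192296858534827628530496329220096 : ℕ) : ℝ) := by norm_num
  have hQ' : (0 : ℝ) < (Q : ℝ) := by exact_mod_cast hQ
  have k1' : (w : ℝ) * Q ≤ 2 ^ 112 * x0 := by rw [c]; exact_mod_cast k1
  have k2' : (w : ℝ) * Q ≤ 2 ^ 112 * x1 := by rw [c]; exact_mod_cast k2
  have k3' : 2 ^ 112 * (x0 : ℝ) ≤ (w + e) * Q := by rw [c]; exact_mod_cast k3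
  have k4' : 2 ^ 112 * (x1 : ℝ) ≤ (w + e) * Q := by rw [c]; exact_mod_cast k4
  have h2 : 0 ≤ 1 - t := by linarith
  unfold exv
  rw [div_mul_eq_mul_div, le_div_iff₀ hQ', div_le_iff₀ hQ']
  constructor
  · have e1 := mul_le_mul_of_nonneg_left k1' h2
    have e2 := mul_le_mul_of_nonneg_left k2' h0
    linarith
  · have e1 := mul_le_mul_of_nonneg_left k3' h2
    have e2 := mul_le_mul_of_nonneg_left k4' h0
    linarith

theorem um_cons (x : ℕ) (L : List ℕ) : um (x :: L) = unp x ::ₘ um L := rfl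

theorem exrel_sound {t : ℝ} (h0 : 0 ≤ t) (h1 : t ≤ 1) {Q e : ℕ} (hQ : 1 ≤ Q) {l : List Bx} (L : List ℕ)
    (h : exrel Q e l L = true) : Multiset.Rel (App e) (um L) (l.map (exR t Q)).sum := by
  induction l generalizing L with
  | nil =>
    have h2 : List.rec (motive := fun _ => Bool) true (fun _ _ _ => false) L = true := h
    cases L with
    | nil => exact Multiset.Rel.zero
    | cons x L => exact absurd h2 (by simp)
  | cons u l ih =>
    have h2 : br (Nat.beq u.m 0)
      (List.rec (motive := fun _ => Bool) false (fun x L' _ =>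
        br (br (Nat.beq u.f 0)
            (br (exapp Q e (Nat.shiftRight x 128) u.a0 u.a1)
              (exapp Q e (Nat.land x 340282366920938463463374607431768211455) u.b0 u.b1) false)
            (br (exapp Q e (Nat.shiftRight x 128) u.b0 u.b1)
              (exapp Q e (Nat.land x 340282366920938463463374607431768211455) u.a0 u.a1) false))
          (exrel Q e l L') false) L)
      (exrel Q e l L) = true := h
    rw [List.map_cons, List.sum_cons]
    by_cases hu : u.m = 0
    · have h3 : Nat.beq u.m 0 = true := by rw [hu]; rfl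
      rw [h3] at h2
      cases L with
      | nil => exact absurd h2 (by simp [br])
      | cons x L =>
        have h4 : br (br (Nat.beq u.f 0)
            (br (exapp Q e (Nat.shiftRight x 128) u.a0 u.a1)
              (exapp Q e (Nat.land x 340282366920938463463374607431768211455) u.b0 u.b1) false)
            (br (exapp Q e (Nat.shiftRight x 128) u.b0 u.b1)
              (exapp Q e (Nat.land x 340282366920938463463374607431768211455) u.a0 u.a1) false))
          (exrel Q e l L) false = true := h2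
        obtain ⟨h5, h6⟩ := br_false h4
        rw [um_cons]
        unfold exR
        rw [if_pos hu]
        by_cases hf : u.f = 0
        · have h7 : Nat.beq u.f 0 = true := by rw [hf]; rfl
          rw [h7] at h5
          have h8 : br (exapp Q e (Nat.shiftRight x 128) u.a0 u.a1)
              (exapp Q e (Nat.land x 340282366920938463463374607431768211455) u.b0 u.b1) false = true := h5
          obtain ⟨h9, h10⟩ := br_false h8
          obtain ⟨i1, i2⟩ := exapp_sound h0 h1 hQ h9
          obtain ⟨i3, i4⟩ := exapp_sound h0 h1 hQ h10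
          rw [if_pos hf, Multiset.singleton_add]
          exact Multiset.Rel.cons ⟨i1, i2, i3, i4⟩ (ih L h6)
        · have h7 : Nat.beq u.f 0 = false := by
            rw [Bool.eq_false_iff]
            intro h3
            exact hf (Nat.eq_of_beq_eq_true h3)
          rw [h7] at h5
          have h8 : br (exapp Q e (Nat.shiftRight x 128) u.b0 u.b1)
              (exapp Q e (Nat.land x 340282366920938463463374607431768211455) u.a0 u.a1) false = true := h5
          obtain ⟨h9, h10⟩ := br_false h8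
          obtain ⟨i1, i2⟩ := exapp_sound h0 h1 hQ h9
          obtain ⟨i3, i4⟩ := exapp_sound h0 h1 hQ h10
          rw [if_neg hf, Multiset.singleton_add]
          exact Multiset.Rel.cons ⟨i1, i2, i3, i4⟩ (ih L h6)
    · have h3 : Nat.beq u.m 0 = false := by
        rw [Bool.eq_false_iff]
        intro h3
        exact hu (Nat.eq_of_beq_eq_true h3)
      rw [h3] at h2
      have h4 : exrel Q e l L = true := h2
      unfold exR
      rw [if_neg hu, zero_add]
      exact ih L h4

theorem sum_get {M : Type} [AddCommMonoid M] (l : List Bx) (f : Bx → M) :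
    ∑ i : Fin l.length, f (l.get i) = (l.map f).sum := by
  rw [← Fin.sum_univ_fun_getElem]
  rfl

/-- `π ^ 2` in units `3 ^ (-88)` -/
theorem ex_pi_sq : (9571283071571785386920244093495448097807590 : ℝ) ≤ Real.pi ^ 2 * 3 ^ 88 ∧
    Real.pi ^ 2 * 3 ^ 88 ≤ 9571283071571785386920244093495448097807591 := by
  obtain ⟨h1, h2⟩ := pi_digits
  have h3 : (3.14159265358979323846264338327950288419716939937510 : ℝ) ^ 2 ≤ Real.pi ^ 2 := by
    gcongr
  have h4 : Real.pi ^ 2 ≤ (3.14159265358979323846264338327950288419716939937511 : ℝ) ^ 2 := by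
    gcongr
  norm_num at h3 h4
  constructor
  · norm_num
    linarith
  · norm_num
    linarith

/-- The exact start. -/
theorem ex_sound {Q W H0 H1 m1 e : ℕ} {l : List Bx} {L : List ℕ} (h : exck Q W H0 H1 m1 e l L = true) :
    ∃ (a b : ℝ) (ρ0 : Multiset (ℝ × ℝ)), a * b = Real.pi ^ 2 / 6 - 1 ∧ Dec a b (Ico 2 m1).val ρ0 ∧
      Multiset.Rel (App e) (um L) ρ0 := by
  unfold exck at h
  obtain ⟨k1, h⟩ := br_false h
  obtain ⟨k2, h⟩ := br_false h
  obtain ⟨k3, h⟩ := br_false h
  obtain ⟨k4, h⟩ := br_false h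
  obtain ⟨k5, k6⟩ := br_false h
  obtain ⟨p1, p2⟩ := ex_pi_sq
  obtain ⟨t, ht⟩ : ∃ t : ℝ, t = Real.pi ^ 2 * 3 ^ 88 - 9571283071571785386920244093495448097807590 := ⟨_, rfl⟩
  have h0 : 0 ≤ t := by rw [ht]; linarith
  have h1 : t ≤ 1 := by rw [ht]; linarith
  unfold excon at k1
  obtain ⟨q1, k1⟩ := br_false k1
  obtain ⟨q2, q3⟩ := br_false k1
  have hQ : 1 ≤ Q := Nat.le_of_ble_eq_true q1
  have q2 : W * H0 * 5818642378725141617260931652984484893360966 =
    Q * Q * 3752640692846643769659312440510963204446624 := Nat.eq_of_beq_eq_true q2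
  have q3 : W * H1 * 5818642378725141617260931652984484893360966 =
    Q * Q * 3752640692846643769659312440510963204446625 := Nat.eq_of_beq_eq_true q3
  have q2' : (W : ℝ) * H0 * 5818642378725141617260931652984484893360966 =
    Q * Q * 3752640692846643769659312440510963204446624 := by exact_mod_cast q2
  have q3' : (W : ℝ) * H1 * 5818642378725141617260931652984484893360966 =
    Q * Q * 3752640692846643769659312440510963204446625 := by exact_mod_cast q3
  have hbox : ∀ u ∈ l, _ := fun u hu => exbox_sound (t := t) h0 h1 hQ (exall_sound k2 u hu)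
  refine ⟨exv t Q W W, exv t Q H0 H1, (l.map (exR t Q)).sum, ?_, ?_, exrel_sound h0 h1 hQ L k5⟩
  · have hQ' : (0 : ℝ) < (Q : ℝ) := by exact_mod_cast hQ
    have e1 : exv t Q W W = (W : ℝ) / Q := by unfold exv; ring
    have e2 : exv t Q W W * exv t Q H0 H1 =
        ((1 - t) * ((W : ℝ) * H0) + t * ((W : ℝ) * H1)) / (Q * Q) := by
      rw [e1]
      unfold exv
      field_simp
    rw [e2, div_eq_iff (by positivity)]
    have e3 : (W : ℝ) * H0 = Q * Q * (3752640692846643769659312440510963204446624 /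
        5818642378725141617260931652984484893360966) := by
      field_simp
      linarith
    have e4 : (W : ℝ) * H1 = Q * Q * (3752640692846643769659312440510963204446625 /
        5818642378725141617260931652984484893360966) := by
      field_simp
      linarith
    rw [e3, e4, ht]
    ring
  · have hd := Dec.pack (w := exv t Q W W) (h := exv t Q H0 H1) (n := l.length)
      (fun i => exv t Q (l.get i).x0 (l.get i).x1) (fun i => exv t Q (l.get i).y0 (l.get i).y1)
      (fun i => exv t Q (l.get i).a0 (l.get i).a1) (fun i => exv t Q (l.get i).b0 (l.get i).b1)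
      (fun i => exS (l.get i)) (fun i => exR t Q (l.get i))
      (exv_nonneg h0 h1 _ _ _) (exv_nonneg h0 h1 _ _ _)
      (fun i => ⟨exv_nonneg h0 h1 _ _ _, (hbox _ (l.get_mem i)).1, exv_nonneg h0 h1 _ _ _,
        (hbox _ (l.get_mem i)).2.1⟩)
      (fun i j hij => ?_) ?_ (fun i => ?_)
    · rw [sum_get l exS, sum_get l (exR t Q), (exseq_sound 2 k4).2] at hd
      exact hd
    · have hp := List.pairwise_iff_get.1 (expairs_sound (t := t) h0 h1 Q k6)
      rcases lt_or_gt_of_ne hij with h2 | h2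
      · exact hp i j h2
      · exact Sep.exsymm (hp j i h2)
    · rw [sum_get l (fun u => exv t Q u.a0 u.a1 * exv t Q u.b0 u.b1)]
      exact exarea_sound k3
    · obtain ⟨-, -, h3⟩ := hbox _ (l.get_mem i)
      unfold exS exR
      by_cases hm : (l.get i).m = 0
      · rw [if_pos hm, if_pos hm]
        by_cases hf : (l.get i).f = 0
        · rw [if_pos hf]
          exact Dec.leaf (exv_nonneg h0 h1 _ _ _) (exv_nonneg h0 h1 _ _ _)
        · rw [if_neg hf]
          exact Dec.turn (Dec.leaf (exv_nonneg h0 h1 _ _ _) (exv_nonneg h0 h1 _ _ _))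
      · rw [if_neg hm, if_neg hm]
        obtain ⟨h4, h5⟩ := h3 hm
        rw [h4, h5]
        exact Dec.sq _

end Pool.Agent.Moser.Ck
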