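import Pool.Agent.Lib_MP_cc07e8_ck.ExData
import Pool.Agent.Lib_MP_cc07e8_ck.ExSound
import Pool.Agent.Lib_MP_cc07e8_cd.D000

/-! # MP_cc07e8_co: exact start, result -/

open Finset

namespace Pool.Agent.Moser.Ck

theorem ex_check : exck exQ 1252092376457480401342674086963939085578957186154862988164622801847048482679271200 3230068113673533463880195973078460781985317066790098150374052319011457361122867200 3230068113673533463880195973078460781985317927535471356700930893502925698311800000 101 4 exB Cd.e0_1 = true := by decide +kernel

/-- the squares `2, ..., 100` are placed exactly -/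
theorem ex_start : ∃ (a b : ℝ) (ρ0 : Multiset (ℝ × ℝ)), a * b = Real.pi ^ 2 / 6 - 1 ∧
    Dec a b (Ico 2 101).val ρ0 ∧ Multiset.Rel (App 4) (um Cd.e0_1) ρ0 := ex_sound ex_check

end Pool.Agent.Moser.Ck
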