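import Pool.Agent.Lib_MP_cc07e8_ck.CkDefs

/-!
# MP_cc07e8_co: exact start (module 0), programs

The squares `2, ..., m1 - 1` and rectangles are placed with explicit coordinates in a container `a × b` with
`a * b = π ^ 2 / 6 - 1`. Every real number `x` (coordinate or side) is given by two natural numbers `x0`,
`x1`: `x = ((1 - t) * x0 + t * x1) / Q` with the common denominator `Q` and `t = π ^ 2 * 3 ^ 88 - c`,
`c = 9571283071571785386920244093495448097807590` (so `0 ≤ t ≤ 1`). Comparisons are done for `x0` and `x1`
separately; the area identity is an identity of quadratic polynomials in `t`. (The scale `3 ^ 88` is odd: the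
kernel hashes numbers by their last 64 bits.)
-/

set_option linter.unusedVariables false

namespace Pool.Agent.Moser.Ck

noncomputable section

/-- placed box: corner `(x, y)`, sides `a`, `b`; `m = 0`: a rectangle (`f = 0`: listed as `(a, b)`, otherwise
as `(b, a)`), `m ≥ 1`: the square with side `1 / m` -/
structure Bx where
  /-- square -/
  m : Nat
  /-- orientation of a rectangle -/
  f : Nat
  /-- left end -/
  x0 : Nat
  /-- left end -/
  x1 : Nat
  /-- lower end -/
  y0 : Nat
  /-- lower end -/
  y1 : Nat
  /-- horizontal side -/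
  a0 : Nat
  /-- horizontal side -/
  a1 : Nat
  /-- vertical side -/
  b0 : Nat
  /-- vertical side -/
  b1 : Nat

/-- `(p + q) ≤ r` for both components -/
def exle (p0 p1 q0 q1 r0 r1 : Nat) : Bool :=
  br (Nat.ble (Nat.add p0 q0) r0) (Nat.ble (Nat.add p1 q1) r1) false

/-- the boxes are separated -/
def exsep (u v : Bx) : Bool :=
  Bx.rec (motive := fun _ => Bool) (fun _ _ x0 x1 y0 y1 a0 a1 b0 b1 =>
    Bx.rec (motive := fun _ => Bool) (fun _ _ x0' x1' y0' y1' a0' a1' b0' b1' =>
      br (exle x0 x1 a0 a1 x0' x1') true
        (br (exle x0' x1' a0' a1' x0 x1) true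
          (br (exle y0 y1 b0 b1 y0' y1') true (exle y0' y1' b0' b1' y0 y1)))) v) u

/-- all boxes of a list -/
def exall (f : Bx → Bool) (l : List Bx) : Bool :=
  List.rec (motive := fun _ => Bool) true (fun x _ ih => br (f x) ih false) l

/-- all pairs of boxes are separated -/
def expairs (l : List Bx) : Bool :=
  List.rec (motive := fun _ => Bool) true (fun x r ih => br (exall (exsep x) r) ih false) l

/-- the box is contained in the container, squares have the right sides -/
def exbox (Q W0 W1 H0 H1 : Nat) (u : Bx) : Bool :=
  Bx.rec (motive := fun _ => Bool) (fun m _ x0 x1 y0 y1 a0 a1 b0 b1 =>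
    br (exle x0 x1 a0 a1 W0 W1)
      (br (exle y0 y1 b0 b1 H0 H1)
        (br (Nat.beq m 0) true
          (br (Nat.beq (Nat.mul m a0) Q) (br (Nat.beq (Nat.mul m a1) Q)
            (br (Nat.beq (Nat.mul m b0) Q) (Nat.beq (Nat.mul m b1) Q) false) false) false)) false) false) u

/-- sum of products -/
def exsum (f : Bx → Nat) (l : List Bx) : Nat :=
  List.rec (motive := fun _ => Nat) 0 (fun x _ ih => Nat.add (f x) ih) l

/-- the area identity -/
def exarea (W0 W1 H0 H1 : Nat) (l : List Bx) : Bool :=
  br (Nat.beq (exsum (fun u => Nat.mul u.a0 u.b0) l) (Nat.mul W0 H0))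
    (br (Nat.beq (exsum (fun u => Nat.mul u.a1 u.b1) l) (Nat.mul W1 H1))
      (Nat.beq (exsum (fun u => Nat.add (Nat.mul u.a0 u.b1) (Nat.mul u.a1 u.b0)) l)
        (Nat.add (Nat.mul W0 H1) (Nat.mul W1 H0))) false) false

/-- the squares of the list are `k, k + 1, ..., m1 - 1` in this order -/
def exseq (m1 : Nat) (l : List Bx) : Nat → Bool :=
  List.rec (motive := fun _ => Nat → Bool) (fun k => Nat.beq k m1)
    (fun u _ ih k => br (Nat.beq u.m 0) (ih k) (br (Nat.beq u.m k) (ih (Nat.succ k)) false)) l

/-- `x / Q` is approximated by `w`, unit `2 ^ (-112)` -/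
def exapp (Q e w x0 x1 : Nat) : Bool :=
  br (Nat.ble (Nat.mul w Q) (Nat.mul 5192296858534827628530496329220096 x0))
    (br (Nat.ble (Nat.mul w Q) (Nat.mul 5192296858534827628530496329220096 x1))
      (br (Nat.ble (Nat.mul 5192296858534827628530496329220096 x0) (Nat.mul (Nat.add w e) Q))
        (Nat.ble (Nat.mul 5192296858534827628530496329220096 x1) (Nat.mul (Nat.add w e) Q)) false) false) false

/-- the rectangles of the list are approximated by the entries `L` -/
def exrel (Q e : Nat) (l : List Bx) : List Nat → Bool :=
  List.rec (motive := fun _ => List Nat → Bool)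
    (fun L => List.rec (motive := fun _ => Bool) true (fun _ _ _ => false) L)
    (fun u _ ih L => br (Nat.beq u.m 0)
      (List.rec (motive := fun _ => Bool) false (fun x L' _ =>
        br (br (Nat.beq u.f 0)
            (br (exapp Q e (Nat.shiftRight x 128) u.a0 u.a1)
              (exapp Q e (Nat.land x 340282366920938463463374607431768211455) u.b0 u.b1) false)
            (br (exapp Q e (Nat.shiftRight x 128) u.b0 u.b1)
              (exapp Q e (Nat.land x 340282366920938463463374607431768211455) u.a0 u.a1) false))
          (ih L') false) L)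
      (ih L)) l

/-- `a b = π ^ 2 / 6 - 1` -/
def excon (Q W H0 H1 : Nat) : Bool :=
  br (Nat.ble 1 Q)
    (br (Nat.beq (Nat.mul (Nat.mul W H0) 5818642378725141617260931652984484893360966)
        (Nat.mul (Nat.mul Q Q) 3752640692846643769659312440510963204446624))
      (Nat.beq (Nat.mul (Nat.mul W H1) 5818642378725141617260931652984484893360966)
        (Nat.mul (Nat.mul Q Q) 3752640692846643769659312440510963204446625)) false) false

/-- all checks; container `W / Q` times `((1 - t) * H0 + t * H1) / Q` -/
def exck (Q W H0 H1 m1 e : Nat) (l : List Bx) (L : List Nat) : Bool :=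
  br (excon Q W H0 H1)
    (br (exall (exbox Q W W H0 H1) l)
      (br (exarea W W H0 H1 l)
        (br (exseq m1 l 2)
          (br (exrel Q e l L) (expairs l) false) false) false) false) false

end

end Pool.Agent.Moser.Ck
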